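import Pool.Agent.P.MP_41a2b4_ag.Loc

set_option autoImplicit false
set_option linter.unreachableTactic false
set_option linter.unusedTactic false

namespace Pool.Agent.P.MP_41a2b4_ag

open Finset

namespace P2

/-- Divisibility inside a subring can be checked in quotients of characteristic `p`. -/
theorem dvd_of_quot (p : ℕ) [Fact p.Prime] {L : Type} [CommRing L] [CharP L p] (V : Subring L)
    (d x : V) (h : ∀ (S : Type) [CommRing S] [CharP S p] (f : V →+* S), f d = 0 → f x = 0) :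
    ∃ y ∈ V, (x : L) = d * y := by
  have key : Ideal.Quotient.mk (Ideal.span {d}) x = 0 := by
    rcases subsingleton_or_nontrivial (V ⧸ Ideal.span {d}) with hs | hs
    · exact Subsingleton.elim _ _
    · have : CharP (V ⧸ Ideal.span {d}) p := (CharP.charP_iff_prime_eq_zero Fact.out).2 (by
        rw [← map_natCast (Ideal.Quotient.mk (Ideal.span {d})), CharP.cast_eq_zero, map_zero])
      exact h _ _ (Ideal.Quotient.eq_zero_iff_mem.2 (Ideal.mem_span_singleton_self d))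
  obtain ⟨y, hy⟩ := Ideal.mem_span_singleton.1 (Ideal.Quotient.eq_zero_iff_mem.1 key)
  exact ⟨y, y.2, by simpa using congrArg Subtype.val hy⟩

theorem pred_pow {S : Type} [CommRing S] {x y : S} (h : x * y = 1) {k : ℕ} (hk : k ≠ 0) :
    y ^ (k - 1) = y ^ k * x := by
  obtain ⟨m, rfl⟩ := Nat.exists_eq_succ_of_ne_zero hk
  rw [Nat.succ_sub_one, pow_succ]
  linear_combination (-y ^ m) * h

theorem pow_pow_eq_add_sum (p : ℕ) [Fact p.Prime] {S : Type} [CommRing S] [CharP S p] {x a : S}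
    (h : x ^ p = x + a) (k : ℕ) : x ^ p ^ k = x + ∑ i ∈ range k, a ^ p ^ i := by
  induction k with
  | zero => simp
  | succ k ih => rw [pow_succ', pow_mul, h, add_pow_char_pow, ih, sum_range_succ, add_assoc]

theorem step2_quot (p n : ℕ) [Fact p.Prime] {S : Type} [CommRing S] [CharP S p]
    (γ ϖ ϖi T hi W₁ : S) (eϖ : ϖ * ϖi = 1) (eh : hh p γ ϖ T * hi = 1)
    (r₁ : W₁ ^ p - (hh p γ ϖ T ^ p ^ n) ^ (p - 1) * W₁ = T) (hT : (T ^ p ^ n) ^ p = 0) :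
    -W₁ + (eta2 p n γ ϖ ϖi T W₁ ^ p - (T ^ p ^ n) ^ (p - 1) * eta2 p n γ ϖ ϖi T W₁)
      - pol2 p n γ ϖ ϖi T = 0 := by
  have hp := (Fact.out : p.Prime)
  obtain ⟨m, hm⟩ : ∃ m, p = m + 2 := ⟨p - 2, by have := hp.two_le; omega⟩
  have hT' : T ^ p ^ (n + 1) = 0 := by rw [pow_succ, pow_mul, hT]
  obtain ⟨H, hH⟩ : ∃ H, H = hh p γ ϖ T := ⟨_, rfl⟩
  have hH1 : H * ϖi ^ p = 1 + T * (ϖi ^ p * (γ ^ p * T ^ (m + 1) - T ^ m * (γ * T + ϖ))) := by
    have e : ϖ ^ p * ϖi ^ p = 1 := by rw [← mul_pow, eϖ, one_pow]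
    have e1 : T ^ p = T ^ (m + 2) := by rw [← hm]
    rw [hH, hh, add_pow_char, mul_pow, show p - 1 = m + 1 by omega, e1]
    linear_combination e
  have hH2 : (H ^ p ^ n * ϖi ^ p ^ (n + 1)) ^ p ^ (n + 1) = 1 := by
    rw [pow_succ' p n, pow_mul ϖi, ← mul_pow, ← pow_mul, mul_comm (p ^ n), pow_mul, hH1,
      ← pow_succ', add_pow_char_pow, mul_pow, hT']
    simp
  have eh' : hi ^ p ^ n * H ^ p ^ n = 1 := by rw [← mul_pow, mul_comm, hH, eh, one_pow]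
  have hH3 : (H ^ p ^ n) ^ (p ^ (n + 1) - 1) * (ϖi ^ p ^ (n + 1)) ^ p ^ (n + 1) = hi ^ p ^ n := by
    rw [pred_pow eh' (pow_ne_zero _ hp.ne_zero), mul_right_comm, ← mul_pow, hH2, one_mul]
  have hH4 : H ^ p ^ n = ((γ * T + ϖ) ^ p ^ n) ^ p - (T ^ p ^ n) ^ (p - 1) * (γ * T + ϖ) ^ p ^ n := by
    rw [hH, hh, sub_pow_char_pow, mul_pow, pow_right_comm _ p, pow_right_comm _ (p - 1)]
  rw [← hH] at r₁
  rw [eta2, pol2, ← hH, hH3]
  generalize H ^ p ^ n = h at *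
  generalize hi ^ p ^ n = g at *
  have hx : (W₁ * g) ^ p = W₁ * g + T * g ^ p := by
    have e : g ^ p * h ^ p = 1 := by rw [← mul_pow, eh', one_pow]
    rw [pred_pow eh' hp.ne_zero] at r₁
    rw [mul_pow]
    linear_combination g ^ p * r₁ + g * W₁ * e
  have ha : (T * g ^ p) ^ p ^ (n + 1) = 0 := by rw [mul_pow, hT', zero_mul]
  have hι : (W₁ * ϖi ^ p ^ (n + 1)) ^ p ^ (n + 2) = (W₁ * g) ^ p ^ (n + 2) := by
    have : W₁ * ϖi ^ p ^ (n + 1) = W₁ * g * (h * ϖi ^ p ^ (n + 1)) := by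
      linear_combination (-W₁ * ϖi ^ p ^ (n + 1)) * eh'
    rw [this, mul_pow (W₁ * g), pow_succ p (n + 1), pow_mul (h * _), hH2, one_pow, mul_one]
  have h1 : (W₁ * g) ^ p ^ (n + 2) = W₁ * g + ∑ i ∈ range (n + 1), (T * g ^ p) ^ p ^ i := by
    rw [pow_pow_eq_add_sum p hx, sum_range_succ, ha, add_zero]
  have h2 : ((W₁ * g) ^ p ^ (n + 2)) ^ p = (W₁ * g) ^ p ^ (n + 2) := by
    rw [pow_right_comm, hx, add_pow_char_pow, pow_succ p (n + 1), pow_mul (T * _), ha,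
      zero_pow hp.ne_zero, add_zero]
  rw [hι, mul_pow, h2, h1]
  linear_combination (-(W₁ * g + ∑ i ∈ range (n + 1), (T * g ^ p) ^ p ^ i)) * hH4 + W₁ * eh'

end P2

open P2 in
/-- TASK P2. -/
theorem charP_step2 (p n : ℕ) [Fact p.Prime] {L : Type} [CommRing L] [CharP L p] (U : Subring L)
    (γ ϖ ϖi T Ti hi W₁ : L) (hγ : γ ∈ U) (hϖ : ϖ ∈ U) (hϖi : ϖi ∈ U) (hT : T ∈ U) (hW₁ : W₁ ∈ U)
    (eϖ : ϖ * ϖi = 1) (eT : T * Ti = 1) (eh : hh p γ ϖ T * hi = 1)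
    (r₁ : W₁ ^ p - (hh p γ ϖ T ^ p ^ n) ^ (p - 1) * W₁ = T) :
    ∃ φ ∈ U, φ * (T ^ p ^ n) ^ p + pol2 p n γ ϖ ϖi T =
      -W₁ + (eta2 p n γ ϖ ϖi T W₁ ^ p - (T ^ p ^ n) ^ (p - 1) * eta2 p n γ ϖ ϖi T W₁) := by
  let V := Loc U hi
  let γ' : V := ⟨γ, Loc.base hγ⟩
  let ϖ' : V := ⟨ϖ, Loc.base hϖ⟩
  let ϖi' : V := ⟨ϖi, Loc.base hϖi⟩
  let T' : V := ⟨T, Loc.base hT⟩
  let W' : V := ⟨W₁, Loc.base hW₁⟩
  let hi' : V := ⟨hi, Loc.inv U hi⟩
  have e0 : ((hh p γ' ϖ' T' : V) : L) = hh p γ ϖ T := map_hh V.subtype p γ' ϖ' T'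
  have e1 : ϖ' * ϖi' = 1 := Subtype.ext eϖ
  have e2 : hh p γ' ϖ' T' * hi' = 1 := Subtype.ext (by push_cast; rw [e0]; exact eh)
  have e3 : W' ^ p - (hh p γ' ϖ' T' ^ p ^ n) ^ (p - 1) * W' = T' :=
    Subtype.ext (by push_cast; rw [e0]; exact r₁)
  obtain ⟨y, hy, e⟩ := dvd_of_quot p V ((T' ^ p ^ n) ^ p) (-W' + (eta2 p n γ' ϖ' ϖi' T' W' ^ p -
      (T' ^ p ^ n) ^ (p - 1) * eta2 p n γ' ϖ' ϖi' T' W') - pol2 p n γ' ϖ' ϖi' T') (by
    intro S _ _ f hf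
    have := step2_quot p n (f γ') (f ϖ') (f ϖi') (f T') (f hi') (f W')
      (by rw [← map_mul, e1, map_one]) (by rw [← map_hh, ← map_mul, e2, map_one])
      (by simpa [map_hh] using congrArg f e3) (by simpa using hf)
    simpa [map_eta2, map_pol2] using this)
  have e4 : ((eta2 p n γ' ϖ' ϖi' T' W' : V) : L) = eta2 p n γ ϖ ϖi T W₁ :=
    map_eta2 V.subtype p n γ' ϖ' ϖi' T' W'
  have e5 : ((pol2 p n γ' ϖ' ϖi' T' : V) : L) = pol2 p n γ ϖ ϖi T :=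
    map_pol2 V.subtype p n γ' ϖ' ϖi' T'
  push_cast at e
  rw [e4, e5] at e
  have hH : hh p γ ϖ T ∈ U := by
    unfold hh
    repeat' first | assumption | apply mul_mem | apply pow_mem | apply add_mem | apply sub_mem | apply neg_mem
  refine ⟨y, Loc.inter hT hH eT eh (cop_T_hh p hγ hϖ hϖi hT eϖ) ?_ hy, by linear_combination -e⟩
  have e6 : (T ^ p ^ n) ^ p * (Ti ^ p ^ n) ^ p = 1 := by
    rw [← mul_pow, ← mul_pow, eT, one_pow, one_pow]
  have e7 : y = (-W₁ + (eta2 p n γ ϖ ϖi T W₁ ^ p - (T ^ p ^ n) ^ (p - 1) * eta2 p n γ ϖ ϖi T W₁)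
      - pol2 p n γ ϖ ϖi T) * (Ti ^ p ^ n) ^ p := by
    rw [e]; linear_combination (-y) * e6
  rw [e7]
  refine (Loc U Ti).mul_mem (Loc.base ?_) (pow_mem (pow_mem (Loc.inv U Ti) _) _)
  have h1 : eta2 p n γ ϖ ϖi T W₁ ∈ U := by
    unfold eta2
    repeat' first | assumption | apply mul_mem | apply pow_mem | apply add_mem | apply sub_mem | apply neg_mem
  have h2 : pol2 p n γ ϖ ϖi T ∈ U := by
    unfold pol2
    exact mul_mem (pow_mem hH _) (sum_mem fun i _ => by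
      repeat' first | assumption | apply mul_mem | apply pow_mem | apply add_mem | apply sub_mem | apply neg_mem)
  repeat' first | assumption | apply mul_mem | apply pow_mem | apply add_mem | apply sub_mem | apply neg_mem

end Pool.Agent.P.MP_41a2b4_ag
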