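import Pool.Agent.P.MP_41a2b4_ag.Fam
import Pool.Agent.P.MP_41a2b4_ag.CharP2

set_option autoImplicit false
set_option linter.unusedSectionVars false

namespace Pool.Agent.P.MP_41a2b4_ag

open PowerSeries IsLocalRing Filter

theorem hh_mem {L : Type*} [CommRing L] (U : Subring L) (p : ℕ) {γ ϖ T : L} (hγ : γ ∈ U)
    (hϖ : ϖ ∈ U) (hT : T ∈ U) : hh p γ ϖ T ∈ U :=
  U.sub_mem (U.pow_mem (U.add_mem (U.mul_mem hγ hT) hϖ) _)
    (U.mul_mem (U.pow_mem hT _) (U.add_mem (U.mul_mem hγ hT) hϖ))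

theorem eta2_mem {L : Type*} [CommRing L] (U : Subring L) (p n : ℕ) {γ ϖ ϖi T W : L} (hγ : γ ∈ U)
    (hϖ : ϖ ∈ U) (hϖi : ϖi ∈ U) (hT : T ∈ U) (hW : W ∈ U) : eta2 p n γ ϖ ϖi T W ∈ U :=
  U.mul_mem (U.pow_mem (U.add_mem (U.mul_mem hγ hT) hϖ) _)
    (U.pow_mem (U.mul_mem hW (U.pow_mem hϖi _)) _)

theorem pol2_mem {L : Type*} [CommRing L] (U : Subring L) (p n : ℕ) {γ ϖ ϖi T : L} (hγ : γ ∈ U)
    (hϖ : ϖ ∈ U) (hϖi : ϖi ∈ U) (hT : T ∈ U) : pol2 p n γ ϖ ϖi T ∈ U :=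
  U.mul_mem (U.pow_mem (hh_mem U p hγ hϖ hT) _) (U.sum_mem fun _ _ => U.pow_mem (U.mul_mem hT
    (U.pow_mem (U.mul_mem (U.pow_mem (U.pow_mem (hh_mem U p hγ hϖ hT) _) _)
      (U.pow_mem (U.pow_mem hϖi _) _)) _)) _)

theorem hh_zero {L : Type*} [CommRing L] {p : ℕ} (hp : p ≠ 0) (γ T : L) :
    hh p γ 0 T = (γ ^ p - γ) * T ^ p := by
  rw [hh, add_zero, mul_pow, ← pow_sub_one_mul hp T]
  ring

theorem neg_pow_p {L : Type*} [CommRing L] (p : ℕ) [Fact p.Prime] [CharP L p] (a : L) :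
    (-a) ^ p = -a ^ p := by
  simpa [(Fact.out : p.Prime).ne_zero] using sub_pow_char (p := p) 0 a

theorem choose_eventually {β : ℕ → Type} [∀ N, Nonempty (β N)] {P : ∀ N, β N → Prop}
    (h : ∀ᶠ N in atTop, ∃ b, P N b) : ∃ f : ∀ N, β N, ∀ᶠ N in atTop, P N (f N) :=
  ⟨fun N => Classical.epsilon (P N), h.mono fun _ hN => Classical.epsilon_spec hN⟩

/-- The data of the first two steps of the tower. -/
structure Tw (R : Type) [CommRing R] where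
  T : R⟦X⟧
  W : R⟦X⟧
  H : R⟦X⟧
  G : R⟦X⟧
  u : R⟦X⟧
  σ : R⟦X⟧ ≃ₐ[R] R⟦X⟧
  τ : R⟦X⟧ ≃ₐ[R] R⟦X⟧

instance (R : Type) [CommRing R] : Nonempty (Tw R) := ⟨⟨0, 0, 0, 0, 0, 1, 1⟩⟩

section One

variable {p : ℕ} [Fact p.Prime] {k : Type} [Field k] [CharP k p] {R : Type} [CommRing R]
  [IsDomain R] [IsDiscreteValuationRing R] [IsAdicComplete (maximalIdeal R) R] (x : Ctx p k R)
  (n : ℕ) (γ ϖ : R)

/-- The properties of the first two steps of the tower. -/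
structure Tw.Ok (t : Tw R) (φ : Kf R) : Prop where
  comm : t.σ * t.τ = t.τ * t.σ
  σp : t.σ ^ p = 1
  τp : t.τ ^ p = 1
  σT : t.σ t.T = t.T
  τT : t.τ t.T = t.T
  rel1 : x.ΦA (hh p (C γ) (C ϖ) t.T ^ p ^ n) t.W = t.T
  σW : t.σ t.W = C (1 + x.l) * t.W + hh p (C γ) (C ϖ) t.T ^ p ^ n
  τW : t.τ t.W = t.W
  T0 : x.red t.T ≠ 0
  rel2 : t.G = x.ΦA t.H X
  redH : x.red t.H = x.red t.T ^ p ^ n
  redG : x.red t.G = -x.red t.W
  σX : x.red (t.σ X) = X - (C (x.π γ) * x.red t.T) ^ p ^ n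
  τX : t.τ X = C (1 + x.l) * X + t.H
  σy : t.σ (t.H + C x.l * X) = t.u * (t.H + C x.l * X)
  τy : t.τ (t.H + C x.l * X) = C (1 + x.l) * (t.H + C x.l * X)
  hu : IsUnit t.u
  eH : al t.H = al t.T ^ p ^ n +
    al (C x.l) * eta2 p n (al (C γ)) (al (C ϖ)) (al (C ϖ))⁻¹ (al t.T) (al t.W)
  eF : al (t.H + C x.l * X) ^ p = (1 + al (C x.l) ^ p * φ) * ((al t.T ^ p ^ n) ^ p +
    al (C x.l) ^ p * pol2 p n (al (C γ)) (al (C ϖ)) (al (C ϖ))⁻¹ (al t.T))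

namespace Ctx

variable {γ ϖ}

theorem red_hh (hϖ : x.π ϖ = 0) (T : R⟦X⟧) :
    x.red (hh p (C γ) (C ϖ) T) = C (x.π (γ ^ p - γ)) * x.red T ^ p := by
  rw [map_hh, map_C, map_C, hϖ, map_zero, hh_zero (Fact.out : p.Prime).ne_zero]
  simp

theorem step1 (hϖ : x.π ϖ = 0) (hγ : x.π (γ ^ p - γ) ≠ 0) :
    ∃ (T : R⟦X⟧) (σ : R⟦X⟧ ≃ₐ[R] R⟦X⟧), x.ΦA (hh p (C γ) (C ϖ) T ^ p ^ n) X = T ∧ σ T = T ∧
      σ X = C (1 + x.l) * X + hh p (C γ) (C ϖ) T ^ p ^ n ∧ σ ^ p = 1 ∧ x.red T ≠ 0 := by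
  have hp := (Fact.out : p.Prime)
  have h : x.NF (hh p (C γ) (C ϖ) X ^ p ^ n) X := ⟨by simp, by simp, by
    rw [map_pow, red_hh x hϖ]
    simp [hp.ne_zero], by
    rw [map_pow, red_hh x hϖ, map_X]
    exact pow_ne_zero _ (mul_ne_zero (C_ne_zero hγ) (pow_ne_zero _ X_ne_zero))⟩
  obtain ⟨ι, hι⟩ := h.exists
  obtain ⟨z, hz, hzp, hzX⟩ := h.exists_zeta hι
  have h0 := h.red_ne_zero hι (d := X) (by simp [X_ne_zero])
  rw [map_pow, map_hh, algHom_C, algHom_C] at hι hzX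
  exact ⟨ι X, z, hι.symm, hz.1 X, hzX, hzp, h0⟩

theorem NF.injective {H G : R⟦X⟧} (h : x.NF H G) {ι : R⟦X⟧ →ₐ[R] R⟦X⟧} (hι : ι G = x.ΦA (ι H) X) :
    Function.Injective ι := by
  refine (injective_iff_map_eq_zero ι).2 fun f hf => by_contra fun hf0 => ?_
  obtain ⟨ϖ, hϖ⟩ := IsDiscreteValuationRing.exists_irreducible R
  obtain ⟨i, a, ha, rfl⟩ := WfDvdMonoid.max_power_factor' hf0 (x.prime_C hϖ).not_isUnit
  rw [← x.red_eq_zero hϖ] at ha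
  rw [map_mul, map_pow, algHom_C] at hf
  exact h.red_ne_zero hι ha (by
    rw [(mul_eq_zero.1 hf).resolve_left (pow_ne_zero _ (C_ne_zero hϖ.ne_zero)), map_zero])

theorem hpK : (p : Kf R) = -al (C x.c) * al (C x.l) ^ (p - 1) := by
  rw [← map_natCast (al (S := R)), x.hpA]
  simp

theorem step2 (hϖ : x.π ϖ = 0) {T : R⟦X⟧} {σ : R⟦X⟧ ≃ₐ[R] R⟦X⟧}
    (r₁ : x.ΦA (hh p (C γ) (C ϖ) T ^ p ^ n) X = T) (σT : σ T = T)
    (σX : σ X = C (1 + x.l) * X + hh p (C γ) (C ϖ) T ^ p ^ n) (σp : σ ^ p = 1) (T0 : x.red T ≠ 0)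
    {φ η P : Kf R} (hη : η = eta2 p n (al (C γ)) (al (C ϖ)) (al (C ϖ))⁻¹ (al T) (al X))
    (hP : P = pol2 p n (al (C γ)) (al (C ϖ)) (al (C ϖ))⁻¹ (al T)) {a₁ a₂ a₃ a : R⟦X⟧}
    (e₁ : al a₁ = al (C x.l) * φ) (e₂ : al a₂ = al (C x.l) * P) (h₂ : σ a₂ = a₂)
    (e₃ : al a₃ = al (C x.l) * η) (h₃ : x.red a₃ = 0) (h : x.red a = 0)
    (e : al a = φ * (al T ^ p ^ n) ^ p + P + al (C x.l) ^ p * φ * P -
      Phi p (al (C x.l)) (al (C x.c)) (al T ^ p ^ n) η + al X) :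
    ∃ (t : Tw R) (φ' : Kf R), t.Ok x n γ ϖ φ' ∧
      (∀ (c : ℕ) b, al b = al (C ϖ) ^ c * φ → ∃ b', al b' = al (C ϖ) ^ c * φ') ∧
      ∀ c : ℕ, C ϖ ^ c ∣ a → C ϖ ^ c ∣ t.G + t.W := by
  have hp := (Fact.out : p.Prime)
  have hp1 : p - 1 ≠ 0 := by have := hp.two_le; omega
  have eH : x.red (T ^ p ^ n + a₃) = x.red T ^ p ^ n := by rw [map_add, h₃, add_zero, map_pow]
  have eG : x.red (a - X) = -X := by rw [map_sub, h, map_X, zero_sub]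
  have eT : constantCoeff (x.red T) = 0 := by
    rw [← r₁, red_ΦA]
    simp [hp.ne_zero]
  have hN : x.NF (T ^ p ^ n + a₃) (a - X) := ⟨by simp [eG], by simp [eG], by
    simp [eH, eT, hp.ne_zero], by rw [eH]; exact pow_ne_zero _ T0⟩
  have eK : al ((T ^ p ^ n + a₃) ^ p + C x.l ^ p * (a - X)) =
      (1 + al (C x.l) ^ p * φ) * ((al T ^ p ^ n) ^ p + al (C x.l) ^ p * P) := by
    simp only [map_add, map_mul, map_pow, map_sub, e₃, e, add_mul_pow_eq hp x.hpK]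
    ring
  have eF : (T ^ p ^ n + a₃) ^ p + C x.l ^ p * (a - X) =
      (1 + C x.l ^ (p - 1) * a₁) * ((T ^ p ^ n) ^ p + C x.l ^ (p - 1) * a₂) := al_inj (by
    simp only [eK, map_add, map_mul, map_pow, map_one, e₁, e₂, ← mul_assoc, ← pow_succ,
      Nat.sub_add_cancel hp.one_le])
  obtain ⟨v, hv⟩ := (x.isUnit_of_red (f := 1 + C x.l ^ (p - 1) * a₁) (by
    simp [x.hl, hp1])).exists_left_inv
  have hV : IsUnit (σ (1 + C x.l ^ (p - 1) * a₁) * v) :=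
    ((IsUnit.of_mul_eq_one_right _ hv).map σ).mul (IsUnit.of_mul_eq_one _ hv)
  have eV : σ ((T ^ p ^ n + a₃) ^ p + C x.l ^ p * (a - X)) = σ (1 + C x.l ^ (p - 1) * a₁) * v *
      ((T ^ p ^ n + a₃) ^ p + C x.l ^ p * (a - X)) := by
    rw [eF, map_mul, map_add σ (_ ^ p), map_mul, map_pow, map_pow, map_pow, algHom_C, σT, h₂]
    linear_combination (-σ (1 + C x.l ^ (p - 1) * a₁) * ((T ^ p ^ n) ^ p + C x.l ^ (p - 1) * a₂)) * hv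
  have t0 : x.ρ T ≠ 0 := fun h => T0 (x.ρ_eq_zero.1 h)
  have ρH : x.ρ (T ^ p ^ n + a₃) = x.ρ T ^ p ^ n := by rw [← map_pow, ρ_eq_iff, eH, map_pow]
  have ρσH : x.ρ (σ (T ^ p ^ n + a₃)) = x.ρ T ^ p ^ n := by rw [← smul_ρ, ρH, smul_pow', smul_ρ, σT]
  have hΘ : residue _ (x.toO (T ^ p ^ n + a₃)) ≠ 0 := by
    rw [← ρ_apply, ρH]
    exact pow_ne_zero _ t0
  obtain ⟨u, hu, eu, hc⟩ := Coc.exists (g := σ) (F := (T ^ p ^ n + a₃) ^ p + C x.l ^ p * (a - X))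
    (Θ := x.toO (T ^ p ^ n + a₃)) (Q := x.toO (a - X)) (q := -x.ρ X / (x.ρ T ^ p ^ n) ^ p)
    (ψ := -x.ρ (C γ) ^ p ^ n) (by simp) hΘ (by
      rw [← ρ_apply, ← ρ_apply, ρH, div_mul_cancel₀ _ (pow_ne_zero _ (pow_ne_zero _ t0)), ← map_neg,
        ρ_eq_iff, eG, map_neg, map_X]) hV eV (by
      rw [smul_div₀', smul_neg, smul_pow', smul_pow', smul_ρ, smul_ρ, σT, σX, map_add, map_mul,
        map_pow, map_hh, x.ρ_C hϖ, hh_zero hp.ne_zero, map_add, map_add, ρ_l, map_one, map_one,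
        mul_pow, sub_pow_char_pow, neg_pow_p, ← pow_mul _ p, ← pow_mul _ p, mul_comm p, pow_mul,
        pow_mul]
      field_simp
      ring)
  rw [← eu] at eV
  obtain ⟨ι, hι⟩ := hN.exists
  obtain ⟨z, hz, hzp, hzX⟩ := hN.exists_zeta hι
  obtain ⟨s, hs⟩ := hN.exists_ext hι hu eV
  obtain ⟨d, hd⟩ := exists_sub_eq eV
  have hF0 : (T ^ p ^ n + a₃) ^ p + C x.l ^ p * (a - X) ≠ 0 := fun h0 => T0 (by
    have := congrArg x.red h0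
    simpa [x.hl, hp.ne_zero, h₃] using this)
  have hnorm := hc.norm hF0 hΘ eV σp (α := 0) (by simp [smul_ρ, algHom_C])
  obtain ⟨r, hr, er⟩ := hc
  rw [smul_toO] at er
  have ρu : x.red u = x.red 1 := by
    have := congrArg (residue _) er
    simp only [map_mul, map_add (residue _), ρ_l, ← ρ_apply, ρH, ρσH, map_one] at this
    rw [← ρ_eq_iff, map_one]
    exact mul_right_cancel₀ (pow_ne_zero _ t0) (by rw [this]; ring)
  have ρd : x.red d = x.red (-(C γ * T) ^ p ^ n) := by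
    have h1 : x.toO d = x.toO (σ (T ^ p ^ n + a₃)) * r := mul_left_cancel₀ x.L_ne_zero (by
      have := congrArg x.toO hd
      rw [map_sub, map_mul, map_mul] at this
      linear_combination er - this)
    rw [← ρ_eq_iff, ρ_apply, h1, map_mul, hr, ← ρ_apply, ρσH]
    simp only [map_neg, map_pow, map_mul]
    ring
  let j : Kf R →+* Kf R := IsFractionRing.lift (A := R⟦X⟧) (g := al.comp (ι : R⟦X⟧ →+* R⟦X⟧))
    (al_inj.comp (hN.injective x hι))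
  have hj : ∀ b, j (al b) = al (ι b) := fun b => IsFractionRing.lift_algebraMap _ b
  have hjC : ∀ b, j (al (C b)) = al (C b) := fun b => by rw [hj, algHom_C]
  refine ⟨⟨ι T, ι X, ι (T ^ p ^ n + a₃), ι (a - X), ι u, s, z⟩, j φ, ⟨hz.central hs,
    by simpa using hz.pow_eq hs σp hnorm, hzp, by simpa [σT] using hs.1 T, hz.1 T, ?_, ?_, hz.1 X,
    hN.red_ne_zero hι T0, hι, ?_, ?_, ?_, hzX, hs.2, ?_, hu.map ι, ?_, ?_⟩, fun c b hb => ⟨ι b, ?_⟩,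
    fun c hc => ?_⟩
  · simpa only [map_Phi, map_pow, map_hh, algHom_C] using congrArg ι r₁
  · have : s (ι X) = ι (σ X) := hs.1 X
    simpa only [σX, map_add ι, map_mul, map_pow, map_hh, algHom_C] using this
  · simpa only [map_pow] using x.red_algHom_congr ι (eH.trans (map_pow _ _ _).symm)
  · simpa only [map_neg] using x.red_algHom_congr ι (f := a - X) (g := -X) (by simp [eG])
  · have : s X = ι u * X + ι d := hs.apply_X hd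
    simp only [this, map_add, map_mul, x.red_algHom_congr ι ρu, x.red_algHom_congr ι ρd]
    simp [algHom_C, sub_eq_add_neg]
  · have := hz.2
    rw [algHom_C] at this
    exact this
  · have := congrArg j e₃
    rw [hj, map_mul, hη, map_eta2, map_inv₀, hjC, hjC, hjC, hj, hj] at this
    simp only [map_add, map_pow, this]
  · have := congrArg j eK
    rw [hj, map_add ι, map_mul ι, map_pow ι, map_pow ι, algHom_C, hι, ← powA, map_pow, hP] at this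
    simpa only [map_mul, map_add, map_pow, map_one, hjC, hj, map_pol2, map_inv₀] using this
  · rw [← hj, hb, map_mul, map_pow, hjC]
  · simpa [algHom_C] using map_dvd ι hc

end Ctx

end One

variable {p : ℕ} [Fact p.Prime] {k : Type} [Field k] [CharP k p]
  {R : ℕ → Type} [∀ N, CommRing (R N)] [∀ N, IsDomain (R N)] [∀ N, IsDiscreteValuationRing (R N)]
  [∀ N, IsAdicComplete (maximalIdeal (R N)) (R N)] (f : Fm p k R)

/-- The subalgebra fixed by an automorphism. -/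
noncomputable def fixed {S : Type} [CommRing S] (σ : S⟦X⟧ ≃ₐ[S] S⟦X⟧) : Subalgebra S S⟦X⟧ :=
  AlgHom.equalizer (σ : S⟦X⟧ →ₐ[S] S⟦X⟧) (AlgHom.id _ _)

theorem Fm.ofA_hh (γ : ∀ N, R N) (T : ∀ N, (R N)⟦X⟧) :
    f.ofA (fun N => hh p (C (γ N)) (C (f.ϖ N)) (T N)) = hh p (f.ofR γ) (f.ofR f.ϖ) (f.ofA T) := by
  rw [f.ofR_eq, f.ofR_eq, ← map_hh]
  congr 1

theorem Fm.red_hh_ne_zero {γ : ∀ N, R N} (hγ : ∀ N, (f.x N).π (γ N ^ p - γ N) ≠ 0)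
    {T : ∀ N, (R N)⟦X⟧} (hT : ∀ᶠ N in atTop, (f.x N).red (T N) ≠ 0) :
    ∀ᶠ N in atTop, (f.x N).red (hh p (C (γ N)) (C (f.ϖ N)) (T N)) ≠ 0 := hT.mono fun N hN => by
  rw [(f.x N).red_hh (f.hϖ N)]
  exact mul_ne_zero (C_ne_zero (hγ N)) (pow_ne_zero _ hN)

theorem Fm.cls_rel {H W G : ∀ N, (R N)⟦X⟧} (h : ∀ᶠ N in atTop, (f.x N).ΦA (H N) (W N) = G N) :
    f.cls (f.ofA W) ^ p - f.cls (f.ofA H) ^ (p - 1) * f.cls (f.ofA W) = f.cls (f.ofA G) := by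
  rw [← f.cls_Phi]
  refine f.cls_congr (h.mono fun N hN => ?_)
  rw [← f.ev_apply, ← f.ev_apply, map_Phi, f.ev_ofA, f.ev_ofA, f.ev_ofA, ← hN, map_Phi]
  rfl

theorem Fm.exists_tower (n : ℕ) {γ : ∀ N, R N} (hγ : ∀ N, (f.x N).π (γ N ^ p - γ N) ≠ 0) :
    ∃ t : ∀ N, Tw (R N), ∃ φ ∈ f.BS fun _ => ⊤,
      (∀ᶠ N in atTop, (t N).Ok (f.x N) n (γ N) (f.ϖ N) (f.ev N φ)) ∧
      f.cls (f.ofA fun N => (t N).G) = -f.cls (f.ofA fun N => (t N).W) := by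
  have hp := (Fact.out : p.Prime)
  choose T σ r₁ σT σX σp T0 using fun N => (f.x N).step1 n (f.hϖ N) (hγ N)
  have T0' := Eventually.of_forall (f := atTop) T0
  have hA : ∀ a, f.ofA a ∈ f.BS fun _ => ⊤ := fun a =>
    Fm.BS.ofA (Eventually.of_forall fun _ => Algebra.mem_top)
  have r := f.cls_rel (Eventually.of_forall r₁)
  have e0 := f.cls_mul_inv _ (f.red_hh_ne_zero hγ T0')
  rw [f.ofA_hh, map_hh] at e0
  rw [show (fun N => hh p (C (γ N)) (C (f.ϖ N)) (T N) ^ p ^ n) =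
    (fun N => hh p (C (γ N)) (C (f.ϖ N)) (T N)) ^ p ^ n from rfl, map_pow, f.ofA_hh, map_pow,
    map_hh] at r
  obtain ⟨_, ⟨φ, hφ, rfl⟩, e⟩ := charP_step2 p n (f.U fun _ => ⊤) _ _ (f.cls f.ϖi) _ _ _ _
    (Fm.U.mk (Fm.BS.ofR γ)) (Fm.U.mk (Fm.BS.ofR f.ϖ)) (Fm.U.mk Fm.BS.ϖi) (Fm.U.mk (hA T))
    (Fm.U.mk (hA fun _ => X)) (by rw [← map_mul, f.mul_ϖi, map_one]) (f.cls_mul_inv T T0') e0 r
  have hη := eta2_mem _ p n (Fm.BS.ofR γ) (Fm.BS.ofR f.ϖ) Fm.BS.ϖi (hA T) (hA fun _ => X)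
  have hP : ∀ S : ∀ N, Subalgebra (R N) (R N)⟦X⟧, (∀ N, T N ∈ S N) →
      pol2 p n (f.ofR γ) (f.ofR f.ϖ) f.ϖi (f.ofA T) ∈ f.BS S := fun S hS =>
    pol2_mem _ p n (Fm.BS.ofR γ) (Fm.BS.ofR f.ϖ) Fm.BS.ϖi (Fm.BS.ofA (Eventually.of_forall hS))
  have hP' := hP (fun _ => ⊤) fun _ => Algebra.mem_top
  rw [← map_pol2, ← map_eta2] at e
  set η := eta2 p n (f.ofR γ) (f.ofR f.ϖ) f.ϖi (f.ofA T) (f.ofA fun _ => X) with eη
  set P := pol2 p n (f.ofR γ) (f.ofR f.ϖ) f.ϖi (f.ofA T) with eP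
  have hz := Fm.BS.of_cls (z := φ * (f.ofA T ^ p ^ n) ^ p + P + f.l ^ p * φ * P -
    Phi p f.l f.c (f.ofA T ^ p ^ n) η + f.ofA fun _ => X) (add_mem (sub_mem (add_mem (add_mem
      (mul_mem hφ (pow_mem (pow_mem (hA T) _) _)) hP') (mul_mem (mul_mem (pow_mem (Fm.BS.ofR _) _) hφ)
        hP')) (Phi_mem p _ (Fm.BS.ofR _) (Fm.BS.ofR _) (pow_mem (hA T) _) hη)) (hA _)) (by
      simp only [map_add, map_sub, map_mul, map_pow, f.cls_l, f.cls_Phi, zero_pow hp.ne_zero]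
      linear_combination e)
  have key : ∀ᶠ N in atTop, ∃ (t : Tw (R N)) (φ' : Kf (R N)), t.Ok (f.x N) n (γ N) (f.ϖ N) φ' ∧
      (∀ (c : ℕ) b, al b = al (C (f.ϖ N)) ^ c * f.ev N φ → ∃ b', al b' = al (C (f.ϖ N)) ^ c * φ') ∧
      ∀ (c : ℕ) a, C (f.ϖ N) ^ c ∣ a → al a = f.ev N (φ * (f.ofA T ^ p ^ n) ^ p + P + f.l ^ p * φ * P -
        Phi p f.l f.c (f.ofA T ^ p ^ n) η + f.ofA fun _ => X) → C (f.ϖ N) ^ c ∣ t.G + t.W := by
    filter_upwards [Fm.BS.small f.hl hφ, Fm.BS.small f.hl (hP (fun N => fixed (σ N)) σT),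
      Fm.BS.small f.hl hη, hz 1] with N ⟨a₁, _, _, e₁⟩ ⟨a₂, h₂, _, e₂⟩ ⟨a₃, _, h₃, e₃⟩ ⟨a, ha, ea⟩
    obtain ⟨t, φ', h1, h2, h3⟩ := (f.x N).step2 n (f.hϖ N) (r₁ N) (σT N) (σX N) (σp N) (T0 N)
      (φ := f.ev N φ) (η := f.ev N η) (P := f.ev N P) (by rw [eη, map_eta2]; rfl)
      (by rw [eP, map_pol2]; rfl) e₁ e₂ h₂ e₃ h₃ (Fm.red_of_dvd ha) (by
        rw [ea]
        simp only [map_add, map_sub, map_mul, map_pow, map_Phi]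
        rfl)
    exact ⟨t, φ', h1, h2, fun c a' ha' ea' => h3 c (al_inj (ea'.trans ea.symm) ▸ ha')⟩
  obtain ⟨t, ht⟩ := choose_eventually key
  obtain ⟨φ', ht⟩ := choose_eventually ht
  obtain ⟨c, hc⟩ := hφ
  have hc' : ∀ᶠ N in atTop, ∃ b, al b = f.ϖK N ^ c * φ' N := by
    filter_upwards [ht, hc] with N h ⟨b, _, hb⟩ using h.2.1 c b hb
  refine ⟨t, ⟨φ', c, hc'.mono fun N ⟨b, hb⟩ => hb ▸ f.al_mem N b⟩,
    ⟨c, hc'.mono fun N ⟨b, hb⟩ => ⟨b, Algebra.mem_top (R := R N), hb⟩⟩, ht.mono fun N h => h.1, ?_⟩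
  rw [eq_neg_iff_add_eq_zero, ← map_add, ← map_add]
  refine f.cls_ofA fun c => ?_
  filter_upwards [ht, hz c] with N h ⟨a, ha, ea⟩ using h.2.2 c a ha ea

end Pool.Agent.P.MP_41a2b4_ag
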