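import Pool.Agent.P.MP_41a2b4_ag.Base

set_option autoImplicit false
set_option linter.unusedSectionVars false

namespace Pool.Agent.P.MP_41a2b4_ag

open PowerSeries IsLocalRing Filter

section One

variable {p : ℕ} [Fact p.Prime] {k : Type} [Field k] [CharP k p] {R : Type} [CommRing R]
  [IsDomain R] [IsDiscreteValuationRing R] [IsAdicComplete (maximalIdeal R) R] (x : Ctx p k R)

namespace Ctx

/-- The inverse of a power series with nonzero reduction. -/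
noncomputable def inv (d : R⟦X⟧) (hd : x.red d ≠ 0) : gauss x :=
  ⟨(al d)⁻¹, d, 1, hd, by
    rw [map_one, inv_mul_cancel₀ ((map_ne_zero_iff _ al_inj).2 fun e => hd (by rw [e, map_zero]))]⟩

theorem res_inv (d : R⟦X⟧) (hd : x.red d ≠ 0) : residue _ (x.inv d hd) = (x.ρ d)⁻¹ := by
  refine eq_inv_of_mul_eq_one_left ?_
  rw [ρ_apply, ← map_mul, ← map_one (residue (gauss x))]
  congr 1
  have : al d ≠ 0 := (map_ne_zero_iff _ al_inj).2 fun e => hd (by rw [e, map_zero])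
  exact Subtype.ext (inv_mul_cancel₀ this)

theorem smul_ρ_C (g : R⟦X⟧ ≃ₐ[R] R⟦X⟧) (r : R) : g • x.ρ (C r) = x.ρ (C r) := by
  rw [smul_ρ, algHom_C]

theorem ρ_C_ne_zero {r : R} (h : x.π r ≠ 0) : x.ρ (C r) ≠ 0 :=
  (((x.isUnit_of_π h).map C).map x.ρ).ne_zero

theorem sum_fixed {g : R⟦X⟧ ≃ₐ[R] R⟦X⟧} {ψ : ResidueField (gauss x)} (h : g • ψ = ψ) :
    ∑ i ∈ Finset.range p, g ^ i • ψ = 0 := by
  rw [Finset.sum_congr rfl fun i _ => MulAction.mem_stabilizer_iff.1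
    (pow_mem (MulAction.mem_stabilizer_iff.2 h) i)]
  simp

theorem exists_V {g : R⟦X⟧ ≃ₐ[R] R⟦X⟧} {U Y v : R⟦X⟧} (hU : IsUnit U) (hv : IsUnit v)
    (e : g Y = v * Y) : ∃ V, IsUnit V ∧ g (U * Y) = V * (U * Y) := by
  obtain ⟨w, hw⟩ := hU.exists_left_inv
  exact ⟨g U * w * v, ((hU.map g).mul (IsUnit.of_mul_eq_one _ hw)).mul hv, by
    rw [map_mul, e]
    linear_combination (-g U * v * Y) * hw⟩

theorem good_of_rel [IsAlgClosed k] {g g' : R⟦X⟧ ≃ₐ[R] R⟦X⟧} {U Y v v' E : R⟦X⟧} {Θ Q : gauss x}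
    {q ψ ψ' : ResidueField (gauss x)} {α β : ℕ}
    (e : al (U * Y) = al E ^ p * (Θ ^ p + x.L ^ p * Q : gauss x)) (hΘ : residue _ Θ = 1)
    (hQ : residue _ Q = q) (hE : x.red E ≠ 0) (D g₀ : R⟦X⟧) (hq₀ : q * x.ρ (D * E) ^ p = x.ρ g₀)
    (hg₀ : ∃ ε, IsUnit ε ∧ d⁄dX k (x.red g₀) = ε * x.red D ^ p)
    (hD : X ^ 2 * x.red D ∣ x.red E ^ (p - 1)) (hD0 : x.red D ≠ 0)
    (hU : IsUnit U) (hv : IsUnit v) (hv' : IsUnit v') (eY : g Y = v * Y) (eY' : g' Y = v' * Y)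
    (hc : g * g' = g' * g) (hg : g ^ p = 1) (hg' : g' ^ p = 1)
    (hψ : g • q - q = ψ ^ p - ψ) (hψ' : g' • q - q = ψ' ^ p - ψ')
    (hcψ : ψ + g • ψ' = 1 + (ψ' + g' • ψ))
    (hα : ∑ i ∈ Finset.range p, g ^ i • ψ = α) (hβ : ∑ i ∈ Finset.range p, g' ^ i • ψ' = β) :
    x.Good α β := by
  obtain ⟨V, hV, eV⟩ := exists_V hU hv eY
  obtain ⟨V', hV', eV'⟩ := exists_V hU hv' eY'
  have e' : x.toO (U * Y) = (x.toO E * Θ) ^ p + x.L ^ p * (x.toO E ^ p * Q) := by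
    have : x.toO (U * Y) = x.toO E ^ p * (Θ ^ p + x.L ^ p * Q) := Subtype.ext e
    rw [this]
    ring
  refine good_of_boundary e' (by
    rw [map_mul, hΘ, mul_one, ← ρ_apply]
    exact fun h => hE (x.ρ_eq_zero.1 h)) (by simp [hΘ, hQ, mul_comm]) D E g₀ hq₀ ⟨1, isUnit_one, ?_⟩ hg₀
    hD hD0 hV hV' eV eV' hc hg hg' hψ hψ' hcψ hα hβ
  rw [one_mul, ← map_pow, ← ρ_eq_iff, ρ_apply, e']
  simp [hΘ, res_L, (Fact.out : p.Prime).ne_zero, ρ_apply]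

end Ctx

variable {x} {n : ℕ} {γ ϖ : R} {t : Tw R} {φ : Kf R} (h : t.Ok x n γ ϖ φ) (hϖ : x.π ϖ = 0)

namespace Tw.Ok

include h

theorem ρT : x.ρ t.T ≠ 0 := fun e => h.T0 (x.ρ_eq_zero.1 e)

theorem σρT : t.σ • x.ρ t.T = x.ρ t.T := by rw [x.smul_ρ, h.σT]

theorem τρT : t.τ • x.ρ t.T = x.ρ t.T := by rw [x.smul_ρ, h.τT]

theorem σhh : t.σ (hh p (C γ) (C ϖ) t.T) = hh p (C γ) (C ϖ) t.T := by
  rw [map_hh, algHom_C, algHom_C, h.σT]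

theorem τhh : t.τ (hh p (C γ) (C ϖ) t.T) = hh p (C γ) (C ϖ) t.T := by
  rw [map_hh, algHom_C, algHom_C, h.τT]

theorem R1 : x.red t.W ^ p - (x.red (hh p (C γ) (C ϖ) t.T) ^ p ^ n) ^ (p - 1) * x.red t.W =
    x.red t.T := by
  rw [← map_pow x.red _ (p ^ n), ← x.red_ΦA, h.rel1]

theorem R2 : X ^ p - (x.red t.T ^ p ^ n) ^ (p - 1) * X = -x.red t.W := by
  rw [← h.redG, h.rel2, x.red_ΦA, h.redH, map_X]

theorem X_dvd_W : X ∣ x.red t.W := by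
  rw [← dvd_neg, ← h.R2]
  exact dvd_sub (dvd_pow_self _ (Fact.out : p.Prime).ne_zero) (dvd_mul_left _ _)

theorem X_dvd_T : X ∣ x.red t.T := by
  rw [← h.R1]
  exact dvd_sub (dvd_pow h.X_dvd_W (Fact.out : p.Prime).ne_zero) (h.X_dvd_W.mul_left _)

include hϖ

theorem ρhh : x.ρ (hh p (C γ) (C ϖ) t.T) = x.ρ (C (γ ^ p - γ)) * x.ρ t.T ^ p := by
  rw [← map_pow, ← map_mul, x.ρ_eq_iff, x.red_hh hϖ, map_mul, map_pow, map_C]

theorem dhh (m : ℕ) : d⁄dX k (x.red (hh p (C γ) (C ϖ) t.T) ^ m) = 0 := by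
  rw [Derivation.leibniz_pow, x.red_hh hϖ, Derivation.leibniz, Ctx.deriv_pow_char, derivative_C]
  simp

theorem dT : d⁄dX k (x.red t.T) =
    -(x.red (hh p (C γ) (C ϖ) t.T) ^ p ^ n) ^ (p - 1) * d⁄dX k (x.red t.W) := by
  conv_lhs => rw [← h.R1, map_sub, Ctx.deriv_pow_char, Derivation.leibniz, ← pow_mul, h.dhh hϖ]
  simp [pow_mul]

theorem bdry (hγ : x.π (γ ^ p - γ) ≠ 0) {x₁ x₂ : ResidueField (gauss x)}
    (e₁ : x₁ = x.ρ t.W * (x.ρ (hh p (C γ) (C ϖ) t.T))⁻¹ ^ p ^ n)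
    (e₂ : x₂ = x.ρ X * (x.ρ t.T)⁻¹ ^ p ^ n + x.ρ (C γ) ^ p ^ n * x₁) :
    t.σ • x₁ = x₁ + 1 ∧ t.τ • x₁ = x₁ ∧ t.σ • x₂ = x₂ ∧ t.τ • x₂ = x₂ + 1 ∧
      x₁ ^ p - x₁ = x.ρ t.T * ((x.ρ (hh p (C γ) (C ϖ) t.T))⁻¹ ^ p ^ n) ^ p ∧
      x₂ ^ p - x₂ = (x.ρ (C γ) ^ p ^ n) ^ p *
        (x.ρ t.T * ((x.ρ (hh p (C γ) (C ϖ) t.T))⁻¹ ^ p ^ n) ^ p) := by
  have hp := (Fact.out : p.Prime)
  have t0 := pow_ne_zero (p ^ n) h.ρT
  have h0 : x.ρ (hh p (C γ) (C ϖ) t.T) ^ p ^ n ≠ 0 := by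
    rw [h.ρhh hϖ]
    exact pow_ne_zero _ (mul_ne_zero (x.ρ_C_ne_zero hγ) (pow_ne_zero _ h.ρT))
  have a1 : t.σ • x₁ = x₁ + 1 := by
    rw [e₁, smul_mul', smul_pow', smul_inv'', x.smul_ρ, x.smul_ρ, h.σhh, h.σW, inv_pow]
    simp only [map_add, map_mul, map_pow, map_one, x.ρ_l]
    field_simp
    ring
  have a2 : t.τ • x₁ = x₁ := by
    rw [e₁, smul_mul', smul_pow', smul_inv'', x.smul_ρ, x.smul_ρ, h.τhh, h.τW]
  have b1 : x.ρ (t.σ X) = x.ρ X - x.ρ (C γ) ^ p ^ n * x.ρ t.T ^ p ^ n := by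
    rw [← mul_pow, ← map_mul, ← map_pow, ← map_sub, x.ρ_eq_iff, h.σX]
    simp
  have b2 : x.ρ (t.τ X) = x.ρ X + x.ρ t.T ^ p ^ n := by
    rw [← map_pow, ← map_add, x.ρ_eq_iff, h.τX]
    simp [x.hl, h.redH]
  have r1 : x.ρ t.W ^ p = x.ρ t.T + (x.ρ (hh p (C γ) (C ϖ) t.T) ^ p ^ n) ^ (p - 1) * x.ρ t.W := by
    simp only [← map_pow, ← map_mul, ← map_add, x.ρ_eq_iff]
    simp only [map_pow, map_mul, map_add, ← h.R1]
    ring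
  have r2 : x.ρ X ^ p = (x.ρ t.T ^ p ^ n) ^ (p - 1) * x.ρ X - x.ρ t.W := by
    simp only [← map_pow, ← map_mul, ← map_sub, x.ρ_eq_iff]
    simp only [map_pow, map_mul, map_sub, map_X]
    linear_combination h.R2
  have a5 : x₁ ^ p - x₁ = x.ρ t.T * ((x.ρ (hh p (C γ) (C ϖ) t.T))⁻¹ ^ p ^ n) ^ p := by
    rw [e₁, mul_pow, r1, inv_pow, inv_pow, ← pow_sub_one_mul hp.ne_zero (_ ^ p ^ n)]
    field_simp
    ring
  refine ⟨a1, a2, ?_, ?_, a5, ?_⟩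
  · rw [e₂, smul_add, smul_mul', smul_mul', smul_pow', smul_pow', smul_inv'', h.σρT, x.smul_ρ, b1,
      x.smul_ρ_C, a1, inv_pow]
    field_simp
    ring
  · rw [e₂, smul_add, smul_mul', smul_mul', smul_pow', smul_pow', smul_inv'', h.τρT, x.smul_ρ, b2,
      x.smul_ρ_C, a2, inv_pow]
    field_simp
    ring
  · have e3 : x.ρ t.W = x₁ * ((x.ρ (C γ) ^ p ^ n) ^ p - x.ρ (C γ) ^ p ^ n) *
        (x.ρ t.T ^ p ^ n) ^ p := by
      rw [e₁, inv_pow, pow_right_comm, pow_right_comm (x.ρ t.T), ← sub_pow_char_pow, mul_assoc,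
        ← mul_pow, ← map_pow x.ρ (C γ), ← map_pow C, ← map_sub, ← map_sub, ← h.ρhh hϖ, mul_assoc,
        inv_mul_cancel₀ h0, mul_one]
    rw [← a5, e₂, add_pow_char, mul_pow, mul_pow, r2, e3, inv_pow, inv_pow,
      ← pow_sub_one_mul hp.ne_zero (x.ρ t.T ^ p ^ n)]
    field_simp
    ring

theorem X2_dvd_T : X ^ 2 ∣ x.red t.T := by
  have hp := (Fact.out : p.Prime)
  rw [← h.R1]
  refine dvd_sub ((pow_dvd_pow _ hp.two_le).trans (pow_dvd_pow_of_dvd h.X_dvd_W _)) ?_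
  rw [sq, x.red_hh hϖ]
  exact mul_dvd_mul (dvd_pow (dvd_pow ((dvd_pow h.X_dvd_T hp.ne_zero).mul_left _)
    (pow_ne_zero _ hp.ne_zero)) (by have := hp.two_le; omega)) h.X_dvd_W

end Tw.Ok

end One

variable {p : ℕ} [Fact p.Prime] {k : Type} [Field k] [CharP k p]
  {R : ℕ → Type} [∀ N, CommRing (R N)] [∀ N, IsDomain (R N)] [∀ N, IsDiscreteValuationRing (R N)]
  [∀ N, IsAdicComplete (maximalIdeal (R N)) (R N)] {f : Fm p k R} {n : ℕ} {γ : ∀ N, R N}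
  {t : ∀ N, Tw (R N)} {φ : f.B}

/-- The invariants of the second step. -/
noncomputable def Tw.S₀ {S : Type} [CommRing S] (t : Tw S) : Subalgebra S S⟦X⟧ := fixed t.σ ⊓ fixed t.τ

theorem Fm.tower_r₁ (h : ∀ᶠ N in atTop, (t N).Ok (f.x N) n (γ N) (f.ϖ N) (f.ev N φ)) :
    f.cls (f.ofA fun N => (t N).W) ^ p - (hh p (f.cls (f.ofR γ)) (f.cls (f.ofR f.ϖ))
      (f.cls (f.ofA fun N => (t N).T)) ^ p ^ n) ^ (p - 1) * f.cls (f.ofA fun N => (t N).W) =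
      f.cls (f.ofA fun N => (t N).T) := by
  have r := f.cls_rel (h.mono fun N hN => hN.rel1)
  rwa [show (fun N => hh p (C (γ N)) (C (f.ϖ N)) (t N).T ^ p ^ n) =
    (fun N => hh p (C (γ N)) (C (f.ϖ N)) (t N).T) ^ p ^ n from rfl, map_pow, f.ofA_hh, map_pow,
    map_hh] at r

theorem Fm.tower_r₂ (h : ∀ᶠ N in atTop, (t N).Ok (f.x N) n (γ N) (f.ϖ N) (f.ev N φ))
    (hG : f.cls (f.ofA fun N => (t N).G) = -f.cls (f.ofA fun N => (t N).W)) :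
    f.cls (f.ofA fun _ => X) ^ p - (f.cls (f.ofA fun N => (t N).T) ^ p ^ n) ^ (p - 1) *
      f.cls (f.ofA fun _ => X) = -f.cls (f.ofA fun N => (t N).W) := by
  have r := f.cls_rel (h.mono fun N hN => hN.rel2.symm)
  have e : f.cls (f.ofA fun N => (t N).H) = f.cls ((f.ofA fun N => (t N).T) ^ p ^ n + f.l *
      eta2 p n (f.ofR γ) (f.ofR f.ϖ) f.ϖi (f.ofA fun N => (t N).T) (f.ofA fun N => (t N).W)) :=
    f.cls_congr (h.mono fun N hN => by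
      rw [← f.ev_apply, ← f.ev_apply, map_add, map_mul, map_pow, map_eta2]
      exact hN.eH)
  rwa [e, hG, map_add, map_mul, f.cls_l, zero_mul, add_zero, map_pow] at r

theorem Fm.tower_eh (hγ : ∀ N, (f.x N).π (γ N ^ p - γ N) ≠ 0) {T : ∀ N, (R N)⟦X⟧}
    (hT : ∀ᶠ N in atTop, (f.x N).red (T N) ≠ 0) :
    hh p (f.cls (f.ofR γ)) (f.cls (f.ofR f.ϖ)) (f.cls (f.ofA T)) *
      f.cls (f.inv _ (f.red_hh_ne_zero hγ hT)) = 1 := by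
  have e0 := f.cls_mul_inv _ (f.red_hh_ne_zero hγ hT)
  rwa [f.ofA_hh, map_hh] at e0

end Pool.Agent.P.MP_41a2b4_ag
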