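import Pool.Agent.P.MP_41a2b4_ag.Loc

set_option autoImplicit false

namespace Pool.Agent.P.MP_41a2b4_ag

open Finset

theorem ph_natCast_pow (p : ℕ) [Fact p.Prime] {R : Type*} [CommRing R] [CharP R p] (j : ℕ) :
    (j : R) ^ p = j := by
  have := congrArg (ZMod.castHom (dvd_refl p) R) (ZMod.pow_card (j : ZMod p))
  rw [map_pow, map_natCast] at this
  exact this

theorem ph_fermat (p : ℕ) [Fact p.Prime] {R : Type*} [CommRing R] [CharP R p] {i j : ℕ}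
    (hi : i < p) (hj : j < p) (hij : i ≠ j) : ((j : R) - i) ^ (p - 1) = 1 := by
  have hne : (j : ZMod p) - i ≠ 0 := fun e => hij
    (CharP.natCast_injOn_Iio (ZMod p) p hj hi (sub_eq_zero.1 e)).symm
  have := congrArg (ZMod.castHom (dvd_refl p) R) (ZMod.pow_card_sub_one_eq_one hne)
  rwa [map_pow, map_sub, map_natCast, map_natCast, map_one] at this

theorem ph_key (p : ℕ) [Fact p.Prime] {R : Type*} [CommRing R] (hp0 : (p : R) = 0)
    (γ ϑ τ T Ti ci mj : R) (e : ℕ → R) (j : ℕ) (hj : j < p) (eγ : γ = ϑ ^ p ^ 2)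
    (em : mj * ((j : R) - γ) = 1)
    (ee : e j ^ p = (τ + e j * (τ ^ p * mj) ^ (p - 1)) * ((j : R) - ϑ) ^ (p ^ 2 - p))
    (eT : T * Ti = 1) (ec : ((γ - ϑ) * T + τ ^ p) * ci = 1)
    (hw : (γ * T + τ ^ p) * Ti = j) :
    -Ti ^ (p ^ 2 - 1) -
      (((-τ + ∑ i ∈ range p, e i * ((γ * T + τ ^ p - i * T) ^ (p - 1) - T ^ (p - 1))) * ci ^ p) ^ p
        - (-τ + ∑ i ∈ range p, e i * ((γ * T + τ ^ p - i * T) ^ (p - 1) - T ^ (p - 1))) *
          ci ^ p) = 0 := by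
  rcases subsingleton_or_nontrivial R with hR | hR
  · exact Subsingleton.elim _ _
  have hp := (Fact.out : p.Prime)
  have : CharP R p := (CharP.charP_iff_prime_eq_zero hp).2 hp0
  have hs0 : γ * T + τ ^ p = j * T := by linear_combination T * hw - (γ * T + τ ^ p) * eT
  have hT : τ ^ p * mj = T := by linear_combination mj * hs0 + T * em
  have hV : (-τ + ∑ i ∈ range p, e i * ((γ * T + τ ^ p - i * T) ^ (p - 1) - T ^ (p - 1))) =
      -τ - e j * T ^ (p - 1) := by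
    rw [Finset.sum_eq_single j]
    · rw [hs0, sub_self, zero_pow (by have := hp.two_le; omega)]
      ring
    · intro i hi hij
      rw [hs0, ← sub_mul, mul_pow, ph_fermat p (mem_range.1 hi) hj hij]
      ring
    · intro h
      exact absurd (mem_range.2 hj) h
  rw [hV]
  rw [hT] at ee
  have hsc : ((j : R) - ϑ) * T * ci = 1 := by linear_combination ec - ci * hs0
  obtain ⟨n, hn⟩ : ∃ n, p = n + 1 := ⟨p - 1, by have := hp.two_le; omega⟩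
  have e1 : p - 1 = n := by omega
  have e2 : p ^ 2 - p = n * p := by rw [hn]; ring_nf; omega
  have e3 : p ^ 2 - 1 = n * p + n := by rw [hn]; ring_nf; omega
  have e4 : p ^ 2 = n * p + p := by rw [hn]; ring
  have hj2 : ((j : R) - ϑ) ^ (n * p + p) = j - γ := by
    rw [← e4, sub_pow_char_pow, eγ, pow_two, pow_mul, ph_natCast_pow, ph_natCast_pow]
  have hVp : (-τ - e j * T ^ n) ^ p = -τ ^ p - e j ^ p * T ^ (n * p) := by
    have hneg : (-τ) ^ p = -τ ^ p := by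
      rw [← zero_sub τ, sub_pow_char, zero_pow hp.ne_zero, zero_sub]
    rw [sub_pow_char, hneg, mul_pow, ← pow_mul]
  rw [e1, e2] at ee
  rw [e1, e3, mul_pow, hVp, ← pow_mul]
  have e5 : p * p = n * p + p := by rw [← e4]; ring
  rw [e5]
  have h1 : (((j : R) - ϑ) * T * ci) ^ (n * p) = 1 := by rw [hsc, one_pow]
  have h2 : (((j : R) - ϑ) * T * ci) ^ (n * p + p) = 1 := by rw [hsc, one_pow]
  have h3 : (T * Ti) ^ (n * p + n) = 1 := by rw [eT, one_pow]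
  rw [mul_pow, mul_pow] at h1 h2
  rw [hj2] at h2
  rw [mul_pow] at h3
  have h4 : T ^ (n * p + p) = T * T ^ (n * p + n) := by
    rw [← pow_succ']; congr 1; omega
  rw [h4] at h2
  have h5 : ci ^ (n * p + p) = ci ^ (n * p) * ci ^ p := pow_add _ _ _
  have h6 : τ ^ p = (j - γ) * T := by linear_combination hs0
  rw [h5] at h2 ⊢
  rw [h6] 
  linear_combination (Ti ^ (n * p + n)) * h2 - ((j - γ) * T * (ci ^ (n * p) * ci ^ p)) * h3
    + (T ^ (n * p) * (ci ^ (n * p) * ci ^ p)) * ee + ((τ + e j * T ^ n) * ci ^ p) * h1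

theorem ph_div (p : ℕ) [Fact p.Prime] {L : Type} [CommRing L] [CharP L p] (A : Subring L)
    (γ ϑ τ : L) (e m : ℕ → L) (T Ti ci : L)
    (hϑ : ϑ ∈ A) (hτ : τ ∈ A) (he : ∀ j, e j ∈ A) (hm : ∀ j, m j ∈ A) (hT : T ∈ A)
    (hTi : Ti ∈ A) (hci : ci ∈ A)
    (eγ : γ = ϑ ^ p ^ 2) (em : ∀ j < p, m j * ((j : L) - γ) = 1)
    (ee : ∀ j < p, e j ^ p = (τ + e j * (τ ^ p * m j) ^ (p - 1)) * ((j : L) - ϑ) ^ (p ^ 2 - p))
    (eT : T * Ti = 1) (ec : ((γ - ϑ) * T + τ ^ p) * ci = 1) :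
    ∃ y ∈ A, -Ti ^ (p ^ 2 - 1) -
      (((-τ + ∑ i ∈ range p, e i * ((γ * T + τ ^ p - i * T) ^ (p - 1) - T ^ (p - 1))) * ci ^ p) ^ p
        - (-τ + ∑ i ∈ range p, e i * ((γ * T + τ ^ p - i * T) ^ (p - 1) - T ^ (p - 1))) *
          ci ^ p) = (((γ * T + τ ^ p) * Ti) ^ p - (γ * T + τ ^ p) * Ti) * y := by
  have hγ : γ ∈ A := eγ ▸ A.pow_mem hϑ _
  lift γ to A using hγ
  lift ϑ to A using hϑ
  lift τ to A using hτ
  lift T to A using hT
  lift Ti to A using hTi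
  lift ci to A using hci
  obtain ⟨e', rfl⟩ : ∃ e' : ℕ → A, e = fun j => (e' j : L) := ⟨fun j => ⟨e j, he j⟩, rfl⟩
  obtain ⟨m', rfl⟩ : ∃ m' : ℕ → A, m = fun j => (m' j : L) := ⟨fun j => ⟨m j, hm j⟩, rfl⟩
  have hx : ∀ j < p, ∃ y : A, -Ti ^ (p ^ 2 - 1) -
      (((-τ + ∑ i ∈ range p, e' i * ((γ * T + τ ^ p - i * T) ^ (p - 1) - T ^ (p - 1))) * ci ^ p) ^ p
        - (-τ + ∑ i ∈ range p, e' i * ((γ * T + τ ^ p - i * T) ^ (p - 1) - T ^ (p - 1))) *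
          ci ^ p) = ((γ * T + τ ^ p) * Ti - j) * y := by
    intro j hj
    let π := Ideal.Quotient.mk (Ideal.span {(γ * T + τ ^ p) * Ti - (j : A)})
    have hp0 : ((p : ℕ) : A) = 0 := Subtype.ext (by simp)
    have k := ph_key p (R := A ⧸ Ideal.span {(γ * T + τ ^ p) * Ti - (j : A)})
      (by rw [← map_natCast π, hp0, map_zero]) (π γ) (π ϑ) (π τ) (π T) (π Ti) (π ci) (π (m' j))
      (fun i => π (e' i)) j hj
      (by
        have : γ = ϑ ^ p ^ 2 := Subtype.ext (by simpa using eγ)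
        simpa using congrArg π this)
      (by
        have : m' j * ((j : A) - γ) = 1 := Subtype.ext (by simpa using em j hj)
        simpa using congrArg π this)
      (by
        have : e' j ^ p = (τ + e' j * (τ ^ p * m' j) ^ (p - 1)) * ((j : A) - ϑ) ^ (p ^ 2 - p) :=
          Subtype.ext (by simpa using ee j hj)
        simpa using congrArg π this)
      (by
        have : T * Ti = 1 := Subtype.ext (by simpa using eT)
        simpa using congrArg π this)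
      (by
        have : ((γ - ϑ) * T + τ ^ p) * ci = 1 := Subtype.ext (by simpa using ec)
        simpa using congrArg π this)
      (by
        have : π ((γ * T + τ ^ p) * Ti - (j : A)) = 0 :=
          Ideal.Quotient.eq_zero_iff_mem.2 (Ideal.mem_span_singleton_self _)
        rw [map_sub, sub_eq_zero] at this
        simpa using this)
    have k2 : π (-Ti ^ (p ^ 2 - 1) -
      (((-τ + ∑ i ∈ range p, e' i * ((γ * T + τ ^ p - i * T) ^ (p - 1) - T ^ (p - 1))) * ci ^ p) ^ p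
        - (-τ + ∑ i ∈ range p, e' i * ((γ * T + τ ^ p - i * T) ^ (p - 1) - T ^ (p - 1))) *
          ci ^ p)) = 0 := by
      simpa [map_sum] using k
    exact Ideal.mem_span_singleton.1 (Ideal.Quotient.eq_zero_iff_mem.1 k2)
  have h0 : (0 : ℕ) < p := (Fact.out : p.Prime).pos
  refine exists_eq_wp_mul p A (by exact_mod_cast ((γ * T + τ ^ p) * Ti).2) ?_ ?_
  · have := (-Ti ^ (p ^ 2 - 1) -
      (((-τ + ∑ i ∈ range p, e' i * ((γ * T + τ ^ p - i * T) ^ (p - 1) - T ^ (p - 1))) * ci ^ p) ^ p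
        - (-τ + ∑ i ∈ range p, e' i * ((γ * T + τ ^ p - i * T) ^ (p - 1) - T ^ (p - 1))) *
          ci ^ p)).2
    simpa using this
  · intro j hj
    obtain ⟨y, hy⟩ := hx j hj
    exact ⟨y, y.2, by simpa using congrArg Subtype.val hy⟩

theorem ph_absT (p : ℕ) [Fact p.Prime] {L : Type} [CommRing L] [CharP L p]
    (half a β x y u v T g : L) (ehalf : 2 * half = 1) (hx : x ^ p = x + a)
    (hy : y ^ p = y + β * a) (hg : T ^ 2 * g ^ p = a * (β * a)) :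
    -(β * a * x) - half * a * (β * a) + half * T ^ 2 * u ^ p - T * v ^ p +
      ((y * x ^ p) ^ p - y * x ^ p) = half * T ^ 2 * (u + g) ^ p + (y * a) ^ p - T * v ^ p := by
  have h1 : (x ^ p) ^ p = x ^ p + a ^ p := by
    conv_lhs => rw [hx]
    rw [add_pow_char]
  rw [mul_pow y (x ^ p), add_pow_char u g, mul_pow y a, h1, hy, hx]
  linear_combination (-half) * hg - a * (β * a) * ehalf

theorem ph_absH (p : ℕ) [Fact p.Prime] {L : Type} [CommRing L] [CharP L p]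
    (half a β x ξ ξ₀ r u v T k : L) (ehalf : 2 * half = 1) (hhalf : half ^ p = half)
    (hx : x ^ p = x + a) (hξ : ξ ^ p - ξ = r - (β ^ p - β) * x) (hb : β * a = β ^ p * a + r)
    (hu : T ^ 2 * u ^ p = r * a + k) (hv : T * v ^ p = a * ξ₀ ^ p) :
    -(β * a * x) - half * a * (β * a) + half * T ^ 2 * u ^ p - T * v ^ p +
      ((half * β * x ^ 2 + ξ * x - (ξ - ξ₀) ^ p * x) ^ p -
        (half * β * x ^ 2 + ξ * x - (ξ - ξ₀) ^ p * x)) =
      half * k - half * ((β ^ p - β) * x ^ 2) - (((ξ - ξ₀) ^ p - (ξ - ξ₀)) ^ p * (a + x)) := by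
  have h2 : (x ^ 2) ^ p = (x + a) ^ 2 := by rw [← pow_mul, mul_comm, pow_mul, hx]
  have h3 : (ξ - ξ₀) ^ p = ξ ^ p - ξ₀ ^ p := sub_pow_char _ _
  rw [sub_pow_char (half * β * x ^ 2 + ξ * x), add_pow_char (half * β * x ^ 2), mul_pow, mul_pow,
    mul_pow, mul_pow, h2, hx, hhalf, sub_pow_char ((ξ - ξ₀) ^ p)]
  generalize ((ξ - ξ₀) ^ p) ^ p = D
  rw [h3]
  linear_combination half * hu - hv + x * hξ - (x + half * a) * hb
    + (β ^ p * a * x + (β ^ p - β) * x ^ 2) * ehalf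

theorem ph_cop (p : ℕ) [Fact p.Prime] {L : Type} [CommRing L] (U : Subring L)
    (γ ϑ ϖ ϖi θi T : L) (hγ : γ ∈ U) (hϑ : ϑ ∈ U) (hϖ : ϖ ∈ U) (hϖi : ϖi ∈ U) (hθi : θi ∈ U)
    (hT : T ∈ U) (eϖ : ϖ * ϖi = 1) (eθ : θi * (ϑ ^ p - ϑ) = 1) :
    Cop U (T * hh p γ ϖ T) ((γ - ϑ) * T + ϖ) := by
  obtain ⟨n, hn⟩ : ∃ n, p = n + 1 := ⟨p - 1, by have := (Fact.out : p.Prime).two_le; omega⟩
  have hs := U.add_mem (U.mul_mem hγ hT) hϖ
  have hsc := U.add_mem (U.mul_mem (U.sub_mem hγ hϑ) hT) hϖ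
  have hH : hh p γ ϖ T ∈ U := U.sub_mem (U.pow_mem hs _) (U.mul_mem (U.pow_mem hT _) hs)
  have c1 : Cop U T ((γ - ϑ) * T + ϖ) :=
    ⟨-(ϖi * (γ - ϑ)), U.neg_mem (U.mul_mem hϖi (U.sub_mem hγ hϑ)), ϖi, hϖi, by
      linear_combination eϖ⟩
  refine Cop.mul_left hT hH hsc c1 ?_
  obtain ⟨α, hα, β, hβ, e⟩ := c1.pow hT hsc p 1
  obtain ⟨y, hy⟩ := sub_dvd_pow_sub_pow (⟨_, hs⟩ : U) ⟨ϑ * T, U.mul_mem hϑ hT⟩ p
  have hy' : (γ * T + ϖ) ^ p - (ϑ * T) ^ p = (γ * T + ϖ - ϑ * T) * y := by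
    simpa using congrArg Subtype.val hy
  refine ⟨α * θi, U.mul_mem hα hθi, β - α * θi * (y - T ^ n), U.sub_mem hβ (U.mul_mem
    (U.mul_mem hα hθi) (U.sub_mem y.2 (U.pow_mem hT _))), ?_⟩
  have e1 : p - 1 = n := by omega
  have e2 : T ^ p = T * T ^ n := by rw [hn, pow_succ']
  rw [hh, e1]
  rw [mul_pow] at hy'
  rw [e2] at hy' e
  linear_combination e + α * θi * hy' + α * (T * T ^ n) * eθ

/-- TASK PH. -/
theorem charP_heis (p : ℕ) [Fact p.Prime] {L : Type} [CommRing L] [CharP L p] (U₀ U : Subring L)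
    (hU : U₀ ≤ U) (γ ϑ τ ϖi half θi : L) (e m : ℕ → L) (T Ti hi ci W₁ W₂ : L)
    (hϑ : ϑ ∈ U₀) (hτ : τ ∈ U₀) (hϖi : ϖi ∈ U₀) (hhalf : half ∈ U₀) (hθi : θi ∈ U₀)
    (he : ∀ j, e j ∈ U₀) (hm : ∀ j, m j ∈ U₀) (hT : T ∈ U₀) (hW₁ : W₁ ∈ U) (hW₂ : W₂ ∈ U)
    (eγ : γ = ϑ ^ p ^ 2) (eϖ : τ ^ p * ϖi = 1) (ehalf : 2 * half = 1) (eθ : θi * (ϑ ^ p - ϑ) = 1)
    (em : ∀ j < p, m j * ((j : L) - γ) = 1)
    (ee : ∀ j < p, e j ^ p = (τ + e j * (τ ^ p * m j) ^ (p - 1)) * ((j : L) - ϑ) ^ (p ^ 2 - p))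
    (eT : T * Ti = 1) (eh : hh p γ (τ ^ p) T * hi = 1) (ec : ((γ - ϑ) * T + τ ^ p) * ci = 1)
    (r₁ : W₁ ^ p - hh p γ (τ ^ p) T ^ (p - 1) * W₁ = T) (r₂ : W₂ ^ p - T ^ (p - 1) * W₂ = -W₁) :
    ∃ η : L, ∃ φ ∈ U, ∃ P ∈ U₀,
      qH p γ ϑ τ half e T Ti hi ci W₁ + (η ^ p - η) = φ + P * (ci ^ p) ^ p := by
  have hp := (Fact.out : p.Prime)
  obtain ⟨n, hn⟩ : ∃ n, p = n + 2 := ⟨p - 2, by have := hp.two_le; omega⟩
  have e1 : p - 1 = n + 1 := by omega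
  have hγ : γ ∈ U₀ := eγ ▸ U₀.pow_mem hϑ _
  have hϖ : τ ^ p ∈ U₀ := U₀.pow_mem hτ _
  have hcop := ph_cop p U₀ γ ϑ (τ ^ p) ϖi θi T hγ hϑ hϖ hϖi hθi hT eϖ eθ
  have hcopTH := cop_T_hh p hγ hϖ hϖi hT eϖ
  have hdiv := ph_div p (Loc (Loc U ci) Ti) γ ϑ τ e m T Ti ci (Loc.base (Loc.base (hU hϑ)))
    (Loc.base (Loc.base (hU hτ))) (fun j => Loc.base (Loc.base (hU (he j))))
    (fun j => Loc.base (Loc.base (hU (hm j)))) (Loc.base (Loc.base (hU hT))) (Loc.inv _ _)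
    (Loc.base (Loc.inv _ _)) eγ em ee eT ec
  have hV₀ : (-τ + ∑ i ∈ range p, e i * ((γ * T + τ ^ p - i * T) ^ (p - 1) - T ^ (p - 1))) ∈ U₀ :=
    U₀.add_mem (U₀.neg_mem hτ) (U₀.sum_mem fun i _ => U₀.mul_mem (he i) (U₀.sub_mem
      (U₀.pow_mem (U₀.sub_mem (U₀.add_mem (U₀.mul_mem hγ hT) hϖ)
        (U₀.mul_mem (natCast_mem U₀ i) hT)) _) (U₀.pow_mem hT _)))
  have hs := U₀.add_mem (U₀.mul_mem hγ hT) hϖ
  have hsc := U₀.add_mem (U₀.mul_mem (U₀.sub_mem hγ hϑ) hT) hϖ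
  have hsd := U₀.add_mem (U₀.mul_mem (U₀.sub_mem hγ (U₀.pow_mem hϑ p)) hT) hϖ
  have hH : hh p γ (τ ^ p) T ∈ U₀ :=
    U₀.sub_mem (U₀.pow_mem hs _) (U₀.mul_mem (U₀.pow_mem hT _) hs)
  have eH : (γ * T + τ ^ p) ^ p = hh p γ (τ ^ p) T + T ^ (n + 1) * (γ * T + τ ^ p) := by
    rw [hh, e1]; ring
  have eTp : T ^ p = T ^ (n + 1) * T := by rw [hn, pow_succ]
  have escp : ((γ - ϑ) * T + τ ^ p) ^ p =
      hh p γ (τ ^ p) T + T ^ (n + 1) * ((γ - ϑ ^ p) * T + τ ^ p) := by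
    have : (γ - ϑ) * T + τ ^ p = (γ * T + τ ^ p) - ϑ * T := by ring
    rw [this, sub_pow_char, eH, mul_pow, eTp]
    ring
  have es : γ * T + τ ^ p = ((γ - ϑ ^ p) * T + τ ^ p) + ϑ ^ p * T := by ring
  unfold qH
  rw [e1] at r₁ r₂
  generalize (-τ + ∑ i ∈ range p, e i * ((γ * T + τ ^ p - i * T) ^ (p - 1) - T ^ (p - 1))) = V₀
    at hdiv hV₀ ⊢
  generalize hh p γ (τ ^ p) T = H at *
  generalize (γ - ϑ) * T + τ ^ p = sc at *
  generalize (γ - ϑ ^ p) * T + τ ^ p = sd at *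
  generalize γ * T + τ ^ p = s at *
  have hθ : ϑ ^ p ∈ U₀ := U₀.pow_mem hϑ p
  generalize ϑ ^ p = θ at es hθ
  clear ee em he hm eγ eθ eϖ hθi hϖi hϑ hϖ hγ hτ
  have hneg : ∀ z : L, (-z) ^ p = -z ^ p := fun z => by
    rw [← zero_sub z, sub_pow_char, zero_pow hp.ne_zero, zero_sub]
  have eHp : H ^ p = H ^ (n + 1) * H := by rw [hn, pow_succ]
  have eTT : T ^ (n + 1) * Ti ^ p = Ti := by
    have : Ti ^ p = Ti ^ (n + 1) * Ti := by rw [hn, pow_succ]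
    rw [this, ← mul_assoc, ← mul_pow, eT, one_pow, one_mul]
  have eHH : H ^ (n + 1) * hi ^ p = hi := by
    have : hi ^ p = hi ^ (n + 1) * hi := by rw [hn, pow_succ]
    rw [this, ← mul_assoc, ← mul_pow, eh, one_pow, one_mul]
  have eHH' : H ^ p * hi ^ p = 1 := by rw [← mul_pow, eh, one_pow]
  have ecc : sc ^ p * ci ^ p = 1 := by rw [← mul_pow, ec, one_pow]
  have ehp : half ^ p = half := by
    have h2 : (2 : L) ^ p = 2 := by simpa using ph_natCast_pow p (R := L) 2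
    have h3 : (2 * half) ^ p = 1 := by rw [ehalf, one_pow]
    rw [mul_pow, h2] at h3
    linear_combination half * h3 - half ^ p * ehalf
  have hx : (W₁ * hi) ^ p = W₁ * hi + T * hi ^ p := by
    rw [mul_pow]
    linear_combination hi ^ p * r₁ + W₁ * eHH
  have hw : (s * Ti) ^ p - s * Ti = H * Ti ^ p := by
    rw [mul_pow, eH]
    linear_combination s * eTT
  have hx₂ : (W₂ * Ti) ^ p - W₂ * Ti = -(W₁ * Ti ^ p) := by
    rw [mul_pow]
    linear_combination Ti ^ p * r₂ + W₂ * eTT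
  have hy : (W₂ * Ti + s * Ti * (W₁ * hi)) ^ p =
      W₂ * Ti + s * Ti * (W₁ * hi) + (s * Ti) ^ p * (T * hi ^ p) := by
    rw [add_pow_char, mul_pow (s * Ti), hx]
    linear_combination hx₂ + (W₁ * hi) * hw + W₁ * Ti ^ p * eh
  have hβ : ((s * Ti) ^ p) ^ p - (s * Ti) ^ p = H ^ p * (Ti ^ p) ^ p := by
    rw [← sub_pow_char, hw, mul_pow]
  have er : T * (Ti ^ p) ^ p = Ti ^ (p ^ 2 - 1) := by
    have : (Ti ^ p) ^ p = Ti * Ti ^ (p ^ 2 - 1) := by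
      rw [← pow_mul, ← pow_succ']
      congr 1
      have : 0 < p * p := Nat.mul_pos hp.pos hp.pos
      rw [pow_two]
      omega
    rw [this, ← mul_assoc, eT, one_mul]
  have hξ : ((W₂ * Ti) ^ p) ^ p - (W₂ * Ti) ^ p =
      -Ti ^ (p ^ 2 - 1) - (((s * Ti) ^ p) ^ p - (s * Ti) ^ p) * (W₁ * hi) := by
    rw [← sub_pow_char, hx₂, hneg, mul_pow, hβ, ← er, eHp]
    linear_combination (-(Ti ^ p) ^ p) * r₁ + (H ^ (n + 1) * (Ti ^ p) ^ p * W₁) * eh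
  have hb : (s * Ti) ^ p * (T * hi ^ p) =
      ((s * Ti) ^ p) ^ p * (T * hi ^ p) + -Ti ^ (p ^ 2 - 1) := by
    rw [← er]
    linear_combination (-(T * hi ^ p)) * hβ - T * (Ti ^ p) ^ p * eHH'
  have hUU : -(sd * Ti * hi * ci ^ p) = Ti ^ p * ci ^ p - Ti ^ p * hi := by
    linear_combination (sd * hi * ci ^ p) * eTT + (Ti ^ p * hi * ci ^ p) * escp
      - (Ti ^ p * hi) * ecc + (Ti ^ p * ci ^ p) * eh
  have hu : T ^ 2 * (-(sd * Ti * hi * ci ^ p)) ^ p =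
      -Ti ^ (p ^ 2 - 1) * (T * hi ^ p) + T ^ 2 * (Ti ^ p * ci ^ p) ^ p := by
    rw [hUU, sub_pow_char, mul_pow (Ti ^ p) hi, ← er]
    ring
  have hv : T * (V₀ * hi * ci ^ p) ^ p = T * hi ^ p * (V₀ * ci ^ p) ^ p := by
    rw [mul_pow, mul_pow, mul_pow]
    ring
  have hg : T ^ 2 * (s * Ti * hi ^ 2) ^ p = T * hi ^ p * ((s * Ti) ^ p * (T * hi ^ p)) := by
    rw [mul_pow (s * Ti), ← pow_mul, mul_comm 2 p, pow_mul]
    ring
  have kT := ph_absT p half (T * hi ^ p) ((s * Ti) ^ p) (W₁ * hi) (W₂ * Ti + s * Ti * (W₁ * hi))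
    (-(sd * Ti * hi * ci ^ p)) (V₀ * hi * ci ^ p) T (s * Ti * hi ^ 2) ehalf hx hy hg
  have kH := ph_absH p half (T * hi ^ p) ((s * Ti) ^ p) (W₁ * hi) ((W₂ * Ti) ^ p) (V₀ * ci ^ p)
    (-Ti ^ (p ^ 2 - 1)) (-(sd * Ti * hi * ci ^ p)) (V₀ * hi * ci ^ p) T
    (T ^ 2 * (Ti ^ p * ci ^ p) ^ p) ehalf ehp hx hξ hb hu hv
  have aT : -(sd * Ti * hi * ci ^ p) + s * Ti * hi ^ 2 =
      hi ^ 2 * ci ^ p * (θ * H + T ^ n * s * sd) := by
    have : T ^ (n + 1) = T ^ n * T := pow_succ _ _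
    rw [this] at escp
    linear_combination (-(s * Ti * hi ^ 2)) * ecc + (s * Ti * hi ^ 2 * ci ^ p) * escp
      + (sd * Ti * hi * ci ^ p) * eh + (Ti * hi ^ 2 * ci ^ p * H) * es
      + (hi ^ 2 * ci ^ p * (θ * H + T ^ n * s * sd)) * eT
  have bT : (W₂ * Ti + s * Ti * (W₁ * hi)) * (T * hi ^ p) = (W₂ + s * (W₁ * hi)) * hi ^ p := by
    linear_combination ((W₂ + s * (W₁ * hi)) * hi ^ p) * eT
  rw [aT, bT] at kT
  obtain ⟨y₀, hy₀, ey₀⟩ := hdiv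
  have aH : (((s * Ti) ^ p) ^ p - (s * Ti) ^ p) * (W₁ * hi) ^ 2 = H ^ n * (Ti ^ p) ^ p * W₁ ^ 2 := by
    have : H ^ (n + 1) = H ^ n * H := pow_succ _ _
    rw [hβ, eHp, this]
    linear_combination (H ^ n * (Ti ^ p) ^ p * W₁ ^ 2 * (H * hi + 1)) * eh
  have bH : ((W₂ * Ti) ^ p - V₀ * ci ^ p) ^ p - ((W₂ * Ti) ^ p - V₀ * ci ^ p) =
      H * (Ti ^ p * y₀ - H ^ n * (Ti ^ p) ^ p * W₁) := by
    have : H ^ (n + 1) = H ^ n * H := pow_succ _ _
    rw [hβ, eHp, this] at hξ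
    rw [hw] at ey₀
    rw [sub_pow_char]
    linear_combination hξ + ey₀ - (H ^ n * H * (Ti ^ p) ^ p * W₁) * eh
  have cH : (H * (Ti ^ p * y₀ - H ^ n * (Ti ^ p) ^ p * W₁)) ^ p * (T * hi ^ p + W₁ * hi) =
      (Ti ^ p * y₀ - H ^ n * (Ti ^ p) ^ p * W₁) ^ p * (T + H ^ (n + 1) * W₁) := by
    rw [mul_pow]
    generalize (Ti ^ p * y₀ - H ^ n * (Ti ^ p) ^ p * W₁) ^ p = z
    linear_combination (z * T) * eHH' + (z * W₁ * hi) * eHp + (z * W₁ * H ^ (n + 1)) * eh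
  rw [aH, bH, cH] at kH
  have edi : T * H * (Ti * hi) = 1 := by linear_combination (H * hi) * eT + eh
  have eTi : Ti = Ti * hi * H := by linear_combination (-Ti) * eh
  have ehi : hi = Ti * hi * T := by linear_combination (-hi) * eT
  have mTi : ∀ W : Subring L, U₀ ≤ W → Ti ∈ Loc W (Ti * hi) := fun W hW => by
    have := (Loc W (Ti * hi)).mul_mem (Loc.inv W _) (Loc.base (hW hH))
    rwa [← eTi] at this
  have mhi : ∀ W : Subring L, U₀ ≤ W → hi ∈ Loc W (Ti * hi) := fun W hW => by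
    have := (Loc W (Ti * hi)).mul_mem (Loc.inv W _) (Loc.base (hW hT))
    rwa [← ehi] at this
  obtain ⟨P, hP, hP'⟩ := Loc.pf (U := U₀) (d := T * H) (di := Ti * hi) (E := (sc ^ p) ^ p)
    (Ei := (ci ^ p) ^ p)
    (f := half * T ^ 2 * (-(sd * Ti * hi * ci ^ p)) ^ p - T * (V₀ * hi * ci ^ p) ^ p)
    (U₀.mul_mem hT hH) (U₀.pow_mem (U₀.pow_mem hsc _) _) edi (by rw [← mul_pow, ecc, one_pow])
    (by
      have := hcop.symm.pow hsc (U₀.mul_mem hT hH) (p * p) 1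
      rwa [pow_one, pow_mul] at this)
    (by
      have h1 : (-(sd * Ti * hi * ci ^ p)) ^ p * (sc ^ p) ^ p = (-(sd * Ti * hi)) ^ p := by
        rw [← mul_pow]
        congr 1
        linear_combination (-(sd * Ti * hi)) * ecc
      have h2 : (V₀ * hi * ci ^ p) ^ p * (sc ^ p) ^ p = (V₀ * hi) ^ p := by
        rw [← mul_pow]
        congr 1
        linear_combination (V₀ * hi) * ecc
      have h3 : (half * T ^ 2 * (-(sd * Ti * hi * ci ^ p)) ^ p - T * (V₀ * hi * ci ^ p) ^ p) *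
          (sc ^ p) ^ p = half * T ^ 2 * (-(sd * Ti * hi)) ^ p - T * (V₀ * hi) ^ p := by
        linear_combination (half * T ^ 2) * h1 - T * h2
      rw [h3]
      have m1 := mTi U₀ le_rfl
      have m2 := mhi U₀ le_rfl
      have m3 : half ∈ Loc U₀ (Ti * hi) := Loc.base hhalf
      have m4 : T ∈ Loc U₀ (Ti * hi) := Loc.base hT
      have m5 : sd ∈ Loc U₀ (Ti * hi) := Loc.base hsd
      have m6 : V₀ ∈ Loc U₀ (Ti * hi) := Loc.base hV₀
      generalize Loc U₀ (Ti * hi) = A at m1 m2 m3 m4 m5 m6 ⊢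
      exact A.sub_mem (A.mul_mem (A.mul_mem m3 (A.pow_mem m4 _)) (A.pow_mem (A.neg_mem
        (A.mul_mem (A.mul_mem m5 m1) m2)) _)) (A.mul_mem m4 (A.pow_mem (A.mul_mem m6 m2) _)))
  have hX : -((s * Ti) ^ p * (T * hi ^ p) * (W₁ * hi)) -
      half * (T * hi ^ p) * ((s * Ti) ^ p * (T * hi ^ p)) +
      half * T ^ 2 * (-(sd * Ti * hi * ci ^ p)) ^ p - T * (V₀ * hi * ci ^ p) ^ p -
      P * (ci ^ p) ^ p + ((0 : L) ^ p - 0) ∈ Loc U (Ti * hi) := by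
    have m1 := mTi U hU
    have m2 := mhi U hU
    have m3 : half ∈ Loc U (Ti * hi) := Loc.base (hU hhalf)
    have m4 : T ∈ Loc U (Ti * hi) := Loc.base (hU hT)
    have m5 : s ∈ Loc U (Ti * hi) := Loc.base (hU hs)
    have m6 : W₁ ∈ Loc U (Ti * hi) := Loc.base hW₁
    have m7 := Loc.mono hU _ hP'
    generalize Loc U (Ti * hi) = A at m1 m2 m3 m4 m5 m6 m7 ⊢
    have ma := A.mul_mem m4 (A.pow_mem m2 p)
    have mb := A.mul_mem (A.pow_mem (A.mul_mem m5 m1) p) ma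
    convert A.add_mem (A.sub_mem (A.neg_mem (A.mul_mem mb (A.mul_mem m6 m2)))
      (A.mul_mem (A.mul_mem m3 ma) mb)) m7 using 1
    rw [zero_pow hp.ne_zero]
    ring
  generalize -((s * Ti) ^ p * (T * hi ^ p) * (W₁ * hi)) -
      half * (T * hi ^ p) * ((s * Ti) ^ p * (T * hi ^ p)) +
      half * T ^ 2 * (-(sd * Ti * hi * ci ^ p)) ^ p - T * (V₀ * hi * ci ^ p) ^ p = q at *
  have hU' : U ≤ Loc U ci := fun _ hz => Loc.base hz
  have hPE : P * (ci ^ p) ^ p ∈ Loc U ci := (Loc U ci).mul_mem (Loc.base (hU hP))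
    ((Loc U ci).pow_mem ((Loc U ci).pow_mem (Loc.inv U ci) _) _)
  obtain ⟨η, hη, hη'⟩ := Loc.glue p (U := Loc U ci) (d := T) (di := Ti) (e := H) (ei := hi)
    (X := q - P * (ci ^ p) ^ p)
    (η₁ := half * (s * Ti) ^ p * (W₁ * hi) ^ 2 + (W₂ * Ti) ^ p * (W₁ * hi) -
      ((W₂ * Ti) ^ p - V₀ * ci ^ p) ^ p * (W₁ * hi))
    (η₂ := (W₂ * Ti + s * Ti * (W₁ * hi)) * (W₁ * hi) ^ p)
    (hU' (hU hT)) (hU' (hU hH)) eT eh (hcopTH.mono (hU.trans hU'))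
    (by
      have m1 : Ti ∈ Loc (Loc U ci) Ti := Loc.inv _ _
      have m2 : ci ∈ Loc (Loc U ci) Ti := Loc.base (Loc.inv _ _)
      have m3 : half ∈ Loc (Loc U ci) Ti := Loc.base (hU' (hU hhalf))
      have m4 : T ∈ Loc (Loc U ci) Ti := Loc.base (hU' (hU hT))
      have m5 : H ∈ Loc (Loc U ci) Ti := Loc.base (hU' (hU hH))
      have m6 : W₁ ∈ Loc (Loc U ci) Ti := Loc.base (hU' hW₁)
      have m7 : P * (ci ^ p) ^ p ∈ Loc (Loc U ci) Ti := Loc.base hPE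
      generalize Loc (Loc U ci) Ti = A at m1 m2 m3 m4 m5 m6 m7 hy₀ ⊢
      have m8 := A.mul_mem (A.pow_mem m5 n) (A.pow_mem (A.pow_mem m1 p) p)
      convert A.sub_mem (A.sub_mem (A.sub_mem (A.mul_mem m3 (A.mul_mem (A.pow_mem m4 2)
        (A.pow_mem (A.mul_mem (A.pow_mem m1 p) (A.pow_mem m2 p)) p)))
        (A.mul_mem m3 (A.mul_mem m8 (A.pow_mem m6 2))))
        (A.mul_mem (A.pow_mem (A.sub_mem (A.mul_mem (A.pow_mem m1 p) hy₀) (A.mul_mem m8 m6)) p)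
          (A.add_mem m4 (A.mul_mem (A.pow_mem m5 (n + 1)) m6)))) m7 using 1
      linear_combination kH)
    (by
      have m1 : hi ∈ Loc (Loc U ci) hi := Loc.inv _ _
      have m2 : ci ∈ Loc (Loc U ci) hi := Loc.base (Loc.inv _ _)
      have m3 : half ∈ Loc (Loc U ci) hi := Loc.base (hU' (hU hhalf))
      have m4 : T ∈ Loc (Loc U ci) hi := Loc.base (hU' (hU hT))
      have m5 : H ∈ Loc (Loc U ci) hi := Loc.base (hU' (hU hH))
      have m6 : W₁ ∈ Loc (Loc U ci) hi := Loc.base (hU' hW₁)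
      have m7 : P * (ci ^ p) ^ p ∈ Loc (Loc U ci) hi := Loc.base hPE
      have m8 : W₂ ∈ Loc (Loc U ci) hi := Loc.base (hU' hW₂)
      have m9 : s ∈ Loc (Loc U ci) hi := Loc.base (hU' (hU hs))
      have m10 : sd ∈ Loc (Loc U ci) hi := Loc.base (hU' (hU hsd))
      have m11 : V₀ ∈ Loc (Loc U ci) hi := Loc.base (hU' (hU hV₀))
      have m12 : θ ∈ Loc (Loc U ci) hi := Loc.base (hU' (hU hθ))
      generalize Loc (Loc U ci) hi = A at m1 m2 m3 m4 m5 m6 m7 m8 m9 m10 m11 m12 ⊢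
      convert A.sub_mem (A.sub_mem (A.add_mem (A.mul_mem (A.mul_mem m3 (A.pow_mem m4 2))
        (A.pow_mem (A.mul_mem (A.mul_mem (A.pow_mem m1 2) (A.pow_mem m2 p))
          (A.add_mem (A.mul_mem m12 m5) (A.mul_mem (A.mul_mem (A.pow_mem m4 n) m9) m10))) p))
        (A.pow_mem (A.mul_mem (A.add_mem m8 (A.mul_mem m9 (A.mul_mem m6 m1)))
          (A.pow_mem m1 p)) p))
        (A.mul_mem m4 (A.pow_mem (A.mul_mem (A.mul_mem m11 m1) (A.pow_mem m2 p)) p))) m7 using 1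
      linear_combination kT)
    (by
      have m1 : hi ∈ Loc (Loc (Loc U ci) Ti) hi := Loc.inv _ _
      have m2 : Ti ∈ Loc (Loc (Loc U ci) Ti) hi := Loc.base (Loc.inv _ _)
      have m3 : ci ∈ Loc (Loc (Loc U ci) Ti) hi := Loc.base (Loc.base (Loc.inv _ _))
      have m4 : half ∈ Loc (Loc (Loc U ci) Ti) hi := Loc.base (Loc.base (hU' (hU hhalf)))
      have m5 : W₁ ∈ Loc (Loc (Loc U ci) Ti) hi := Loc.base (Loc.base (hU' hW₁))
      have m6 : W₂ ∈ Loc (Loc (Loc U ci) Ti) hi := Loc.base (Loc.base (hU' hW₂))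
      have m7 : s ∈ Loc (Loc (Loc U ci) Ti) hi := Loc.base (Loc.base (hU' (hU hs)))
      have m8 : V₀ ∈ Loc (Loc (Loc U ci) Ti) hi := Loc.base (Loc.base (hU' (hU hV₀)))
      generalize Loc (Loc (Loc U ci) Ti) hi = A at m1 m2 m3 m4 m5 m6 m7 m8 ⊢
      have mx := A.mul_mem m5 m1
      have mξ := A.pow_mem (A.mul_mem m6 m2) p
      exact A.sub_mem (A.add_mem (A.mul_mem (A.mul_mem m4 (A.pow_mem (A.mul_mem m7 m2) p))
        (A.pow_mem mx 2)) (A.mul_mem mξ mx))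
        (A.mul_mem (A.pow_mem (A.sub_mem mξ (A.mul_mem m8 (A.pow_mem m3 p))) p) mx))
    (by
      have m1 : hi ∈ Loc (Loc (Loc U ci) Ti) hi := Loc.inv _ _
      have m2 : Ti ∈ Loc (Loc (Loc U ci) Ti) hi := Loc.base (Loc.inv _ _)
      have m5 : W₁ ∈ Loc (Loc (Loc U ci) Ti) hi := Loc.base (Loc.base (hU' hW₁))
      have m6 : W₂ ∈ Loc (Loc (Loc U ci) Ti) hi := Loc.base (Loc.base (hU' hW₂))
      have m7 : s ∈ Loc (Loc (Loc U ci) Ti) hi := Loc.base (Loc.base (hU' (hU hs)))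
      generalize Loc (Loc (Loc U ci) Ti) hi = A at m1 m2 m5 m6 m7 ⊢
      have mx := A.mul_mem m5 m1
      exact A.mul_mem (A.add_mem (A.mul_mem m6 m2) (A.mul_mem (A.mul_mem m7 m2) mx))
        (A.pow_mem mx p))
  have hle : Loc (Loc (Loc U ci) Ti) hi ≤ Loc (Loc U (Ti * hi)) ci :=
    Loc.le (Loc.le (Loc.le (fun _ hz => Loc.base (Loc.base hz)) (Loc.inv _ _))
      (Loc.base (mTi U hU))) (Loc.base (mhi U hU))
  obtain ⟨η', -, hη''⟩ := Loc.glue p (U := U) (d := T * H) (di := Ti * hi) (e := sc) (ei := ci)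
    (X := q - P * (ci ^ p) ^ p) (η₁ := 0) (η₂ := η) (hU (U₀.mul_mem hT hH)) (hU hsc) edi ec
    (hcop.mono hU) hX hη' (Subring.zero_mem _) (hle hη)
  exact ⟨η', _, hη'', P, hP, by ring⟩

end Pool.Agent.P.MP_41a2b4_ag
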