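import Pool.Agent.P.MP_41a2b4_ag.CharP2

set_option autoImplicit false
set_option linter.unreachableTactic false
set_option linter.unusedTactic false

namespace Pool.Agent.P.MP_41a2b4_ag

open Finset P2

namespace PM

theorem fermat_sum (p : ℕ) [Fact p.Prime] {S : Type} [CommRing S] [CharP S p] (ξ : ℕ → S)
    {j : ℕ} (hj : j < p) : ∑ i ∈ range p, ξ i * (1 - ((j : S) - i) ^ (p - 1)) = ξ j := by
  have hp := (Fact.out : p.Prime)
  rw [sum_eq_single j]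
  · rw [sub_self, zero_pow (by have := hp.two_le; omega)]; ring
  · intro i hi hij
    have hne : (j : ZMod p) - i ≠ 0 := fun e => hij
      (CharP.natCast_injOn_Iio (ZMod p) p hj (mem_range.1 hi) (sub_eq_zero.1 e)).symm
    have h := congrArg (ZMod.castHom (dvd_refl p) S) (ZMod.pow_card_sub_one_eq_one hne)
    rw [map_pow, map_sub, map_natCast, map_natCast, map_one] at h
    rw [h]; ring
  · intro h; exact absurd (mem_range.2 hj) h

theorem exists_xi0 (p : ℕ) [Fact p.Prime] {L : Type} [CommRing L] [CharP L p] (V : Subring L)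
    (γ ϖi w : L) (ξ : ℕ → L) (N : ℕ) (hγ : γ ∈ V) (hϖi : ϖi ∈ V) (hw : w ∈ V) (hξ : ∀ j, ξ j ∈ V)
    (eξ : ∀ j < p, ξ j ^ p - ξ j = -(((j : L) - γ) * ϖi) ^ N) :
    ∃ x ∈ V, ∃ y ∈ V, -((w - γ) * ϖi) ^ N - (x ^ p - x) = (w ^ p - w) * y := by
  let γ' : V := ⟨γ, hγ⟩
  let ϖi' : V := ⟨ϖi, hϖi⟩
  let w' : V := ⟨w, hw⟩
  let ξ' : ℕ → V := fun j => ⟨ξ j, hξ j⟩
  let x : V := ∑ i ∈ range p, ξ' i * (1 - (w' - i) ^ (p - 1))
  refine ⟨x, x.2, exists_eq_wp_mul p V hw (-((w' - γ') * ϖi') ^ N - (x ^ p - x)).2 ?_⟩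
  intro j hj
  have e1 : ξ' j ^ p - ξ' j = -(((j : V) - γ') * ϖi') ^ N := Subtype.ext (by
    push_cast; exact eξ j hj)
  have := dvd_of_quot p V (w' - j) (-((w' - γ') * ϖi') ^ N - (x ^ p - x)) (by
    intro S _ _ f hf
    have hw : f w' = j := by simpa [sub_eq_zero] using hf
    have hx : f x = f (ξ' j) := by
      simp only [x, map_sum, map_mul, map_sub, map_pow, map_one, map_natCast, hw]
      exact fermat_sum p (fun i => f (ξ' i)) hj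
    have e2 := congrArg f e1
    simp only [map_neg, map_mul, map_sub, map_pow, map_natCast, hw, hx] at e2 ⊢
    rw [e2, sub_self])
  simpa using this

theorem mem_le {L : Type} [CommRing L] {V : Subring L} {H hi x : L} (e : H * hi = 1) (hH : H ∈ V)
    {k l : ℕ} (h : k ≤ l) (hx : x ∈ V) : H ^ l * hi ^ k * x ∈ V := by
  obtain ⟨m, rfl⟩ := Nat.exists_eq_add_of_le h
  rw [pow_add, mul_right_comm (H ^ k), ← mul_pow, e, one_pow, one_mul]
  exact mul_mem (pow_mem hH _) hx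

end PM

open PM in
/-- TASK PM. -/
theorem charP_mod (p : ℕ) [Fact p.Prime] {L : Type} [CommRing L] [CharP L p] (U₀ U : Subring L)
    (hU : U₀ ≤ U) (γ ϖ ϖi half : L) (ξ : ℕ → L) (T Ti hi W₁ W₂ : L)
    (hγ : γ ∈ U₀) (hϖ : ϖ ∈ U₀) (hϖi : ϖi ∈ U₀) (hhalf : half ∈ U₀)
    (hξ : ∀ j, ξ j ∈ U₀) (hT : T ∈ U₀) (hW₁ : W₁ ∈ U) (hW₂ : W₂ ∈ U)
    (eϖ : ϖ * ϖi = 1) (ehalf : 2 * half = 1)
    (eξ : ∀ j < p, ξ j ^ p - ξ j = -(((j : L) - γ) * ϖi) ^ (p ^ 3 - 1))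
    (eT : T * Ti = 1) (eh : hh p γ ϖ T * hi = 1)
    (r₁ : W₁ ^ p - (hh p γ ϖ T ^ p) ^ (p - 1) * W₁ = T)
    (r₂ : W₂ ^ p - (T ^ p) ^ (p - 1) * W₂ = -W₁) :
    ∃ η : L, ∃ φ ∈ U, ∃ P ∈ U₀, ∃ ρ ∈ U₀,
      qM p γ ϖ T Ti hi W₁ + (η ^ p - η) =
        φ + ρ * (hi ^ (p ^ 2 - 1)) ^ p - T * hi ^ p ^ 2 * (P * hi ^ (p ^ 2 - 1)) ^ p := by
  have hp := (Fact.out : p.Prime)
  have hp0 := hp.ne_zero
  have hp3 : 3 ≤ p := by
    by_contra h
    have h2 : p = 2 := by have := hp.two_le; omega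
    have h3 : ((p : ℕ) : L) = 0 := CharP.cast_eq_zero L p
    have : Nontrivial L := CharP.nontrivial_of_char_ne_one (R := L) hp.ne_one
    rw [h2] at h3
    push_cast at h3
    rw [h3, zero_mul] at ehalf
    exact zero_ne_one ehalf
  have hH0 : hh p γ ϖ T ∈ U₀ := by
    unfold hh
    repeat' first | assumption | apply mul_mem | apply pow_mem | apply add_mem | apply sub_mem
  have hcop := cop_T_hh p hγ hϖ hϖi hT eϖ
  obtain ⟨s, hs⟩ : ∃ s, s = γ * T + ϖ := ⟨_, rfl⟩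
  have hs0 : s ∈ U₀ := hs ▸ add_mem (mul_mem hγ hT) hϖ
  have F1 : hh p γ ϖ T = s ^ p - T ^ p * Ti * s := by
    rw [hh, ← hs, pred_pow (mul_comm T Ti ▸ eT) hp0]
  rw [qM, ← hs]
  generalize hh p γ ϖ T = H at *
  have eTk : ∀ k : ℕ, T ^ k * Ti ^ k = 1 := fun k => by rw [← mul_pow, eT, one_pow]
  have eHk : ∀ k : ℕ, H ^ k * hi ^ k = 1 := fun k => by rw [← mul_pow, eh, one_pow]
  have ehalf' : half ^ p = half := by
    have h1 : (2 : L) ^ p = 2 := by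
      rw [← one_add_one_eq_two, add_pow_char, one_pow]
    have h2 : 2 * half ^ p = 1 := by rw [← h1, ← mul_pow, ehalf, one_pow]
    linear_combination half * h2 - half ^ p * ehalf
  rw [pred_pow (mul_comm (H ^ p) _ ▸ eHk p) hp0] at r₁
  rw [pred_pow (mul_comm (T ^ p) _ ▸ eTk p) hp0] at r₂
  obtain ⟨w, hw⟩ : ∃ w, w = s * Ti := ⟨_, rfl⟩
  obtain ⟨G, hG⟩ : ∃ G, G = H * Ti ^ p := ⟨_, rfl⟩
  obtain ⟨x, hx⟩ : ∃ x, x = W₁ * hi ^ p := ⟨_, rfl⟩
  obtain ⟨a, ha⟩ : ∃ a, a = T * hi ^ p ^ 2 := ⟨_, rfl⟩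
  obtain ⟨z, hz⟩ : ∃ z, z = W₂ * Ti ^ p := ⟨_, rfl⟩
  obtain ⟨r, hr⟩ : ∃ r, r = -(Ti ^ p ^ 3 * T) := ⟨_, rfl⟩
  have F2 : w ^ p = w + G := by
    rw [hw, hG, F1]; linear_combination (Ti * s) * eTk p
  have F3 : x ^ p = x + a := by
    rw [hx, ha]; linear_combination hi ^ p ^ 2 * r₁ + W₁ * hi ^ p * eHk (p ^ 2)
  have F4 : (w ^ p) ^ p = w ^ p + G ^ p := by
    conv_lhs => rw [F2, add_pow_char]
  obtain ⟨β, hβ⟩ : ∃ β, β = (w ^ p) ^ p := ⟨_, rfl⟩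
  obtain ⟨G2, hG2⟩ : ∃ G2, G2 = (G ^ p) ^ p := ⟨_, rfl⟩
  have F5 : β ^ p = β + G2 := by
    conv_lhs => rw [hβ, F4, add_pow_char, ← hβ, ← hG2]
  have F6 : z ^ p = z - G ^ p * x := by
    rw [hz, hG, hx]
    linear_combination Ti ^ p ^ 2 * r₂ + W₂ * Ti ^ p * eTk (p ^ 2) + Ti ^ p ^ 2 * W₁ * eHk p
  have F7 : G2 * a = -r := by
    rw [hG2, hG, ha, hr]; linear_combination (Ti ^ p ^ 3 * T) * eHk (p ^ 2)
  obtain ⟨ζ, hζ⟩ : ∃ ζ, ζ = z ^ p := ⟨_, rfl⟩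
  have F8 : ζ ^ p = ζ + (r - G2 * x) := by
    conv_lhs => rw [hζ, F6, sub_pow_char, mul_pow, F3, ← hζ, ← hG2]
    linear_combination -F7
  have F9 : (ζ ^ p) ^ p = ζ ^ p + (r ^ p - (G2 * x) ^ p) := by
    conv_lhs => rw [F8, add_pow_char, sub_pow_char]
  have F10 : (z + w ^ p * x) ^ p = z + w ^ p * x + β * a := by
    rw [add_pow_char, mul_pow, F3, F6, hβ, F4]; ring
  have F11 : (x ^ p) ^ p = x + a + a ^ p := by
    conv_lhs => rw [F3, add_pow_char, F3]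
  have F12 : ((x ^ p) ^ p) ^ p = (x ^ p) ^ p + (a ^ p) ^ p := by
    conv_lhs => rw [F3, add_pow_char, add_pow_char]
  have hTi := Loc.inv U₀ Ti
  have hw0 : w ∈ Loc U₀ Ti := hw ▸ mul_mem (Loc.base hs0) hTi
  obtain ⟨x0, hx0, y, hy, F13⟩ := exists_xi0 p (Loc U₀ Ti) γ ϖi w ξ _ (Loc.base hγ) (Loc.base hϖi)
    hw0 (fun j => Loc.base (hξ j)) eξ
  have F14 : (w - γ) * ϖi = Ti := by
    rw [hw, hs]; linear_combination γ * ϖi * eT + Ti * eϖ
  rw [F14, pred_pow eT (pow_ne_zero 3 hp0), ← hr, F2] at F13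
  obtain ⟨δ, hδ⟩ : ∃ δ, δ = ζ - x0 := ⟨_, rfl⟩
  obtain ⟨D, hD⟩ : ∃ D, D = G * y - G2 * x := ⟨_, rfl⟩
  have F15 : δ ^ p = δ + D := by
    rw [hδ, hD, sub_pow_char, F8]; linear_combination F13
  have F16 : ((δ ^ p) ^ p) ^ p = (δ ^ p) ^ p + (D ^ p) ^ p := by
    conv_lhs => rw [F15, add_pow_char, add_pow_char]
  have F17 : (δ ^ p) ^ p = (ζ ^ p) ^ p - (x0 ^ p) ^ p := by
    rw [hδ, sub_pow_char, sub_pow_char]
  obtain ⟨al, hal, be, hbe, F18⟩ := hcop.pow hT hH0 (p - 1) p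
  rw [pred_pow (mul_comm T Ti ▸ eT) hp0] at F18
  have hq1 : p ^ 2 ≠ 0 := pow_ne_zero _ hp0
  obtain ⟨Ei, hEi⟩ : ∃ Ei, Ei = hi ^ (p ^ 2 - 1) := ⟨_, rfl⟩
  obtain ⟨V, hV⟩ : ∃ V, V = -(Ti ^ (p - 1) * hi ^ (p ^ 2 + p - 1)) := ⟨_, rfl⟩
  have hV' : V = -(Ti ^ p * T * (hi ^ (p ^ 2 + p) * H)) := by
    rw [hV, pred_pow eT hp0, pred_pow eh (by omega)]
  have hEi' : Ei = hi ^ p ^ 2 * H := by rw [hEi, pred_pow eh hq1]
  have F19 : V + hi ^ p * (al * Ei) = -(Ti ^ p * T * be) * Ei := by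
    rw [hV', hEi']
    linear_combination (Ti ^ p * T * hi ^ (p ^ 2 + p) * H) * F18
      - (Ti ^ p * T * be * hi ^ p ^ 2 * H) * eHk p
      - (hi ^ (p ^ 2 + p) * H * al * T * Ti) * eTk p - (hi ^ (p ^ 2 + p) * H * al) * eT
  have hβ' : β = (s * Ti) ^ p ^ 2 := by rw [hβ, hw]; ring
  rw [← hEi, ← hV, ← hβ', ← ha, ← hx]
  have hβ0 : β ∈ Loc U₀ Ti := hβ ▸ pow_mem (pow_mem hw0 _) _
  have hr0 : r ∈ Loc U₀ Ti := hr ▸ neg_mem (mul_mem (pow_mem hTi _) (Loc.base hT))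
  have hT0 : T ∈ Loc U₀ Ti := Loc.base hT
  have hH1 : H ∈ Loc U₀ Ti := Loc.base hH0
  have hh0 : half ∈ Loc U₀ Ti := Loc.base hhalf
  have hb0 : be ∈ Loc U₀ Ti := Loc.base hbe
  have eE : (H ^ (p ^ 2 - 1)) ^ p * Ei ^ p = 1 := by rw [← mul_pow, hEi, eHk, one_pow]
  have hle : 2 * p ^ 2 ≤ (p ^ 2 - 1) * p := by
    have : 2 * p ≤ p ^ 2 - 1 := by
      have : 3 * p ≤ p ^ 2 := by nlinarith
      omega
    nlinarith
  obtain ⟨ρ, hρ, F20⟩ := Loc.pf (U := U₀) (Ei := Ei ^ p) (f := half * β ^ p * a ^ 2 + (x0 ^ p) ^ p * a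
      - r ^ p * a - a * (β * a) + T * (V + hi ^ p * (al * Ei)) ^ p) hT
      (pow_mem (pow_mem hH0 (p ^ 2 - 1)) p) eT eE
      (by rw [← pow_mul]; simpa using hcop.symm.pow hH0 hT ((p ^ 2 - 1) * p) 1) (by
    have h1 := mem_le eh hH1 hle (x := (half * β ^ p - β) * T ^ 2) (by
      repeat' first | assumption | apply mul_mem | apply pow_mem | apply add_mem | apply sub_mem)
    have h2 := mem_le eh hH1 (k := p ^ 2) (le_trans (by omega) hle)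
      (x := ((x0 ^ p) ^ p - r ^ p) * T) (by
      repeat' first | assumption | apply mul_mem | apply pow_mem | apply add_mem | apply sub_mem)
    have h3 : T * (-(Ti ^ p * T * be)) ^ p ∈ Loc U₀ Ti := by
      repeat' first | assumption | apply mul_mem | apply pow_mem | apply neg_mem
    convert add_mem (add_mem h1 h2) h3 using 1
    rw [F19, mul_pow (-_), pow_mul H, ha]
    linear_combination (T * (-(Ti ^ p * T * be)) ^ p) * eE)
  have le0 : Loc U₀ Ti ≤ Loc U Ti := Loc.mono hU Ti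
  have le1 : Loc U Ti ≤ Loc (Loc U Ti) hi := fun _ h => Loc.base h
  have hhi := Loc.inv (Loc U Ti) hi
  have hx2 : x ∈ Loc (Loc U Ti) hi := hx ▸ mul_mem (Loc.base (Loc.base hW₁)) (pow_mem hhi _)
  have hz1 : z ∈ Loc U Ti := hz ▸ mul_mem (Loc.base hW₂) (pow_mem (le0 hTi) _)
  have hζ1 : ζ ∈ Loc U Ti := hζ ▸ pow_mem hz1 _
  have hδ1 : δ ∈ Loc U Ti := hδ ▸ sub_mem hζ1 (le0 hx0)
  suffices key : ∃ η ∈ Loc (Loc U Ti) hi, -(β * a * x) - a * (β * a) + T * V ^ p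
      + a * (al * Ei) ^ p - ρ * Ei ^ p + (η ^ p - η) ∈ U by
    obtain ⟨η, -, hη⟩ := key
    exact ⟨η, _, hη, al, hal, ρ, hρ, by ring⟩
  refine Loc.glue p (η₁ := half * β * x ^ 2 + ζ * x - (δ ^ p) ^ p * x)
      (η₂ := (z + w ^ p * x) * (x ^ p) ^ p) (hU hT) (hU hH0) eT eh (hcop.mono hU) ?_ ?_ ?_ ?_
  · have hTi' := le0 hTi
    have hW : W₁ ∈ Loc U Ti := Loc.base hW₁
    have hH2 := le0 hH1
    have hT2 := le0 hT0
    have hh2 := le0 hh0
    have hy2 := le0 hy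
    have h1 : (half - 1) * G2 * x ^ 2 ∈ Loc U Ti := by
      convert mem_le eh hH2 (k := 2 * p) (l := p ^ 2) (by nlinarith)
        (x := (half - 1) * Ti ^ p ^ 3 * W₁ ^ 2) (by
        repeat' first | assumption | apply mul_mem | apply pow_mem | apply sub_mem | apply one_mem)
        using 1
      rw [hG2, hG, hx]; ring
    have h2 : (G2 * x) ^ p * a ∈ Loc U Ti := by
      convert mem_le eh hH2 (k := 2 * p ^ 2) (l := p ^ 3) (by nlinarith)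
        (x := (Ti ^ p ^ 3 * W₁) ^ p * T) (by
        repeat' first | assumption | apply mul_mem | apply pow_mem) using 1
      rw [hG2, hG, hx, ha]; ring
    have h3 : D * hi ∈ Loc U Ti := by
      have h4 := mem_le eh hH2 (k := p + 1) (l := p ^ 2) (by nlinarith)
        (x := Ti ^ p ^ 3 * W₁) (mul_mem (pow_mem hTi' _) hW)
      convert sub_mem (mul_mem (pow_mem hTi' p) hy2) h4 using 1
      rw [hD, hG2, hG, hx]
      linear_combination (Ti ^ p * y) * eh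
    have h4 : (D ^ p) ^ p * (x + a) ∈ Loc U Ti := by
      have h5 := mem_le eh hH2 (k := p) (l := p ^ 2) (by nlinarith) hW
      convert mul_mem (pow_mem h3 (p ^ 2)) (add_mem h5 hT2) using 1
      rw [hx, ha]
      linear_combination (-(D ^ p ^ 2 * W₁ * hi ^ p)) * eHk (p ^ 2)
    convert add_mem (le0 F20) (sub_mem (add_mem h1 h2) h4) using 1
    rw [sub_pow_char, add_pow_char, add_pow_char, mul_pow, mul_pow, mul_pow, mul_pow (hi ^ p),
      mul_pow ((δ ^ p) ^ p), ehalf', pow_right_comm x 2 p, F16, F17, F9, F3]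
    have ha' : T * (hi ^ p) ^ p = a := by rw [ha]; ring
    linear_combination (-(al * Ei) ^ p) * ha' + x * F8 + (half * x ^ 2 + a * x) * F5
      + (β ^ p * a * x) * ehalf + x * F7 + ζ ^ p * F3
  · have hhi' := Loc.inv U hi
    have hT2 : T ∈ Loc U hi := Loc.base (hU hT)
    have hs2 : s ∈ Loc U hi := Loc.base (hU hs0)
    have hal2 : al ∈ Loc U hi := Loc.base (hU hal)
    have hρ2 : ρ ∈ Loc U hi := Loc.base (hU hρ)
    have hW1 : W₁ ∈ Loc U hi := Loc.base hW₁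
    have hW2 : W₂ ∈ Loc U hi := Loc.base hW₂
    have hE2 : Ei ∈ Loc U hi := hEi ▸ pow_mem hhi' _
    have ha2 : a ∈ Loc U hi := ha ▸ mul_mem hT2 (pow_mem hhi' _)
    have hx2 : x ∈ Loc U hi := hx ▸ mul_mem hW1 (pow_mem hhi' _)
    have h1 : (z + w ^ p * x) ^ p * (a ^ p) ^ p =
        (W₂ + s ^ p * x) ^ p * ((hi ^ p ^ 2) ^ p) ^ p := by
      have : z + w ^ p * x = (W₂ + s ^ p * x) * Ti ^ p := by rw [hz, hw]; ring
      rw [this, ha, mul_pow]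
      linear_combination ((W₂ + s ^ p * x) ^ p * ((hi ^ p ^ 2) ^ p) ^ p) * eTk (p ^ 2)
    have h2 : T * V ^ p + β * a * a ^ p = T * (hi ^ (p ^ 2 + p) * s) ^ p := by
      have e1 : hi ^ (p ^ 2 + p) * s = V + s ^ p * Ti ^ p * hi ^ p * T * hi ^ p ^ 2 := by
        rw [hV', F1]
        linear_combination (-(hi ^ (p ^ 2 + p) * s * T * Ti)) * eTk p - (hi ^ (p ^ 2 + p) * s) * eT
      rw [e1, add_pow_char, hβ', ha]; ring
    have h3 : a * (al * Ei) ^ p - ρ * Ei ^ p + T * (hi ^ (p ^ 2 + p) * s) ^ p +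
        (W₂ + s ^ p * x) ^ p * ((hi ^ p ^ 2) ^ p) ^ p ∈ Loc U hi := by
      repeat' first | assumption | apply mul_mem | apply pow_mem | apply add_mem | apply sub_mem
    convert h3 using 1
    rw [← h1, ← h2, mul_pow (z + w ^ p * x), F12]
    linear_combination ((x ^ p) ^ p) * F10 + (β * a) * F11
  · have h1 := le1 (le0 hβ0)
    have h2 := le1 (le0 hh0)
    have h3 := le1 hζ1
    have h4 := le1 hδ1
    repeat' first | assumption | apply mul_mem | apply pow_mem | apply add_mem | apply sub_mem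
  · have h1 := le1 (le0 hw0)
    have h2 := le1 hz1
    repeat' first | assumption | apply mul_mem | apply pow_mem | apply add_mem | apply sub_mem

end Pool.Agent.P.MP_41a2b4_ag
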