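import Pool.Agent.P.MP_41a2b4_ag.Loc

set_option autoImplicit false

namespace Pool.Agent.P.MP_41a2b4_ag

namespace CharPQ

variable {L : Type} [CommRing L] [CharP L 2]

theorem idH {a β r ξ ξ₀ x₁ : L} (h1 : x₁ ^ 2 + x₁ = a) (h2 : (β ^ 2 + β) * a = r)
    (h3 : ξ ^ 2 + ξ = r + (β ^ 2 + β) * x₁) :
    (a + β * a) * (ξ + β * x₁) + ((β * ξ * x₁ + (ξ + ξ₀) ^ 4 * x₁) ^ 2 -
      (β * ξ * x₁ + (ξ + ξ₀) ^ 4 * x₁)) = ((1 + β) * a * r + ξ₀ ^ 4 * a + r ^ 2 * a) +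
      ((β ^ 2 + β) * x₁ ^ 2 * (ξ ^ 2 + β + r) + ((ξ + ξ₀) ^ 2 + (ξ + ξ₀)) ^ 4 * (a + x₁)) := by
  grind

theorem idT {a b c x₁ x₂ μ m φ₁ : L} (h1 : x₁ ^ 2 + x₁ = a) (h2 : x₂ ^ 2 + x₂ = b)
    (h3 : (x₂ + μ + m) ^ 2 - (x₂ + μ + m) = φ₁ + c) :
    (a + b) * x₂ + (x₂ + μ + m) * ((x₂ + μ + m) ^ 2 - (x₂ + μ + m)) + φ₁ * c +
      (((μ + m + x₁) * x₂ + x₂ * x₁ ^ 4) ^ 2 - ((μ + m + x₁) * x₂ + x₂ * x₁ ^ 4)) =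
      (a ^ 2 * b + μ ^ 2 * b + (b + μ ^ 2 + μ) * (μ + c) + c ^ 2) +
      (x₂ ^ 2 * a ^ 4 + m ^ 2 * b + (b + μ ^ 2 + μ) * m + (m ^ 2 + m) * (μ + c + m)) := by
  have : φ₁ = (x₂ + μ + m) ^ 2 + (x₂ + μ + m) + c := by grind
  subst this h1 h2
  grind

theorem idXi {w γ u ξ₀ ξ₁ : L} (h0 : ξ₀ ^ 2 - ξ₀ = -((0 - γ) * u) ^ 7)
    (h1 : ξ₁ ^ 2 - ξ₁ = -((1 - γ) * u) ^ 7) :
    (ξ₀ * (1 + w) + ξ₁ * w) ^ 2 + (ξ₀ * (1 + w) + ξ₁ * w) = ((w + γ) * u) ^ 7 + (w ^ 2 + w) *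
      (ξ₀ ^ 2 + ξ₁ ^ 2 + u ^ 7 * (γ ^ 5 + γ ^ 4 * (1 + w) + γ ^ 3 * (1 + w + w ^ 2) +
        γ ^ 2 * (1 + w + w ^ 2 + w ^ 3) + γ * (1 + w + w ^ 2 + w ^ 3 + w ^ 4) +
        (1 + w + w ^ 2 + w ^ 3 + w ^ 4 + w ^ 5))) := by
  linear_combination (norm := (ring_nf; reduce_mod_char!)) (1 + w) * h0 + w * h1

/-- Reduction near `H = 0`. -/
theorem nearH {T Ti H hi s W₁ W₂ ξ₀ y : L} (eT : T * Ti = 1) (eh : H * hi = 1)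
    (eH : H = s ^ 2 - T * s) (r₁ : W₁ ^ 2 - H ^ 2 * W₁ = T) (r₂ : W₂ ^ 2 - T ^ 2 * W₂ = -W₁)
    (e₀ : ξ₀ ^ 2 + ξ₀ = Ti ^ 7 + ((s * Ti) ^ 2 + s * Ti) * y) :
    (T * hi ^ 4 + (s * Ti) ^ 4 * (T * hi ^ 4)) * (W₂ * Ti ^ 2 + (s * Ti) ^ 2 * (W₁ * hi ^ 2)) +
      (((s * Ti) ^ 4 * (W₂ * Ti ^ 2) ^ 2 * (W₁ * hi ^ 2) +
        ((W₂ * Ti ^ 2) ^ 2 + ξ₀) ^ 4 * (W₁ * hi ^ 2)) ^ 2 -
      ((s * Ti) ^ 4 * (W₂ * Ti ^ 2) ^ 2 * (W₁ * hi ^ 2) +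
        ((W₂ * Ti ^ 2) ^ 2 + ξ₀) ^ 4 * (W₁ * hi ^ 2))) =
      ((1 + (s * Ti) ^ 4) * T * Ti ^ 7 + ξ₀ ^ 4 * T + Ti ^ 14 * T) * hi ^ 4 +
      (Ti ^ 8 * W₁ ^ 2 * (((W₂ * Ti ^ 2) ^ 2) ^ 2 + (s * Ti) ^ 4 + Ti ^ 7) +
        (Ti ^ 2 * y + H * Ti ^ 8 * W₁) ^ 4 * (T + W₁ * H ^ 2)) := by
  have e1 : (s * Ti) ^ 2 + s * Ti = H * Ti ^ 2 := by grind
  have e2 : ((s * Ti) ^ 4) ^ 2 + (s * Ti) ^ 4 = H ^ 4 * Ti ^ 8 := by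
    linear_combination (norm := (ring_nf; reduce_mod_char!)) congrArg (· ^ 4) e1
  have e3 : ((s * Ti) ^ 2) ^ 2 + (s * Ti) ^ 2 = H ^ 2 * Ti ^ 4 := by
    linear_combination (norm := (ring_nf; reduce_mod_char!)) congrArg (· ^ 2) e1
  rw [e1] at e₀
  generalize s * Ti = w at *
  clear eH
  have h1 : (W₁ * hi ^ 2) ^ 2 + W₁ * hi ^ 2 = T * hi ^ 4 := by clear e₀ e1 e2 e3 r₂; grind
  have h2 : ((w ^ 4) ^ 2 + w ^ 4) * (T * hi ^ 4) = Ti ^ 7 := by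
    rw [e2]; clear e₀ e1 e2 e3 r₂ r₁ h1; grind
  have h4 : (W₂ * Ti ^ 2) ^ 2 + W₂ * Ti ^ 2 = W₁ * Ti ^ 4 := by clear e₀ e1 e2 e3 r₁ h1 h2; grind
  have h5 : W₂ * Ti ^ 2 + w ^ 2 * (W₁ * hi ^ 2) = (W₂ * Ti ^ 2) ^ 2 + w ^ 4 * (W₁ * hi ^ 2) := by
    linear_combination (norm := (ring_nf; reduce_mod_char!)) h4 + W₁ * hi ^ 2 * e3 +
      W₁ * Ti ^ 4 * (H * hi + 1) * eh
  have h6 : ((W₂ * Ti ^ 2) ^ 2) ^ 2 + (W₂ * Ti ^ 2) ^ 2 = Ti ^ 7 + H ^ 2 * Ti ^ 8 * W₁ := by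
    linear_combination (norm := (ring_nf; reduce_mod_char!)) congrArg (· ^ 2) h4 + Ti ^ 8 * r₁ +
      Ti ^ 7 * eT
  have h7 : ((w ^ 4) ^ 2 + w ^ 4) * (W₁ * hi ^ 2) = H ^ 2 * Ti ^ 8 * W₁ := by
    rw [e2]; linear_combination H ^ 2 * Ti ^ 8 * W₁ * (H * hi + 1) * eh
  have h8 : ((w ^ 4) ^ 2 + w ^ 4) * (W₁ * hi ^ 2) ^ 2 = Ti ^ 8 * W₁ ^ 2 := by
    rw [e2]; linear_combination Ti ^ 8 * W₁ ^ 2 * (H * hi + 1) * ((H * hi) ^ 2 + 1) * eh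
  have h9 : ((W₂ * Ti ^ 2) ^ 2 + ξ₀) ^ 2 + ((W₂ * Ti ^ 2) ^ 2 + ξ₀) =
      H * (Ti ^ 2 * y + H * Ti ^ 8 * W₁) := by
    linear_combination (norm := (ring_nf; reduce_mod_char!)) h6 + e₀
  have h10 : H ^ 4 * (T * hi ^ 4 + W₁ * hi ^ 2) = T + W₁ * H ^ 2 := by
    linear_combination (T * (H * hi + 1) * ((H * hi) ^ 2 + 1) + W₁ * H ^ 2 * (H * hi + 1)) * eh
  rw [h5, idH h1 h2 (h6.trans (by rw [h7])), h8, h9, mul_pow H, ← h10]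
  ring

theorem x_eq {T Ti H hi s u W₁ W₂ y : L} (eT : T * Ti = 1) (eh : H * hi = 1)
    (ey : H * u ^ 2 = 1 + T * y) (r₁ : W₁ ^ 2 - H ^ 2 * W₁ = T) :
    (W₂ + s ^ 2 * (W₁ * u ^ 4) ^ 8) * Ti ^ 2 = (W₂ + s ^ 2 * (W₁ * hi ^ 2)) * Ti ^ 2 +
      s ^ 2 * (hi ^ 4 + T * hi ^ 8 + T ^ 3 * hi ^ 16) * Ti +
        T ^ 14 * (s ^ 2 * (W₁ * hi ^ 2) ^ 8 * y ^ 16) := by
  have h1 : (W₁ * hi ^ 2) ^ 2 + W₁ * hi ^ 2 = T * hi ^ 4 := by clear ey; grind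
  have h2 : W₁ * u ^ 4 = W₁ * hi ^ 2 * (1 + T * y) ^ 2 := by
    rw [← ey]; linear_combination (-W₁ * u ^ 4 * (H * hi + 1)) * eh
  rw [h2]
  clear h2 ey r₁ eh
  generalize W₁ * hi ^ 2 = x₁ at *
  have h3 : x₁ ^ 8 = x₁ + T * hi ^ 4 + (T * hi ^ 4) ^ 2 + (T * hi ^ 4) ^ 4 := by
    rw [← h1]; clear h1 eT; grind
  have h4 : (x₁ * (1 + T * y) ^ 2) ^ 8 = x₁ ^ 8 + T ^ 16 * (x₁ ^ 8 * y ^ 16) := by
    linear_combination (norm := (ring_nf; reduce_mod_char!))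
  rw [h4]
  linear_combination s ^ 2 * Ti ^ 2 * h3 + (s ^ 2 * (hi ^ 4 + T * hi ^ 8 + T ^ 3 * hi ^ 16) * Ti +
    T ^ 14 * (s ^ 2 * x₁ ^ 8 * y ^ 16) * (T * Ti + 1)) * eT

theorem c_eq {T Ti H hi u y : L} (eT : T * Ti = 1) (eh : H * hi = 1)
    (ey : H * u ^ 2 = 1 + T * y) :
    H ^ 2 * (T * ((H ^ 2) ^ 3 * (u ^ 4) ^ 4) ^ 2 + (T * ((H ^ 2) ^ 3 * (u ^ 4) ^ 4) ^ 2) ^ 2) *
      Ti ^ 4 = T * (Ti ^ 2 * hi) ^ 2 + (Ti * hi ^ 3) ^ 2 +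
        (T ^ 13 * hi ^ 2 * y ^ 16 + T ^ 30 * hi ^ 6 * y ^ 32) := by
  have h1 : (H ^ 2) ^ 3 * (u ^ 4) ^ 4 = hi ^ 2 * (1 + T * y) ^ 8 := by
    rw [← ey]; linear_combination (-H ^ 6 * u ^ 16 * (H * hi + 1)) * eh
  have h2 : (1 + T * y) ^ 8 = 1 + T ^ 8 * y ^ 8 := by
    linear_combination (norm := (ring_nf; reduce_mod_char!))
  rw [h1, h2]
  clear h1 h2 ey
  have h3 : (1 + T ^ 8 * y ^ 8) ^ 2 = 1 + T ^ 16 * y ^ 16 := by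
    linear_combination (norm := (ring_nf; reduce_mod_char!))
  have h4 : (1 + T ^ 16 * y ^ 16) ^ 2 = 1 + T ^ 32 * y ^ 32 := by
    linear_combination (norm := (ring_nf; reduce_mod_char!))
  have e2 : H ^ 2 * hi ^ 2 = 1 := by rw [← mul_pow, eh, one_pow]
  have e3 : T ^ 2 * Ti ^ 2 = 1 := by rw [← mul_pow, eT, one_pow]
  have e4 : T ^ 4 * Ti ^ 4 = 1 := by rw [← mul_pow, eT, one_pow]
  rw [mul_pow (hi ^ 2), h3, mul_pow T, mul_pow ((hi ^ 2) ^ 2), h4]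
  linear_combination (T * hi ^ 2 * (1 + T ^ 16 * y ^ 16) + T ^ 2 * hi ^ 6 *
    (1 + T ^ 32 * y ^ 32)) * Ti ^ 4 * e2 + (T ^ 13 * hi ^ 2 * y ^ 16 + T ^ 30 * hi ^ 6 * y ^ 32) * e4
    + Ti ^ 2 * hi ^ 6 * e3

theorem x2_eq {T Ti H hi s W₁ W₂ : L} (eT : T * Ti = 1) (eh : H * hi = 1)
    (eH : H = s ^ 2 - T * s) (r₁ : W₁ ^ 2 - H ^ 2 * W₁ = T) (r₂ : W₂ ^ 2 - T ^ 2 * W₂ = -W₁) :
    ((W₂ + s ^ 2 * (W₁ * hi ^ 2)) * Ti ^ 2) ^ 2 + (W₂ + s ^ 2 * (W₁ * hi ^ 2)) * Ti ^ 2 =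
      (s * Ti) ^ 4 * (T * hi ^ 4) := by
  have h1 : (W₁ * hi ^ 2) ^ 2 + W₁ * hi ^ 2 = T * hi ^ 4 := by clear eH r₂; grind
  have e1 : (s * Ti) ^ 2 + s * Ti = H * Ti ^ 2 := by clear h1 r₁ r₂ eh; grind
  have e3 : ((s * Ti) ^ 2) ^ 2 + (s * Ti) ^ 2 = H ^ 2 * Ti ^ 4 := by
    linear_combination (norm := (ring_nf; reduce_mod_char!)) congrArg (· ^ 2) e1
  have h4 : (W₂ * Ti ^ 2) ^ 2 + W₂ * Ti ^ 2 = W₁ * Ti ^ 4 := by clear e1 e3 r₁ h1 eH; grind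
  linear_combination (norm := (ring_nf; reduce_mod_char!)) h4 + (s * Ti) ^ 4 * h1 +
    W₁ * hi ^ 2 * e3 + W₁ * Ti ^ 4 * (H * hi + 1) * eh

theorem core (U₀ U : Subring L) (hU : U₀ ≤ U) {T Ti H hi s u y z ξ₀ W₁ W₂ φ₁ x c : L}
    (hs : s ∈ U₀) (hH : H ∈ U₀) (hu : u ∈ U₀) (hy : y ∈ U₀) (hT : T ∈ U₀)
    (hξ₀ : ξ₀ ∈ Loc U₀ Ti) (hz : z ∈ Loc U₀ Ti) (hW₁ : W₁ ∈ U) (hW₂ : W₂ ∈ U) (hφ₁ : φ₁ ∈ U)
    (eT : T * Ti = 1) (eh : H * hi = 1) (eH : H = s ^ 2 - T * s) (ey : H * u ^ 2 = 1 + T * y)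
    (e₀ : ξ₀ ^ 2 + ξ₀ = Ti ^ 7 + ((s * Ti) ^ 2 + s * Ti) * z) (hcop : Cop U₀ T H)
    (r₁ : W₁ ^ 2 - H ^ 2 * W₁ = T) (r₂ : W₂ ^ 2 - T ^ 2 * W₂ = -W₁)
    (ex : x = (W₂ + s ^ 2 * (W₁ * u ^ 4) ^ 8) * Ti ^ 2)
    (ec : c = H ^ 2 * (T * ((H ^ 2) ^ 3 * (u ^ 4) ^ 4) ^ 2 +
      (T * ((H ^ 2) ^ 3 * (u ^ 4) ^ 4) ^ 2) ^ 2) * Ti ^ 4)
    (eφ : x ^ 2 - x = φ₁ + c) :
    ∃ η : L, ∃ φ ∈ U, ∃ P ∈ U₀, ∃ ρ ∈ U₀,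
      (T * hi ^ 4 + (s * Ti) ^ 4 * (T * hi ^ 4)) * (W₂ * Ti ^ 2 + (s * Ti) ^ 2 * (W₁ * hi ^ 2))
        + T * hi ^ 4 * (W₁ * hi ^ 2) + T * ((Ti * hi) ^ 6) ^ 2 + (η ^ 2 - η) =
        T * hi ^ 4 * (W₁ * hi ^ 2) + x * (x ^ 2 - x) + φ₁ * c + T * hi ^ 4 * c
          + (c + T * hi ^ 4) * (P * (Ti * hi) ^ 4) ^ 2 + ρ * ((Ti * hi) ^ 4) ^ 2 + φ := by
  have : Fact (Nat.Prime 2) := ⟨Nat.prime_two⟩
  obtain ⟨al, hal, be, hbe, eb⟩ := hcop.pow hT hH 2 2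
  have eb2 : al ^ 2 * T ^ 4 + be ^ 2 * H ^ 4 = 1 := by
    linear_combination (norm := (ring_nf; reduce_mod_char!)) congrArg (· ^ 2) eb
  obtain ⟨P, eP⟩ : ∃ P, P = al ^ 2 * T ^ 2 + be ^ 2 * H ^ 3 := ⟨_, rfl⟩
  have hP : P ∈ U₀ := by
    rw [eP]; repeat' first | assumption | apply pow_mem | apply add_mem | apply mul_mem
  have eT2 : T ^ 2 * Ti ^ 2 = 1 := by rw [← mul_pow, eT, one_pow]
  have eT4 : T ^ 4 * Ti ^ 4 = 1 := by rw [← mul_pow, eT, one_pow]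
  have eT8 : T ^ 8 * Ti ^ 8 = 1 := by rw [← mul_pow, eT, one_pow]
  have eh4 : H ^ 4 * hi ^ 4 = 1 := by rw [← mul_pow, eh, one_pow]
  have eh6 : H ^ 6 * hi ^ 6 = 1 := by rw [← mul_pow, eh, one_pow]
  have eh8 : H ^ 8 * hi ^ 8 = 1 := by rw [← mul_pow, eh, one_pow]
  have ec' := ec.trans (c_eq eT eh ey)
  have ex' := ex.trans (x_eq eT eh ey r₁)
  obtain ⟨p, ep⟩ : ∃ p, p = H ^ 2 * (T * ((H ^ 2) ^ 3 * (u ^ 4) ^ 4) ^ 2 +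
      (T * ((H ^ 2) ^ 3 * (u ^ 4) ^ 4) ^ 2) ^ 2) := ⟨_, rfl⟩
  have hp : p ∈ U₀ := by
    rw [ep]; repeat' first | assumption | apply pow_mem | apply add_mem | apply mul_mem
  rw [← ep] at ec
  -- near `H = 0`
  obtain ⟨ρ₁, hρ₁, g₁⟩ : ∃ ρ₁ ∈ U₀,
      ((1 + (s * Ti) ^ 4) * T * Ti ^ 7 + ξ₀ ^ 4 * T + Ti ^ 14 * T) * hi ^ 4 + T * hi ^ 4 * c +
        c * (P * (Ti * hi) ^ 4) ^ 2 + T * ((Ti * hi) ^ 6 + hi ^ 2 * (P * (Ti * hi) ^ 4)) ^ 2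
        - ρ₁ * hi ^ 8 ∈ Loc U₀ Ti := by
    refine Loc.pf hT (pow_mem hH 8) eT eh8 (by simpa using hcop.symm.pow hH hT 8 1) ?_
    have a1 : P * (Ti * hi) ^ 4 * H ^ 4 = P * Ti ^ 4 := by linear_combination P * Ti ^ 4 * eh4
    have a2 : ((Ti * hi) ^ 6 + hi ^ 2 * (P * (Ti * hi) ^ 4)) * H ^ 4 =
        Ti ^ 6 * H * be ^ 2 * (H + T ^ 2) := by
      rw [eP]
      linear_combination (norm := (ring_nf; reduce_mod_char!)) Ti ^ 6 * hi ^ 6 * H ^ 4 * eb2 +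
        (al ^ 2 * T ^ 2 + be ^ 2 * H ^ 3) * Ti ^ 4 * hi ^ 6 * H ^ 4 * eT2 +
        Ti ^ 6 * H * be ^ 2 * (H + T ^ 2) * eh6
    have a3 : (((1 + (s * Ti) ^ 4) * T * Ti ^ 7 + ξ₀ ^ 4 * T + Ti ^ 14 * T) * hi ^ 4 +
        T * hi ^ 4 * c + c * (P * (Ti * hi) ^ 4) ^ 2 +
        T * ((Ti * hi) ^ 6 + hi ^ 2 * (P * (Ti * hi) ^ 4)) ^ 2) * H ^ 8 =
        ((1 + (s * Ti) ^ 4) * T * Ti ^ 7 + ξ₀ ^ 4 * T + Ti ^ 14 * T + T * c) * H ^ 4 +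
        c * (P * Ti ^ 4) ^ 2 + T * (Ti ^ 6 * H * be ^ 2 * (H + T ^ 2)) ^ 2 := by
      rw [← a1, ← a2]
      linear_combination ((1 + (s * Ti) ^ 4) * T * Ti ^ 7 + ξ₀ ^ 4 * T + Ti ^ 14 * T + T * c) *
        H ^ 4 * eh4
    rw [a3, ec]
    have := Loc.inv U₀ Ti
    have := (Loc U₀ Ti).one_mem
    repeat' first | assumption | apply pow_mem | apply add_mem | apply mul_mem | apply Loc.base
  -- near `T = 0`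
  obtain ⟨μ, eμ⟩ : ∃ μ, μ = s ^ 2 * (hi ^ 4 + T * hi ^ 8 + T ^ 3 * hi ^ 16) * Ti := ⟨_, rfl⟩
  obtain ⟨b, eb⟩ : ∃ b, b = (s * Ti) ^ 4 * (T * hi ^ 4) := ⟨_, rfl⟩
  obtain ⟨y₀, ey₀⟩ : ∃ y₀, y₀ = T ^ 13 * hi ^ 2 * y ^ 16 + T ^ 30 * hi ^ 6 * y ^ 32 := ⟨_, rfl⟩
  rw [← eμ] at ex'
  rw [← ey₀] at ec'
  have m0 := Loc.inv U₀ hi
  have m1 : μ * T ∈ Loc U₀ hi := by
    rw [show μ * T = s ^ 2 * (hi ^ 4 + T * hi ^ 8 + T ^ 3 * hi ^ 16) by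
      rw [eμ]; linear_combination s ^ 2 * (hi ^ 4 + T * hi ^ 8 + T ^ 3 * hi ^ 16) * eT]
    repeat' first | assumption | apply pow_mem | apply add_mem | apply mul_mem | apply Loc.base
  have m2 : b * T ^ 3 ∈ Loc U₀ hi := by
    rw [show b * T ^ 3 = s ^ 4 * hi ^ 4 by rw [eb]; linear_combination s ^ 4 * hi ^ 4 * eT4]
    repeat' first | assumption | apply pow_mem | apply add_mem | apply mul_mem | apply Loc.base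
  have m3 : c * T ^ 4 ∈ Loc U₀ hi := by
    rw [show c * T ^ 4 = p by rw [ec]; linear_combination p * eT4]
    exact Loc.base hp
  have m4 : y₀ ∈ Loc U₀ hi := by
    rw [ey₀]
    repeat' first | assumption | apply pow_mem | apply add_mem | apply mul_mem | apply Loc.base
  obtain ⟨ρ₂, hρ₂, g₂⟩ : ∃ ρ₂ ∈ U₀,
      ((T * hi ^ 4) ^ 2 * b + μ ^ 2 * b + (b + μ ^ 2 + μ) * (μ + c) + c ^ 2) + T * hi ^ 4 * c +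
        (y₀ + T * hi ^ 4) * (P * (Ti * hi) ^ 4) ^ 2 + Ti * hi ^ 3 * (P * (Ti * hi) ^ 4) +
        T * ((Ti * hi) ^ 6 + Ti ^ 2 * hi * (P * (Ti * hi) ^ 4)) ^ 2
        - ρ₂ * Ti ^ 8 ∈ Loc U₀ hi := by
    refine Loc.pf hH (pow_mem hT 8) eh eT8 (by simpa using hcop.pow hT hH 8 1) ?_
    have a1 : P * (Ti * hi) ^ 4 * T ^ 4 = P * hi ^ 4 := by linear_combination P * hi ^ 4 * eT4
    have a2 : ((Ti * hi) ^ 6 + Ti ^ 2 * hi * (P * (Ti * hi) ^ 4)) * T ^ 4 =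
        hi ^ 6 * al ^ 2 * (T ^ 2 + H) := by
      rw [eP]
      linear_combination (norm := (ring_nf; reduce_mod_char!)) Ti ^ 6 * hi ^ 6 * T ^ 4 * eb2 +
        (al ^ 2 * T ^ 2 + be ^ 2 * H ^ 3) * Ti ^ 6 * hi ^ 5 * T ^ 4 * eh +
        hi ^ 6 * al ^ 2 * (T ^ 2 + H) * (T ^ 2 * Ti ^ 2 * eT4 + eT2)
    have a3 : (((T * hi ^ 4) ^ 2 * b + μ ^ 2 * b + (b + μ ^ 2 + μ) * (μ + c) + c ^ 2) +
        T * hi ^ 4 * c +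
        (y₀ + T * hi ^ 4) * (P * (Ti * hi) ^ 4) ^ 2 + Ti * hi ^ 3 * (P * (Ti * hi) ^ 4) +
        T * ((Ti * hi) ^ 6 + Ti ^ 2 * hi * (P * (Ti * hi) ^ 4)) ^ 2) * T ^ 8 =
        (T * hi ^ 4) ^ 2 * (b * T ^ 3) * T ^ 5 + (μ * T) ^ 2 * (b * T ^ 3) * T ^ 3 +
        ((b * T ^ 3) * T + (μ * T) ^ 2 * T ^ 2 + (μ * T) * T ^ 3) * ((μ * T) * T ^ 3 + c * T ^ 4)
        + (c * T ^ 4) ^ 2 + T * hi ^ 4 * (c * T ^ 4) * T ^ 4 + (y₀ + T * hi ^ 4) * (P * hi ^ 4) ^ 2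
        + T ^ 3 * hi ^ 3 * (P * hi ^ 4) + T * (hi ^ 6 * al ^ 2 * (T ^ 2 + H)) ^ 2 := by
      rw [← a1, ← a2]
      linear_combination T ^ 7 * hi ^ 3 * (P * (Ti * hi) ^ 4) * eT
    rw [a3]
    repeat' first | assumption | apply pow_mem | apply add_mem | apply mul_mem | apply Loc.base
  have hs := hU hs
  have hH' := hU hH
  have hu := hU hu
  have hy := hU hy
  have hT' := hU hT
  have hP' := hU hP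
  have hp := hU hp
  have hρ₁' := hU hρ₁
  have hρ₂' := hU hρ₂
  have hξ₀ := Loc.mono hU Ti hξ₀
  have hz := Loc.mono hU Ti hz
  refine Exists.elim (Loc.glue 2 (U := U) (X :=
      (T * hi ^ 4 + (s * Ti) ^ 4 * (T * hi ^ 4)) * (W₂ * Ti ^ 2 + (s * Ti) ^ 2 * (W₁ * hi ^ 2))
        + T * ((Ti * hi) ^ 6) ^ 2 - (x * (x ^ 2 - x) + φ₁ * c + T * hi ^ 4 * c
          + (c + T * hi ^ 4) * (P * (Ti * hi) ^ 4) ^ 2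
          + (ρ₁ * T ^ 8 + ρ₂ * H ^ 8) * ((Ti * hi) ^ 4) ^ 2))
      (η₁ := (s * Ti) ^ 4 * (W₂ * Ti ^ 2) ^ 2 * (W₁ * hi ^ 2) +
        ((W₂ * Ti ^ 2) ^ 2 + ξ₀) ^ 4 * (W₁ * hi ^ 2))
      (η₂ := ((μ + T ^ 14 * (s ^ 2 * (W₁ * hi ^ 2) ^ 8 * y ^ 16) + W₁ * hi ^ 2) *
        ((W₂ + s ^ 2 * (W₁ * hi ^ 2)) * Ti ^ 2) + (W₂ + s ^ 2 * (W₁ * hi ^ 2)) * Ti ^ 2 *
        (W₁ * hi ^ 2) ^ 4) + Ti * hi ^ 3 * (P * (Ti * hi) ^ 4))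
      hT' hH' eT eh (hcop.mono hU) ?_ ?_ ?_ ?_) fun η hη => ?_
  rotate_right
  · refine ⟨η, _, hη.2, P, hP, ρ₁ * T ^ 8 + ρ₂ * H ^ 8, ?_, by ring⟩
    repeat' first | assumption | apply pow_mem | apply add_mem | apply mul_mem
  · have hx : x ∈ Loc U Ti := by
      rw [ex]
      have := Loc.inv U Ti
      repeat' first | assumption | apply pow_mem | apply add_mem | apply mul_mem | apply Loc.base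
    have hc : c ∈ Loc U Ti := by
      rw [ec]
      have := Loc.inv U Ti
      repeat' first | assumption | apply pow_mem | apply add_mem | apply mul_mem | apply Loc.base
    have hr : (Ti ^ 8 * W₁ ^ 2 * (((W₂ * Ti ^ 2) ^ 2) ^ 2 + (s * Ti) ^ 4 + Ti ^ 7) +
        (Ti ^ 2 * z + H * Ti ^ 8 * W₁) ^ 4 * (T + W₁ * H ^ 2)) + x * (x ^ 2 + x) + φ₁ * c +
        ρ₂ * Ti ^ 8 ∈ Loc U Ti := by
      have := Loc.inv U Ti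
      repeat' first | assumption | apply pow_mem | apply add_mem | apply mul_mem | apply Loc.base
    convert add_mem (Loc.mono hU Ti g₁) hr using 1
    have := nearH eT eh eH r₁ r₂ e₀
    generalize (s * Ti) ^ 4 * (W₂ * Ti ^ 2) ^ 2 * (W₁ * hi ^ 2) +
        ((W₂ * Ti ^ 2) ^ 2 + ξ₀) ^ 4 * (W₁ * hi ^ 2) = η₁ at *
    generalize (Ti ^ 2 * z + H * Ti ^ 8 * W₁) ^ 4 = k at *
    linear_combination (norm := (ring_nf; reduce_mod_char!)) this + ρ₁ * hi ^ 8 * eT8 +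
      ρ₂ * Ti ^ 8 * eh8
  · have h1 : (W₁ * hi ^ 2) ^ 2 + W₁ * hi ^ 2 = T * hi ^ 4 := by
      linear_combination (norm := (ring_nf; reduce_mod_char!)) hi ^ 4 * r₁ +
        W₁ * hi ^ 2 * (H * hi + 1) * eh
    have h2 := x2_eq eT eh eH r₁ r₂
    rw [← eb] at h2
    have m5 : (W₂ + s ^ 2 * (W₁ * hi ^ 2)) * Ti ^ 2 * T ^ 2 ∈ Loc U hi := by
      rw [mul_assoc, mul_comm _ (T ^ 2), eT2, mul_one]
      have := Loc.inv U hi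
      repeat' first | assumption | apply pow_mem | apply add_mem | apply mul_mem | apply Loc.base
    have m6 : s ^ 2 * (W₁ * hi ^ 2) ^ 8 * y ^ 16 ∈ Loc U hi := by
      have := Loc.inv U hi
      repeat' first | assumption | apply pow_mem | apply add_mem | apply mul_mem | apply Loc.base
    rw [show W₂ * Ti ^ 2 + (s * Ti) ^ 2 * (W₁ * hi ^ 2) = (W₂ + s ^ 2 * (W₁ * hi ^ 2)) * Ti ^ 2 by
      ring, ← eb]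
    generalize (W₂ + s ^ 2 * (W₁ * hi ^ 2)) * Ti ^ 2 = x₂ at *
    generalize s ^ 2 * (W₁ * hi ^ 2) ^ 8 * y ^ 16 = Y at *
    generalize W₁ * hi ^ 2 = x₁ at *
    have h3 := idT h1 h2 (ex' ▸ eφ)
    rw [← ex'] at h3
    have m1 := Loc.mono hU hi m1
    have m2 := Loc.mono hU hi m2
    have m3 := Loc.mono hU hi m3
    have hr : (x₂ * T ^ 2) ^ 2 * hi ^ 16 + T ^ 25 * Y ^ 2 * (b * T ^ 3) +
        ((b * T ^ 3) * T ^ 11 + (μ * T) ^ 2 * T ^ 12 + (μ * T) * T ^ 13) * Y +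
        (T ^ 14 * Y + 1) * (T ^ 13 * Y * (μ * T) + T ^ 10 * Y * (c * T ^ 4) + (T ^ 14 * Y) ^ 2) +
        ρ₁ * hi ^ 8 ∈ Loc U hi := by
      have := Loc.inv U hi
      have := (Loc U hi).one_mem
      repeat' first | assumption | apply pow_mem | apply add_mem | apply mul_mem | apply Loc.base
    convert add_mem (Loc.mono hU hi g₂) hr using 1
    generalize (μ + T ^ 14 * Y + x₁) * x₂ + x₂ * x₁ ^ 4 = η₂ at *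
    linear_combination (norm := (ring_nf; reduce_mod_char!)) h3 + ρ₁ * hi ^ 8 * eT8 +
      ρ₂ * Ti ^ 8 * eh8 + (P * (Ti * hi) ^ 4) ^ 2 * ec'
  · have := Loc.inv (Loc U Ti) hi
    have := Loc.inv U Ti
    repeat' first | assumption | apply pow_mem | apply add_mem | apply mul_mem | apply Loc.base
  · have := Loc.inv (Loc U Ti) hi
    have := Loc.inv U Ti
    rw [eμ]
    repeat' first | assumption | apply pow_mem | apply add_mem | apply mul_mem | apply Loc.base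

end CharPQ

/-- TASK PQ. -/
theorem charP_quat {L : Type} [CommRing L] [CharP L 2] (U₀ U : Subring L)
    (hU : U₀ ≤ U) (γ ϖ ϖi : L) (ξ : ℕ → L) (T Ti hi W₁ W₂ φ₁ x c : L)
    (hγ : γ ∈ U₀) (hϖ : ϖ ∈ U₀) (hϖi : ϖi ∈ U₀)
    (hξ : ∀ j, ξ j ∈ U₀) (hT : T ∈ U₀) (hW₁ : W₁ ∈ U) (hW₂ : W₂ ∈ U) (hφ₁ : φ₁ ∈ U)
    (eϖ : ϖ * ϖi = 1)
    (eξ : ∀ j < 2, ξ j ^ 2 - ξ j = -(((j : L) - γ) * ϖi) ^ 7)
    (eT : T * Ti = 1) (eh : hh 2 γ ϖ T * hi = 1)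
    (r₁ : W₁ ^ 2 - hh 2 γ ϖ T ^ 2 * W₁ = T) (r₂ : W₂ ^ 2 - T ^ 2 * W₂ = -W₁)
    (ex : x = (W₂ + eta2 2 1 γ ϖ ϖi T W₁) * Ti ^ 2) (ec : c = pol2 2 1 γ ϖ ϖi T * Ti ^ 4)
    (eφ : x ^ 2 - x = φ₁ + c) :
    ∃ η : L, ∃ φ ∈ U, ∃ P ∈ U₀, ∃ ρ ∈ U₀,
      qQ γ ϖ T Ti hi W₁ W₂ + (η ^ 2 - η) =
        T * hi ^ 4 * (W₁ * hi ^ 2) + x * (x ^ 2 - x) + φ₁ * c + T * hi ^ 4 * c
          + (c + T * hi ^ 4) * (P * (Ti * hi) ^ 4) ^ 2 + ρ * ((Ti * hi) ^ 4) ^ 2 + φ := by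
  have : Fact (Nat.Prime 2) := ⟨Nat.prime_two⟩
  have eH : hh 2 γ ϖ T = (γ * T + ϖ) ^ 2 - T * (γ * T + ϖ) := by simp [hh]
  have hs : γ * T + ϖ ∈ U₀ := add_mem (mul_mem hγ hT) hϖ
  have h0 := eξ 0 (by norm_num)
  have h1 := eξ 1 (by norm_num)
  rw [Nat.cast_zero] at h0
  rw [Nat.cast_one] at h1
  have e₀ := CharPQ.idXi (w := (γ * T + ϖ) * Ti) h0 h1
  rw [show ((γ * T + ϖ) * Ti + γ) * ϖi = Ti by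
    linear_combination (norm := (ring_nf; reduce_mod_char!)) γ * ϖi * eT + Ti * eϖ] at e₀
  have a0 := hξ 0
  have a1 := hξ 1
  have a2 := Loc.inv U₀ Ti
  have a3 := (Loc U₀ Ti).one_mem
  refine CharPQ.core U₀ U hU (u := ϖi) (y := (γ ^ 2 * T + (γ * T + ϖ)) * ϖi ^ 2) hs
    (by rw [eH]; exact sub_mem (pow_mem hs 2) (mul_mem hT hs)) hϖi ?_ hT ?_ ?_ hW₁ hW₂ hφ₁ eT eh eH
    ?_ e₀ (cop_T_hh 2 hγ hϖ hϖi hT eϖ) r₁ r₂ ?_ ?_ eφ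
  · repeat' first | assumption | apply pow_mem | apply add_mem | apply mul_mem
  · repeat' first | assumption | apply pow_mem | apply add_mem | apply mul_mem | apply Loc.base
  · repeat' first | assumption | apply pow_mem | apply add_mem | apply mul_mem | apply Loc.base
  · rw [eH]
    linear_combination (norm := (ring_nf; reduce_mod_char!)) (ϖ * ϖi + 1) * eϖ
  · rw [ex]; norm_num [eta2]
  · rw [ec]; norm_num [pol2, Finset.sum_range_succ]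

end Pool.Agent.P.MP_41a2b4_ag
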