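import Pool.Agent.P.MP_41a2b4_ag.Kum

set_option autoImplicit false

namespace Pool.Agent.P.MP_41a2b4_ag

open Polynomial

/-- Truncated exponential with coefficients `f`. -/
def cycEx (p : ℕ) {S : Type*} [CommRing S] (f : ℕ → S) (u : S) : S :=
  ∑ i ∈ Finset.range p, f i * u ^ i

/-- The coefficients are inverse factorials. -/
def CycInv (p : ℕ) {S : Type*} [CommRing S] (f : ℕ → S) : Prop :=
  ∀ i < p, f i * (i.factorial : S) = 1

section Basic

variable {p : ℕ} {S S' : Type*} [CommRing S] [CommRing S'] {f : ℕ → S}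

theorem map_cycEx (g : S →+* S') (f : ℕ → S) (u : S) :
    g (cycEx p f u) = cycEx p (fun i => g (f i)) (g u) := by
  simp [cycEx, map_sum]

theorem CycInv.map (hf : CycInv p f) (g : S →+* S') : CycInv p (fun i => g (f i)) := by
  intro i hi
  have := congrArg g (hf i hi)
  simpa using this

theorem CycInv.zero (hf : CycInv p f) (hp : 2 ≤ p) : f 0 = 1 := by
  simpa using hf 0 (by omega)

theorem CycInv.one (hf : CycInv p f) (hp : 2 ≤ p) : f 1 = 1 := by
  simpa using hf 1 (by omega)

theorem cycEx_sub_dvd (f : ℕ → S) (u v : S) : u - v ∣ cycEx p f u - cycEx p f v := by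
  unfold cycEx
  rw [← Finset.sum_sub_distrib]
  refine Finset.dvd_sum fun i _ => ?_
  rw [← mul_sub]
  exact (sub_dvd_pow_sub_pow u v i).mul_left _

theorem cycEx_eq (hf : CycInv p f) (hp : 2 ≤ p) (u : S) :
    cycEx p f u = 1 + u + u ^ 2 * ∑ i ∈ Finset.range (p - 2), f (i + 2) * u ^ i := by
  have h0 := hf.zero hp
  have h1 := hf.one hp
  obtain ⟨n, rfl⟩ : ∃ n, p = n + 2 := ⟨p - 2, by omega⟩
  unfold cycEx
  rw [Finset.sum_range_succ', Finset.sum_range_succ', Nat.add_sub_cancel, Finset.mul_sum, h0,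
    zero_add, h1]
  have : ∀ i ∈ Finset.range n, f (i + 1 + 1) * u ^ (i + 1 + 1) = u ^ 2 * (f (i + 2) * u ^ i) := by
    intro i _
    ring
  rw [Finset.sum_congr rfl this]
  ring

theorem cycEx_sq_dvd (hf : CycInv p f) (hp : 2 ≤ p) (u : S) :
    u ^ 2 ∣ cycEx p f u - (1 + u) := by
  rw [cycEx_eq hf hp, add_sub_cancel_left]
  exact dvd_mul_right _ _

theorem cycEx_dvd (hf : CycInv p f) (hp : 2 ≤ p) (u : S) : u ∣ cycEx p f u - 1 := by
  obtain ⟨r, hr⟩ := cycEx_sq_dvd hf hp u
  exact ⟨1 + u * r, by linear_combination hr⟩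

theorem coeff_cycEx (f : ℕ → S) (A : S) (d : ℕ) (hd : d < p) :
    (cycEx p (fun i => C (f i)) (X * C A)).coeff d = f d * A ^ d := by
  unfold cycEx
  have : ∀ i ∈ Finset.range p, C (f i) * (X * C A) ^ i = monomial i (f i * A ^ i) := by
    intro i _
    rw [← C_mul_X_pow_eq_monomial, mul_pow, map_mul, map_pow]
    ring
  rw [Finset.sum_congr rfl this, finsetSum_coeff]
  simp only [coeff_monomial]
  rw [Finset.sum_ite_eq' (Finset.range p) d, if_pos (Finset.mem_range.2 hd)]

theorem cycEx_add (hf : CycInv p f) (t A B : S) :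
    t ^ p ∣ cycEx p f (t * A) * cycEx p f (t * B) - cycEx p f (t * (A + B)) := by
  have key : (X : S[X]) ^ p ∣ cycEx p (fun i => C (f i)) (X * C A) *
      cycEx p (fun i => C (f i)) (X * C B) - cycEx p (fun i => C (f i)) (X * C (A + B)) := by
    rw [X_pow_dvd_iff]
    intro d hd
    rw [coeff_sub, coeff_mul, coeff_cycEx f _ d hd, sub_eq_zero, (Commute.all A B).add_pow',
      Finset.mul_sum]
    refine Finset.sum_congr rfl fun m hm => ?_
    have hm' : m.1 + m.2 = d := Finset.HasAntidiagonal.mem_antidiagonal.1 hm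
    rw [coeff_cycEx f A m.1 (by omega), coeff_cycEx f B m.2 (by omega)]
    have h1 := hf m.1 (by omega)
    have h2 := hf m.2 (by omega)
    have h3 := hf d hd
    have h4 : ((d.choose m.1 : ℕ) : S) * (m.1.factorial : S) * (m.2.factorial : S) =
        (d.factorial : S) := by
      have := Nat.add_choose_mul_factorial_mul_factorial m.2 m.1
      rw [add_comm m.2, hm'] at this
      rw [← this]
      push_cast
      ring
    have h5 : f d * (d.choose m.1 : S) = f m.1 * f m.2 := by
      calc f d * (d.choose m.1 : S)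
          = f d * (d.choose m.1 : S) * (f m.1 * (m.1.factorial : S)) *
            (f m.2 * (m.2.factorial : S)) := by rw [h1, h2]; ring
        _ = f d * ((d.choose m.1 : S) * (m.1.factorial : S) * (m.2.factorial : S)) *
            (f m.1 * f m.2) := by ring
        _ = f m.1 * f m.2 := by rw [h4, h3, one_mul]
    rw [nsmul_eq_mul]
    linear_combination (-(A ^ m.1 * B ^ m.2)) * h5
  have := map_dvd (evalRingHom t) key
  simp only [map_sub, map_pow, map_mul, map_cycEx, coe_evalRingHom, eval_C, eval_X] at this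
  exact this

theorem cycEx_pow_nat (hf : CycInv p f) (hp : 2 ≤ p) (t : S) (n : ℕ) :
    t ^ p ∣ cycEx p f t ^ n - cycEx p f (t * n) := by
  induction n with
  | zero =>
    have : cycEx p f (0 : S) = 1 := by
      have := cycEx_dvd hf hp (0 : S)
      rwa [zero_dvd_iff, sub_eq_zero] at this
    simp [this]
  | succ n ih =>
    have h := cycEx_add hf t n 1
    rw [mul_one] at h
    have e : cycEx p f t ^ (n + 1) - cycEx p f (t * ((n + 1 : ℕ) : S)) =
        (cycEx p f t ^ n - cycEx p f (t * n)) * cycEx p f t +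
          (cycEx p f (t * n) * cycEx p f t - cycEx p f (t * (n + 1))) := by
      push_cast
      ring
    rw [e]
    exact (ih.mul_right _).add h

theorem cyc_sum_pow (hp : p.Prime) (s : Finset ℕ) (g : ℕ → S) :
    (p : S) ∣ (∑ i ∈ s, g i) ^ p - ∑ i ∈ s, g i ^ p := by
  induction s using Finset.induction_on with
  | empty => simp [hp.ne_zero]
  | insert a s ha ih =>
    rw [Finset.sum_insert ha, Finset.sum_insert ha]
    obtain ⟨r, hr⟩ := exists_add_pow_prime_eq hp (g a) (∑ i ∈ s, g i)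
    obtain ⟨r', hr'⟩ := ih
    exact ⟨r' + g a * (∑ i ∈ s, g i) * r, by linear_combination hr + hr'⟩

theorem cyc_fermat (hp : p.Prime) (n : ℕ) : (p : S) ∣ (n : S) ^ p - n := by
  have := Fact.mk hp
  have h : ((p : ℕ) : ℤ) ∣ (n : ℤ) ^ p - n := by
    rw [← ZMod.intCast_zmod_eq_zero_iff_dvd]
    push_cast
    rw [ZMod.pow_card, sub_self]
  have := map_dvd (Int.castRingHom S) h
  simpa using this

theorem cycEx_pow (hp : p.Prime) (hf : CycInv p f) (u : S) :
    (p : S) * u ^ p ∣ cycEx p f u ^ p - cycEx p f (p * u) * cycEx p f (u ^ p) := by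
  have h2 := hp.two_le
  have hF : CycInv p (fun i => (C (f i) : S[X])) := hf.map C
  set F : ℕ → S[X] := fun i => C (f i) with hFdef
  have k1 : (X : S[X]) ^ p ∣ cycEx p F X ^ p - cycEx p F ((p : S[X]) * X) * cycEx p F (X ^ p) := by
    have a1 := cycEx_pow_nat hF h2 X p
    have a2 := cycEx_dvd hF h2 (X ^ p)
    have e : cycEx p F X ^ p - cycEx p F ((p : S[X]) * X) * cycEx p F (X ^ p) =
        (cycEx p F X ^ p - cycEx p F (X * (p : S[X]))) - cycEx p F (X * (p : S[X])) * (cycEx p F (X ^ p) - 1) := by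
      rw [mul_comm (p : S[X]) X]
      ring
    rw [e]
    exact a1.sub (a2.mul_left _)
  have k2 : (p : S[X]) ∣ cycEx p F X ^ p - cycEx p F ((p : S[X]) * X) * cycEx p F (X ^ p) := by
    have a1 : (p : S[X]) ∣ cycEx p F X ^ p - ∑ i ∈ Finset.range p, (F i * X ^ i) ^ p :=
      cyc_sum_pow hp _ _
    have a2 : (p : S[X]) ∣ ∑ i ∈ Finset.range p, (F i * X ^ i) ^ p - cycEx p F (X ^ p) := by
      unfold cycEx
      rw [← Finset.sum_sub_distrib]
      refine Finset.dvd_sum fun i hi => ?_
      have b1 := hF i (Finset.mem_range.1 hi)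
      obtain ⟨r, hr⟩ := cyc_fermat (S := S[X]) hp i.factorial
      have b2 : F i ^ p * (i.factorial : S[X]) ^ p = 1 := by rw [← mul_pow, b1, one_pow]
      have b3 : F i ^ p - F i = p * (-(F i ^ p * F i * r)) := by
        linear_combination (-(F i ^ p)) * b1 + F i * b2 - F i ^ p * F i * hr
      refine ⟨-(F i ^ p * F i * r) * (X ^ p) ^ i, ?_⟩
      rw [mul_pow, ← pow_mul, ← pow_mul, mul_comm i p]
      linear_combination X ^ (p * i) * b3
    have a3 : (p : S[X]) ∣ cycEx p F ((p : S[X]) * X) - 1 :=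
      (dvd_mul_right _ _).trans (cycEx_dvd hF h2 _)
    have e : cycEx p F X ^ p - cycEx p F ((p : S[X]) * X) * cycEx p F (X ^ p) =
        (cycEx p F X ^ p - ∑ i ∈ Finset.range p, (F i * X ^ i) ^ p) +
        (∑ i ∈ Finset.range p, (F i * X ^ i) ^ p - cycEx p F (X ^ p)) -
          (cycEx p F ((p : S[X]) * X) - 1) * cycEx p F (X ^ p) := by ring
    rw [e]
    exact (a1.add a2).sub (a3.mul_right _)
  obtain ⟨s, hs⟩ := k1
  have k3 : (C (p : S) : S[X]) ∣ s := by
    rw [C_dvd_iff_dvd_coeff]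
    intro i
    rw [hs, ← map_natCast C, C_dvd_iff_dvd_coeff] at k2
    have := k2 (i + p)
    rwa [coeff_X_pow_mul] at this
  obtain ⟨s', rfl⟩ := k3
  have := congrArg (evalRingHom u) hs
  refine ⟨eval u s', ?_⟩
  simp only [map_sub, map_pow, map_mul, map_cycEx, hFdef, coe_evalRingHom, eval_C, eval_X,
    map_natCast] at this
  rw [this]
  ring

theorem cycEx_log (hp : 2 ≤ p) (hf : CycInv p f) :
    ∃ l₁ : S[X], X ^ p ∣ cycEx p (fun i => C (f i)) (X * l₁) - (1 + X) := by
  have hF : CycInv p (fun i => (C (f i) : S[X])) := hf.map C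
  set F : ℕ → S[X] := fun i => C (f i) with hFdef
  have : ∀ n, n + 1 ≤ p → ∃ l₁ : S[X], X ^ (n + 1) ∣ cycEx p F (X * l₁) - (1 + X) := by
    intro n
    induction n with
    | zero =>
      intro _
      obtain ⟨r, hr⟩ := cycEx_dvd hF hp (X * 0)
      exact ⟨0, ⟨-1 + 0 * r, by linear_combination hr⟩⟩
    | succ n ih =>
      intro hn
      obtain ⟨l₁, r, hr⟩ := ih (by omega)
      refine ⟨l₁ + -(X ^ n * r), ?_⟩
      obtain ⟨a, ha⟩ := (pow_dvd_pow X hn).trans (cycEx_add hF X l₁ (-(X ^ n * r)))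
      obtain ⟨b, hb⟩ := cycEx_sq_dvd hF hp (X * -(X ^ n * r))
      refine ⟨-a - r - X ^ n * r ^ 2 + cycEx p F (X * l₁) * X ^ n * r ^ 2 * b, ?_⟩
      linear_combination -ha + cycEx p F (X * l₁) * hb + (1 - X ^ (n + 1) * r) * hr
  obtain ⟨l₁, h⟩ := this (p - 1) (by omega)
  rw [Nat.sub_add_cancel (by omega)] at h
  exact ⟨l₁, h⟩

theorem cyc_main (hp : p.Prime) [IsDomain S] (hf : CycInv p f) (l c w M x t : S)
    (hP : (p : S) = -c * l ^ (p - 1)) (hw : c * w = 1) (hl : l = c * M ^ p + p * M)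
    (hl0 : l ≠ 0) (ht : l ^ p ∣ cycEx p f (l * t) - (1 + l * x)) :
    l ^ p ∣ (1 + l * x) * cycEx p f (M ^ p * Phi p l c 1 x) - cycEx p f (M * t) ^ p := by
  have h2 := hp.two_le
  have hy := add_mul_pow_eq hp hP 1 x
  rw [one_pow] at hy
  set a := Phi p l c 1 x with ha
  obtain ⟨n, hn⟩ : ∃ n, p = n + 2 := ⟨p - 2, by omega⟩
  have e1 : l ^ (p - 1) = l ^ n * l := by rw [hn]; exact pow_succ l n
  have e2 : l ^ p = l ^ n * l * l := by rw [hn, pow_succ, pow_succ]
  rw [e1] at hP
  set L := l ^ n with hL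
  set P : S := (p : S) with hPdef
  have hLl : L * l = -w * P := by linear_combination w * hP - L * l * hw
  -- step b
  have hb : P ∣ a - (t ^ p - c * t) := by
    obtain ⟨r, hr⟩ := ht
    obtain ⟨r1, hr1⟩ := exists_add_pow_prime_eq hp (cycEx p f (l * t)) (-(l ^ p * r))
    have hy' : cycEx p f (l * t) + -(l ^ p * r) = 1 + l * x := by linear_combination hr
    rw [hy', hy] at hr1
    have d1 : P * l ^ p ∣ (-(l ^ p * r)) ^ p := by
      have : (-(l ^ p * r)) ^ p = (l ^ p) ^ 2 * ((l ^ p) ^ n * (-r) ^ p) := by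
        rw [← mul_neg, mul_pow, ← mul_assoc, ← pow_add, add_comm 2 n, ← hn]
      rw [this]
      refine Dvd.dvd.mul_right ⟨-w * l, ?_⟩ _
      rw [e2]
      linear_combination L * l * l * l * hLl
    obtain ⟨s1, hs1⟩ := d1
    obtain ⟨s2, hs2⟩ := cycEx_pow hp hf (l * t)
    obtain ⟨s3, hs3⟩ := cycEx_sq_dvd hf h2 (P * (l * t))
    obtain ⟨s4, hs4⟩ := cycEx_sq_dvd hf h2 ((l * t) ^ p)
    rw [mul_pow] at hs2 hs4
    rw [← hPdef] at hs2 hr1
    set T := t ^ p with hT
    set Λ := l ^ p with hΛ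
    set E1 := cycEx p f (l * t)
    set E2 := cycEx p f (P * (l * t))
    set E3 := cycEx p f (Λ * T)
    have hPl : P * l = -c * Λ := by rw [e2]; linear_combination l * hP
    have hΛP : Λ = -w * P * l := by rw [e2]; linear_combination l * hLl
    have key : Λ * (a - (T - c * t)) = Λ * (P * (s1 - E1 * r * r1 + T * s2 + l * t * T
        - c * l * t ^ 2 * s3 * E3 - w * l * T ^ 2 * s4 * (1 + P * (l * t)))) := by
      have q2 : E2 = 1 + P * (l * t) + Λ * (P * (-c * l * t ^ 2 * s3)) := by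
        linear_combination hs3 + P * l * t ^ 2 * s3 * hPl
      have q3 : E3 = 1 + Λ * T + Λ * (P * (-w * l * T ^ 2 * s4)) := by
        linear_combination hs4 + Λ * T ^ 2 * s4 * hΛP
      linear_combination hr1 + hs1 + hs2 + E3 * q2 + (1 + P * (l * t)) * q3 + t * hPl
    exact ⟨_, mul_left_cancel₀ (pow_ne_zero p hl0) key⟩
  -- step c
  obtain ⟨b, hb⟩ := hb
  have hM : M ^ p = l * (w * (1 + c * L * M)) := by
    linear_combination -w * hl - M ^ p * hw - w * M * hP
  set y := w * (1 + c * L * M) with hydef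
  have hPM : P * M ^ p = l ^ p * (-c * y) := by
    rw [hM, e2]; linear_combination l * y * hP
  have c1 := cycEx_add hf l t (y * a)
  have c2 : l ^ p ∣ cycEx p f (l * (t + y * a)) - cycEx p f (l * (y * t ^ p + -c * L * M * t)) := by
    refine Dvd.dvd.trans ⟨-c * y * b, ?_⟩ (cycEx_sub_dvd f _ _)
    linear_combination (-(a - t ^ p)) * hM + M ^ p * hb + b * hPM + t * hl + M * t * hP
  have c3 := cycEx_add hf l (y * t ^ p) (-c * L * M * t)
  have c4 : l ^ p ∣ cycEx p f (M * t) ^ p - cycEx p f (P * (M * t)) * cycEx p f ((M * t) ^ p) := by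
    refine Dvd.dvd.trans ⟨-c * y * t ^ p, ?_⟩ (cycEx_pow hp hf (M * t))
    rw [mul_pow]
    linear_combination t ^ p * hPM
  have r1 : M ^ p * a = l * (y * a) := by rw [hM]; ring
  have r2 : (M * t) ^ p = l * (y * t ^ p) := by rw [mul_pow, hM]; ring
  have r3 : P * (M * t) = l * (-c * L * M * t) := by linear_combination M * t * hP
  rw [r2, r3] at c4
  rw [r1]
  have e : (1 + l * x) * cycEx p f (l * (y * a)) - cycEx p f (M * t) ^ p =
      -((cycEx p f (l * t) - (1 + l * x)) * cycEx p f (l * (y * a))) +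
      (cycEx p f (l * t) * cycEx p f (l * (y * a)) - cycEx p f (l * (t + y * a))) +
      (cycEx p f (l * (t + y * a)) - cycEx p f (l * (y * t ^ p + -c * L * M * t))) -
      (cycEx p f (l * (y * t ^ p)) * cycEx p f (l * (-c * L * M * t)) -
        cycEx p f (l * (y * t ^ p + -c * L * M * t))) -
      (cycEx p f (M * t) ^ p -
        cycEx p f (l * (-c * L * M * t)) * cycEx p f (l * (y * t ^ p))) := by ring
  rw [e]
  exact ((((ht.mul_right _).neg_right.add c1).add c2).sub c3).sub c4

end Basic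

/-- TASK CYC. -/
theorem exists_cyc (p : ℕ) [Fact p.Prime] {R : Type} [CommRing R] [IsDomain R]
    (hu : ∀ i : ℕ, 0 < i → i < p → IsUnit (i : R)) (l c w M ν : R)
    (hp : (p : R) = -c * l ^ (p - 1)) (hw : c * w = 1) (hl : l = M * ν)
    (hν : ν = c * M ^ (p - 1) + p) (hl0 : l ≠ 0) :
    ∃ Θ S₁ S₂ e : R[X], S₁.natDegree ≤ p ^ 2 ∧ e.natDegree ≤ p - 1 ∧
      (1 + C l * X) * (1 + C (M ^ p) * X + C (M ^ (2 * p)) * e).comp (Phi p (C l) (C c) 1 X) =
        (1 + C M * Θ) ^ p + C (l ^ p) * (S₁ + C M * S₂) := by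
  have hpp : p.Prime := Fact.out
  have h2 := hpp.two_le
  have hfac : ∀ i, i < p → IsUnit (i.factorial : R) := by
    intro i
    induction i with
    | zero => intro _; simp
    | succ i ih =>
      intro hi
      rw [Nat.factorial_succ, Nat.cast_mul]
      exact (hu _ (Nat.succ_pos i) hi).mul (ih (by omega))
  set f : ℕ → R := fun i => Ring.inverse (i.factorial : R) with hfdef
  have hf : CycInv p f := fun i hi => Ring.inverse_mul_cancel _ (hfac i hi)
  have hF : CycInv p (fun i => (C (f i) : R[X])) := hf.map C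
  set F : ℕ → R[X] := fun i => C (f i) with hFdef
  obtain ⟨l₁, hl₁⟩ := cycEx_log h2 hf
  have hMp : M ^ p = M * M ^ (p - 1) := by
    rw [← pow_succ', Nat.sub_add_cancel (by omega)]
  have hl' : l = c * M ^ p + p * M := by rw [hMp]; linear_combination hl + M * hν
  set t : R[X] := X * l₁.comp (C l * X) with htdef
  have ht : C l ^ p ∣ cycEx p F (C l * t) - (1 + C l * X) := by
    have := map_dvd (compRingHom (C l * X)) hl₁
    simp only [map_sub, map_pow, map_mul, map_add, map_one, map_cycEx, coe_compRingHom_apply,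
      C_comp, X_comp] at this
    rw [mul_pow, mul_assoc] at this
    exact (dvd_mul_right _ _).trans this
  have hmain := cyc_main hpp hF (C l) (C c) (C w) (C M) X t
    (by rw [← map_natCast C, hp]; simp) (by rw [← map_mul, hw, map_one])
    (by rw [← map_natCast C]; conv_lhs => rw [hl']
        simp) (by simpa using hl0) ht
  obtain ⟨St, hSt⟩ := hmain
  obtain ⟨Θ', hΘ⟩ := cycEx_dvd hF h2 (C M * t)
  set Q : R[X] := (1 + C ν * X) * cycEx p F (Phi p (C l) (C c) (C M) X) -
    cycEx p F (X * l₁.comp (C ν * X)) ^ p with hQ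
  have hQc : Q.comp (C M * X) = C (l ^ p) * St := by
    have a1 : (Phi p (C l) (C c) (C M) X).comp (C M * X) = C M ^ p * Phi p (C l) (C c) 1 X := by
      have := map_Phi p (compRingHom (C M * X)) (C l) (C c) (C M) X
      simp only [coe_compRingHom_apply, C_comp, X_comp] at this
      rw [this, ← Phi_smul p h2, mul_one]
    have a2 : C ν * (C M * X) = C l * X := by rw [hl, map_mul]; ring
    have a3 : (l₁.comp (C ν * X)).comp (C M * X) = l₁.comp (C l * X) := by
      rw [comp_assoc, mul_comp, C_comp, X_comp, a2]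
    have := (compRingHom (C M * X)).map_sub
      ((1 + C ν * X) * cycEx p F (Phi p (C l) (C c) (C M) X))
      (cycEx p F (X * l₁.comp (C ν * X)) ^ p)
    simp only [map_pow, map_mul, map_add, map_one, map_cycEx, coe_compRingHom_apply,
      C_comp, X_comp, hFdef] at this
    rw [hQ, map_pow, ← hSt, this, a1, a2, a3, mul_assoc]
  set y : R := w * (1 + c * l ^ (p - 2) * M) with hy
  have hM : M ^ p = l * y := by
    have e1 : l ^ (p - 1) = l ^ (p - 2) * l := by
      rw [← pow_succ]; congr 1; omega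
    rw [e1] at hp
    rw [hy]
    linear_combination -w * hl' - M ^ p * hw - w * M * hp
  set S₁ : R[X] := ∑ i ∈ Finset.range (p ^ 2 + 1), monomial i (St.coeff i) with hS₁
  have hS₂ : C M ∣ St - S₁ := by
    rw [C_dvd_iff_dvd_coeff]
    intro i
    rw [coeff_sub, hS₁, finsetSum_coeff]
    simp only [coeff_monomial]
    rw [Finset.sum_ite_eq' (Finset.range (p ^ 2 + 1)) i]
    split_ifs with hi
    · simp
    · rw [Finset.mem_range, not_lt] at hi
      obtain ⟨j, rfl⟩ := Nat.exists_eq_add_of_le hi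
      have := congrArg (fun q => q.coeff (p ^ 2 + 1 + j)) hQc
      simp only [comp_C_mul_X_coeff, coeff_C_mul] at this
      refine ⟨Q.coeff (p ^ 2 + 1 + j) * M ^ j * y ^ p, ?_⟩
      rw [sub_zero]
      refine mul_left_cancel₀ (pow_ne_zero p hl0) ?_
      rw [← this, pow_add, pow_succ M, sq, pow_mul, hM, mul_pow]
      ring
  obtain ⟨S₂, hS₂⟩ := hS₂
  refine ⟨t * Θ', S₁, S₂, ∑ i ∈ Finset.range (p - 2), monomial (i + 2) (f (i + 2) * M ^ (p * i)),
    ?_, ?_, ?_⟩
  · refine natDegree_sum_le_of_forall_le _ _ fun i hi => (natDegree_monomial_le _).trans ?_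
    have := Finset.mem_range.1 hi
    omega
  · refine natDegree_sum_le_of_forall_le _ _ fun i hi => (natDegree_monomial_le _).trans ?_
    have := Finset.mem_range.1 hi
    omega
  · have a1 : (1 + C (M ^ p) * X + C (M ^ (2 * p)) *
        ∑ i ∈ Finset.range (p - 2), monomial (i + 2) (f (i + 2) * M ^ (p * i))).comp
          (Phi p (C l) (C c) 1 X) = cycEx p F (C M ^ p * Phi p (C l) (C c) 1 X) := by
      rw [cycEx_eq hF h2]
      simp only [add_comp, mul_comp, one_comp, C_comp, X_comp, sum_comp, monomial_comp,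
        Finset.mul_sum, map_pow, pow_comp, map_mul, hFdef]
      congr 1
      refine Finset.sum_congr rfl fun i _ => ?_
      rw [mul_pow, mul_pow, ← pow_mul, ← pow_mul]
      ring
    have a2 : 1 + C M * (t * Θ') = cycEx p F (C M * t) := by linear_combination -hΘ
    have a3 : S₁ + C M * S₂ = St := by linear_combination -hS₂
    rw [a1, a2, a3, map_pow]
    linear_combination hSt

end Pool.Agent.P.MP_41a2b4_ag
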