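import Pool.Agent.P.MP_41a2b4_ag.Step

set_option autoImplicit false
set_option linter.unusedSectionVars false

namespace Pool.Agent.P.MP_41a2b4_ag

open PowerSeries IsLocalRing

namespace D4

section Ring

variable {S : Type*} [CommRing S]

/-- The square part of the Kummer equation. -/
def HH (K Z : S) : S := Z ^ 3 + (K ^ 2 - 1) * Z

/-- The remainder of the Kummer equation, up to a unit. -/
def G0 (K W c ci Z : S) : S :=
  2 * K ^ 2 * Z ^ 5 + ci * ((1 + K ^ 2) * (1 + W) + 6 * K ^ 2) * Z ^ 4 +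
    (2 * c ^ 2 + 3 * K ^ 2 * ci ^ 2) * Z ^ 3 + 2 * c * Z ^ 2 + Z

/-- The remainder of the Kummer equation. -/
def GG (K W c ci Z : S) : S := -(ci * K ^ 2) * G0 K W c ci Z

/-- The homogeneous sextic form. -/
def sex (b P Z : S) : S := Z * (P ^ 5 + b * P ^ 3 * Z ^ 2 + P * Z ^ 4)

theorem key {K W c ci : S} (hK : K ^ 4 = -1) (hW : W ^ 2 + W = K ^ 2) (hc : c ^ 2 = 1 + 2 * W)
    (hci : c * ci = 1) (Z : S) :
    8 * c * K ^ 2 * (HH K Z ^ 2 + 4 * GG K W c ci Z) =
      sex (12 * K ^ 2 * ci ^ 2 - 2 * c ^ 2) (c * Z + 2) Z := by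
  have h1 : c * K ^ 2 * GG K W c ci Z = G0 K W c ci Z := by
    unfold GG
    linear_combination (-(K ^ 4) * G0 K W c ci Z) * hci - G0 K W c ci Z * hK
  have h4 : c ^ 4 = 1 + 4 * K ^ 2 := by linear_combination (c ^ 2 + 1 + 2 * W) * hc + 4 * hW
  have h5 : c ^ 3 = ci * (1 + 4 * K ^ 2) := by linear_combination ci * h4 - c ^ 3 * hci
  have h6 : c = ci * (1 + 2 * W) := by linear_combination ci * hc - c * hci
  have e : 8 * c * K ^ 2 * (HH K Z ^ 2 + 4 * GG K W c ci Z) =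
      8 * c * K ^ 2 * HH K Z ^ 2 + 32 * G0 K W c ci Z := by linear_combination 32 * h1
  rw [e]
  unfold HH G0 sex
  linear_combination (Z ^ 6 * c + 2 * Z ^ 5) * h4 -
    (12 * K ^ 2 * (c * ci + 1) * (c * Z ^ 6 + 6 * Z ^ 5) + 144 * K ^ 2 * ci * Z ^ 4) * hci -
    16 * Z ^ 4 * h5 - 16 * (1 + K ^ 2) * Z ^ 4 * h6 +
    (16 * c * Z ^ 4 + 8 * c * (K ^ 2 - 2) * Z ^ 2) * hK

theorem sex_neg (b P Z A : S) : sex b (P * A) (-(Z * A)) = -A ^ 6 * sex b P Z := by
  unfold sex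
  ring

theorem sex_swap (b P Z B : S) : sex b (-(Z * B)) (-(P * B)) = B ^ 6 * sex b P Z := by
  unfold sex
  ring

end Ring

variable {R : Type} [CommRing R]

theorem map_F (φ : R⟦X⟧ ≃ₐ[R] R⟦X⟧) (κ ω c ci : R) :
    φ (HH (C κ) X ^ 2 + 4 * GG (C κ) (C ω) (C c) (C ci) X) =
      HH (C κ) (φ X) ^ 2 + 4 * GG (C κ) (C ω) (C c) (C ci) (φ X) := by
  simp only [HH, GG, G0, map_add, map_mul, map_pow, map_sub, map_neg, map_one, map_ofNat, algHom_C]

theorem exists_invol [IsLocalRing R] [IsAdicComplete (maximalIdeal R) R] {b : R⟦X⟧}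
    (hb : b ∈ maximalIdeal R⟦X⟧) (h : ∀ φ : R⟦X⟧ →ₐ[R] R⟦X⟧, φ X = b → φ b = X) :
    ∃ g : R⟦X⟧ ≃ₐ[R] R⟦X⟧, g X = b ∧ g ^ 2 = 1 := by
  obtain ⟨φ, hφ⟩ := exists_ev (R := R) hb
  have h1 : φ.comp φ = AlgHom.id _ _ := algHom_ext (by rw [AlgHom.comp_apply, hφ, h φ hφ]; rfl)
  exact ⟨AlgEquiv.ofAlgHom φ φ h1 h1, hφ, AlgEquiv.ext fun f => by
    rw [pow_two, AlgEquiv.mul_apply]
    exact DFunLike.congr_fun h1 f⟩

end D4

open D4 in
/-- TASK D4. -/
theorem good_dihedral {k : Type} [Field k] [CharP k 2] {R : Type} [CommRing R] [IsDomain R]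
    [IsDiscreteValuationRing R] [IsAdicComplete (maximalIdeal R) R] (x : Ctx 2 k R) (κ ω e : R)
    (hκ : κ ^ 4 = -1) (hω : ω ^ 2 + ω = κ ^ 2) (he : e ^ 4 = 1 + 2 * ω) : x.Good 1 0 := by
  have hl : x.l = -2 := mul_left_cancel₀ x.hl0 (by linear_combination x.hζ)
  have h2 : (2 : R) ≠ 0 := fun h => x.hl0 (by rw [hl, h, neg_zero])
  have hk2 : (2 : k) = 0 := by simpa using CharP.cast_eq_zero k 2
  obtain ⟨c, hce⟩ : ∃ c, c = e ^ 2 := ⟨_, rfl⟩
  have hc : c ^ 2 = 1 + 2 * ω := by rw [hce, ← he]; ring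
  have hπc : x.π c ≠ 0 := fun h => by
    have := congrArg x.π hc
    simp only [map_pow, map_add, map_mul, map_one, map_ofNat, h, hk2] at this
    simp at this
  have hπκ : x.π κ ^ 4 = 1 := by
    have := congrArg x.π hκ
    rw [map_pow, map_neg, map_one] at this
    linear_combination this - hk2
  have hπκ2 : x.π κ ^ 2 = 1 := by
    have : (x.π κ ^ 2 - 1) ^ 2 = 0 := by linear_combination hπκ + (1 - x.π κ ^ 2) * hk2
    exact sub_eq_zero.1 (pow_eq_zero_iff two_ne_zero |>.1 this)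
  obtain ⟨ci, hci⟩ := (x.isUnit_of_π hπc).exists_right_inv
  have hκ0 : κ ≠ 0 := fun h => by simp [h] at hκ
  have hc0 : c ≠ 0 := fun h => by simp [h] at hci
  have hK : (C κ : R⟦X⟧) ^ 4 = -1 := by rw [← map_pow, hκ, map_neg, map_one]
  have hW : (C ω : R⟦X⟧) ^ 2 + C ω = C κ ^ 2 := by rw [← map_pow, ← map_add, hω, map_pow]
  have hC : (C c : R⟦X⟧) ^ 2 = 1 + 2 * C ω := by
    rw [← map_pow, hc, map_add, map_mul, map_one, map_ofNat]
  have hCi : (C c : R⟦X⟧) * C ci = 1 := by rw [← map_mul, hci, map_one]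
  have hL : (C x.l : R⟦X⟧) ^ 2 = 4 := by
    rw [hl, map_neg, map_ofNat]
    norm_num
  have hζ : (C (1 + x.l) : R⟦X⟧) = -1 := by
    rw [hl, map_add, map_neg, map_one, map_ofNat]
    norm_num
  have h0 : (8 * C c * C κ ^ 2 : R⟦X⟧) ≠ 0 := by
    have : (8 * C c * C κ ^ 2 : R⟦X⟧) = C (2 ^ 3 * c * κ ^ 2) := by
      simp only [map_mul, map_pow, map_ofNat]
      norm_num
    rw [this]
    exact C_ne_zero (mul_ne_zero (mul_ne_zero (pow_ne_zero _ h2) hc0) (pow_ne_zero _ hκ0))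
  obtain ⟨A, hA⟩ : ∃ A : R⟦X⟧, (1 + C c * X) * A = 1 :=
    IsUnit.exists_right_inv (by simp [isUnit_iff_constantCoeff])
  obtain ⟨B, hB⟩ : ∃ B : R⟦X⟧, (C c + C ω * X) * B = 1 :=
    IsUnit.exists_right_inv (by simpa [isUnit_iff_constantCoeff] using x.isUnit_of_π hπc)
  have gA : ∀ {F : Type} [FunLike F R⟦X⟧ R⟦X⟧] [AlgHomClass F R R⟦X⟧ R⟦X⟧] (φ : F),
      φ X = -(X * A) → φ A = 1 + C c * X := fun φ h => by
    have := congrArg φ hA
    simp only [map_mul, map_add, map_one, algHom_C, h] at this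
    linear_combination (1 + C c * X) * this + (C c * X * φ A) * hA
  have gB : ∀ {F : Type} [FunLike F R⟦X⟧ R⟦X⟧] [AlgHomClass F R R⟦X⟧ R⟦X⟧] (φ : F),
      φ X = -((C c * X + 2) * B) → φ B = C c + C ω * X := fun φ h => by
    have := congrArg φ hB
    simp only [map_mul, map_add, map_one, algHom_C, h] at this
    linear_combination (C c + C ω * X) * this + (C ω * (C c * X + 2) * φ B) * hB - φ B * hC
  have gP : (C c : R⟦X⟧) * -(X * A) + 2 = (C c * X + 2) * A := by linear_combination (-2) * hA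
  have gP' : (C c : R⟦X⟧) * -((C c * X + 2) * B) + 2 = -(X * B) := by
    linear_combination (-2) * hB - X * B * hC
  obtain ⟨g, hg, hg2⟩ := exists_invol (b := -(X * A))
    (neg_mem (Ideal.mul_mem_right _ _ X_mem_max)) fun φ h => by
      rw [map_neg, map_mul, gA φ h, h]
      linear_combination X * hA
  obtain ⟨g', hg', hg2'⟩ := exists_invol (b := -((C c * X + 2) * B))
    (neg_mem (Ideal.mul_mem_right _ _ (x.mem_max_iff_red.2 (by simp [hk2, map_ofNat]))))
    fun φ h => by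
      rw [map_neg, map_mul, gB φ h, map_add, map_mul, algHom_C, map_ofNat, h, gP']
      linear_combination X * hB
  have hA' := gA g hg
  have hB' := gB g' hg'
  have hAB : A * g B = -(B * g' A) := by
    have e1 := congrArg g hB
    have e2 := congrArg g' hA
    simp only [map_mul, map_add, map_one, algHom_C, hg, hg'] at e1 e2
    have e3 : A * g B * (C c + (1 + C ω) * X) = 1 := by
      linear_combination e1 + C c * g B * hA - A * g B * X * hC
    have e4 : -(B * g' A) * (C c + (1 + C ω) * X) = 1 := by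
      linear_combination e2 + g' A * hB + B * g' A * X * hC
    linear_combination (-(B * g' A)) * e3 - A * g B * e4
  have hNF : x.NF (HH (C κ) X) (GG (C κ) (C ω) (C c) (C ci) X) := by
    refine ⟨by simp [GG, G0], ?_, by simp [HH], ?_⟩
    · have h1 : x.π ci ≠ 0 := fun h => by simpa [h] using congrArg x.π hci
      obtain ⟨Y, hY⟩ : ∃ Y : R⟦X⟧, GG (C κ) (C ω) (C c) (C ci) X =
          C (-(ci * κ ^ 2)) * (X + X ^ 2 * Y) :=
        ⟨2 * C κ ^ 2 * X ^ 3 + C ci * ((1 + C κ ^ 2) * (1 + C ω) + 6 * C κ ^ 2) * X ^ 2 +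
          (2 * C c ^ 2 + 3 * C κ ^ 2 * C ci ^ 2) * X + 2 * C c, by
          simp only [GG, G0, map_neg, map_mul, map_pow]
          ring⟩
      rw [hY, coeff_map, coeff_C_mul, map_add, coeff_X_pow_mul']
      simpa [hπκ2] using h1
    · have : x.red (HH (C κ) X) = X ^ 3 := by
        simp only [HH, map_add, map_mul, map_pow, map_sub, map_one, map_C, map_X]
        rw [← map_pow C, hπκ2, map_one, sub_self, zero_mul, add_zero]
      rw [this]
      exact pow_ne_zero _ X_ne_zero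
  refine hNF.good (g := g) (g' := g') (u := C κ ^ 2 * A ^ 3) (u' := B ^ 3) ?_ ?_ ?_ ?_ ?_ hg2 hg2'
    ?_ ?_ ?_
  · exact IsUnit.of_mul_eq_one (-(C κ ^ 2 * (1 + C c * X) ^ 3)) (by
      linear_combination (-((1 + C c * X) * A) ^ 3) * hK +
        (((1 + C c * X) * A) ^ 2 + (1 + C c * X) * A + 1) * hA)
  · exact (IsUnit.of_mul_eq_one _ ((mul_comm _ _).trans hB)).pow 3
  · rw [hL, map_F]
    refine mul_left_cancel₀ h0 ?_
    rw [key hK hW hC hCi, mul_left_comm, key hK hW hC hCi, hg, gP, sex_neg]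
    linear_combination (-A ^ 6 * sex (12 * C κ ^ 2 * C ci ^ 2 - 2 * C c ^ 2) (C c * X + 2) X) * hK
  · rw [hL, map_F]
    refine mul_left_cancel₀ h0 ?_
    rw [key hK hW hC hCi, mul_left_comm, key hK hW hC hCi, hg', gP', sex_swap]
    ring
  · have : ((g * g' : R⟦X⟧ ≃ₐ[R] R⟦X⟧) : R⟦X⟧ →ₐ[R] R⟦X⟧) = (g' * g : R⟦X⟧ ≃ₐ[R] R⟦X⟧) :=
      algHom_ext (by
        change g (g' X) = g' (g X)
        rw [hg, hg']
        simp only [map_neg, map_mul, map_add, map_ofNat, algHom_C, hg, hg', gP]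
        linear_combination (-(C c * X + 2)) * hAB)
    exact AlgEquiv.ext fun f => DFunLike.congr_fun this f
  · rw [hζ, map_pow, map_mul, map_pow, map_pow, algHom_C]
    linear_combination (C κ ^ 2 * ((A * g B) ^ 2 - A * g B * (B * g' A) + (B * g' A) ^ 2)) * hAB
  · simp only [Finset.prod_range_succ, Finset.prod_range_zero, pow_zero, pow_one, one_mul,
      AlgEquiv.one_apply, map_mul, map_pow, algHom_C, hA', hζ]
    linear_combination (((1 + C c * X) * A) ^ 3) * hK -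
      (((1 + C c * X) * A) ^ 2 + (1 + C c * X) * A + 1) * hA
  · simp only [Finset.prod_range_succ, Finset.prod_range_zero, pow_zero, pow_one, one_mul,
      AlgEquiv.one_apply, map_pow, hB']
    linear_combination (((C c + C ω * X) * B) ^ 2 + (C c + C ω * X) * B + 1) * hB

end Pool.Agent.P.MP_41a2b4_ag
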