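import Pool.Agent.P.MP_41a2b4_ag.Bdry

set_option autoImplicit false
set_option linter.unusedSectionVars false

namespace Pool.Agent.P.MP_41a2b4_ag

open PowerSeries IsLocalRing Filter

/-- Power series without linear term. -/
noncomputable def dX (k : Type) [Field k] : Subring k⟦X⟧ where
  carrier := {f | X ∣ d⁄dX k f}
  mul_mem' := fun {f g} hf hg => by
    change X ∣ d⁄dX k (f * g)
    rw [Derivation.leibniz]
    exact dvd_add (Dvd.dvd.mul_left hg _) (Dvd.dvd.mul_left hf _)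
  one_mem' := by simp
  add_mem' := fun {f g} hf hg => by
    change X ∣ d⁄dX k (f + g)
    rw [map_add]
    exact dvd_add hf hg
  zero_mem' := by simp
  neg_mem' := fun {f} hf => by
    change X ∣ d⁄dX k (-f)
    rw [map_neg]
    exact dvd_neg.2 hf

theorem C_mem_dX {k : Type} [Field k] (a : k) : C a ∈ dX k := by
  change X ∣ d⁄dX k (C a)
  rw [derivative_C]
  exact dvd_zero _

theorem isUnit_one_add_deriv {k : Type} [Field k] {f : k⟦X⟧} (hf : f ∈ dX k) :
    IsUnit (1 + d⁄dX k f) := by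
  obtain ⟨g, hg⟩ := hf
  rw [hg, isUnit_iff_constantCoeff]
  simp

theorem eval₂_mul_pow {R S : Type*} [CommRing R] [CommRing S] (f : R →+* S) {P : Polynomial R} {d : ℕ}
    (hd : P.natDegree ≤ d) {z A B : S} (h : z * B = A) :
    P.eval₂ f z * B ^ d = ∑ i ∈ Finset.range (d + 1), f (P.coeff i) * A ^ i * B ^ (d - i) := by
  rw [Polynomial.eval₂_eq_sum_range' f (Nat.lt_succ_of_le hd), Finset.sum_mul]
  refine Finset.sum_congr rfl fun i hi => ?_
  obtain ⟨j, rfl⟩ := Nat.exists_eq_add_of_le (Nat.lt_succ_iff.1 (Finset.mem_range.1 hi))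
  rw [Nat.add_sub_cancel_left, ← h]
  ring

section One

variable {p : ℕ} [Fact p.Prime] {k : Type} [Field k] [CharP k p] {R : Type} [CommRing R]
  [IsDomain R] [IsDiscreteValuationRing R] [IsAdicComplete (maximalIdeal R) R] (x : Ctx p k R)

theorem Ctx.smul_eval₂ (g : R⟦X⟧ ≃ₐ[R] R⟦X⟧) {z : gauss x} (hz : g • z = z) (P : Polynomial R) :
    g • P.eval₂ (x.toO.comp C) z = P.eval₂ (x.toO.comp C) z := by
  have := Polynomial.hom_eval₂ P (x.toO.comp C) (MulSemiringAction.toRingHom _ (gauss x) g) z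
  rw [show (MulSemiringAction.toRingHom _ (gauss x) g).comp (x.toO.comp C) = x.toO.comp C from
    RingHom.ext fun r => (x.smul_toO g (C r)).trans (by rw [algHom_C]; rfl)] at this
  simpa only [MulSemiringAction.toRingHom_apply, hz] using this

theorem Ctx.smul_inv (g : R⟦X⟧ ≃ₐ[R] R⟦X⟧) {d : R⟦X⟧} (hd : x.red d ≠ 0) (h : g d = d) :
    g • x.inv d hd = x.inv d hd := Subtype.ext (by
  change g • (al d)⁻¹ = (al d)⁻¹
  rw [smul_inv'', smul_algebraMap_K, h])

theorem Ctx.inv_mul (d : R⟦X⟧) (hd : x.red d ≠ 0) : x.inv d hd * x.toO d = 1 :=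
  Subtype.ext (inv_mul_cancel₀ ((map_ne_zero_iff _ al_inj).2 fun e => hd (by rw [e, map_zero])))

theorem Ctx.exists_psi {g g' : R⟦X⟧ ≃ₐ[R] R⟦X⟧} {Θ S : gauss x} {ζ : R} (hζ : ζ ^ p = 1 + x.l)
    (hΘ : residue _ Θ = 1) (e : g • (Θ ^ p + x.L ^ p * S) = (1 + x.L) * (Θ ^ p + x.L ^ p * S))
    (hg : g ^ p = 1) (hc : g * g' = g' * g) (h' : g' • Θ = Θ) :
    ∃ ψ, g • residue _ S - residue _ S = ψ ^ p - ψ ∧ g' • ψ = ψ ∧
      ∑ i ∈ Finset.range p, g ^ i • ψ = 1 := by
  have hp := (Fact.out : p.Prime)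
  have eζ : x.toO (C ζ) ^ p = 1 + x.L := by rw [← map_pow, ← map_pow, hζ]; simp
  have hΘ' : residue _ (g • Θ) = 1 := by rw [ResidueField.residue_smul, hΘ, smul_one]
  obtain ⟨Θi, hΘi⟩ := ((residue_ne_zero_iff_isUnit (g • Θ)).1 (hΘ' ▸ one_ne_zero)).exists_right_inv
  have h0 : g • Θ ≠ 0 := left_ne_zero_of_mul_eq_one hΘi
  rw [smul_add, smul_mul', smul_pow', smul_pow', x.smul_L] at e
  have e1 : (x.toO (C ζ) * Θ) ^ p - (g • Θ) ^ p = x.L ^ p * (g • S - (1 + x.L) * S) := by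
    rw [mul_pow, eζ]
    linear_combination -e
  obtain ⟨s, hs⟩ := dvd_sub_of_pow hp x.hpO e1
  have e2 : x.toO (C ζ) * Θ = g • Θ * (1 + x.L * (s * Θi)) := by
    linear_combination hs - x.L * s * hΘi
  refine ⟨residue _ (s * Θi), ?_, ?_, ?_⟩
  · rw [e2, mul_pow, x.powO] at e1
    have e3 : (g • Θ) ^ p * x.ΦO 1 (s * Θi) = g • S - (1 + x.L) * S :=
      mul_left_cancel₀ (pow_ne_zero p x.L_ne_zero) (by linear_combination e1)
    have := congrArg (residue _) e3
    simp only [map_mul _ (_ ^ p), map_pow, hΘ', x.res_ΦO, map_sub, map_mul _ (1 + x.L), map_add,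
      x.res_L, map_one, one_pow, one_mul, add_zero] at this
    rw [this, ResidueField.residue_smul]
  · generalize s * Θi = r at e2 ⊢
    have := congrArg (g' • ·) e2
    simp only [smul_mul', smul_add, smul_one, x.smul_toO, algHom_C, h', ← mul_smul, ← hc] at this
    rw [mul_smul, h', e2, mul_right_inj' h0, add_right_inj, mul_right_inj' x.L_ne_zero] at this
    rw [← ResidueField.residue_smul, ← this]
  · obtain ⟨r, hr, er⟩ := (show x.Coc Θ g (C ζ) _ from ⟨_, rfl, e2⟩).pow p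
    simp only [algHom_C, Finset.prod_const, Finset.card_range, hg, one_smul, map_pow, eζ] at er
    have hΘ0 : Θ ≠ 0 := fun h => h0 (by rw [h, smul_zero])
    rw [mul_comm, mul_right_inj' hΘ0, add_right_inj] at er
    rw [← hr, ← mul_left_cancel₀ x.L_ne_zero ((mul_one _).trans er), map_one]

variable {x} {γ ϖ : R} {t : Tw R} {φ : Kf R} (h : t.Ok x 1 γ ϖ φ) (hϖ : x.π ϖ = 0)

include h

theorem Tw.Ok.dW : d⁄dX k (x.red t.W) = (x.red t.T ^ p) ^ (p - 1) := by
  have := congrArg (d⁄dX k) h.R2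
  rw [map_sub, Ctx.deriv_pow_char, Derivation.leibniz, pow_one, pow_right_comm, Ctx.deriv_pow_char,
    derivative_X, map_neg, pow_right_comm] at this
  simpa using this.symm

theorem Tw.Ok.W_mem : x.red t.W ∈ dX k := by
  have hp := (Fact.out : p.Prime)
  change X ∣ d⁄dX k _
  rw [h.dW]
  exact dvd_pow (dvd_pow h.X_dvd_T hp.ne_zero) (by have := hp.two_le; omega)

include hϖ

theorem Tw.Ok.T_mem : x.red t.T ∈ dX k := by
  change X ∣ d⁄dX k _
  rw [h.dT hϖ]
  exact Dvd.dvd.mul_left h.W_mem _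

theorem Tw.Ok.hh_mem : x.red (hh p (C γ) (C ϖ) t.T) ∈ dX k := by
  rw [x.red_hh hϖ]
  exact mul_mem (C_mem_dX _) (pow_mem (h.T_mem hϖ) _)

end One

variable {p : ℕ} [Fact p.Prime] {k : Type} [Field k] [CharP k p]
  {R : ℕ → Type} [∀ N, CommRing (R N)] [∀ N, IsDomain (R N)] [∀ N, IsDiscreteValuationRing (R N)]
  (f : Fm p k R)

/-- Families of elements of the Gauss valuation rings. -/
noncomputable def Fm.ofO (z : ∀ N, gauss (f.x N)) : f.B :=
  ⟨fun N => z N, Bd.of_eventually (Eventually.of_forall fun N => (z N).2)⟩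

@[simp] theorem Fm.ev_ofO (N : ℕ) (z : ∀ N, gauss (f.x N)) : f.ev N (f.ofO z) = z N := rfl

theorem Fm.exists_pow {M ν : f.B} (e : f.l = M * ν) (hM : f.cls M = 0) (P : f.B) :
    ∃ P', (1 + ν * P) ^ p = 1 + ν ^ p * P' ∧ f.cls P' = f.cls P ^ p := by
  have hp := (Fact.out : p.Prime)
  obtain ⟨r, hr⟩ := exists_add_pow_prime_eq hp 1 (ν * P)
  refine ⟨P ^ p - f.c * M ^ (p - 1) * P * r, ?_, ?_⟩
  · rw [hr, f.hp, e, ← pow_sub_one_mul hp.ne_zero ν, mul_pow, mul_pow,
      ← pow_sub_one_mul hp.ne_zero ν]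
    simp only [one_pow]
    ring
  · simp [hM, show p - 1 ≠ 0 by have := hp.two_le; omega]

end Pool.Agent.P.MP_41a2b4_ag
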