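import Pool.Agent.P.MP_41a2b4_ag.Kum

set_option autoImplicit false

namespace Pool.Agent.P.MP_41a2b4_ag

open PowerSeries IsLocalRing

section Complete

variable {S : Type*} [CommRing S] {I : Ideal S}

theorem eq_of_sub_mem_pow [IsHausdorff I S] {x y : S} (h : ∀ n, x - y ∈ I ^ n) : x = y := by
  refine IsHausdorff.eq_iff_smodEq (I := I) |>.2 fun n => ?_
  rw [SModEq.sub_mem, smul_eq_mul, Ideal.mul_top]
  exact h n

theorem exists_lim [IsPrecomplete I S] (f : ℕ → S) (h : ∀ n, f (n + 1) - f n ∈ I ^ n) :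
    ∃ L, ∀ n, L - f n ∈ I ^ n := by
  have h' : ∀ m n, m ≤ n → f n - f m ∈ I ^ m := by
    intro m n hmn
    induction n, hmn using Nat.le_induction with
    | base => simp
    | succ n hmn ih =>
      have := (I ^ m).add_mem (Ideal.pow_le_pow_right hmn (h n)) ih
      simpa using this
  obtain ⟨L, hL⟩ := IsPrecomplete.prec (inferInstance : IsPrecomplete I S) (f := f) (by
    intro m n hmn
    rw [SModEq.sub_mem, smul_eq_mul, Ideal.mul_top]
    simpa using (I ^ m).neg_mem (h' m n hmn))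
  refine ⟨L, fun n => ?_⟩
  have := hL n
  rw [SModEq.sub_mem, smul_eq_mul, Ideal.mul_top] at this
  simpa using (I ^ n).neg_mem this

/-- A contraction of `I`. -/
def Contr (I : Ideal S) (Ψ : S → S) : Prop :=
  ∀ n, ∀ x ∈ I, ∀ y ∈ I, x - y ∈ I ^ n → Ψ x - Ψ y ∈ I ^ (n + 1)

theorem Contr.unique [IsHausdorff I S] {Ψ : S → S} (h : Contr I Ψ) {x y : S} (hx : x ∈ I)
    (hy : y ∈ I) (ex : Ψ x = x) (ey : Ψ y = y) : x = y := by
  refine eq_of_sub_mem_pow (I := I) fun n => ?_
  induction n with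
  | zero => simp
  | succ n ih => simpa [ex, ey] using h n x hx y hy ih

theorem Contr.exists [IsAdicComplete I S] {Ψ : S → S} (h : Contr I Ψ) (h0 : Ψ 0 ∈ I) :
    ∃ x ∈ I, Ψ x = x := by
  have hI : ∀ x ∈ I, Ψ x ∈ I := fun x hx => by
    have := h 0 x hx 0 I.zero_mem (by simp)
    rw [zero_add, pow_one] at this
    simpa using I.add_mem this h0
  have hm : ∀ n, Ψ^[n] 0 ∈ I := fun n => by
    induction n with
    | zero => exact I.zero_mem
    | succ n ih => rw [Function.iterate_succ_apply']; exact hI _ ih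
  have hs : ∀ n, Ψ^[n + 1] 0 - Ψ^[n] 0 ∈ I ^ n := fun n => by
    induction n with
    | zero => simp
    | succ n ih =>
      have := h n _ (hm _) _ (hm _) ih
      rwa [← Function.iterate_succ_apply' Ψ, ← Function.iterate_succ_apply' Ψ] at this
  obtain ⟨L, hL⟩ := exists_lim (I := I) (fun n => Ψ^[n] 0) hs
  have hLI : L ∈ I := by
    have := hL 1
    rw [pow_one] at this
    simpa using I.add_mem this (hm 1)
  refine ⟨L, hLI, eq_of_sub_mem_pow (I := I) fun n => ?_⟩
  have h1 := h n _ hLI _ (hm n) (hL n)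
  rw [← Function.iterate_succ_apply' Ψ] at h1
  simpa using Ideal.pow_le_pow_right (Nat.le_succ n) ((I ^ (n + 1)).sub_mem h1 (hL (n + 1)))

variable {R : Type*} [CommRing R] [Algebra R S]

theorem aeval_sub_mem {b : S} (hb : b ∈ I) {n : ℕ} {P Q : Polynomial R}
    (h : (X : R⟦X⟧) ^ n ∣ (P : R⟦X⟧) - Q) :
    Polynomial.aeval b P - Polynomial.aeval b Q ∈ I ^ n := by
  have : (Polynomial.X : Polynomial R) ^ n ∣ P - Q := by
    rw [Polynomial.X_pow_dvd_iff]
    intro d hd
    simpa using X_pow_dvd_iff.1 h d hd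
  obtain ⟨c, hc⟩ := this
  rw [← map_sub, hc, map_mul, map_pow, Polynomial.aeval_X]
  exact Ideal.mul_mem_right _ _ (Ideal.pow_mem_pow hb n)

theorem X_pow_dvd_sub_trunc (n : ℕ) (f : R⟦X⟧) : (X : R⟦X⟧) ^ n ∣ f - trunc n f :=
  ⟨_, sub_eq_of_eq_add (eq_X_pow_mul_shift_add_trunc n f)⟩

theorem exists_ev [IsAdicComplete I S] {b : S} (hb : b ∈ I) :
    ∃ φ : R⟦X⟧ →ₐ[R] S, φ X = b := by
  have h : ∀ f : R⟦X⟧, ∃ L, ∀ n (P : Polynomial R), (X : R⟦X⟧) ^ n ∣ f - P →
      L - Polynomial.aeval b P ∈ I ^ n := fun f => by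
    obtain ⟨L, hL⟩ := exists_lim (I := I) (fun n => Polynomial.aeval b (trunc n f)) fun n =>
      aeval_sub_mem hb (by
        simpa using dvd_sub (X_pow_dvd_sub_trunc n f)
          ((pow_dvd_pow _ (Nat.le_succ n)).trans (X_pow_dvd_sub_trunc (n + 1) f)))
    refine ⟨L, fun n P hP => ?_⟩
    have := aeval_sub_mem hb (P := trunc n f) (Q := P)
      (by simpa using dvd_sub hP (X_pow_dvd_sub_trunc n f))
    simpa using (I ^ n).add_mem (hL n) this
  choose e he using h
  have hP : ∀ P : Polynomial R, e P = Polynomial.aeval b P := fun P =>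
    eq_of_sub_mem_pow (I := I) fun n => he _ n P (by simp)
  refine ⟨{ toFun := e, map_one' := ?_, map_mul' := ?_, map_zero' := ?_, map_add' := ?_,
            commutes' := ?_ }, ?_⟩
  · simpa using hP 1
  · intro f g
    refine eq_of_sub_mem_pow (I := I) fun n => ?_
    have hf := X_pow_dvd_sub_trunc n f
    have hg := X_pow_dvd_sub_trunc n g
    have h1 := he (f * g) n (trunc n f * trunc n g) (by
      convert dvd_add (hf.mul_right g) (hg.mul_left (trunc n f : R⟦X⟧)) using 1
      push_cast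
      ring)
    convert (I ^ n).sub_mem h1 ((I ^ n).add_mem (Ideal.mul_mem_right (e g) _ (he f n _ hf))
      (Ideal.mul_mem_left _ (Polynomial.aeval b (trunc n f)) (he g n _ hg))) using 1
    rw [map_mul]
    ring
  · simpa using hP 0
  · intro f g
    refine eq_of_sub_mem_pow (I := I) fun n => ?_
    have hf := X_pow_dvd_sub_trunc n f
    have hg := X_pow_dvd_sub_trunc n g
    have h1 := he (f + g) n (trunc n f + trunc n g) (by
      convert dvd_add hf hg using 1
      push_cast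
      ring)
    convert (I ^ n).sub_mem h1 ((I ^ n).add_mem (he f n _ hf) (he g n _ hg)) using 1
    rw [map_add]
    ring
  · intro r
    simpa [PowerSeries.algebraMap_apply] using hP (Polynomial.C r)
  · simpa using hP Polynomial.X

theorem algHom_coe (φ : R⟦X⟧ →ₐ[R] S) (P : Polynomial R) : φ P = Polynomial.aeval (φ X) P := by
  have : φ.comp (Polynomial.coeToPowerSeries.algHom R) = Polynomial.aeval (φ X) := by
    ext
    simp [Polynomial.coeToPowerSeries.algHom_apply]
  simpa [Polynomial.coeToPowerSeries.algHom_apply] using DFunLike.congr_fun this P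

theorem algHom_sub_mem {φ ψ : R⟦X⟧ →ₐ[R] S} (hφ : φ X ∈ I) (hψ : ψ X ∈ I) {n : ℕ}
    (h : φ X - ψ X ∈ I ^ n) (f : R⟦X⟧) : φ f - ψ f ∈ I ^ n := by
  obtain ⟨g, hg⟩ := X_pow_dvd_sub_trunc n f
  rw [eq_add_of_sub_eq hg, map_add, map_add, map_mul, map_mul, map_pow, map_pow, algHom_coe,
    algHom_coe]
  obtain ⟨c, hc⟩ := Polynomial.sub_dvd_eval_sub (φ X) (ψ X) ((trunc n f).map (algebraMap R S))
  rw [Polynomial.eval_map_algebraMap, Polynomial.eval_map_algebraMap] at hc
  convert (I ^ n).add_mem ((I ^ n).sub_mem (Ideal.mul_mem_right (φ g) _ (Ideal.pow_mem_pow hφ n))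
    (Ideal.mul_mem_right (ψ g) _ (Ideal.pow_mem_pow hψ n))) (Ideal.mul_mem_right c _ h) using 1
  linear_combination hc

end Complete

section Local

variable {R : Type*} [CommRing R] [IsLocalRing R]

theorem mem_max_iff {f : R⟦X⟧} : f ∈ maximalIdeal R⟦X⟧ ↔ constantCoeff f ∈ maximalIdeal R := by
  simp [mem_maximalIdeal, isUnit_iff_constantCoeff]

theorem X_mem_max : (X : R⟦X⟧) ∈ maximalIdeal R⟦X⟧ := by
  rw [mem_max_iff, constantCoeff_X]
  exact Ideal.zero_mem _

theorem C_mem_max {r : R} (h : r ∈ maximalIdeal R) : (C r : R⟦X⟧) ∈ maximalIdeal R⟦X⟧ := by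
  rwa [mem_max_iff, constantCoeff_C]

theorem mem_max_pow_iff {n : ℕ} {f : R⟦X⟧} :
    f ∈ maximalIdeal R⟦X⟧ ^ n ↔ ∀ i, coeff i f ∈ maximalIdeal R ^ (n - i) := by
  constructor
  · intro h
    induction n generalizing f with
    | zero => simp
    | succ n ih =>
      rw [pow_succ] at h
      refine Submodule.mul_induction_on h (fun a ha b hb i => ?_) (fun a b ha hb i => ?_)
      · rw [coeff_mul]
        refine Ideal.sum_mem _ fun x hx => ?_
        have hx' := Finset.HasAntidiagonal.mem_antidiagonal.1 hx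
        rcases Nat.eq_zero_or_pos x.2 with h0 | h0
        · have h1 : x.1 = i := by omega
          rw [h0, h1]
          have := Ideal.mul_mem_mul (ih ha i) (mem_max_iff.1 hb)
          rw [← pow_succ] at this
          exact Ideal.pow_le_pow_right (show n + 1 - i ≤ n - i + 1 by omega) (by simpa using this)
        · exact Ideal.mul_mem_right _ _ (Ideal.pow_le_pow_right (by omega) (ih ha x.1))
      · rw [map_add]
        exact Ideal.add_mem _ (ha i) (hb i)
  · intro h
    obtain ⟨g, hg⟩ := X_pow_dvd_sub_trunc n f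
    rw [eq_add_of_sub_eq hg]
    refine Ideal.add_mem _ (Ideal.mul_mem_right _ _ (Ideal.pow_mem_pow X_mem_max n)) ?_
    rw [trunc_apply]
    simp only [← Polynomial.coeToPowerSeries.ringHom_apply, map_sum]
    refine Ideal.sum_mem _ fun i hi => ?_
    have hi' := (Finset.mem_Ico.1 hi).2
    rw [Polynomial.coeToPowerSeries.ringHom_apply, Polynomial.coe_monomial,
      monomial_eq_C_mul_X_pow]
    have h1 : (C (coeff i f) : R⟦X⟧) ∈ maximalIdeal R⟦X⟧ ^ (n - i) := by
      have := Ideal.mem_map_of_mem (C : R →+* R⟦X⟧) (h i)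
      rw [Ideal.map_pow] at this
      exact Ideal.pow_right_mono (Ideal.map_le_iff_le_comap.2 fun r hr =>
        Ideal.mem_comap.2 (C_mem_max hr)) _ this
    have := Ideal.mul_mem_mul h1 (Ideal.pow_mem_pow (X_mem_max (R := R)) i)
    rwa [← pow_add, Nat.sub_add_cancel hi'.le] at this

instance complete_powerSeries [IsAdicComplete (maximalIdeal R) R] :
    IsAdicComplete (maximalIdeal R⟦X⟧) R⟦X⟧ where
  haus' := fun x hx => by
    ext i
    refine eq_of_sub_mem_pow (I := maximalIdeal R) fun n => ?_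
    have := hx (n + i)
    rw [SModEq.zero, smul_eq_mul, Ideal.mul_top, mem_max_pow_iff] at this
    simpa using this i
  prec' := fun f hf => by
    have h : ∀ i, ∃ L, ∀ n, L - coeff i (f (n + i)) ∈ maximalIdeal R ^ n := fun i =>
      exists_lim _ fun n => by
        have := hf (show n + i ≤ n + 1 + i by omega)
        rw [SModEq.sub_mem, smul_eq_mul, Ideal.mul_top, mem_max_pow_iff] at this
        simpa using (maximalIdeal R ^ _).neg_mem (this i)
    choose L hL using h
    refine ⟨PowerSeries.mk L, fun n => ?_⟩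
    rw [SModEq.sub_mem, smul_eq_mul, Ideal.mul_top, mem_max_pow_iff]
    intro i
    by_cases hi : i ≤ n
    · have := hL i (n - i)
      rw [Nat.sub_add_cancel hi] at this
      simpa using (maximalIdeal R ^ _).neg_mem this
    · simp [Nat.sub_eq_zero_of_le (not_le.1 hi).le]

omit [IsLocalRing R] in
theorem algHom_C {F : Type*} [FunLike F R⟦X⟧ R⟦X⟧] [AlgHomClass F R R⟦X⟧ R⟦X⟧] (φ : F) (r : R) :
    φ (C r) = C r :=
  AlgHomClass.commutes φ r

theorem algHom_mem_max (φ : R⟦X⟧ →ₐ[R] R⟦X⟧) : φ X ∈ maximalIdeal R⟦X⟧ := by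
  by_contra h
  rw [mem_max_iff, notMem_maximalIdeal] at h
  have h1 : IsUnit (X - C (constantCoeff (φ X)) : R⟦X⟧) := by
    rw [isUnit_iff_constantCoeff]
    simpa using h.neg
  have h2 := h1.map φ
  rw [isUnit_iff_constantCoeff, map_sub, algHom_C] at h2
  simp at h2

theorem algHom_ext [IsAdicComplete (maximalIdeal R) R] {φ ψ : R⟦X⟧ →ₐ[R] R⟦X⟧} (h : φ X = ψ X) :
    φ = ψ :=
  AlgHom.ext fun f => eq_of_sub_mem_pow (I := maximalIdeal R⟦X⟧) fun n =>
    algHom_sub_mem (algHom_mem_max φ) (algHom_mem_max ψ) (by simp [h]) f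

theorem algHom_map_max (φ : R⟦X⟧ →ₐ[R] R⟦X⟧) {f : R⟦X⟧} (hf : f ∈ maximalIdeal R⟦X⟧) :
    φ f ∈ maximalIdeal R⟦X⟧ := by
  rw [eq_add_of_sub_eq (sub_const_eq_X_mul_shift f), map_add, map_mul]
  refine Ideal.add_mem _ (Ideal.mul_mem_right _ _ (algHom_mem_max φ)) ?_
  rw [algHom_C]
  exact C_mem_max (mem_max_iff.1 hf)

end Local

end Pool.Agent.P.MP_41a2b4_ag
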