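import Mathlib

set_option autoImplicit false

namespace Pool.Agent.P.MP_41a2b4_ag

open Finset

variable {S S' F : Type*} [CommRing S] [CommRing S'] [FunLike F S S'] [RingHomClass F S S']

/-- The product of the `p` linear forms `(γ - j) T + ϖ`, in characteristic `p`. -/
def hh (p : ℕ) (γ ϖ T : S) : S := (γ * T + ϖ) ^ p - T ^ (p - 1) * (γ * T + ϖ)

/-- The correction term of the second step. -/
def eta2 (p n : ℕ) (γ ϖ ϖi T W₁ : S) : S :=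
  (γ * T + ϖ) ^ p ^ n * (W₁ * ϖi ^ p ^ (n + 1)) ^ p ^ (n + 2)

/-- The numerator of the polar part at `T = 0` of the second step. -/
def pol2 (p n : ℕ) (γ ϖ ϖi T : S) : S :=
  hh p γ ϖ T ^ p ^ n * ∑ i ∈ range (n + 1),
    (T * ((hh p γ ϖ T ^ p ^ n) ^ (p ^ (n + 1) - 1) * (ϖi ^ p ^ (n + 1)) ^ p ^ (n + 1)) ^ p) ^ p ^ i

/-- The Artin-Schreier function for the Heisenberg group. -/
def qH (p : ℕ) (γ ϑ τ half : S) (e : ℕ → S) (T Ti hi ci W₁ : S) : S :=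
  -(((γ * T + τ ^ p) * Ti) ^ p * (T * hi ^ p) * (W₁ * hi))
    - half * (T * hi ^ p) * (((γ * T + τ ^ p) * Ti) ^ p * (T * hi ^ p))
    + half * T ^ 2 * (-(((γ - ϑ ^ p) * T + τ ^ p) * Ti * hi * ci ^ p)) ^ p
    - T * ((-τ + ∑ j ∈ range p, e j * ((γ * T + τ ^ p - j * T) ^ (p - 1) - T ^ (p - 1))) *
        hi * ci ^ p) ^ p

/-- The Artin-Schreier function for the modular group, without the Witt vector carry. -/
def qM (p : ℕ) (γ ϖ T Ti hi W₁ : S) : S :=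
  -(((γ * T + ϖ) * Ti) ^ p ^ 2 * (T * hi ^ p ^ 2) * (W₁ * hi ^ p))
    - (T * hi ^ p ^ 2) * (((γ * T + ϖ) * Ti) ^ p ^ 2 * (T * hi ^ p ^ 2))
    + T * (-(Ti ^ (p - 1) * hi ^ (p ^ 2 + p - 1))) ^ p

/-- The Artin-Schreier function for the quaternion group. -/
def qQ (γ ϖ T Ti hi W₁ W₂ : S) : S :=
  (T * hi ^ 4 + ((γ * T + ϖ) * Ti) ^ 4 * (T * hi ^ 4)) *
      (W₂ * Ti ^ 2 + ((γ * T + ϖ) * Ti) ^ 2 * (W₁ * hi ^ 2))
    + T * hi ^ 4 * (W₁ * hi ^ 2) + T * ((Ti * hi) ^ 6) ^ 2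

theorem map_hh (f : F) (p : ℕ) (γ ϖ T : S) : f (hh p γ ϖ T) = hh p (f γ) (f ϖ) (f T) := by
  simp [hh]

theorem map_eta2 (f : F) (p n : ℕ) (γ ϖ ϖi T W₁ : S) :
    f (eta2 p n γ ϖ ϖi T W₁) = eta2 p n (f γ) (f ϖ) (f ϖi) (f T) (f W₁) := by
  simp [eta2]

theorem map_pol2 (f : F) (p n : ℕ) (γ ϖ ϖi T : S) :
    f (pol2 p n γ ϖ ϖi T) = pol2 p n (f γ) (f ϖ) (f ϖi) (f T) := by
  simp [pol2, map_hh, map_sum]

theorem map_qH (f : F) (p : ℕ) (γ ϑ τ half : S) (e : ℕ → S) (T Ti hi ci W₁ : S) :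
    f (qH p γ ϑ τ half e T Ti hi ci W₁) = qH p (f γ) (f ϑ) (f τ) (f half) (fun j => f (e j)) (f T)
      (f Ti) (f hi) (f ci) (f W₁) := by
  simp [qH, map_sum]

theorem map_qM (f : F) (p : ℕ) (γ ϖ T Ti hi W₁ : S) :
    f (qM p γ ϖ T Ti hi W₁) = qM p (f γ) (f ϖ) (f T) (f Ti) (f hi) (f W₁) := by
  simp [qM]

theorem map_qQ (f : F) (γ ϖ T Ti hi W₁ W₂ : S) :
    f (qQ γ ϖ T Ti hi W₁ W₂) = qQ (f γ) (f ϖ) (f T) (f Ti) (f hi) (f W₁) (f W₂) := by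
  simp [qQ]

end Pool.Agent.P.MP_41a2b4_ag
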