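import Pool.Agent.P.MP_41a2b4_ag.Step

set_option autoImplicit false
set_option linter.unusedSectionVars false

namespace Pool.Agent.P.MP_41a2b4_ag

open PowerSeries IsLocalRing Filter

section General

variable {K : ℕ → Type} [∀ N, Field (K N)] (ϖ : ∀ N, K N)

/-- Families with bounded denominators. -/
def Bd (S : ∀ N, Subring (K N)) (h : ∀ N, ϖ N ∈ S N) : Subring (∀ N, K N) where
  carrier := {z | ∃ c : ℕ, ∀ᶠ N in atTop, ϖ N ^ c * z N ∈ S N}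
  mul_mem' := by
    rintro z w ⟨c, hc⟩ ⟨d, hd⟩
    refine ⟨c + d, ?_⟩
    filter_upwards [hc, hd] with N h1 h2
    convert (S N).mul_mem h1 h2 using 1
    rw [Pi.mul_apply]
    ring
  one_mem' := ⟨0, Eventually.of_forall fun N => by simp⟩
  add_mem' := by
    rintro z w ⟨c, hc⟩ ⟨d, hd⟩
    refine ⟨c + d, ?_⟩
    filter_upwards [hc, hd] with N h1 h2
    convert (S N).add_mem ((S N).mul_mem h1 ((S N).pow_mem (h N) d))
      ((S N).mul_mem h2 ((S N).pow_mem (h N) c)) using 1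
    rw [Pi.add_apply]
    ring
  zero_mem' := ⟨0, Eventually.of_forall fun N => by simp⟩
  neg_mem' := by
    rintro z ⟨c, hc⟩
    refine ⟨c, ?_⟩
    filter_upwards [hc] with N h1
    simpa using (S N).neg_mem h1

variable {ϖ} {S S' : ∀ N, Subring (K N)} {h : ∀ N, ϖ N ∈ S N} {h' : ∀ N, ϖ N ∈ S' N}

theorem Bd.of_eventually {z : ∀ N, K N} (hz : ∀ᶠ N in atTop, z N ∈ S N) : z ∈ Bd ϖ S h :=
  ⟨0, by simpa using hz⟩

theorem Bd.mono (hS : ∀ N, S N ≤ S' N) : Bd ϖ S h ≤ Bd ϖ S' h' := fun _ ⟨c, hc⟩ =>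
  ⟨c, hc.mono fun N hN => hS N hN⟩

theorem Bd.inv_mem (h0 : ∀ N, ϖ N ≠ 0) : (fun N => (ϖ N)⁻¹) ∈ Bd ϖ S h :=
  ⟨1, Eventually.of_forall fun N => by simp [h0 N]⟩

theorem Bd.small {μ z : ∀ N, K N} (hμ : ∀ N, ∃ s ∈ S N, μ N = ϖ N ^ N * s) (hz : z ∈ Bd ϖ S h)
    (c : ℕ) : ∀ᶠ N in atTop, ∃ s ∈ S N, μ N * z N = ϖ N ^ c * s := by
  obtain ⟨d, hd⟩ := hz
  filter_upwards [hd, eventually_ge_atTop (c + d)] with N h1 h2
  obtain ⟨s, hs, e⟩ := hμ N
  obtain ⟨m, hm⟩ := Nat.exists_eq_add_of_le h2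
  refine ⟨_, (S N).mul_mem ((S N).mul_mem h1 hs) ((S N).pow_mem (h N) m), ?_⟩
  rw [e, show ϖ N ^ N = ϖ N ^ (c + d + m) by rw [← hm]]
  ring

variable (ϖ S h) in
/-- Negligible families. -/
def Ng : Ideal (Bd ϖ S h) where
  carrier := {z | ∀ c : ℕ, ∀ᶠ N in atTop, ∃ s ∈ S N, z.1 N = ϖ N ^ c * s}
  add_mem' := by
    intro z w hz hw c
    filter_upwards [hz c, hw c] with N ⟨s, hs, e⟩ ⟨s', hs', e'⟩
    exact ⟨s + s', (S N).add_mem hs hs', by simp [e, e', mul_add]⟩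
  zero_mem' := fun c => Eventually.of_forall fun N => ⟨0, (S N).zero_mem, by simp⟩
  smul_mem' := by
    rintro ⟨w, d, hd⟩ z hz c
    filter_upwards [hz (c + d), hd] with N ⟨s, hs, e⟩ h1
    refine ⟨_, (S N).mul_mem hs h1, ?_⟩
    simp only [smul_eq_mul, Subring.coe_mul, Pi.mul_apply, e]
    ring

end General

variable {p : ℕ} [Fact p.Prime] {k : Type} [Field k] [CharP k p]
  {R : ℕ → Type} [∀ N, CommRing (R N)] [∀ N, IsDomain (R N)] [∀ N, IsDiscreteValuationRing (R N)]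

/-- A family of bases in which `l` is more and more divisible by `ϖ`. -/
structure Fm (p : ℕ) (k : Type) [Field k] (R : ℕ → Type) [∀ N, CommRing (R N)] where
  x : ∀ N, Ctx p k (R N)
  ϖ : ∀ N, R N
  h0 : ∀ N, ϖ N ≠ 0
  hϖ : ∀ N, (x N).π (ϖ N) = 0
  hl : ∀ N, ϖ N ^ N ∣ (x N).l

/-- The embedding of `R⟦X⟧` in its fraction field. -/
noncomputable abbrev al {S : Type} [CommRing S] [IsDomain S] : S⟦X⟧ →+* Kf S := algebraMap _ _

theorem al_inj {S : Type} [CommRing S] [IsDomain S] : Function.Injective (al (S := S)) :=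
  IsFractionRing.injective _ _

namespace Fm

variable (f : Fm p k R)

/-- The family `ϖ` in the fraction fields. -/
noncomputable def ϖK (N : ℕ) : Kf (R N) := al (C (f.ϖ N))

theorem ϖK_ne_zero (N : ℕ) : f.ϖK N ≠ 0 := (map_ne_zero_iff _ al_inj).2 (C_ne_zero (f.h0 N))

theorem al_mem (N : ℕ) (a : (R N)⟦X⟧) : al a ∈ (gauss (f.x N)).toSubring := ((f.x N).toO a).2

/-- Bounded families for the Gauss valuations. -/
noncomputable def B : Subring (∀ N, Kf (R N)) :=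
  Bd f.ϖK (fun N => (gauss (f.x N)).toSubring) fun N => f.al_mem N _

/-- Bounded families modulo negligible ones. -/
noncomputable def L : Type := f.B ⧸ Ng f.ϖK (fun N => (gauss (f.x N)).toSubring) fun N => f.al_mem N _

noncomputable instance : CommRing f.L := inferInstanceAs (CommRing (_ ⧸ _))

/-- The class of a bounded family. -/
noncomputable def cls : f.B →+* f.L := Ideal.Quotient.mk _

theorem cls_surj : Function.Surjective f.cls := Ideal.Quotient.mk_surjective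

theorem cls_eq_zero {z : f.B} : f.cls z = 0 ↔
    ∀ c : ℕ, ∀ᶠ N in atTop, ∃ s : gauss (f.x N), z.1 N = f.ϖK N ^ c * s := by
  refine Ideal.Quotient.eq_zero_iff_mem.trans (forall_congr' fun c => eventually_congr
    (Eventually.of_forall fun N => ⟨fun ⟨s, hs, e⟩ => ⟨⟨s, hs⟩, e⟩, fun ⟨s, e⟩ => ⟨s, s.2, e⟩⟩))

theorem cls_congr {z w : f.B} (h : ∀ᶠ N in atTop, z.1 N = w.1 N) : f.cls z = f.cls w := by
  rw [← sub_eq_zero, ← map_sub, cls_eq_zero]
  exact fun c => h.mono fun N hN => ⟨0, by simp [hN]⟩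

/-- Families of power series. -/
noncomputable def ofA : (∀ N, (R N)⟦X⟧) →+* f.B :=
  (RingHom.pi fun N => al.comp (Pi.evalRingHom _ N)).codRestrict f.B fun a =>
    Bd.of_eventually (Eventually.of_forall fun N => f.al_mem N (a N))

/-- Families of constants. -/
noncomputable def ofR : (∀ N, R N) →+* f.B :=
  f.ofA.comp (RingHom.pi fun N => (C : R N →+* (R N)⟦X⟧).comp (Pi.evalRingHom _ N))

/-- Evaluation of a family at an index. -/
noncomputable def ev (N : ℕ) : f.B →+* Kf (R N) := (Pi.evalRingHom _ N).comp f.B.subtype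

theorem ev_apply (N : ℕ) (z : f.B) : f.ev N z = z.1 N := rfl

@[simp] theorem ev_ofA (N : ℕ) (a : ∀ N, (R N)⟦X⟧) : f.ev N (f.ofA a) = al (a N) := rfl

@[simp] theorem ev_ofR (N : ℕ) (a : ∀ N, R N) : f.ev N (f.ofR a) = al (C (a N)) := rfl

theorem ofR_eq (a : ∀ N, R N) : f.ofR a = f.ofA fun N => C (a N) := rfl

theorem cls_ofA {a : ∀ N, (R N)⟦X⟧} (h : ∀ c, ∀ᶠ N in atTop, C (f.ϖ N) ^ c ∣ a N) :
    f.cls (f.ofA a) = 0 := f.cls_eq_zero.2 fun c => (h c).mono fun N ⟨b, hb⟩ =>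
  ⟨(f.x N).toO b, by rw [← ev_apply, ev_ofA, hb, map_mul, map_pow]; rfl⟩

theorem cls_ofR {μ : ∀ N, R N} (h : ∀ N, f.ϖ N ^ N ∣ μ N) : f.cls (f.ofR μ) = 0 :=
  f.cls_ofA fun c => (eventually_ge_atTop c).mono fun N hN => by
    rw [← map_pow]
    exact map_dvd _ ((pow_dvd_pow _ hN).trans (h N))

/-- The family `l`. -/
noncomputable def l : f.B := f.ofR fun N => (f.x N).l

/-- The family `c`. -/
noncomputable def c : f.B := f.ofR fun N => (f.x N).c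

theorem cls_l : f.cls f.l = 0 := f.cls_ofR f.hl

theorem hp : (p : f.B) = -f.c * f.l ^ (p - 1) := by
  rw [← map_natCast f.ofR, c, l, ← map_neg, ← map_pow, ← map_mul]
  congr 1
  funext N
  exact (f.x N).hp

theorem pow_eq (H W : f.B) : (H + f.l * W) ^ p = H ^ p + f.l ^ p * Phi p f.l f.c H W :=
  add_mul_pow_eq Fact.out f.hp H W

theorem cls_c : f.cls f.c = 1 := by
  have h : f.c = 1 + f.l * f.ofR fun N => Psi p (f.x N).l (f.x N).c 1 1 := by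
    rw [c, l, ← map_mul, ← map_one f.ofR, ← map_add]
    congr 1
    funext N
    have := add_mul_pow_eq Fact.out (f.x N).hp 1 1
    rw [mul_one, (f.x N).hζ, one_pow, left_eq_add, mul_eq_zero, Phi] at this
    have := this.resolve_left (pow_ne_zero _ (f.x N).hl0)
    simp only [Pi.add_apply, Pi.mul_apply, Pi.one_apply]
    linear_combination -this
  rw [h, map_add, map_mul, cls_l, zero_mul, add_zero, map_one]

theorem cls_Phi (H W : f.B) :
    f.cls (Phi p f.l f.c H W) = f.cls W ^ p - f.cls H ^ (p - 1) * f.cls W := by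
  rw [map_Phi, cls_l, cls_c, Phi]
  ring

theorem residue_of_cls {z : f.B} (h : f.cls z = 0) :
    ∀ᶠ N in atTop, ∃ s : gauss (f.x N), f.ev N z = s ∧ residue _ s = 0 :=
  (f.cls_eq_zero.1 h 1).mono fun N ⟨s, hs⟩ => ⟨(f.x N).toO (C (f.ϖ N)) * s, by
    rw [ev_apply, hs, pow_one]; rfl, by
    rw [map_mul, ← Ctx.ρ_apply, (f.x N).ρ_C (f.hϖ N), zero_mul]⟩

instance : Nontrivial f.L := ⟨1, 0, fun h => by
  obtain ⟨N, s, e, hs⟩ := (f.residue_of_cls (z := 1) (by rw [map_one, h])).exists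
  rw [map_one] at e
  rw [show s = 1 from Subtype.ext e.symm, map_one] at hs
  exact one_ne_zero hs⟩

instance : CharP f.L p := (CharP.charP_iff_prime_eq_zero Fact.out).2 (by
  rw [← map_natCast f.cls, hp, map_mul, map_pow, cls_l,
    zero_pow (by have := (Fact.out : p.Prime).two_le; omega), mul_zero])

/-- The inverse of a family of power series with nonzero reductions. -/
noncomputable def inv (a : ∀ N, (R N)⟦X⟧) (h : ∀ᶠ N in atTop, (f.x N).red (a N) ≠ 0) : f.B :=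
  ⟨fun N => (al (a N))⁻¹, Bd.of_eventually (h.mono fun N hN => ⟨a N, 1, hN, by
    rw [map_one, inv_mul_cancel₀ ((map_ne_zero_iff _ al_inj).2 fun e => hN (by rw [e, map_zero]))]⟩)⟩

@[simp] theorem ev_inv (N : ℕ) (a : ∀ N, (R N)⟦X⟧) (h : ∀ᶠ N in atTop, (f.x N).red (a N) ≠ 0) :
    f.ev N (f.inv a h) = (al (a N))⁻¹ := rfl

theorem cls_mul_inv (a : ∀ N, (R N)⟦X⟧) (h : ∀ᶠ N in atTop, (f.x N).red (a N) ≠ 0) :
    f.cls (f.ofA a) * f.cls (f.inv a h) = 1 := by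
  rw [← map_mul, ← map_one f.cls]
  refine f.cls_congr (h.mono fun N hN => ?_)
  have : al (a N) ≠ 0 := (map_ne_zero_iff _ al_inj).2 fun e => hN (by rw [e, map_zero])
  exact mul_inv_cancel₀ this

/-- The inverse of `ϖ`. -/
noncomputable def ϖi : f.B := ⟨fun N => (f.ϖK N)⁻¹, Bd.inv_mem f.ϖK_ne_zero⟩

@[simp] theorem ev_ϖi (N : ℕ) : f.ev N f.ϖi = (al (C (f.ϖ N)))⁻¹ := rfl

theorem mul_ϖi : f.ofR f.ϖ * f.ϖi = 1 :=
  Subtype.ext (funext fun N => mul_inv_cancel₀ (f.ϖK_ne_zero N))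

variable (S : ∀ N, Subalgebra (R N) (R N)⟦X⟧)

theorem C_mem (N : ℕ) (r : R N) : al (C r) ∈ (S N).toSubring.map al :=
  ⟨C r, (S N).algebraMap_mem r, rfl⟩

/-- Families with bounded denominators relative to subalgebras of the power series rings. -/
noncomputable def BS : Subring f.B :=
  (Bd f.ϖK (fun N => (S N).toSubring.map al) fun N => C_mem S N _).comap f.B.subtype

/-- The classes of the families in `BS`. -/
noncomputable def U : Subring f.L := (f.BS S).map f.cls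

variable {f S}

theorem U.mk {z : f.B} (h : z ∈ f.BS S) : f.cls z ∈ f.U S := ⟨z, h, rfl⟩

theorem U.mono {S' : ∀ N, Subalgebra (R N) (R N)⟦X⟧} (h : ∀ N, S N ≤ S' N) : f.U S ≤ f.U S' :=
  fun _ ⟨z, ⟨c, hc⟩, e⟩ => ⟨z, ⟨c, hc.mono fun N ⟨a, ha, e⟩ => ⟨a, h N ha, e⟩⟩, e⟩

theorem BS.ofA {a : ∀ N, (R N)⟦X⟧} (h : ∀ᶠ N in atTop, a N ∈ S N) : f.ofA a ∈ f.BS S :=
  Bd.of_eventually (h := fun N => C_mem S N _) (h.mono fun N hN => ⟨a N, hN, rfl⟩)

theorem BS.ofR (a : ∀ N, R N) : f.ofR a ∈ f.BS S :=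
  Bd.of_eventually (h := fun N => C_mem S N _) (Eventually.of_forall fun N => C_mem S N _)

theorem BS.ϖi : f.ϖi ∈ f.BS S := Bd.inv_mem (h := fun N => C_mem S N _) f.ϖK_ne_zero

theorem BS.small' {μ : ∀ N, R N} (hμ : ∀ N, f.ϖ N ^ N ∣ μ N) {z : f.B} (hz : z ∈ f.BS S) (c : ℕ) :
    ∀ᶠ N in atTop, ∃ a ∈ S N, C (f.ϖ N) ^ c ∣ a ∧ al a = f.ev N (f.ofR μ * z) := by
  refine (Bd.small (h := fun N => C_mem S N _) (μ := fun N => al (C (μ N))) (fun N => ?_) hz c).mono ?_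
  · obtain ⟨r, hr⟩ := hμ N
    exact ⟨_, C_mem S N r, by rw [hr, map_mul, map_mul, map_pow, map_pow]⟩
  · rintro N ⟨_, ⟨a, ha, rfl⟩, e⟩
    refine ⟨C (f.ϖ N) ^ c * a, (S N).mul_mem ((S N).pow_mem ((S N).algebraMap_mem _) _) ha,
      dvd_mul_right _ _, ?_⟩
    rw [map_mul, map_pow]
    exact e.symm

theorem red_of_dvd {N : ℕ} {a : (R N)⟦X⟧} (h : C (f.ϖ N) ^ 1 ∣ a) : (f.x N).red a = 0 := by
  obtain ⟨b, rfl⟩ := h
  simp [f.hϖ N]

theorem BS.small {μ : ∀ N, R N} (hμ : ∀ N, f.ϖ N ^ N ∣ μ N) {z : f.B} (hz : z ∈ f.BS S) :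
    ∀ᶠ N in atTop, ∃ a ∈ S N, (f.x N).red a = 0 ∧ al a = f.ev N (f.ofR μ * z) :=
  (BS.small' hμ hz 1).mono fun _ ⟨a, ha, h, e⟩ => ⟨a, ha, red_of_dvd h, e⟩

theorem BS.of_cls {z : f.B} (hz : z ∈ f.BS S) (h : f.cls z = 0) (c : ℕ) :
    ∀ᶠ N in atTop, ∃ a, C (f.ϖ N) ^ c ∣ a ∧ al a = f.ev N z := by
  obtain ⟨d, hd⟩ := hz
  filter_upwards [hd, f.cls_eq_zero.1 h c] with N ⟨a, _, ha⟩ ⟨s', hs'⟩
  have e : (f.x N).toO a = (f.x N).toO (C (f.ϖ N ^ (d + c))) * s' := Subtype.ext (by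
    have : al a = f.ϖK N ^ d * z.1 N := ha
    rw [MulMemClass.coe_mul, Ctx.coe_toO, Ctx.coe_toO, this, hs', map_pow, map_pow, ϖK]
    ring)
  obtain ⟨b, rfl⟩ := (f.x N).exists_of_mul_eq (pow_ne_zero _ (f.h0 N)) e
  exact ⟨C (f.ϖ N) ^ c * b, dvd_mul_right _ _, by rw [ev_apply, hs', map_mul, map_pow]; rfl⟩

variable (f) in
/-- `a` is approximately `Θ ^ p (1 + l ^ p α)`. -/
def Rel (Θ a : f.B) (α : f.L) : Prop := f.cls Θ = 1 ∧ ∃ a', a = Θ ^ p + f.l ^ p * a' ∧ f.cls a' = α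

variable {Θ Θ' a a' : f.B} {α α' : f.L}

theorem Rel.pow (h : f.cls Θ = 1) : f.Rel Θ (Θ ^ p) 0 := ⟨h, 0, by simp, map_zero _⟩

theorem Rel.one (b : f.B) : f.Rel 1 (1 + f.l ^ p * b) (f.cls b) := ⟨map_one _, b, by simp, rfl⟩

theorem Rel.mul (h : f.Rel Θ a α) (h' : f.Rel Θ' a' α') : f.Rel (Θ * Θ') (a * a') (α + α') := by
  obtain ⟨h1, b, rfl, rfl⟩ := h
  obtain ⟨h2, b', rfl, rfl⟩ := h'
  refine ⟨by rw [map_mul, h1, h2, one_mul], b * Θ' ^ p + b' * Θ ^ p + f.l ^ p * b * b', by ring, ?_⟩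
  simp [h1, h2, cls_l, (Fact.out : p.Prime).ne_zero]

theorem Rel.add (h : f.Rel Θ a α) (b : f.B) : f.Rel Θ (a + f.l ^ p * b) (α + f.cls b) := by
  obtain ⟨h1, b', rfl, rfl⟩ := h
  exact ⟨h1, b' + b, by ring, map_add _ _ _⟩

theorem Rel.shift (h : f.Rel Θ a α) (η : f.B) :
    f.Rel (Θ * (1 + f.l * η)) a (α - (f.cls η ^ p - f.cls η)) := by
  obtain ⟨h1, b, rfl, rfl⟩ := h
  refine ⟨by simp [h1, cls_l], b - Θ ^ p * Phi p f.l f.c 1 η, by rw [mul_pow, pow_eq]; ring, ?_⟩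
  simp [h1, cls_Phi]

theorem Rel.eventually {q : f.B} (h : f.Rel Θ a (f.cls q)) :
    ∀ᶠ N in atTop, ∀ q' : gauss (f.x N), f.ev N q = q' → ∃ Θ' Q : gauss (f.x N),
      f.ev N a = (Θ' ^ p + (f.x N).L ^ p * Q : gauss (f.x N)) ∧ f.ev N Θ = Θ' ∧
        residue _ Θ' = 1 ∧ residue _ Q = residue _ q' := by
  obtain ⟨h1, b, rfl, h2⟩ := h
  filter_upwards [f.residue_of_cls (z := Θ - 1) (by rw [map_sub, h1, map_one, sub_self]),
    f.residue_of_cls (z := b - q) (by rw [map_sub, h2, sub_self])] with N ⟨s, e, hs⟩ ⟨s', e', hs'⟩ q' hq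
  rw [map_sub, map_one, sub_eq_iff_eq_add] at e
  rw [map_sub, sub_eq_iff_eq_add, hq] at e'
  refine ⟨s + 1, s' + q', ?_, e, by simp [hs], by simp [hs']⟩
  rw [map_add, map_mul, map_pow, map_pow, e, e']
  rfl

end Fm

end Pool.Agent.P.MP_41a2b4_ag
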