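import Mathlib

set_option autoImplicit false

namespace Pool.Agent.P.MP_41a2b4_ag

namespace Grp

/-- The integral Heisenberg group. -/
@[ext] structure Hz where
  i : ℤ
  j : ℤ
  k : ℤ

instance : Mul Hz := ⟨fun x y => ⟨x.i + y.i, x.j + y.j, x.k + y.k - x.j * y.i⟩⟩
instance : One Hz := ⟨⟨0, 0, 0⟩⟩
instance : Inv Hz := ⟨fun x => ⟨-x.i, -x.j, -x.k - x.i * x.j⟩⟩

@[simp] theorem mul_i (x y : Hz) : (x * y).i = x.i + y.i := rfl
@[simp] theorem mul_j (x y : Hz) : (x * y).j = x.j + y.j := rfl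
@[simp] theorem mul_k (x y : Hz) : (x * y).k = x.k + y.k - x.j * y.i := rfl
@[simp] theorem one_i : (1 : Hz).i = 0 := rfl
@[simp] theorem one_j : (1 : Hz).j = 0 := rfl
@[simp] theorem one_k : (1 : Hz).k = 0 := rfl
@[simp] theorem inv_i (x : Hz) : (x⁻¹).i = -x.i := rfl
@[simp] theorem inv_j (x : Hz) : (x⁻¹).j = -x.j := rfl
@[simp] theorem inv_k (x : Hz) : (x⁻¹).k = -x.k - x.i * x.j := rfl

instance : Group Hz := Group.ofLeftAxioms
  (fun x y w => by ext <;> simp <;> ring)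
  (fun x => by ext <;> simp)
  (fun x => by ext <;> simp <;> ring)

/-- Heisenberg relations. -/
structure Rel {Γ : Type} [Group Γ] (s t z : Γ) : Prop where
  st : s * t = z * (t * s)
  sz : Commute s z
  tz : Commute t z

variable {Γ : Type} [Group Γ] {s t z : Γ}

theorem Rel.left (h : Rel s t z) (j : ℤ) : Rel s (t ^ j) (z ^ j) := by
  refine ⟨?_, h.sz.zpow_right j, h.tz.zpow_zpow j j⟩
  have h1 : s * t * s⁻¹ = z * t := by rw [h.st]; group
  have h2 : s * t ^ j * s⁻¹ = z ^ j * t ^ j := by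
    rw [← conj_zpow, h1, h.tz.symm.mul_zpow]
  rw [← mul_assoc, ← h2]; group

theorem Rel.symm (h : Rel s t z) : Rel t s z⁻¹ := by
  refine ⟨?_, h.tz.inv_right, h.sz.inv_right⟩
  rw [h.st]; group

theorem Rel.right (h : Rel s t z) (i : ℤ) : Rel (s ^ i) t (z ^ i) := by
  have := (h.symm.left i).symm
  simpa using this

theorem Rel.zz (h : Rel s t z) (i j : ℤ) :
    t ^ j * s ^ i = s ^ i * t ^ j * z ^ (-(j * i)) := by
  have h1 := ((h.left j).right i)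
  have h2 : Commute (t ^ j * s ^ i) (z ^ (j * i)) :=
    (h.tz.zpow_zpow _ _).mul_left (h.sz.zpow_zpow _ _)
  rw [h1.st, ← zpow_mul, ← h2.eq, zpow_neg, mul_inv_cancel_right]

/-- The hom from the integral Heisenberg group. -/
def phi (h : Rel s t z) : Hz →* Γ := MonoidHom.mk' (fun x => s ^ x.i * t ^ x.j * z ^ x.k) (by
  intro x y
  have c1 : z ^ x.k * s ^ y.i = s ^ y.i * z ^ x.k := (h.sz.symm.zpow_zpow _ _).eq
  have c2 : ∀ m : ℤ, z ^ m * t ^ y.j = t ^ y.j * z ^ m := fun m => (h.tz.symm.zpow_zpow _ _).eq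
  simp only [mul_i, mul_j, mul_k]
  calc s ^ (x.i + y.i) * t ^ (x.j + y.j) * z ^ (x.k + y.k - x.j * y.i)
      = s ^ x.i * (s ^ y.i * t ^ x.j) * (t ^ y.j * z ^ (-(x.j * y.i) + x.k)) * z ^ y.k := by
        group
    _ = s ^ x.i * (s ^ y.i * t ^ x.j * z ^ (-(x.j * y.i))) * z ^ x.k * t ^ y.j * z ^ y.k := by
        rw [← c2]; group
    _ = s ^ x.i * t ^ x.j * (s ^ y.i * z ^ x.k) * t ^ y.j * z ^ y.k := by
        rw [← h.zz]; group
    _ = _ := by rw [← c1]; group)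

theorem phi_apply (h : Rel s t z) (x : Hz) : phi h x = s ^ x.i * t ^ x.j * z ^ x.k := rfl

/-- The kernel condition. -/
def K (p α β : ℤ) (x : Hz) : Prop :=
  ∃ i j : ℤ, x.i = p * i ∧ x.j = p * j ∧ p ∣ α * i + β * j + x.k

theorem phi_of_dvd (h : Rel s t z) {p α β : ℤ} (hs : s ^ p = z ^ α) (ht : t ^ p = z ^ β)
    (x : Hz) (i j : ℤ) (hi : x.i = p * i) (hj : x.j = p * j) :
    phi h x = z ^ (α * i + β * j + x.k) := by
  rw [phi_apply, hi, hj, zpow_mul, zpow_mul, hs, ht]; group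

theorem phi_eq_one_of_K (h : Rel s t z) {p α β : ℤ} (hz : z ^ p = 1) (hs : s ^ p = z ^ α)
    (ht : t ^ p = z ^ β) {x : Hz} (hx : K p α β x) : phi h x = 1 := by
  obtain ⟨i, j, hi, hj, m, hm⟩ := hx
  rw [phi_of_dvd h hs ht x i j hi hj, hm, zpow_mul, hz, one_zpow]

theorem dvd_of_zpow {p : ℕ} [Fact p.Prime] (hz : z ^ (p : ℤ) = 1) (h1 : z ≠ 1) {m : ℤ}
    (hm : z ^ m = 1) : (p : ℤ) ∣ m := by
  have : orderOf z = p := orderOf_eq_prime (by simpa using hz) h1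
  rw [← this]; exact orderOf_dvd_iff_zpow_eq_one.2 hm

theorem K_of_phi_eq_one (h : Rel s t z) {p : ℕ} [Fact p.Prime] {α β : ℤ} (hz : z ^ (p : ℤ) = 1)
    (h1 : z ≠ 1) (hs : s ^ (p : ℤ) = z ^ α) (ht : t ^ (p : ℤ) = z ^ β) {x : Hz}
    (hx : phi h x = 1) : K p α β x := by
  have key : ∀ y : Hz, phi h (y * x * y⁻¹ * x⁻¹) = 1 := by
    intro y; simp [hx]
  have e1 : ((⟨1, 0, 0⟩ : Hz) * x * (⟨1, 0, 0⟩ : Hz)⁻¹ * x⁻¹) = ⟨0, 0, x.j⟩ := by
    ext <;> simp <;> ring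
  have e2 : ((⟨0, -1, 0⟩ : Hz) * x * (⟨0, -1, 0⟩ : Hz)⁻¹ * x⁻¹) = ⟨0, 0, x.i⟩ := by
    ext <;> simp <;> ring
  have k1 := key ⟨1, 0, 0⟩
  have k2 := key ⟨0, -1, 0⟩
  rw [e1, phi_apply] at k1
  rw [e2, phi_apply] at k2
  obtain ⟨j, hj⟩ := dvd_of_zpow hz h1 (m := x.j) (by simpa using k1)
  obtain ⟨i, hi⟩ := dvd_of_zpow hz h1 (m := x.i) (by simpa using k2)
  refine ⟨i, j, hi, hj, dvd_of_zpow hz h1 ?_⟩
  rw [← phi_of_dvd h hs ht x i j hi hj, hx]

theorem fin_eq {p : ℕ} {a b : Fin p} (h : (p : ℤ) ∣ ((b : ℕ) : ℤ) - ((a : ℕ) : ℤ)) : a = b := by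
  have := Int.eq_zero_of_abs_lt_dvd h (by
    have := a.2; have := b.2; rw [abs_lt]; constructor <;> omega)
  ext; omega

theorem phi_surj (h : Rel s t z) {p : ℕ} [Fact p.Prime] {α β : ℤ} (hz : z ^ (p : ℤ) = 1)
    (h1 : z ≠ 1) (hs : s ^ (p : ℤ) = z ^ α) (ht : t ^ (p : ℤ) = z ^ β)
    (hG : Nat.card Γ = p ^ 3) : Function.Surjective (phi h) := by
  have hp : p.Prime := Fact.out
  have : Finite Γ := Nat.finite_of_card_ne_zero (hG ▸ pow_ne_zero 3 hp.ne_zero)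
  let f : Fin p × Fin p × Fin p → Γ := fun v => phi h ⟨(v.1 : ℕ), (v.2.1 : ℕ), (v.2.2 : ℕ)⟩
  have hf : Function.Injective f := by
    rintro ⟨a, b, c⟩ ⟨a', b', c'⟩ e
    have e1 : phi h ((⟨(a : ℕ), (b : ℕ), (c : ℕ)⟩ : Hz)⁻¹ * ⟨(a' : ℕ), (b' : ℕ), (c' : ℕ)⟩) = 1 := by
      rw [map_mul, map_inv, inv_mul_eq_one]; exact e
    obtain ⟨i, j, hi, hj, hk⟩ := K_of_phi_eq_one h hz h1 hs ht e1
    simp only [mul_i, mul_j, mul_k, inv_i, inv_j, inv_k] at hi hj hk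
    have ha : a = a' := fin_eq ⟨i, by rw [← hi]; ring⟩
    have hb : b = b' := fin_eq ⟨j, by rw [← hj]; ring⟩
    subst ha hb
    have hi0 : i = 0 := by simpa [hp.ne_zero] using hi.symm
    have hj0 : j = 0 := by simpa [hp.ne_zero] using hj.symm
    subst hi0 hj0
    have hc : c = c' := fin_eq (by convert hk using 1; ring)
    rw [hc]
  have hb : Function.Bijective f := by
    rw [Nat.bijective_iff_injective_and_card]
    refine ⟨hf, ?_⟩
    rw [hG]; simp; ring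
  intro g
  obtain ⟨v, hv⟩ := hb.2 g
  exact ⟨_, hv⟩

/-- A presentation of type `(α, β)`. -/
structure Pres (p : ℕ) {G : Type} [Group G] (a b c : G) (α β : ℤ) : Prop where
  rel : Rel a b c
  ne : c ≠ 1
  hc : c ^ (p : ℤ) = 1
  ha : a ^ (p : ℤ) = c ^ α
  hb : b ^ (p : ℤ) = c ^ β

variable {p : ℕ} {α β : ℤ}

theorem Pres.congr (h : Pres p s t z α β) {α' β' : ℤ} (h1 : (p : ℤ) ∣ α - α')
    (h2 : (p : ℤ) ∣ β - β') : Pres p s t z α' β' := by
  obtain ⟨m, hm⟩ := h1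
  obtain ⟨n, hn⟩ := h2
  refine ⟨h.rel, h.ne, h.hc, ?_, ?_⟩
  · rw [h.ha, show α = p * m + α' by linarith, zpow_add, zpow_mul, h.hc]; simp
  · rw [h.hb, show β = p * n + β' by linarith, zpow_add, zpow_mul, h.hc]; simp

theorem Pres.swap (h : Pres p s t z α β) : Pres p t s⁻¹ z β (-α) := by
  refine ⟨?_, h.ne, h.hc, h.hb, ?_⟩
  · simpa using h.rel.symm.left (-1)
  · rw [inv_zpow, h.ha, zpow_neg]

theorem pow_shear (k : ℤ) (n : ℕ) :
    ∃ m : ℤ, 2 * m = n * (n + 1) ∧ (⟨k, 1, -k⟩ : Hz) ^ n = ⟨n * k, n, -(k * m)⟩ := by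
  induction n with
  | zero => exact ⟨0, by simp, by ext <;> simp⟩
  | succ n ih =>
    obtain ⟨m, hm, e⟩ := ih
    refine ⟨m + n + 1, by push_cast; linarith, ?_⟩
    rw [pow_succ, e]
    ext <;> simp <;> ring

theorem Pres.shear (h : Pres p s t z α β) (k m : ℤ) (hm : 2 * m = p * (p + 1)) :
    Pres p s (t * s ^ k) z α (β + α * k - k * m) := by
  refine ⟨⟨?_, h.rel.sz, h.rel.tz.mul_left (h.rel.sz.zpow_left k)⟩, h.ne, h.hc, h.ha, ?_⟩
  · rw [← mul_assoc, h.rel.st]; group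
  · obtain ⟨m', hm', e⟩ := pow_shear k p
    have : m' = m := by linarith
    subst this
    have e1 : t * s ^ k = phi h.rel ⟨k, 1, -k⟩ := by
      have := h.rel.zz k 1
      simpa [phi_apply] using this
    rw [e1, zpow_natCast, ← map_pow, e, phi_of_dvd h.rel h.ha h.hb _ k 1 rfl (by simp)]
    congr 1; ring

theorem Pres.scale [Fact p.Prime] (h : Pres p s t z α 0) (hα : ¬ (p : ℤ) ∣ α) :
    Pres p s (t ^ α) (z ^ α) 1 0 := by
  refine ⟨h.rel.left α, fun e => hα (dvd_of_zpow h.hc h.ne e), ?_, by simpa using h.ha, ?_⟩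
  · rw [← zpow_mul, mul_comm, zpow_mul, h.hc, one_zpow]
  · rw [← zpow_mul, mul_comm, zpow_mul, h.hb]; simp

theorem exists_pres (p : ℕ) [Fact p.Prime] (G : Type) [Group G] (hG : Nat.card G = p ^ 3)
    (hna : ∃ a b : G, a * b ≠ b * a) : ∃ (a b c : G) (α β : ℤ), Pres p a b c α β := by
  have hp : p.Prime := Fact.out
  obtain ⟨a, b, hab⟩ := hna
  obtain ⟨k, hk0, hk⟩ := IsPGroup.card_center_eq_prime_pow hG (by norm_num)
  have hmul := (Subgroup.center G).card_mul_index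
  rw [hk, hG, Subgroup.index] at hmul
  have hk1 : k = 1 := by
    by_contra hne
    have hcyc : IsCyclic (G ⧸ Subgroup.center G) := by
      apply isCyclic_of_card_dvd_prime (p := p)
      obtain ⟨l, rfl⟩ : ∃ l, k = l + 2 := ⟨k - 2, by omega⟩
      refine ⟨p ^ l, ?_⟩
      apply Nat.eq_of_mul_eq_mul_left (pow_pos hp.pos 2)
      rw [← pow_succ, ← hmul]; ring
    exact hab ((isMulCommutative_of_isCyclic_quotient_center_self G).is_comm.comm a b)
  subst hk1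
  have hq : Nat.card (G ⧸ Subgroup.center G) = p ^ 2 := by
    apply Nat.eq_of_mul_eq_mul_left hp.pos
    rw [pow_one] at hmul
    rw [hmul]; ring
  have hcomm := IsPGroup.isMulCommutative_of_card_eq_prime_sq hq
  have hcen : ∀ x y : G, x * y * (y * x)⁻¹ ∈ Subgroup.center G := by
    intro x y
    rw [← QuotientGroup.eq_one_iff]
    have := hcomm.is_comm.comm (x : G ⧸ Subgroup.center G) y
    simp [this]
  rw [pow_one] at hk
  have hZ : ∀ w ∈ Subgroup.center G, w ^ (p : ℤ) = 1 := by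
    intro w hw
    have := pow_card_eq_one' (x := (⟨w, hw⟩ : Subgroup.center G))
    rw [hk] at this
    simpa using congrArg Subtype.val this
  have hrel : ∀ x y : G, Rel x y (x * y * (y * x)⁻¹) := fun x y =>
    ⟨by group, Subgroup.mem_center_iff.1 (hcen x y) x, Subgroup.mem_center_iff.1 (hcen x y) y⟩
  have hpow : ∀ x : G, x ^ (p : ℤ) ∈ Subgroup.center G := by
    intro x
    rw [Subgroup.mem_center_iff]
    intro y
    have := ((hrel x y).right p).st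
    rw [hZ _ (hcen x y), one_mul] at this
    exact this.symm
  have hne : a * b * (b * a)⁻¹ ≠ 1 := fun e => hab (mul_inv_eq_one.1 e)
  have hgen : ∀ w ∈ Subgroup.center G, ∃ m : ℤ, w = (a * b * (b * a)⁻¹) ^ m := by
    intro w hw
    obtain ⟨m, hm⟩ := mem_zpowers_of_prime_card hk (g := ⟨_, hcen a b⟩) (g' := ⟨w, hw⟩)
      (fun e => hne (congrArg Subtype.val e))
    exact ⟨m, by simpa using (congrArg Subtype.val hm).symm⟩
  obtain ⟨α, hα⟩ := hgen _ (hpow a)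
  obtain ⟨β, hβ⟩ := hgen _ (hpow b)
  exact ⟨a, b, _, α, β, hrel a b, hne, hZ _ (hcen a b), hα, hβ⟩

theorem norm_odd [Fact p.Prime] (hp2 : p ≠ 2) (h : Pres p s t z α β) (hα : ¬ (p : ℤ) ∣ α) :
    ∃ a b c : Γ, Pres p a b c 1 0 := by
  have hp : p.Prime := Fact.out
  obtain ⟨r, hr⟩ := hp.odd_of_ne_two hp2
  have hpi : Prime (p : ℤ) := Nat.prime_iff_prime_int.1 hp
  obtain ⟨u, v, huv⟩ := (hpi.irreducible.coprime_iff_not_dvd.2 hα)
  have h1 := h.shear (-(v * β)) (p * (r + 1)) (by rw [hr]; push_cast; ring)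
  have h2 := h1.congr (α' := α) (β' := 0) (by simp)
    ⟨u * β + v * β * (r + 1), by linear_combination (-β) * huv⟩
  exact ⟨_, _, _, h2.scale hα⟩

theorem exists_norm (p : ℕ) [Fact p.Prime] (G : Type) [Group G] (hG : Nat.card G = p ^ 3)
    (hna : ∃ a b : G, a * b ≠ b * a) :
    ∃ α β : ℕ, ((p ≠ 2 ∧ α = 0 ∧ β = 0) ∨ (α = 1 ∧ β = 0) ∨ (p = 2 ∧ α = 1 ∧ β = 1)) ∧
      ∃ a b c : G, Pres p a b c α β := by
  obtain ⟨a, b, c, α, β, h⟩ := exists_pres p G hG hna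
  by_cases hp2 : p = 2
  · subst hp2
    rcases Int.even_or_odd' α with ⟨x, hx | hx⟩ <;> rcases Int.even_or_odd' β with ⟨y, hy | hy⟩
    · exact ⟨1, 0, by simp, _, _, _, (h.shear 1 3 (by norm_num)).swap.congr
        (by push_cast; omega) (by push_cast; omega)⟩
    · exact ⟨1, 0, by simp, _, _, _, h.swap.congr (by push_cast; omega) (by push_cast; omega)⟩
    · exact ⟨1, 0, by simp, _, _, _, h.congr (by push_cast; omega) (by push_cast; omega)⟩
    · exact ⟨1, 1, by simp, _, _, _, h.congr (by push_cast; omega) (by push_cast; omega)⟩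
  · by_cases hα : (p : ℤ) ∣ α
    · by_cases hβ : (p : ℤ) ∣ β
      · exact ⟨0, 0, by simp [hp2], _, _, _, h.congr (by simpa using hα) (by simpa using hβ)⟩
      · exact ⟨1, 0, by simp, by simpa using norm_odd hp2 h.swap hβ⟩
    · exact ⟨1, 0, by simp, by simpa using norm_odd hp2 h hα⟩

end Grp

open Grp in
/-- TASK GRP. -/
theorem exists_hom (p : ℕ) [Fact p.Prime] (G : Type) [Group G] (hG : Nat.card G = p ^ 3)
    (hna : ∃ a b : G, a * b ≠ b * a) :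
    ∃ α β : ℕ, ((p ≠ 2 ∧ α = 0 ∧ β = 0) ∨ (α = 1 ∧ β = 0) ∨ (p = 2 ∧ α = 1 ∧ β = 1)) ∧
      ∀ (Γ : Type) [Group Γ] (s t z : Γ), s * t = z * (t * s) → s * z = z * s → t * z = z * t →
        z ^ p = 1 → s ^ p = z ^ α → t ^ p = z ^ β →
        ∃ j : G →* Γ, ∀ (Γ' : Type) [Group Γ'] (r : Γ →* Γ'), r z ≠ 1 →
          Function.Injective (r.comp j) := by
  obtain ⟨α, β, hc, a, b, c, h⟩ := exists_norm p G hG hna
  refine ⟨α, β, hc, ?_⟩
  intro Γ _ s t z h1 h2 h3 hz hs ht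
  have hR : Rel s t z := ⟨h1, h2, h3⟩
  have hsurj := phi_surj h.rel h.hc h.ne h.ha h.hb hG
  have hker : (phi h.rel).ker ≤ (phi hR).ker := fun x hx =>
    phi_eq_one_of_K hR (p := p) (α := α) (β := β) (by simpa using hz) (by simpa using hs)
      (by simpa using ht) (K_of_phi_eq_one h.rel h.hc h.ne h.ha h.hb hx)
  refine ⟨(phi h.rel).liftOfSurjective hsurj ⟨phi hR, hker⟩, ?_⟩
  intro Γ' _ r hr
  rw [injective_iff_map_eq_one]
  intro g hg
  obtain ⟨x, rfl⟩ := hsurj g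
  rw [MonoidHom.comp_apply, MonoidHom.liftOfRightInverse_comp_apply] at hg
  have hR' : Rel (r s) (r t) (r z) :=
    ⟨by rw [← map_mul, h1]; simp, hR.sz.map r, hR.tz.map r⟩
  have hx : phi hR' x = 1 := by
    rw [← hg]; simp [phi_apply]
  refine phi_eq_one_of_K h.rel h.hc h.ha h.hb (K_of_phi_eq_one hR' ?_ hr ?_ ?_ hx)
  · simpa using congrArg r hz
  · simpa using congrArg r hs
  · simpa using congrArg r ht

end Pool.Agent.P.MP_41a2b4_ag
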