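import Mathlib

set_option autoImplicit false

namespace Pool.Agent.P.MP_41a2b4_ag

/-- A complete discrete valuation ring, finite over `W(k)`, with a surjection onto `k`, and an
embedding into a fixed `W(k)`-algebra `O`. -/
structure GoodRing (p : ℕ) [Fact p.Prime] (k : Type) [Field k] (O : Type) [CommRing O]
    [Algebra (WittVector p k) O] where
  R : Type
  [cr : CommRing R]
  [dom : IsDomain R]
  [dvr : IsDiscreteValuationRing R]
  [alg : Algebra (WittVector p k) R]
  [fin : Module.Finite (WittVector p k) R]
  [cpl : IsAdicComplete (IsLocalRing.maximalIdeal R) R]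
  π : R →+* k
  f : R →ₐ[WittVector p k] O
  hπ : Function.Surjective π
  hf : Function.Injective f

attribute [instance] GoodRing.cr GoodRing.dom GoodRing.dvr GoodRing.alg GoodRing.fin GoodRing.cpl

namespace RingAux

open Polynomial

theorem precomplete_of_finite {A : Type*} [CommRing A] (I : Ideal A) [IsPrecomplete I A]
    (M : Type*) [AddCommGroup M] [Module A M] [Module.Finite A M] : IsPrecomplete I M := by
  rw [← AdicCompletion.of_surjective_iff]
  intro z
  obtain ⟨t, rfl⟩ := AdicCompletion.ofTensorProduct_surjective_of_finite I M z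
  induction t using TensorProduct.induction_on with
  | zero => exact ⟨0, by simp⟩
  | tmul r x =>
    obtain ⟨a, rfl⟩ := AdicCompletion.of_surjective I A r
    refine ⟨a • x, ?_⟩
    rw [AdicCompletion.ofTensorProduct_tmul, map_smul]
    ext n
    rfl
  | add x y hx hy =>
    obtain ⟨a, ha⟩ := hx
    obtain ⟨b, hb⟩ := hy
    exact ⟨a + b, by rw [map_add, map_add, ha, hb]⟩

theorem complete_of_finite {A : Type*} [CommRing A] [IsNoetherianRing A] (I : Ideal A)
    [IsAdicComplete I A] (R : Type*) [CommRing R] [Algebra A R] [Module.Finite A R] :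
    IsAdicComplete (I.map (algebraMap A R)) R := by
  rw [IsAdicComplete.map_algebraMap_iff]
  have h1 : IsHausdorff I R := IsHausdorff.of_le_jacobson I R (IsAdicComplete.le_jacobson_bot I)
  have h2 : IsPrecomplete I R := precomplete_of_finite I R
  exact {}

theorem precomplete_of_pow {R : Type*} [CommRing R] (J : Ideal R) (e : ℕ) (he : 0 < e)
    (h : IsPrecomplete (J ^ e) R) : IsPrecomplete J R := by
  rw [isPrecomplete_iff] at h ⊢
  intro f hf
  obtain ⟨L, hL⟩ := h (fun n => f (e * n)) (by
    intro m n hmn
    rw [← pow_mul]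
    exact hf (Nat.mul_le_mul_left e hmn))
  refine ⟨L, fun n => ?_⟩
  have h1 : n ≤ e * n := Nat.le_mul_of_pos_left n he
  refine (hf h1).trans ?_
  have h2 := hL n
  rw [← pow_mul] at h2
  exact h2.mono (Submodule.smul_mono_left (Ideal.pow_le_pow_right h1))

theorem isLocalRing_of_complete {R : Type*} [CommRing R] [IsDomain R] (J : Ideal R)
    [IsAdicComplete J R] [IsArtinianRing (R ⧸ J)] : IsLocalRing R := by
  have hjac : J ≤ (⊥ : Ideal R).jacobson := IsAdicComplete.le_jacobson_bot J
  have hunit : ∀ a : R, a - 1 ∈ J → IsUnit a := fun a ha => by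
    have := Ideal.mem_jacobson_bot.1 (hjac ha) 1
    simpa using this
  refine IsLocalRing.of_isUnit_or_isUnit_one_sub_self fun x => ?_
  obtain ⟨n, y, hy⟩ := IsArtinian.exists_pow_succ_smul_dvd (Ideal.Quotient.mk J x) (1 : R ⧸ J)
  obtain ⟨y, rfl⟩ := Ideal.Quotient.mk_surjective y
  simp only [smul_eq_mul, mul_one] at hy
  set X := Ideal.Quotient.mk J x with hX
  set Y := Ideal.Quotient.mk J y with hY
  have hk : ∀ j : ℕ, X ^ (n + 1) * (X * Y) ^ j = X ^ (n + 1) := by
    intro j
    induction j with
    | zero => simp
    | succ j ih =>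
      have : X ^ (n + 1) * (X * Y) ^ (j + 1) = X * (X ^ n.succ * Y) * (X * Y) ^ j := by
        simp only [Nat.succ_eq_add_one]; ring
      rw [this, hy, ← pow_succ', ih]
  have hidem : ((x * y) ^ (n + 1)) ^ 2 - (x * y) ^ (n + 1) ∈ J := by
    rw [← Ideal.Quotient.eq_zero_iff_mem]
    simp only [map_sub, map_pow, map_mul, ← hX, ← hY]
    have : ((X * Y) ^ (n + 1)) ^ 2 = Y ^ (n + 1) * (X ^ (n + 1) * (X * Y) ^ (n + 1)) := by ring
    rw [this, hk]; ring
  obtain ⟨a, ha, hae⟩ := HenselianRing.is_henselian (R := R) (I := J) (Polynomial.X ^ 2 - Polynomial.X)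
    (by monicity!) ((x * y) ^ (n + 1)) (by simpa using hidem) (by
      have h0 : Ideal.Quotient.mk J (((x * y) ^ (n + 1)) ^ 2 - (x * y) ^ (n + 1)) = 0 :=
        Ideal.Quotient.eq_zero_iff_mem.2 hidem
      set e := (x * y) ^ (n + 1) with he
      have h1 : (derivative (Polynomial.X ^ 2 - Polynomial.X : R[X])).eval e = 2 * e - 1 := by
        simp
        norm_num
      rw [h1]
      refine IsUnit.of_mul_eq_one (Ideal.Quotient.mk J (2 * e - 1)) ?_
      simp only [map_sub, map_pow, map_mul, map_one, map_ofNat] at h0 ⊢
      linear_combination 4 * h0)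
  have ha' : a * (a - 1) = 0 := by
    have := ha.eq_zero
    simp only [eval_sub, eval_pow, eval_X] at this
    linear_combination this
  rcases mul_eq_zero.1 ha' with h0 | h1
  · right
    rw [h0, zero_sub, neg_mem_iff] at hae
    have hxn : x ^ (n + 1) ∈ J := by
      rw [← Ideal.Quotient.eq_zero_iff_mem] at hae ⊢
      simp only [map_pow, map_mul, ← hX, ← hY] at hae ⊢
      rw [← hk (n + 1), hae, mul_zero]
    have hu : IsUnit (1 - x ^ (n + 1)) := hunit _ (by simpa using hxn)
    exact isUnit_of_dvd_unit (one_sub_dvd_one_sub_pow x (n + 1)) hu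
  · left
    have ha1 : a = 1 := sub_eq_zero.1 h1
    rw [ha1] at hae
    have hu : IsUnit ((x * y) ^ (n + 1)) := hunit _ (by simpa using J.neg_mem hae)
    exact isUnit_of_mul_isUnit_left ((isUnit_pow_succ_iff).1 hu)

theorem charZero_witt (p : ℕ) [hp : Fact p.Prime] (k : Type*) [Field k] [CharP k p] :
    CharZero (WittVector p k) := by
  obtain ⟨q, hq⟩ := CharP.exists (WittVector p k)
  rcases CharP.char_is_prime_or_zero (WittVector p k) q with hprime | h0
  · exfalso
    have h1 : ((q : ℕ) : WittVector p k) = 0 := CharP.cast_eq_zero _ q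
    have h2 : ((q : ℕ) : k) = 0 := by
      have := congrArg (WittVector.constantCoeff : WittVector p k →+* k) h1
      rwa [map_natCast, map_zero] at this
    have h3 : p ∣ q := (CharP.cast_eq_zero_iff k p q).1 h2
    have h4 : p = q := (Nat.prime_dvd_prime_iff_eq hp.out hprime).1 h3
    subst h4
    exact (WittVector.irreducible (k := k) p).ne_zero h1
  · subst h0
    exact CharP.charP_to_charZero _

theorem good_of_finite (p : ℕ) [hp : Fact p.Prime] (k : Type*) [Field k] [IsAlgClosed k]
    [CharP k p] (R : Type*) [CommRing R] [IsDedekindDomain R] [Algebra (WittVector p k) R]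
    [Module.Finite (WittVector p k) R]
    (hinj : Function.Injective (algebraMap (WittVector p k) R)) :
    ∃ _ : IsDiscreteValuationRing R, IsAdicComplete (IsLocalRing.maximalIdeal R) R ∧
      ∃ π : R →+* k, Function.Surjective π := by
  set I : Ideal (WittVector p k) := Ideal.span {(p : WittVector p k)} with hI
  set J : Ideal R := I.map (algebraMap (WittVector p k) R) with hJ
  have hcJ : IsAdicComplete J R := complete_of_finite I R
  have hImax : I.IsMaximal :=
    PrincipalIdealRing.isMaximal_of_irreducible (WittVector.irreducible (k := k) p)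
  have hart0 : IsArtinianRing (WittVector p k ⧸ I) := by
    let _ := Ideal.Quotient.field I
    infer_instance
  have hfin : Module.Finite (WittVector p k ⧸ I) (R ⧸ J) := by
    have : Module.Finite (WittVector p k) (R ⧸ J) := inferInstance
    exact Module.Finite.of_restrictScalars_finite (WittVector p k) _ _
  have hart : IsArtinianRing (R ⧸ J) := IsArtinianRing.of_finite (WittVector p k ⧸ I) (R ⧸ J)
  have hloc : IsLocalRing R := isLocalRing_of_complete J
  have hJle : J ≤ IsLocalRing.maximalIdeal R := by
    rw [← IsLocalRing.jacobson_eq_maximalIdeal ⊥ bot_ne_top]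
    exact IsAdicComplete.le_jacobson_bot J
  have hJtop : J ≠ ⊤ := fun h => by
    rw [h, top_le_iff] at hJle
    exact (IsLocalRing.maximalIdeal.isMaximal R).ne_top hJle
  have hpJ : algebraMap (WittVector p k) R p ∈ J :=
    Ideal.mem_map_of_mem _ (Ideal.mem_span_singleton_self _)
  have hJbot : J ≠ ⊥ := fun h => by
    rw [h, Ideal.mem_bot, map_eq_zero_iff _ hinj] at hpJ
    exact (WittVector.irreducible (k := k) p).ne_zero hpJ
  have hnf : ¬ IsField R := Ring.not_isField_of_ne_of_ne hJbot hJtop
  have hdvr : IsDiscreteValuationRing R :=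
    ((IsDiscreteValuationRing.TFAE R hnf).out 0 2).2 (inferInstance : IsDedekindDomain R)
  refine ⟨hdvr, ?_, ?_⟩
  · obtain ⟨ϖ, hϖ⟩ := IsDiscreteValuationRing.exists_irreducible R
    obtain ⟨e, he⟩ := IsDiscreteValuationRing.ideal_eq_span_pow_irreducible hJbot hϖ
    rw [← Ideal.span_singleton_pow, ← hϖ.maximalIdeal_eq] at he
    have he0 : 0 < e := by
      rcases Nat.eq_zero_or_pos e with h | h
      · rw [h, pow_zero, Ideal.one_eq_top] at he
        exact absurd he hJtop
      · exact h
    have hpre : IsPrecomplete (IsLocalRing.maximalIdeal R) R :=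
      precomplete_of_pow _ e he0 (he ▸ hcJ.toIsPrecomplete)
    exact {}
  · let g : WittVector p k →+* IsLocalRing.ResidueField R :=
      (IsLocalRing.residue R).comp (algebraMap (WittVector p k) R)
    have hg : ∀ a ∈ I, g a = 0 := fun a ha =>
      (IsLocalRing.residue_eq_zero_iff _).2 (hJle (Ideal.mem_map_of_mem _ ha))
    let φ : k →+* IsLocalRing.ResidueField R :=
      (Ideal.Quotient.lift I g hg).comp (WittVector.quotientPEquiv (p := p) (k := k)).symm
    have hφ : φ.comp (WittVector.constantCoeff : WittVector p k →+* k) = g := by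
      ext a
      have : (WittVector.quotientPEquiv (p := p) (k := k)).symm (WittVector.constantCoeff a) =
          Ideal.Quotient.mk I a := by
        rw [RingEquiv.symm_apply_eq]
        rfl
      simp only [φ, RingHom.comp_apply, RingHom.coe_coe, this, Ideal.Quotient.lift_mk]
    have hgint : g.IsIntegral :=
      RingHom.IsIntegral.trans _ _ (algebraMap_isIntegral_iff.2 inferInstance)
        (RingHom.isIntegral_of_surjective _ IsLocalRing.residue_surjective)
    have hφint : φ.IsIntegral := RingHom.IsIntegral.tower_top _ _ (hφ ▸ hgint)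
    have hbij := IsAlgClosed.ringHom_bijective_of_isIntegral φ hφint
    let E : k ≃+* IsLocalRing.ResidueField R := RingEquiv.ofBijective φ hbij
    exact ⟨(E.symm : IsLocalRing.ResidueField R →+* k).comp (IsLocalRing.residue R),
      E.symm.surjective.comp IsLocalRing.residue_surjective⟩

end RingAux

/-- TASK RING. -/
theorem exists_goodRing (p : ℕ) [Fact p.Prime] (k : Type) [Field k] [IsAlgClosed k] [CharP k p] :
    ∃ (O : Type) (_ : CommRing O) (_ : IsDomain O) (_ : CharZero O)
      (_ : Algebra (WittVector p k) O),
      (∀ f : Polynomial O, f.Monic → 0 < f.natDegree → ∃ x, f.eval x = 0) ∧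
      ∀ s : Set O, s.Finite → ∃ G : GoodRing p k O, s ⊆ Set.range G.f := by
  have hcz : CharZero (WittVector p k) := RingAux.charZero_witt p k
  let W := WittVector p k
  let K0 := FractionRing W
  let Kb := AlgebraicClosure K0
  have hinj0 : Function.Injective (algebraMap W Kb) := by
    rw [IsScalarTower.algebraMap_eq W K0 Kb]
    exact (algebraMap K0 Kb).injective.comp (IsFractionRing.injective W K0)
  have hcz0 : CharZero K0 := charZero_of_injective_algebraMap (IsFractionRing.injective W K0)
  have hczb : CharZero Kb := charZero_of_injective_algebraMap hinj0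
  refine ⟨integralClosure W Kb, inferInstance, inferInstance, inferInstance, inferInstance,
    ?_, ?_⟩
  · intro f hf hdeg
    have hinjO : Function.Injective (algebraMap (integralClosure W Kb) Kb) := Subtype.val_injective
    have hdeg' : (f.map (algebraMap (integralClosure W Kb) Kb)).degree ≠ 0 := by
      rw [hf.degree_map]
      exact (Polynomial.natDegree_pos_iff_degree_pos.1 hdeg).ne'
    obtain ⟨z, hz⟩ := IsAlgClosed.exists_root _ hdeg'
    have hz' : Polynomial.aeval z f = 0 := by
      rw [Polynomial.aeval_def, ← Polynomial.eval_map]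
      exact hz
    have hint : IsIntegral (integralClosure W Kb) z := ⟨f, hf, hz'⟩
    have hintW : IsIntegral W z := isIntegral_trans z hint
    refine ⟨⟨z, hintW⟩, hinjO ?_⟩
    rw [map_zero, ← hz', ← Polynomial.coe_aeval_eq_eval, ← Polynomial.aeval_algebraMap_apply]
    rfl
  · intro s hs
    let T : Set Kb := Subtype.val '' s
    have hT : Finite T := (hs.image _).to_subtype
    let L : IntermediateField K0 Kb := IntermediateField.adjoin K0 T
    have hfd : FiniteDimensional K0 L :=
      IntermediateField.finiteDimensional_adjoin fun x _ => Algebra.IsIntegral.isIntegral x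
    have hsep : Algebra.IsSeparable K0 L := inferInstance
    let R := integralClosure W L
    have hfin : Module.Finite W R := IsIntegralClosure.finite W K0 L R
    have hded : IsDedekindDomain R := IsIntegralClosure.isDedekindDomain W K0 L R
    let v : L →ₐ[W] Kb := (IntermediateField.val L).restrictScalars W
    have hv : Function.Injective v := Subtype.val_injective
    let f : R →ₐ[W] integralClosure W Kb :=
      (v.comp (Subalgebra.val R)).codRestrict (integralClosure W Kb) fun x =>
        IsIntegral.map v x.2
    have hf : Function.Injective f := by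
      intro x y hxy
      have : v x.1 = v y.1 := congrArg (fun z : integralClosure W Kb => (z : Kb)) hxy
      exact Subtype.ext (hv this)
    have hinjR : Function.Injective (algebraMap W R) := by
      intro a b hab
      apply hinj0
      have := congrArg (fun x : R => v x.1) hab
      simpa using this
    obtain ⟨hdvr, hcpl, π, hπ⟩ := RingAux.good_of_finite p k R hinjR
    refine ⟨{ R := R, π := π, f := f, hπ := hπ, hf := hf }, ?_⟩
    intro x hx
    have hxL : x.1 ∈ L := IntermediateField.subset_adjoin K0 T ⟨x, hx, rfl⟩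
    have hxint : IsIntegral W (⟨x.1, hxL⟩ : L) := (isIntegral_algHom_iff v hv).1 x.2
    exact ⟨⟨⟨x.1, hxL⟩, hxint⟩, rfl⟩

end Pool.Agent.P.MP_41a2b4_ag
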