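import Pool.Agent.P.MP_41a2b4_ag.Step
import Pool.Agent.P.MP_41a2b4_ag.Ring
import Pool.Agent.P.MP_41a2b4_ag.Grp

set_option autoImplicit false
set_option linter.unusedSectionVars false

namespace Pool.Agent.P.MP_41a2b4_ag

open PowerSeries IsLocalRing

/-- The statement of `good_heis`. -/
def HeisStmt : Prop :=
  ∀ {p : ℕ} [Fact p.Prime] {k : Type} [Field k] [CharP k p] [IsAlgClosed k]
    {R : ℕ → Type} [∀ N, CommRing (R N)] [∀ N, IsDomain (R N)] [∀ N, IsDiscreteValuationRing (R N)]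
    [∀ N, IsAdicComplete (maximalIdeal (R N)) (R N)] (x : ∀ N, Ctx p k (R N))
    (ϑ τ half : ∀ N, R N) (e m : ∀ N, ℕ → R N) (_ : ∀ N, τ N ≠ 0) (_ : ∀ N, (x N).π (τ N) = 0)
    (_ : ∀ N, (τ N ^ p) ^ N ∣ (x N).l) (_ : ∀ N, 2 * half N = 1)
    (_ : ∀ N, (x N).π (ϑ N ^ p ^ 2 - ϑ N) ≠ 0)
    (_ : ∀ N, ∀ j < p, m N j * ((j : R N) - ϑ N ^ p ^ 2) = 1)
    (_ : ∀ N, ∀ j < p, e N j ^ p =
      (τ N + e N j * (τ N ^ p * m N j) ^ (p - 1)) * ((j : R N) - ϑ N) ^ (p ^ 2 - p)),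
    ∃ N, (x N).Good 0 0

/-- The statement of `good_mod`. -/
def ModStmt : Prop :=
  ∀ {p : ℕ} [Fact p.Prime] {k : Type} [Field k] [CharP k p] [IsAlgClosed k]
    {R : ℕ → Type} [∀ N, CommRing (R N)] [∀ N, IsDomain (R N)] [∀ N, IsDiscreteValuationRing (R N)]
    [∀ N, IsAdicComplete (maximalIdeal (R N)) (R N)] (x : ∀ N, Ctx p k (R N)) (_ : p ≠ 2)
    (γ ϖ M ζ : ∀ N, R N) (e : ∀ N, ℕ → R N) (_ : ∀ N, ϖ N ≠ 0) (_ : ∀ N, (x N).π (ϖ N) = 0)
    (_ : ∀ N, ϖ N ^ N ∣ M N) (_ : ∀ N, (x N).l = (x N).c * M N ^ p + p * M N)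
    (_ : ∀ N, ζ N ^ p = 1 + (x N).l) (_ : ∀ N, (x N).π (γ N ^ p - γ N) ≠ 0)
    (_ : ∀ N, ∀ j < p, e N j ^ p - (ϖ N ^ p ^ 2) ^ (p - 1) * e N j =
      -(ϖ N * ((j : R N) - γ N) ^ (p ^ 3 - 1))),
    ∃ N, (x N).Good 1 0

/-- The statement of `good_quat`. -/
def QuatStmt : Prop :=
  ∀ {k : Type} [Field k] [CharP k 2] [IsAlgClosed k]
    {R : ℕ → Type} [∀ N, CommRing (R N)] [∀ N, IsDomain (R N)] [∀ N, IsDiscreteValuationRing (R N)]
    [∀ N, IsAdicComplete (maximalIdeal (R N)) (R N)] (x : ∀ N, Ctx 2 k (R N))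
    (γ ϖ M : ∀ N, R N) (e : ∀ N, ℕ → R N) (_ : ∀ N, ϖ N ≠ 0) (_ : ∀ N, (x N).π (ϖ N) = 0)
    (_ : ∀ N, ϖ N ^ N ∣ M N) (_ : ∀ N, (x N).l = M N ^ 2 + 2 * M N)
    (_ : ∀ N, (x N).π (γ N ^ 2 - γ N) ≠ 0)
    (_ : ∀ N, ∀ j < 2, e N j ^ 2 - ϖ N ^ 4 * e N j = -(ϖ N * ((j : R N) - γ N) ^ 7)),
    ∃ N, (x N).Good 1 1

/-- The statement of `good_dihedral`. -/
def DihStmt : Prop :=
  ∀ {k : Type} [Field k] [CharP k 2] {R : Type} [CommRing R] [IsDomain R]
    [IsDiscreteValuationRing R] [IsAdicComplete (maximalIdeal R) R] (x : Ctx 2 k R) (κ ω e : R)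
    (_ : κ ^ 4 = -1) (_ : ω ^ 2 + ω = κ ^ 2) (_ : e ^ 4 = 1 + 2 * ω), x.Good 1 0

namespace Fin0

/-- The unit `w` with `l ^ (p - 1) = -p w`. -/
def wOf (p : ℕ) {S : Type*} [CommRing S] (l : S) : S :=
  ∑ i ∈ Finset.Ioo 0 p, l ^ (i - 1) * ((p.choose i / p : ℕ) : S)

theorem map_wOf (p : ℕ) {S S' F : Type*} [CommRing S] [CommRing S'] [FunLike F S S']
    [RingHomClass F S S'] (f : F) (l : S) : f (wOf p l) = wOf p (f l) := by
  simp [wOf, map_sum]

theorem wOf_zero {p : ℕ} (hp : p.Prime) (S : Type*) [CommRing S] : wOf p (0 : S) = 1 := by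
  unfold wOf
  rw [Finset.sum_eq_single 1]
  · simp [Nat.div_self hp.pos]
  · intro i hi h1
    have := (Finset.mem_Ioo.1 hi).1
    rw [zero_pow (by omega), zero_mul]
  · intro h
    exact absurd (Finset.mem_Ioo.2 ⟨one_pos, hp.one_lt⟩) h

theorem wOf_two {S : Type*} [CommRing S] (l : S) : wOf 2 l = 1 := by
  have : Finset.Ioo 0 2 = {1} := by decide
  simp [wOf, this]

theorem one_add_pow {p : ℕ} (hp : p.Prime) {S : Type*} [CommRing S] (l : S) :
    (1 + l) ^ p = 1 + l ^ p + p * l * wOf p l := by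
  rw [add_comm 1 l, add_pow_prime_eq hp]
  simp [wOf, add_comm]

theorem exists_root {O : Type} [CommRing O] [IsDomain O]
    (hO : ∀ f : Polynomial O, f.Monic → 0 < f.natDegree → ∃ x, f.eval x = 0) {n : ℕ} (hn : 2 ≤ n)
    (a b : O) : ∃ x : O, x ^ n + a * x + b = 0 := by
  have hlt : (Polynomial.C a * Polynomial.X + Polynomial.C b : Polynomial O).degree < n :=
    lt_of_le_of_lt Polynomial.degree_linear_le (by exact_mod_cast hn)
  obtain ⟨x, hx⟩ := hO (Polynomial.X ^ n + (Polynomial.C a * Polynomial.X + Polynomial.C b))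
    (Polynomial.monic_X_pow_add hlt) (by
      rw [Polynomial.natDegree_add_eq_left_of_degree_lt (by simpa using hlt),
        Polynomial.natDegree_X_pow]
      omega)
  exact ⟨x, by simpa [add_assoc] using hx⟩

theorem exists_l {p : ℕ} (hp : p.Prime) {O : Type} [CommRing O] [IsDomain O] [CharZero O]
    (hO : ∀ f : Polynomial O, f.Monic → 0 < f.natDegree → ∃ x, f.eval x = 0) :
    ∃ l : O, l ≠ 0 ∧ (1 + l) ^ p = 1 := by
  have hne : Polynomial.cyclotomic p O = ∑ i ∈ Finset.range p, Polynomial.X ^ i := by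
    have := Fact.mk hp
    exact Polynomial.cyclotomic_prime O p
  obtain ⟨z, hz⟩ := hO (Polynomial.cyclotomic p O) (Polynomial.cyclotomic.monic p O) (by
    rw [Polynomial.natDegree_cyclotomic]
    exact Nat.totient_pos.2 hp.pos)
  rw [hne, Polynomial.eval_geom_sum] at hz
  refine ⟨z - 1, fun h => ?_, ?_⟩
  · rw [sub_eq_zero.1 h] at hz
    simp only [one_pow, Finset.sum_const, Finset.card_range, nsmul_eq_mul, mul_one,
      Nat.cast_eq_zero] at hz
    exact hp.ne_zero hz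
  · have := geom_sum_mul z p
    rw [hz, zero_mul] at this
    rw [add_sub_cancel]
    exact (sub_eq_zero.1 this.symm)

variable {p : ℕ} [Fact p.Prime] {k : Type} [Field k] [CharP k p]

theorem exists_ctx {R : Type} [CommRing R] [IsDomain R] [IsDiscreteValuationRing R] (π : R →+* k)
    (hπ : Function.Surjective π) {l : R} (hl0 : l ≠ 0) (hζ : (1 + l) ^ p = 1) :
    ∃ x : Ctx p k R, x.l = l ∧ x.c * wOf p l = 1 := by
  have hp : p.Prime := Fact.out
  have hl : π l = 0 := by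
    have := congrArg π hζ
    rw [map_pow, map_add, map_one, add_pow_char, one_pow, add_eq_left] at this
    exact pow_eq_zero_iff hp.ne_zero |>.1 this
  have hw : π (wOf p l) = 1 := by rw [map_wOf, hl, wOf_zero hp]
  have hu : IsUnit (wOf p l) := by
    by_contra hu
    have : wOf p l ∈ RingHom.ker π := by
      rw [eq_maximalIdeal (RingHom.ker_isMaximal_of_surjective π hπ)]
      exact hu
    rw [RingHom.mem_ker, hw] at this
    exact one_ne_zero this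
  obtain ⟨c, hc⟩ := hu.exists_left_inv
  have h1 : l ^ (p - 1) + p * wOf p l = 0 := by
    have h2 := one_add_pow hp l
    obtain ⟨n, rfl⟩ : ∃ n, p = n + 1 := ⟨p - 1, by have := hp.pos; omega⟩
    rw [hζ] at h2
    exact mul_left_cancel₀ hl0 (by rw [Nat.add_sub_cancel]; linear_combination -h2)
  refine ⟨⟨π, hπ, l, c, by linear_combination c * h1 - p * hc, hl0, hl, ?_, hζ⟩, rfl, hc⟩
  have := congrArg π hc
  rwa [map_mul, hw, mul_one, map_one] at this

variable {O : Type} [CommRing O] [Algebra (WittVector p k) O]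

theorem exists_lift (hG : ∀ s : Set O, s.Finite → ∃ G : GoodRing p k O, s ⊆ Set.range G.f)
    (l a b c d : O) (e : ℕ → O) : ∃ (G : GoodRing p k O) (l' a' b' c' d' : G.R) (e' : ℕ → G.R),
      G.f l' = l ∧ G.f a' = a ∧ G.f b' = b ∧ G.f c' = c ∧ G.f d' = d ∧ ∀ j < p, G.f (e' j) = e j := by
  obtain ⟨G, h⟩ := hG ({l, a, b, c, d} ∪ e '' Set.Iio p)
    ((Set.toFinite _).union ((Set.finite_Iio p).image e))
  obtain ⟨l', hl⟩ := h (a := l) (by simp)
  obtain ⟨a', ha⟩ := h (a := a) (by simp)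
  obtain ⟨b', hb⟩ := h (a := b) (by simp)
  obtain ⟨c', hc⟩ := h (a := c) (by simp)
  obtain ⟨d', hd⟩ := h (a := d) (by simp)
  have : ∀ j, ∃ y : G.R, j < p → G.f y = e j := fun j => by
    by_cases hj : j < p
    · exact (h (a := e j) (Or.inr ⟨j, hj, rfl⟩)).imp fun y hy _ => hy
    · exact ⟨0, fun h => absurd h hj⟩
  choose e' he using this
  exact ⟨G, l', a', b', c', d', e', hl, ha, hb, hc, hd, he⟩

/-- Some good ring carries a good triple of automorphisms. -/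
def HasGood (p : ℕ) [Fact p.Prime] (k : Type) [Field k] (O : Type) [CommRing O]
    [Algebra (WittVector p k) O] (α β : ℕ) : Prop :=
  ∃ (G : GoodRing p k O) (x : Ctx p k G.R), x.Good α β

variable [IsDomain O] [CharZero O]
  (hO : ∀ f : Polynomial O, f.Monic → 0 < f.natDegree → ∃ x, f.eval x = 0)
  (hG : ∀ s : Set O, s.Finite → ∃ G : GoodRing p k O, s ⊆ Set.range G.f)

include hO hG

theorem mod_data (N : ℕ) : ∃ (G : GoodRing p k O) (x : Ctx p k G.R) (γ ϖ M ζ : G.R) (e : ℕ → G.R),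
    ϖ ≠ 0 ∧ x.π ϖ = 0 ∧ ϖ ^ N ∣ M ∧ x.l = x.c * M ^ p + p * M ∧ ζ ^ p = 1 + x.l ∧
    x.π (γ ^ p - γ) ≠ 0 ∧ x.c * wOf p x.l = 1 ∧
    ∀ j < p, e j ^ p - (ϖ ^ p ^ 2) ^ (p - 1) * e j = -(ϖ * ((j : G.R) - γ) ^ (p ^ 3 - 1)) := by
  have hp : p.Prime := Fact.out
  obtain ⟨l, hl0, hl⟩ := exists_l hp hO
  obtain ⟨M, hM⟩ := exists_root hO hp.two_le (wOf p l * p) (-(wOf p l * l))
  obtain ⟨ϖ, hϖ⟩ := exists_root hO (n := N + 2) (by omega) 0 (-M)
  obtain ⟨ζ, hζ⟩ := exists_root hO hp.two_le 0 (-(1 + l))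
  obtain ⟨γ, hγ⟩ := exists_root hO hp.two_le (-1) (-1)
  choose e he using fun j : ℕ => exists_root hO hp.two_le (-(ϖ ^ p ^ 2) ^ (p - 1))
    (ϖ * ((j : O) - γ) ^ (p ^ 3 - 1))
  obtain ⟨G, l', M', ϖ', ζ', γ', e', rfl, rfl, rfl, rfl, rfl, he'⟩ := exists_lift hG l M ϖ ζ γ e
  obtain ⟨x, hxl, hxc⟩ := exists_ctx G.π G.hπ (l := l') (fun h => hl0 (by rw [h, map_zero]))
    (G.hf (by simpa using hl))
  have h1 : M' ^ p + wOf p l' * p * M' + -(wOf p l' * l') = 0 :=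
    G.hf (by simpa [map_wOf] using hM)
  have h2 : ϖ' ^ (N + 2) = M' := G.hf (by simpa [add_neg_eq_zero] using hϖ)
  have eM : x.l = x.c * M' ^ p + p * M' := by
    rw [hxl]
    linear_combination (p * M' - l') * hxc - x.c * h1
  have hM0 : x.π M' = 0 := by
    have := congrArg x.π eM
    simp only [map_add, map_mul, map_pow, map_natCast, x.hl, x.hc, CharP.cast_eq_zero, zero_mul,
      add_zero, one_mul] at this
    exact pow_eq_zero_iff hp.ne_zero |>.1 this.symm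
  refine ⟨G, x, γ', ϖ', M', ζ', e', fun h => ?_, ?_, ⟨ϖ' ^ 2, by rw [← h2]; ring⟩, eM, ?_, ?_,
    by rw [hxl, hxc], fun j hj => G.hf ?_⟩
  · rw [h, zero_pow (by omega)] at h2
    rw [← h2, zero_pow hp.ne_zero, mul_zero, mul_zero, add_zero] at eM
    exact x.hl0 eM
  · rw [← h2, map_pow] at hM0
    exact pow_eq_zero_iff (by omega) |>.1 hM0
  · rw [hxl]
    exact G.hf (by simp only [map_pow, map_add, map_one]; linear_combination hζ)
  · have : γ' ^ p - γ' = 1 := G.hf (by simp only [map_pow, map_sub, map_one]; linear_combination hγ)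
    rw [this, map_one]
    exact one_ne_zero
  · simp only [map_pow, map_sub, map_mul, map_neg, map_natCast, he' j hj]
    linear_combination he j

theorem heis_data (hp2 : p ≠ 2) (N : ℕ) :
    ∃ (G : GoodRing p k O) (x : Ctx p k G.R) (ϑ τ half : G.R) (e m : ℕ → G.R),
    τ ≠ 0 ∧ x.π τ = 0 ∧ (τ ^ p) ^ N ∣ x.l ∧ 2 * half = 1 ∧ x.π (ϑ ^ p ^ 2 - ϑ) ≠ 0 ∧
    (∀ j < p, m j * ((j : G.R) - ϑ ^ p ^ 2) = 1) ∧
    ∀ j < p, e j ^ p = (τ + e j * (τ ^ p * m j) ^ (p - 1)) * ((j : G.R) - ϑ) ^ (p ^ 2 - p) := by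
  have hp : p.Prime := Fact.out
  have h2p := hp.two_le
  obtain ⟨l, hl0, hl⟩ := exists_l hp hO
  obtain ⟨τ, hτ⟩ := exists_root hO (n := p * (N + 1)) (by nlinarith) 0 (-l)
  obtain ⟨ϑ, hϑ⟩ := exists_root hO (n := p ^ 2) (by nlinarith) (-1) (-1)
  choose e he using fun j : ℕ => exists_root hO hp.two_le
    (-((τ ^ p) ^ (p - 1) * ((j : O) - ϑ) ^ (p ^ 2 - p)))
    (-(τ * ((j : O) - ϑ ^ p ^ 2) ^ p * ((j : O) - ϑ) ^ (p ^ 2 - p)))
  obtain ⟨G, l', τ', ϑ', -, -, e', rfl, rfl, rfl, -, -, he'⟩ := exists_lift hG l τ ϑ 0 0 e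
  obtain ⟨x, hxl, -⟩ := exists_ctx G.π G.hπ (l := l') (fun h => hl0 (by rw [h, map_zero]))
    (G.hf (by simpa using hl))
  have h2 : τ' ^ (p * (N + 1)) = l' := G.hf (by simpa [add_neg_eq_zero] using hτ)
  have h3 : ϑ' ^ p ^ 2 - ϑ' = 1 :=
    G.hf (by simp only [map_pow, map_sub, map_one]; linear_combination hϑ)
  have hu : ∀ j : ℕ, ∃ m : G.R, m * ((j : G.R) - ϑ' ^ p ^ 2) = 1 := fun j => by
    refine (x.isUnit_of_π fun h => ?_).exists_left_inv
    have h4 := congrArg x.π h3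
    simp only [map_sub, map_pow, map_natCast, map_one] at h h4
    have h5 : x.π ϑ' = (j : k) - 1 := by linear_combination -h - h4
    have h6 : ((j : k) - 1) ^ p = (j : k) - 1 := by
      have := map_natCast (frobenius k p) j
      rw [frobenius_def] at this
      rw [sub_pow_char, one_pow, this]
    rw [h5, pow_two, pow_mul, h6, h6, sub_self] at h4
    exact zero_ne_one h4
  choose m hm using hu
  obtain ⟨half, hhalf⟩ : ∃ half : G.R, 2 * half = 1 := by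
    refine (x.isUnit_of_π fun h => ?_).exists_right_inv
    rw [map_ofNat] at h
    have h' : ((2 : ℕ) : k) = 0 := by exact_mod_cast h
    rw [CharP.cast_eq_zero_iff k p] at h'
    exact hp2 ((Nat.prime_dvd_prime_iff_eq hp Nat.prime_two).1 h')
  refine ⟨G, x, ϑ', τ', half, fun j => m j * e' j, m, fun h => ?_, ?_,
    ⟨τ' ^ p, by rw [hxl, ← h2]; ring⟩, hhalf, by rw [h3, map_one]; exact one_ne_zero,
    fun j _ => hm j, fun j hj => ?_⟩
  · rw [h, zero_pow (by positivity), ← hxl] at h2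
    exact x.hl0 h2.symm
  · have := x.hl
    rw [hxl, ← h2, map_pow] at this
    exact pow_eq_zero_iff (by positivity) |>.1 this
  · have h7 : e' j ^ p = (τ' * ((j : G.R) - ϑ' ^ p ^ 2) ^ p + e' j * (τ' ^ p) ^ (p - 1)) *
        ((j : G.R) - ϑ') ^ (p ^ 2 - p) := G.hf (by
      simp only [map_pow, map_sub, map_mul, map_add, map_natCast, he' j hj]
      linear_combination he j)
    have h8 : m j ^ p * ((j : G.R) - ϑ' ^ p ^ 2) ^ p = 1 := by rw [← mul_pow, hm, one_pow]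
    have h9 : m j ^ p = m j * m j ^ (p - 1) := by rw [← pow_succ', Nat.sub_add_cancel hp.pos]
    rw [mul_pow, h7, mul_pow]
    linear_combination (τ' * ((j : G.R) - ϑ') ^ (p ^ 2 - p)) * h8 +
      (e' j * (τ' ^ p) ^ (p - 1) * ((j : G.R) - ϑ') ^ (p ^ 2 - p)) * h9

theorem hasGood_heis [IsAlgClosed k] (H : HeisStmt) (hp2 : p ≠ 2) : HasGood p k O 0 0 := by
  choose G x ϑ τ half e m h1 h2 h3 h4 h5 h6 h7 using heis_data hO hG hp2
  obtain ⟨N, hN⟩ := H (R := fun N => (G N).R) x ϑ τ half e m h1 h2 h3 h4 h5 h6 h7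
  exact ⟨G N, x N, hN⟩

theorem hasGood_mod [IsAlgClosed k] (H : ModStmt) (hp2 : p ≠ 2) : HasGood p k O 1 0 := by
  choose G x γ ϖ M ζ e h1 h2 h3 h4 h5 h6 h7 h8 using mod_data hO hG
  obtain ⟨N, hN⟩ := H (R := fun N => (G N).R) x hp2 γ ϖ M ζ e h1 h2 h3 h4 h5 h6 h8
  exact ⟨G N, x N, hN⟩

theorem hasGood_quat [IsAlgClosed k] (H : QuatStmt) (hp2 : p = 2) : HasGood p k O 1 1 := by
  subst hp2
  choose G x γ ϖ M ζ e h1 h2 h3 h4 h5 h6 h7 h8 using mod_data hO hG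
  obtain ⟨N, hN⟩ := H (R := fun N => (G N).R) x γ ϖ M e h1 h2 h3 (fun N => by
    have := h7 N
    rw [wOf_two, mul_one] at this
    simpa [this] using h4 N) h6 (fun N j hj => by simpa using h8 N j hj)
  exact ⟨G N, x N, hN⟩

theorem hasGood_dih (H : DihStmt) (hp2 : p = 2) : HasGood p k O 1 0 := by
  subst hp2
  obtain ⟨l, hl0, hl⟩ := exists_l Nat.prime_two hO
  obtain ⟨κ, hκ⟩ := exists_root hO (n := 4) (by omega) 0 1
  obtain ⟨ω, hω⟩ := exists_root hO le_rfl 1 (-κ ^ 2)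
  obtain ⟨e, he⟩ := exists_root hO (n := 4) (by omega) 0 (-(1 + 2 * ω))
  obtain ⟨G, l', κ', ω', e', -, -, rfl, rfl, rfl, rfl, -, -⟩ := exists_lift hG l κ ω e 0 fun _ => 0
  obtain ⟨x, -, -⟩ := exists_ctx G.π G.hπ (l := l') (fun h => hl0 (by rw [h, map_zero]))
    (G.hf (by simpa using hl))
  exact ⟨G, x, H x κ' ω' e'
    (G.hf (by simp only [map_pow, map_neg, map_one]; linear_combination hκ))
    (G.hf (by simp only [map_pow, map_add]; linear_combination hω))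
    (G.hf (by simp only [map_pow, map_add, map_mul, map_one, map_ofNat]; linear_combination he))⟩

end Fin0

open Fin0 in
/-- The four cases give the weak local lifting property. -/
theorem final (H₁ : HeisStmt) (H₂ : ModStmt) (H₃ : QuatStmt) (H₄ : DihStmt) :
    ∀ (p : ℕ) [Fact p.Prime] (k : Type) [Field k] [IsAlgClosed k] [CharP k p]
      (G : Type) [Group G],
      Nat.card G = p ^ 3 → (∃ a b : G, a * b ≠ b * a) →
      ∃ (R : Type) (_ : CommRing R) (_ : IsDomain R) (_ : IsDiscreteValuationRing R)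
        (_ : Algebra (WittVector p k) R) (_ : Module.Finite (WittVector p k) R)
        (π : R →+* k)
        (i : G →* (PowerSeries k ≃ₐ[k] PowerSeries k))
        (j : G →* (PowerSeries R ≃ₐ[R] PowerSeries R)),
        Function.Surjective π ∧ Function.Injective i ∧
          ∀ (g : G) (f : PowerSeries R),
            PowerSeries.map π (j g f) = i g (PowerSeries.map π f) := by
  intro p _ k _ _ _ G _ hcard hna
  obtain ⟨O, _, _, _, _, hO, hG⟩ := exists_goodRing p k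
  obtain ⟨α, β, hc, hhom⟩ := exists_hom p G hcard hna
  have hgood : HasGood p k O α β := by
    rcases hc with ⟨hp, rfl, rfl⟩ | ⟨rfl, rfl⟩ | ⟨hp, rfl, rfl⟩
    · exact hasGood_heis hO hG H₁ hp
    · by_cases hp : p = 2
      · exact hasGood_dih hO hG H₄ hp
      · exact hasGood_mod hO hG H₂ hp
    · exact hasGood_quat hO hG H₃ hp
  obtain ⟨A, x, s, t, z, h1, h2, h3, h4, h5, h6, h7⟩ := hgood
  obtain ⟨j, hj⟩ := hhom _ s t z h1 h2 h3 h4 h5 h6
  obtain ⟨r, hr⟩ := x.exists_redAut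
  refine ⟨A.R, inferInstance, inferInstance, inferInstance, inferInstance, inferInstance, x.π,
    r.comp j, j, x.hπ, hj _ r fun h => h7 ?_, fun g f => hr (j g) f⟩
  rw [hr, h, AlgEquiv.one_apply, map_X]

end Pool.Agent.P.MP_41a2b4_ag
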