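import Pool.Agent.P.MP_41a2b4_ag.Ev

set_option autoImplicit false
set_option linter.unusedSectionVars false

namespace Pool.Agent.P.MP_41a2b4_ag

open PowerSeries IsLocalRing

/-- The constants attached to a primitive `p`-th root of unity `1 + l`. -/
structure Ctx (p : ℕ) (k : Type) [Field k] (R : Type) [CommRing R] where
  π : R →+* k
  hπ : Function.Surjective π
  l : R
  c : R
  hp : (p : R) = -c * l ^ (p - 1)
  hl0 : l ≠ 0
  hl : π l = 0
  hc : π c = 1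
  hζ : (1 + l) ^ p = 1

theorem dvd_sub_of_pow {V : Type*} [CommRing V] [IsDomain V] [ValuationRing V] {p : ℕ}
    (hp : p.Prime) {l c : V} (h : (p : V) = -c * l ^ (p - 1)) {x y q : V}
    (e : x ^ p - y ^ p = l ^ p * q) : l ∣ x - y := by
  rcases ValuationRing.dvd_total l (x - y) with h1 | ⟨ε, hε⟩
  · exact h1
  by_cases hd : x - y = 0
  · rw [hd]
    exact dvd_zero _
  by_cases hu : IsUnit ε
  · exact (hε ▸ (hu.mul_right_dvd.2 dvd_rfl) : l ∣ x - y)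
  exfalso
  obtain ⟨n, rfl⟩ : ∃ n, p = n + 2 := ⟨p - 2, by have := hp.two_le; omega⟩
  obtain ⟨r, hr⟩ := exists_add_pow_prime_eq hp y (x - y)
  rw [add_sub_cancel, h, hε] at hr
  rw [hε] at e
  have e1 : n + 2 - 1 = n + 1 := by omega
  rw [e1, mul_pow] at hr
  rw [mul_pow] at e
  have : (x - y) ^ (n + 2) * (1 - ε * (c * ε ^ n * y * r + ε ^ (n + 1) * q)) = 0 := by
    linear_combination e - hr
  rcases mul_eq_zero.1 this with h2 | h2
  · exact hd (pow_eq_zero_iff (by omega) |>.1 h2)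
  · exact hu (IsUnit.of_mul_eq_one _ (sub_eq_zero.1 h2).symm)

theorem dvd_of_monic {V : Type*} [CommRing V] [IsDomain V] [ValuationRing V] {n : ℕ} {a d b₁ b₀ : V}
    (hd : d ≠ 0) (e : a ^ (n + 2) + b₁ * a * d ^ (n + 1) + b₀ * d ^ (n + 2) = 0) : d ∣ a := by
  rcases ValuationRing.dvd_total d a with h1 | ⟨ε, hε⟩
  · exact h1
  by_cases hu : IsUnit ε
  · exact (hε ▸ (hu.mul_right_dvd.2 dvd_rfl) : d ∣ a)
  exfalso
  have : a ^ (n + 2) * (1 + ε * (b₁ * ε ^ n + b₀ * ε ^ (n + 1))) = 0 := by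
    rw [hε] at e
    linear_combination e
  rcases mul_eq_zero.1 this with h2 | h2
  · exact hd (by rw [hε, pow_eq_zero_iff (by omega) |>.1 h2, zero_mul])
  · exact hu (IsUnit.of_mul_eq_one (-(b₁ * ε ^ n + b₀ * ε ^ (n + 1))) (by linear_combination -h2))

theorem C_ne_zero {S : Type*} [CommRing S] {r : S} (h : r ≠ 0) : (C r : S⟦X⟧) ≠ 0 := fun e =>
  h (by simpa using congrArg constantCoeff e)

/-- The fraction field of `R⟦X⟧`. -/
def Kf (R : Type) [CommRing R] : Type := FractionRing R⟦X⟧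

noncomputable instance (R : Type) [CommRing R] [IsDomain R] : Field (Kf R) :=
  inferInstanceAs (Field (FractionRing R⟦X⟧))

noncomputable instance (R : Type) [CommRing R] [IsDomain R] : Algebra R⟦X⟧ (Kf R) :=
  inferInstanceAs (Algebra R⟦X⟧ (FractionRing R⟦X⟧))

instance (R : Type) [CommRing R] [IsDomain R] : IsFractionRing R⟦X⟧ (Kf R) :=
  inferInstanceAs (IsFractionRing R⟦X⟧ (FractionRing R⟦X⟧))

variable {p : ℕ} {k : Type} [Field k] {R : Type} [CommRing R] [IsDomain R]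
  [IsDiscreteValuationRing R] (x : Ctx p k R)

namespace Ctx

/-- Reduction of power series. -/
noncomputable abbrev red : R⟦X⟧ →+* k⟦X⟧ := PowerSeries.map x.π

theorem π_eq_zero {r : R} : x.π r = 0 ↔ r ∈ maximalIdeal R := by
  rw [← eq_maximalIdeal (RingHom.ker_isMaximal_of_surjective x.π x.hπ), RingHom.mem_ker]

theorem isUnit_of_π {r : R} (h : x.π r ≠ 0) : IsUnit r := by
  rwa [Ne, π_eq_zero, notMem_maximalIdeal] at h

theorem red_surj : Function.Surjective x.red := PowerSeries.map_surjective _ x.hπ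

theorem red_eq_zero {ϖ : R} (hϖ : Irreducible ϖ) {f : R⟦X⟧} : x.red f = 0 ↔ C ϖ ∣ f := by
  constructor
  · intro h
    have : ∀ i, ∃ r, coeff i f = ϖ * r := fun i => by
      have := congrArg (coeff i) h
      rw [coeff_map, map_zero, π_eq_zero, hϖ.maximalIdeal_eq, Ideal.mem_span_singleton] at this
      exact this
    choose r hr using this
    exact ⟨PowerSeries.mk r, by ext i; simp [hr]⟩
  · rintro ⟨g, rfl⟩
    have : x.π ϖ = 0 := x.π_eq_zero.2 hϖ.not_isUnit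
    simp [this]

theorem isUnit_of_red {f : R⟦X⟧} (h : IsUnit (x.red f)) : IsUnit f := by
  rw [isUnit_iff_constantCoeff] at h ⊢
  exact x.isUnit_of_π h.ne_zero

theorem mem_max_of_red {f : R⟦X⟧} (h : x.red f = 0) : f ∈ maximalIdeal R⟦X⟧ := fun hu =>
  (hu.map x.red).ne_zero h

theorem red_algHom {F : Type*} [FunLike F R⟦X⟧ R⟦X⟧] [AlgHomClass F R R⟦X⟧ R⟦X⟧] (φ : F)
    {f : R⟦X⟧} (h : x.red f = 0) : x.red (φ f) = 0 := by
  obtain ⟨ϖ, hϖ⟩ := IsDiscreteValuationRing.exists_irreducible R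
  obtain ⟨g, rfl⟩ := (x.red_eq_zero hϖ).1 h
  rw [map_mul, algHom_C]
  exact (x.red_eq_zero hϖ).2 (dvd_mul_right _ _)

theorem red_algHom_congr {F : Type*} [FunLike F R⟦X⟧ R⟦X⟧] [AlgHomClass F R R⟦X⟧ R⟦X⟧] (φ : F)
    {f g : R⟦X⟧} (h : x.red f = x.red g) : x.red (φ f) = x.red (φ g) := by
  have := x.red_algHom φ (f := f - g) (by rw [map_sub, h, sub_self])
  rwa [map_sub, map_sub, sub_eq_zero] at this

include x in
theorem prime_C {ϖ : R} (hϖ : Irreducible ϖ) : Prime (C ϖ : R⟦X⟧) := by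
  refine ⟨C_ne_zero hϖ.ne_zero, fun h => hϖ.not_isUnit (by
    simpa using isUnit_iff_constantCoeff.1 h), fun a b h => ?_⟩
  rw [← x.red_eq_zero hϖ, map_mul, mul_eq_zero] at h
  rwa [← x.red_eq_zero hϖ, ← x.red_eq_zero hϖ]

end Ctx

/-- The Gauss valuation ring in the fraction field of `R⟦X⟧`. -/
def gauss : ValuationSubring (Kf R) where
  carrier := {z | ∃ d a : R⟦X⟧, x.red d ≠ 0 ∧ z * algebraMap _ _ d = algebraMap _ _ a}
  mul_mem' := by
    rintro z w ⟨d, a, hd, e⟩ ⟨d', a', hd', e'⟩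
    exact ⟨d * d', a * a', by rw [map_mul]; exact mul_ne_zero hd hd', by
      rw [map_mul, map_mul, ← e, ← e']; ring⟩
  one_mem' := ⟨1, 1, by simp, by simp⟩
  add_mem' := by
    rintro z w ⟨d, a, hd, e⟩ ⟨d', a', hd', e'⟩
    exact ⟨d * d', a * d' + a' * d, by rw [map_mul]; exact mul_ne_zero hd hd', by
      rw [map_add, map_mul, map_mul, map_mul, ← e, ← e']; ring⟩
  zero_mem' := ⟨1, 0, by simp, by simp⟩
  neg_mem' := by
    rintro z ⟨d, a, hd, e⟩
    exact ⟨d, -a, hd, by rw [map_neg, ← e]; ring⟩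
  mem_or_inv_mem' := fun z => by
    obtain ⟨ϖ, hϖ⟩ := IsDiscreteValuationRing.exists_irreducible R
    obtain ⟨a, b, hb, rfl⟩ := IsFractionRing.div_surjective R⟦X⟧ z
    have hb0 := nonZeroDivisors.ne_zero hb
    by_cases ha0 : a = 0
    · exact Or.inl ⟨1, 0, by simp, by simp [ha0]⟩
    obtain ⟨i, a', ha', rfl⟩ := WfDvdMonoid.max_power_factor' ha0 (x.prime_C hϖ).not_isUnit
    obtain ⟨j, b', hb', rfl⟩ := WfDvdMonoid.max_power_factor' hb0 (x.prime_C hϖ).not_isUnit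
    rw [← x.red_eq_zero hϖ] at ha' hb'
    have h1 := (map_ne_zero_iff _ (IsFractionRing.injective R⟦X⟧ (Kf R))).2 ha0
    have h2 := (map_ne_zero_iff _ (IsFractionRing.injective R⟦X⟧ (Kf R))).2 hb0
    rcases le_total i j with h | h
    · obtain ⟨m, rfl⟩ := Nat.exists_eq_add_of_le h
      refine Or.inr ⟨a', C ϖ ^ m * b', ha', ?_⟩
      rw [inv_div, div_mul_eq_mul_div, div_eq_iff h1, ← map_mul, ← map_mul]
      congr 1
      ring
    · obtain ⟨m, rfl⟩ := Nat.exists_eq_add_of_le h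
      refine Or.inl ⟨b', C ϖ ^ m * a', hb', ?_⟩
      rw [div_mul_eq_mul_div, div_eq_iff h2, ← map_mul, ← map_mul]
      congr 1
      ring

namespace Ctx

/-- The inclusion of `R⟦X⟧` in its Gauss valuation ring. -/
noncomputable def toO : R⟦X⟧ →+* gauss x :=
  (algebraMap R⟦X⟧ (Kf R)).codRestrict (gauss x) fun a => ⟨1, a, by simp, by simp⟩

@[simp] theorem coe_toO (a : R⟦X⟧) : (x.toO a : Kf R) = algebraMap _ _ a := rfl

theorem toO_inj : Function.Injective x.toO := fun _ _ h =>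
  IsFractionRing.injective R⟦X⟧ (Kf R) (congrArg Subtype.val h)

theorem exists_frac (z : gauss x) : ∃ d a : R⟦X⟧, x.red d ≠ 0 ∧ z * x.toO d = x.toO a := by
  obtain ⟨d, a, hd, e⟩ := z.2
  exact ⟨d, a, hd, Subtype.ext e⟩

theorem isUnit_toO {d : R⟦X⟧} (hd : x.red d ≠ 0) : IsUnit (x.toO d) := by
  have h0 : algebraMap R⟦X⟧ (Kf R) d ≠ 0 :=
    (map_ne_zero_iff _ (IsFractionRing.injective _ _)).2 fun h => hd (by rw [h, map_zero])
  exact IsUnit.of_mul_eq_one ⟨(algebraMap R⟦X⟧ (Kf R) d)⁻¹, d, 1, hd, by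
    simp [h0]⟩ (Subtype.ext (by simp [h0]))

/-- Reduction of power series into the residue field of the Gauss valuation ring. -/
noncomputable def ρ : R⟦X⟧ →+* ResidueField (gauss x) := (residue (gauss x)).comp x.toO

theorem ρ_apply (a : R⟦X⟧) : x.ρ a = residue (gauss x) (x.toO a) := rfl

theorem ρ_eq_zero {a : R⟦X⟧} : x.ρ a = 0 ↔ x.red a = 0 := by
  rw [ρ_apply, residue_eq_zero_iff]
  refine ⟨fun h => by_contra fun h' => h (x.isUnit_toO h'), fun h hu => ?_⟩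
  obtain ⟨z, hz⟩ := hu.exists_right_inv
  obtain ⟨d, a', hd, e⟩ := x.exists_frac z
  have : d = a * a' := x.toO_inj (by rw [map_mul, ← e, ← mul_assoc, hz, one_mul])
  exact hd (by rw [this, map_mul, h, zero_mul])

theorem ρ_eq_iff {a b : R⟦X⟧} : x.ρ a = x.ρ b ↔ x.red a = x.red b := by
  rw [← sub_eq_zero, ← map_sub, ρ_eq_zero, map_sub, sub_eq_zero]

theorem ρ_C {r : R} (h : x.π r = 0) : x.ρ (C r) = 0 := x.ρ_eq_zero.2 (by simp [h])

theorem ρ_l : x.ρ (C x.l) = 0 := x.ρ_C x.hl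

theorem ρ_c : x.ρ (C x.c) = 1 := by
  rw [← map_one x.ρ, ρ_eq_iff]
  simp [x.hc]

instance charP_res [Fact p.Prime] [CharP k p] : CharP (ResidueField (gauss x)) p :=
  (CharP.charP_iff_prime_eq_zero Fact.out).2 (by
    rw [← map_natCast x.ρ, ρ_eq_zero, map_natCast, ← map_natCast (C : k →+* k⟦X⟧),
      CharP.cast_eq_zero, map_zero])

theorem exists_of_mul_eq {r : R} (hr : r ≠ 0) {a : R⟦X⟧} {z : gauss x}
    (e : x.toO a = x.toO (C r) * z) : ∃ b, z = x.toO b := by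
  obtain ⟨ϖ, hϖ⟩ := IsDiscreteValuationRing.exists_irreducible R
  obtain ⟨n, u, rfl⟩ := IsDiscreteValuationRing.eq_unit_mul_pow_irreducible hr hϖ
  obtain ⟨d, b, hd, e'⟩ := x.exists_frac z
  have h1 : a * d = C ((u : R) * ϖ ^ n) * b :=
    x.toO_inj (by rw [map_mul, e, mul_assoc, e', ← map_mul])
  have h2 : C ϖ ^ n ∣ a := (x.prime_C hϖ).pow_dvd_of_dvd_mul_right n
    (by rwa [← x.red_eq_zero hϖ]) ⟨C (u : R) * b, by rw [h1, map_mul, map_pow]; ring⟩
  obtain ⟨a', rfl⟩ := h2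
  refine ⟨C ((u⁻¹ : Rˣ) : R) * a', mul_left_cancel₀ (a := x.toO (C ((u : R) * ϖ ^ n)))
    ((map_ne_zero_iff _ x.toO_inj).2 (C_ne_zero hr)) ?_⟩
  rw [← e, ← map_mul, ← mul_assoc, ← map_mul, mul_comm (u : R), mul_assoc, Units.mul_inv, mul_one,
    map_pow C]

theorem dvd_of_residue {ϖ : R} (hϖ : Irreducible ϖ) {z : gauss x} (h : residue _ z = 0) :
    x.toO (C ϖ) ∣ z := by
  obtain ⟨d, a, hd, e⟩ := x.exists_frac z
  have : x.ρ a = 0 := by rw [ρ_apply, ← e, map_mul, h, zero_mul]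
  obtain ⟨a', rfl⟩ := (x.red_eq_zero hϖ).1 (x.ρ_eq_zero.1 this)
  exact (x.isUnit_toO hd).dvd_mul_right.1 ⟨_, by rw [e, map_mul]⟩

theorem exists_of_monic (hp : p.Prime) {z : gauss x} {b₁ b₀ : R⟦X⟧}
    (e : residue _ z ^ p + x.ρ b₁ * residue _ z + x.ρ b₀ = 0) : ∃ a, residue _ z = x.ρ a := by
  obtain ⟨n, rfl⟩ : ∃ n, p = n + 2 := ⟨p - 2, by have := hp.two_le; omega⟩
  obtain ⟨d, a, hd, e'⟩ := x.exists_frac z
  have e1 : residue _ z * x.ρ d = x.ρ a := by rw [ρ_apply, ρ_apply, ← map_mul, e']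
  have e2 : x.ρ (a ^ (n + 2) + b₁ * a * d ^ (n + 1) + b₀ * d ^ (n + 2)) = 0 := by
    simp only [map_add, map_mul, map_pow, ← e1]
    linear_combination x.ρ d ^ (n + 2) * e
  rw [ρ_eq_zero] at e2
  simp only [map_add, map_mul, map_pow] at e2
  obtain ⟨y, hy⟩ := dvd_of_monic hd e2
  obtain ⟨y, rfl⟩ := x.red_surj y
  refine ⟨y, mul_right_cancel₀ (b := x.ρ d) (fun h => hd (x.ρ_eq_zero.1 h)) ?_⟩
  rw [e1, ← map_mul, ρ_eq_iff, hy, map_mul, mul_comm]

end Ctx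

noncomputable instance actK : MulSemiringAction (R⟦X⟧ ≃ₐ[R] R⟦X⟧) (Kf R) :=
  IsFractionRing.mulSemiringAction _ R⟦X⟧ _

theorem smul_algebraMap_K (g : R⟦X⟧ ≃ₐ[R] R⟦X⟧) (a : R⟦X⟧) :
    g • algebraMap R⟦X⟧ (Kf R) a = algebraMap _ _ (g a) :=
  IsFractionRing.ringEquivOfRingEquiv_algebraMap _ _

theorem smul_mem_gauss (g : R⟦X⟧ ≃ₐ[R] R⟦X⟧) {z : Kf R} (hz : z ∈ gauss x) :
    g • z ∈ gauss x := by
  obtain ⟨d, a, hd, e⟩ := hz
  refine ⟨g d, g a, fun h => hd (by simpa using x.red_algHom g.symm h), ?_⟩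
  rw [← smul_algebraMap_K, ← smul_algebraMap_K, ← smul_mul', e]

noncomputable instance actO : MulSemiringAction (R⟦X⟧ ≃ₐ[R] R⟦X⟧) (gauss x) where
  smul g z := ⟨g • z.1, smul_mem_gauss x g z.2⟩
  one_smul z := Subtype.ext (one_smul _ z.1)
  mul_smul g h z := Subtype.ext (mul_smul g h z.1)
  smul_zero g := Subtype.ext (smul_zero g)
  smul_add g z w := Subtype.ext (smul_add g z.1 w.1)
  smul_one g := Subtype.ext (smul_one g)
  smul_mul g z w := Subtype.ext (smul_mul' g z.1 w.1)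

theorem Ctx.smul_toO (g : R⟦X⟧ ≃ₐ[R] R⟦X⟧) (a : R⟦X⟧) : g • x.toO a = x.toO (g a) :=
  Subtype.ext (smul_algebraMap_K g a)

theorem Ctx.smul_ρ (g : R⟦X⟧ ≃ₐ[R] R⟦X⟧) (a : R⟦X⟧) : g • x.ρ a = x.ρ (g a) := by
  rw [Ctx.ρ_apply, ← ResidueField.residue_smul, Ctx.smul_toO, Ctx.ρ_apply]

end Pool.Agent.P.MP_41a2b4_ag
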