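import Pool.Agent.P.MP_41a2b4_ag.Bdry
import Pool.Agent.P.MP_41a2b4_ag.CharPH

set_option autoImplicit false
set_option linter.unusedSectionVars false

namespace Pool.Agent.P.MP_41a2b4_ag

open PowerSeries IsLocalRing Filter

theorem qH_bdry {F : Type*} [Field F] {p : ℕ} [Fact p.Prime] [CharP F p] (g θ half t hi ci w : F)
    (e : ℕ → F) (he : ∀ j < p, e j = 0) (ht : t ≠ 0) :
    qH p g θ 0 half e t t⁻¹ hi ci w = -(g ^ p * (t * hi ^ p)) * (w * hi) +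
      half * t ^ 2 * (((θ ^ p - g) * hi * ci ^ p) ^ p - g ^ p * (hi ^ p) ^ 2) := by
  have hp := (Fact.out : p.Prime).ne_zero
  rw [qH, Finset.sum_eq_zero fun j hj => by rw [he j (Finset.mem_range.1 hj), zero_mul],
    zero_pow hp, add_zero, add_zero, mul_inv_cancel_right₀ ht, mul_inv_cancel_right₀ ht,
    show -((g - θ ^ p) * hi * ci ^ p) = (θ ^ p - g) * hi * ci ^ p by ring]
  simp only [neg_zero, zero_add, zero_mul, zero_pow hp]
  ring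

theorem heis_deriv {k : Type} [Field k] {m : ℕ} [Fact (m + 2).Prime] [CharP k (m + 2)]
    {t w h : k⟦X⟧} {κ κi μ a half : k} (eκ : κ * κi = 1) (ehalf : 2 * half = 1) (hμ : μ ≠ 0)
    (eh : h = C κ * t ^ (m + 2)) (hw : X ∣ w)
    (dT : d⁄dX k t = -h ^ (m + 1) * d⁄dX k w) (R2 : X ^ (m + 2) - t ^ (m + 1) * X = -w) :
    ∃ ε, IsUnit ε ∧ d⁄dX k (C half * C μ * t ^ 2 - C a * C κi * (t ^ (m + 2)) ^ (m + 1) * t * w -
      C half * C a * C κi ^ (m + 2) * t ^ 2) = ε * h ^ (m + 2) := by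
  have e1 := congrArg (d⁄dX k) R2
  have p0 : ((m + 2 : ℕ) : k⟦X⟧) = 0 := by
    rw [← map_natCast (C : k →+* k⟦X⟧), CharP.cast_eq_zero, map_zero]
  push_cast at p0
  rw [map_sub, Ctx.deriv_pow_char, Derivation.leibniz, Derivation.leibniz_pow, derivative_X,
    map_neg] at e1
  simp only [smul_eq_mul, nsmul_eq_mul, Nat.add_sub_cancel, Nat.cast_add, Nat.cast_one] at e1
  obtain ⟨v, hv⟩ := (isUnit_iff_constantCoeff.2 (show IsUnit (constantCoeff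
    (1 - X * t ^ m * h ^ (m + 1))) by simp)).exists_left_inv
  have eκ' : (C κ : k⟦X⟧) * C κi = 1 := by rw [← map_mul, eκ, map_one]
  have eκ'' : (C κ : k⟦X⟧) ^ (m + 1) * C κi ^ (m + 1) = 1 := by rw [← mul_pow, eκ', one_pow]
  have ehalf' : 2 * (C half : k⟦X⟧) = 1 := by
    rw [← map_ofNat (C : k →+* k⟦X⟧) 2, ← map_mul, ehalf, map_one]
  have e2 : d⁄dX k w = v * t ^ (m + 1) := by
    linear_combination (-d⁄dX k w) * hv + v * e1 + v * X * t ^ m * (m + 1) * dT -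
      v * X * t ^ m * h ^ (m + 1) * d⁄dX k w * p0
  have e3 : (t ^ (m + 2)) ^ (m + 1) * d⁄dX k w = -C κi ^ (m + 1) * d⁄dX k t := by
    rw [dT, eh, mul_pow]
    linear_combination (-(t ^ (m + 2)) ^ (m + 1) * d⁄dX k w) * eκ''
  have e4 : t * d⁄dX k t = -C κi * v * h ^ (m + 2) := by
    rw [dT, e2]
    linear_combination (C κi * v * h ^ (m + 1)) * eh + (v * h ^ (m + 1) * t ^ (m + 2)) * eκ'
  obtain ⟨w', hw⟩ := hw
  refine ⟨-C κi * v * (C μ - X * (C a * C κi * (t ^ (m + 2)) ^ m * t ^ (m + 1) * w')), ?_, ?_⟩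
  · refine ((IsUnit.of_mul_eq_one_right _ eκ').neg.mul (IsUnit.of_mul_eq_one _ hv)).mul ?_
    rw [isUnit_iff_constantCoeff]
    simpa using hμ
  · have e5 : d⁄dX k ((t ^ (m + 2)) ^ (m + 1)) = 0 := by
      rw [pow_right_comm, Ctx.deriv_pow_char]
    have e6 : d⁄dX k (C κi ^ (m + 2) : k⟦X⟧) = 0 := Ctx.deriv_pow_char _
    simp only [map_sub, Derivation.leibniz, derivative_C, e5, e6, sq, smul_eq_mul]
    linear_combination (C μ - C a * C κi ^ (m + 2)) * t * d⁄dX k t * ehalf' - C a * C κi * t * e3 +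
      (C μ - C a * C κi * (t ^ (m + 2)) ^ m * t ^ (m + 1) * w) * e4 +
      C κi * v * h ^ (m + 2) * C a * C κi * (t ^ (m + 2)) ^ m * t ^ (m + 1) * hw

theorem heis_point {p : ℕ} [Fact p.Prime] {k : Type} [Field k] [CharP k p] [IsAlgClosed k] {R : Type}
    [CommRing R] [IsDomain R] [IsDiscreteValuationRing R] [IsAdicComplete (maximalIdeal R) R]
    {x : Ctx p k R} {γ ϖ ϑ τ half : R} {e : ℕ → R} {t : Tw R} {φ₁ : Kf R}
    (h : t.Ok x 0 γ ϖ φ₁) (hϖ : x.π ϖ = 0) (hτ : x.π τ = 0) (hhalf : 2 * half = 1)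
    (hγ : x.π (γ ^ p - γ) ≠ 0) (hδ : x.π (γ - ϑ) ≠ 0) (hμ : x.π (ϑ ^ p - γ) ≠ 0)
    (he : ∀ j < p, x.π (e j) = 0) {φ P : Kf R} {a₁ a₂ : R⟦X⟧} (h₂ : a₂ ∈ t.S₀)
    (e₁ : al a₁ = al (C x.l) * φ) (e₂ : al a₂ = al (C x.l) * P)
    (hq : ∀ q' : gauss x, qH p (al (C γ)) (al (C ϑ)) (al (C τ)) (al (C half)) (fun j => al (C (e j)))
      (al t.T) (al t.T)⁻¹ (al (hh p (C γ) (C ϖ) t.T))⁻¹ (al (C (γ - ϑ) * t.T + C ϖ))⁻¹
      (al t.W) = q' → ∃ Θ Q : gauss x, (1 + al (C x.l) ^ p * φ) * (1 + al (C x.l) ^ p *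
        (P * ((al (C (γ - ϑ) * t.T + C ϖ))⁻¹ ^ p) ^ p)) = (Θ ^ p + x.L ^ p * Q : gauss x) ∧
        residue _ Θ = 1 ∧ residue _ Q = residue _ q') : x.Good 0 0 := by
  have hp := (Fact.out : p.Prime)
  have rc : x.red (C (γ - ϑ) * t.T + C ϖ) = C (x.π (γ - ϑ)) * x.red t.T := by
    rw [map_add, map_mul, map_C, map_C, hϖ, map_zero, add_zero]
  have hc : x.red (C (γ - ϑ) * t.T + C ϖ) ≠ 0 := rc ▸ mul_ne_zero (C_ne_zero hδ) h.T0
  have hh0 : x.red (hh p (C γ) (C ϖ) t.T) ≠ 0 :=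
    x.red_hh hϖ t.T ▸ mul_ne_zero (C_ne_zero hγ) (pow_ne_zero _ h.T0)
  obtain ⟨Θ, Q, eQ, hΘ, hQ⟩ := hq _ (map_qH (gauss x).subtype p (x.toO (C γ)) (x.toO (C ϑ))
    (x.toO (C τ)) (x.toO (C half)) (fun j => x.toO (C (e j))) (x.toO t.T) (x.inv _ h.T0) (x.inv _ hh0)
    (x.inv _ hc) (x.toO t.W)).symm
  rw [map_qH] at hQ
  simp only [← Ctx.ρ_apply, Ctx.res_inv, x.ρ_C hτ] at hQ
  rw [qH_bdry _ _ _ _ _ _ _ _ (fun j hj => x.ρ_C (he j hj)) h.ρT] at hQ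
  obtain ⟨b1, b2, b3, b4, -, b6⟩ := h.bdry hϖ hγ rfl rfl
  obtain ⟨κi, hκ⟩ := (x.isUnit_of_π hγ).exists_right_inv
  have hp1 : p - 1 ≠ 0 := by have := hp.two_le; omega
  have hp2 : p ≠ 2 := by
    rintro rfl
    have := congrArg x.π hhalf
    rw [map_mul, map_ofNat, CharTwo.two_eq_zero, zero_mul, map_one] at this
    exact zero_ne_one this
  have σc : ∀ g : R⟦X⟧ ≃ₐ[R] R⟦X⟧, g t.T = t.T → g (C (γ - ϑ) * t.T + C ϖ) =
      C (γ - ϑ) * t.T + C ϖ := fun g hg => by rw [map_add, map_mul, hg, algHom_C, algHom_C]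
  have σY : ∀ g : R⟦X⟧ ≃ₐ[R] R⟦X⟧, g t.T = t.T → g a₂ = a₂ →
      g (((C (γ - ϑ) * t.T + C ϖ) ^ p) ^ p + C x.l ^ (p - 1) * a₂) =
        1 * (((C (γ - ϑ) * t.T + C ϖ) ^ p) ^ p + C x.l ^ (p - 1) * a₂) := fun g hg hg' => by
    rw [map_add, map_mul, map_pow g, map_pow g, map_pow g, σc g hg, algHom_C, hg', one_mul]
  simp only [pow_zero, pow_one] at b1 b2 b3 b4 b6
  refine x.good_of_rel (g := t.σ) (g' := t.τ) (U := 1 + C x.l ^ (p - 1) * a₁)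
    (Y := ((C (γ - ϑ) * t.T + C ϖ) ^ p) ^ p + C x.l ^ (p - 1) * a₂)
    (E := (C (γ - ϑ) * t.T + C ϖ) ^ p) (ψ := -(x.ρ X * (x.ρ t.T)⁻¹ + x.ρ (C γ) *
      (x.ρ t.W * (x.ρ (hh p (C γ) (C ϖ) t.T))⁻¹))) (ψ' := 0) ?_ hΘ hQ
    (by rw [map_pow]; exact pow_ne_zero _ hc) (hh p (C γ) (C ϖ) t.T)
    (C half * C ((ϑ ^ p - γ) ^ p) * t.T ^ 2 - C (γ ^ p * ((γ - ϑ) ^ p) ^ p) * C κi *
      (t.T ^ p) ^ (p - 1) * t.T * t.W - C half * C (γ ^ p * ((γ - ϑ) ^ p) ^ p) * C κi ^ p * t.T ^ 2)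
    ?_ ?_ ?_ hh0 (x.isUnit_of_red (by simp [x.hl, hp1])) isUnit_one isUnit_one (σY _ h.σT h₂.1)
    (σY _ h.τT h₂.2) h.comm h.σp h.τp ?_ ?_ ?_ ?_ (by simp)
  · have : al (C (γ - ϑ) * t.T + C ϖ) ≠ 0 :=
      (map_ne_zero_iff _ al_inj).2 fun e => hc (by rw [e, map_zero])
    rw [← eQ]
    generalize C (γ - ϑ) * t.T + C ϖ = s at this ⊢
    simp only [map_add, map_mul, map_pow, map_one, e₁, e₂, ← mul_assoc, ← pow_succ,
      Nat.sub_add_cancel hp.one_le, inv_pow]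
    field_simp
  · have e1 : x.ρ (C (γ - ϑ) * t.T + C ϖ) = x.ρ (C (γ - ϑ)) * x.ρ t.T := by
      rw [map_add, x.ρ_C hϖ, add_zero, map_mul]
    have e2 : x.ρ (C κi) = (x.ρ (C (γ ^ p - γ)))⁻¹ :=
      eq_inv_of_mul_eq_one_right (by rw [← map_mul, ← map_mul, hκ, map_one, map_one])
    have e3 := x.ρ_C_ne_zero hγ
    have e4 := x.ρ_C_ne_zero hδ
    have e5 := pow_ne_zero p h.ρT
    have e6 : x.ρ (C (ϑ ^ p - γ)) = x.ρ (C ϑ) ^ p - x.ρ (C γ) := by simp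
    simp only [map_sub x.ρ, map_mul, map_pow, e1, e2, h.ρhh hϖ, e6, mul_pow, mul_inv, inv_pow]
    rw [← pow_sub_one_mul hp.ne_zero (x.ρ t.T ^ p)]
    generalize x.ρ t.T ^ p = s at e5 ⊢
    field_simp
    ring
  · obtain ⟨m, rfl⟩ : ∃ m, p = m + 2 := ⟨p - 2, by have := hp.two_le; omega⟩
    have dT := h.dT hϖ
    have R2 := h.R2
    simp only [pow_zero, pow_one] at dT R2
    simp only [map_sub x.red, map_mul x.red, map_pow x.red, map_C]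
    exact heis_deriv (by rw [← map_mul, hκ, map_one]) (by rw [← map_ofNat x.π, ← map_mul, hhalf, map_one])
      (by rw [map_pow]; exact pow_ne_zero _ hμ) (x.red_hh hϖ t.T) h.X_dvd_W dT R2
  · obtain ⟨m, rfl⟩ : ∃ m, p = m + 3 := ⟨p - 3, by have := hp.two_le; omega⟩
    rw [map_pow, rc, x.red_hh hϖ, ← mul_assoc, mul_comm _ (C _), mul_assoc,
      ((Ne.isUnit hγ).map C).mul_left_dvd, mul_pow, mul_pow]
    refine Dvd.dvd.mul_left ?_ _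
    rw [show m + 3 - 1 = m + 1 + 1 from rfl, pow_succ _ (m + 1)]
    exact mul_dvd_mul (dvd_pow (dvd_pow (h.X2_dvd_T hϖ) (by omega)) (by omega)) dvd_rfl
  · rw [neg_pow_p, neg_sub_neg, ← neg_sub (_ ^ p), b6, smul_add, smul_mul' _ _ (_ * _), b1]
    simp only [smul_mul', smul_neg, smul_pow', smul_sub, smul_inv'', x.smul_ρ, algHom_C, h.σT, h.σhh,
      σc _ h.σT]
    ring
  · rw [smul_add, smul_mul' _ _ (_ * _), b2]
    simp [smul_mul', smul_neg, smul_pow', smul_sub, x.smul_ρ, algHom_C, h.τT, h.τhh, hp.ne_zero]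
  · rw [smul_neg, b4]
    simp
  · exact (x.sum_fixed (by rw [smul_neg, b3])).trans Nat.cast_zero.symm

theorem good_heis {p : ℕ} [Fact p.Prime] {k : Type} [Field k] [CharP k p] [IsAlgClosed k]
    {R : ℕ → Type} [∀ N, CommRing (R N)] [∀ N, IsDomain (R N)] [∀ N, IsDiscreteValuationRing (R N)]
    [∀ N, IsAdicComplete (maximalIdeal (R N)) (R N)] (x : ∀ N, Ctx p k (R N))
    (ϑ τ half : ∀ N, R N) (e m : ∀ N, ℕ → R N) (hτ0 : ∀ N, τ N ≠ 0) (hτ : ∀ N, (x N).π (τ N) = 0)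
    (hl : ∀ N, (τ N ^ p) ^ N ∣ (x N).l) (hhalf : ∀ N, 2 * half N = 1)
    (hϑ : ∀ N, (x N).π (ϑ N ^ p ^ 2 - ϑ N) ≠ 0)
    (hm : ∀ N, ∀ j < p, m N j * ((j : R N) - ϑ N ^ p ^ 2) = 1)
    (he : ∀ N, ∀ j < p, e N j ^ p =
      (τ N + e N j * (τ N ^ p * m N j) ^ (p - 1)) * ((j : R N) - ϑ N) ^ (p ^ 2 - p)) :
    ∃ N, (x N).Good 0 0 := by
  have hp := (Fact.out : p.Prime)
  let f : Fm p k R := ⟨x, τ ^ p, fun N => pow_ne_zero _ (hτ0 N), fun N => by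
    rw [Pi.pow_apply, map_pow, hτ, zero_pow hp.ne_zero], hl⟩
  have hθ : ∀ N, (x N).π (ϑ N ^ p - ϑ N) ≠ 0 := fun N h => hϑ N (by
    rw [map_sub, map_pow, sub_eq_zero] at h ⊢
    rw [sq, pow_mul, h, h])
  have hγ : ∀ N, (f.x N).π ((ϑ ^ p ^ 2) N ^ p - (ϑ ^ p ^ 2) N) ≠ 0 := fun N => by
    have := pow_ne_zero (p ^ 2) (hθ N)
    rw [map_sub, map_pow, sub_pow_char_pow, pow_right_comm] at this
    simpa using this
  have hμ : ∀ N, (x N).π (ϑ N ^ p - (ϑ ^ p ^ 2) N) ≠ 0 := fun N => by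
    have := pow_ne_zero p (hθ N)
    rw [map_sub, map_pow, sub_pow_char, ← pow_mul, ← sq, ← neg_ne_zero, neg_sub] at this
    simpa using this
  choose θi hθi using fun N => ((x N).isUnit_of_π (hθ N)).exists_left_inv
  obtain ⟨t, φ₁, -, ht, hG⟩ := f.exists_tower 0 hγ
  have hT : ∀ᶠ N in atTop, (f.x N).red (t N).T ≠ 0 := ht.mono fun N h => h.T0
  have hc : ∀ᶠ N in atTop, (f.x N).red (C ((ϑ ^ p ^ 2) N - ϑ N) * (t N).T + C (τ N ^ p)) ≠ 0 :=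
    hT.mono fun N h => by
      rw [map_add, map_mul, map_C, map_C, show (f.x N).π (τ N ^ p) = 0 from f.hϖ N, map_zero, add_zero]
      exact mul_ne_zero (C_ne_zero (hϑ N)) h
  have hA : ∀ a, f.ofA a ∈ f.BS fun _ => ⊤ := fun a =>
    Fm.BS.ofA (Eventually.of_forall fun _ => Algebra.mem_top)
  have hR : ∀ a, f.cls (f.ofR a) ∈ f.U fun N => (t N).S₀ := fun a => Fm.U.mk (Fm.BS.ofR a)
  have eϖ : f.cls (f.ofR f.ϖ) = f.cls (f.ofR τ) ^ p := by rw [← map_pow, ← map_pow]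
  have r₁ := Fm.tower_r₁ ht
  have r₂ := Fm.tower_r₂ ht hG
  have eh := Fm.tower_eh hγ hT
  have ec := f.cls_mul_inv _ hc
  rw [show f.ofA (fun N => C ((ϑ ^ p ^ 2) N - ϑ N) * (t N).T + C (τ N ^ p)) =
    (f.ofR (ϑ ^ p ^ 2) - f.ofR ϑ) * f.ofA (fun N => (t N).T) + f.ofR τ ^ p by
      rw [← map_sub, ← map_pow, f.ofR_eq, f.ofR_eq, ← map_mul, ← map_add]
      rfl, map_add, map_mul, map_sub, map_pow f.cls] at ec
  rw [pow_zero, pow_one] at r₁ r₂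
  rw [eϖ] at r₁ eh
  obtain ⟨η, _, ⟨φ, hφ, rfl⟩, _, ⟨P, hP, rfl⟩, E⟩ := charP_heis p (f.U fun N => (t N).S₀)
    (f.U fun _ => ⊤) (Fm.U.mono fun _ => le_top) _ _ _ (f.cls f.ϖi) (f.cls (f.ofR half))
    (f.cls (f.ofR θi)) (fun j => f.cls (f.ofR fun N => e N j)) (fun j => f.cls (f.ofR fun N => m N j))
    _ _ _ _ _ _ (hR ϑ) (hR τ) (Fm.U.mk Fm.BS.ϖi) (hR _) (hR _) (fun _ => hR _) (fun _ => hR _)
    (Fm.U.mk (Fm.BS.ofA (ht.mono fun N h => ⟨h.σT, h.τT⟩))) (Fm.U.mk (hA _)) (Fm.U.mk (hA _))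
    (by rw [map_pow, map_pow]) (by rw [← eϖ, ← map_mul, f.mul_ϖi, map_one])
    (by
      have := congrArg (f.cls.comp f.ofR) (show 2 * half = 1 from funext hhalf)
      simpa [map_ofNat] using this)
    (by
      have := congrArg (f.cls.comp f.ofR) (show θi * (ϑ ^ p - ϑ) = 1 from funext hθi)
      simpa using this)
    (fun j hj => by
      have := congrArg (f.cls.comp f.ofR) (show (fun N => m N j) * ((j : ∀ N, R N) - ϑ ^ p ^ 2) = 1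
        from funext fun N => hm N j hj)
      simpa only [map_mul, map_sub, map_natCast, map_one, RingHom.comp_apply] using this)
    (fun j hj => by
      have := congrArg (f.cls.comp f.ofR) (show (fun N => e N j) ^ p = (τ + (fun N => e N j) *
        (τ ^ p * fun N => m N j) ^ (p - 1)) * ((j : ∀ N, R N) - ϑ) ^ (p ^ 2 - p)
        from funext fun N => he N j hj)
      simpa only [map_mul, map_sub, map_natCast, map_add, map_pow, RingHom.comp_apply] using this)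
    (f.cls_mul_inv _ hT) eh ec r₁ r₂
  obtain ⟨η, rfl⟩ := f.cls_surj η
  have hrel := ((Fm.Rel.one φ).mul (Fm.Rel.one (P * (f.inv _ hc ^ p) ^ p))).shift η
  rw [map_mul, map_pow, map_pow, ← E, add_sub_cancel_right, ← map_qH] at hrel
  obtain ⟨N, h1, ⟨a₁, _, _, e₁⟩, ⟨a₂, h₂, _, e₂⟩, h4⟩ := (ht.and ((Fm.BS.small f.hl hφ).and
    ((Fm.BS.small f.hl hP).and hrel.eventually))).exists
  refine ⟨N, heis_point h1 (f.hϖ N) (hτ N) (hhalf N) (hγ N) (hϑ N) (hμ N) (e := e N) (fun j hj => ?_) h₂ e₁ e₂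
    fun q' hq' => ?_⟩
  · have := congrArg (x N).π (he N j hj)
    simp only [map_mul, map_add, map_pow, hτ, zero_pow hp.ne_zero, zero_mul, zero_add,
      zero_pow (show p - 1 ≠ 0 by have := hp.two_le; omega), mul_zero] at this
    exact pow_eq_zero_iff hp.ne_zero |>.1 this
  · obtain ⟨Θ, Q, e1, -, e2, e3⟩ := h4 q' (by rw [map_qH]; exact hq')
    refine ⟨Θ, Q, ?_, e2, e3⟩
    rw [← e1]
    simp only [map_mul (f.ev N), map_add (f.ev N), map_pow (f.ev N), map_one (f.ev N)]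
    rfl

end Pool.Agent.P.MP_41a2b4_ag
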