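import Pool.Agent.P.MP_41a2b4_ag.Gauss

set_option autoImplicit false
set_option linter.unusedSectionVars false

namespace Pool.Agent.P.MP_41a2b4_ag

open PowerSeries IsLocalRing

variable {p : ℕ} [Fact p.Prime] {k : Type} [Field k] [CharP k p] {R : Type} [CommRing R]
  [IsDomain R] [IsDiscreteValuationRing R] (x : Ctx p k R)

namespace Ctx

/-- The image of `l` in the Gauss valuation ring. -/
noncomputable abbrev L : gauss x := x.toO (C x.l)

/-- The Kummer polynomial over `R⟦X⟧`. -/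
noncomputable abbrev ΦA (H W : R⟦X⟧) : R⟦X⟧ := Phi p (C x.l) (C x.c) H W

/-- The Kummer polynomial over the Gauss valuation ring. -/
noncomputable abbrev ΦO (H W : gauss x) : gauss x := Phi p x.L (x.toO (C x.c)) H W

theorem hpA : (p : R⟦X⟧) = -C x.c * C x.l ^ (p - 1) := by
  rw [← map_natCast (C : R →+* R⟦X⟧), x.hp]
  simp

theorem hpO : (p : gauss x) = -x.toO (C x.c) * x.L ^ (p - 1) := by
  rw [← map_natCast x.toO, x.hpA]
  simp

theorem powA (H W : R⟦X⟧) : (H + C x.l * W) ^ p = H ^ p + C x.l ^ p * x.ΦA H W :=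
  add_mul_pow_eq Fact.out x.hpA H W

theorem powO (H W : gauss x) : (H + x.L * W) ^ p = H ^ p + x.L ^ p * x.ΦO H W :=
  add_mul_pow_eq Fact.out x.hpO H W

theorem red_ΦA (H W : R⟦X⟧) : x.red (x.ΦA H W) = x.red W ^ p - x.red H ^ (p - 1) * x.red W := by
  rw [map_Phi]
  simp [Phi, x.hl, x.hc]

theorem res_L : residue _ x.L = 0 := x.ρ_l

theorem res_ΦO (H W : gauss x) :
    residue _ (x.ΦO H W) = residue _ W ^ p - residue _ H ^ (p - 1) * residue _ W := by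
  rw [map_Phi, Phi, res_L, ← ρ_apply, ρ_c]
  ring

theorem L_ne_zero : x.L ≠ 0 := (map_ne_zero_iff _ x.toO_inj).2 (C_ne_zero x.hl0)

theorem smul_L (g : R⟦X⟧ ≃ₐ[R] R⟦X⟧) : g • x.L = x.L := by rw [smul_toO, algHom_C]

theorem exists_G {F H : R⟦X⟧} {Q r : gauss x}
    (e : x.toO F = (x.toO H + x.L * r) ^ p + x.L ^ p * Q) :
    ∃ G, F = H ^ p + C x.l ^ p * G ∧ x.toO G = x.ΦO (x.toO H) r + Q := by
  have e1 : x.toO (F - H ^ p) = x.toO (C (x.l ^ p)) * (x.ΦO (x.toO H) r + Q) := by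
    rw [map_sub, e, powO, map_pow, map_pow, map_pow]
    ring
  obtain ⟨G, hG⟩ := x.exists_of_mul_eq (pow_ne_zero _ x.hl0) e1
  refine ⟨G, x.toO_inj ?_, hG.symm⟩
  rw [hG, ← map_mul, map_pow] at e1
  rw [← sub_eq_iff_eq_add'.1 (x.toO_inj e1)]

theorem exists_approx {F : R⟦X⟧} {Θ Q : gauss x} (e : x.toO F = Θ ^ p + x.L ^ p * Q) :
    ∃ H r, Θ = x.toO H + x.L * r := by
  have hp := (Fact.out : p.Prime)
  obtain ⟨ϖ, hϖ⟩ := IsDiscreteValuationRing.exists_irreducible R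
  have key : ∀ n, ϖ ^ n ∣ x.l → ∃ H r, Θ = x.toO H + x.toO (C ϖ) ^ n * r := by
    intro n
    induction n with
    | zero => exact fun _ => ⟨0, Θ, by simp⟩
    | succ n ih =>
      rintro ⟨l', hl'⟩
      obtain ⟨H, r, hr⟩ := ih ⟨ϖ * l', by rw [hl']; ring⟩
      obtain ⟨m, hm⟩ : ∃ m, p = m + 2 := ⟨p - 2, by have := hp.two_le; omega⟩
      obtain ⟨s, hs⟩ := exists_add_pow_prime_eq hp (x.toO H) (x.toO (C ϖ) ^ n * r)
      have eL : x.L = x.toO (C ϖ) ^ n * (x.toO (C ϖ) * x.toO (C l')) := by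
        rw [L, hl', map_mul, map_mul, map_pow, map_pow]
        ring
      have e1 : x.toO (F - H ^ p) = x.toO (C ((ϖ ^ n) ^ p)) * (r ^ p + x.toO (C ϖ) *
          (x.toO (C l') * (x.toO (C ϖ) * x.toO (C l')) ^ m * ((x.toO (C ϖ) * x.toO (C l')) * Q
            - x.toO (C x.c) * x.toO H * r * s))) := by
        rw [map_sub, e, hr, hs, x.hpO, eL, map_pow, map_pow, map_pow, map_pow, map_pow,
          show p - 1 = m + 1 by omega]
        generalize x.toO (C ϖ) ^ n = μ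
        subst hm
        ring
      obtain ⟨Y, hY⟩ := x.exists_of_mul_eq (pow_ne_zero _ (pow_ne_zero _ hϖ.ne_zero)) e1
      have h0 : residue _ (x.toO (C ϖ)) = 0 := x.ρ_C (x.π_eq_zero.2 hϖ.not_isUnit)
      obtain ⟨a, ha⟩ := x.exists_of_monic hp (z := r) (b₁ := 0) (b₀ := -Y) (by
        rw [map_neg, ρ_apply x Y, ← hY]
        simp [h0])
      obtain ⟨r', hr'⟩ := x.dvd_of_residue hϖ (z := r - x.toO a) (by rw [map_sub, ha, ρ_apply, sub_self])
      refine ⟨H + C ϖ ^ n * a, r', ?_⟩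
      rw [hr, map_add, map_mul, map_pow, eq_add_of_sub_eq hr']
      ring
  obtain ⟨n, u, hu⟩ := IsDiscreteValuationRing.eq_unit_mul_pow_irreducible x.hl0 hϖ
  obtain ⟨H, r, hr⟩ := key n ⟨u, by rw [hu, mul_comm]⟩
  refine ⟨H, x.toO (C ((u⁻¹ : Rˣ) : R)) * r, ?_⟩
  rw [hr, L, ← mul_assoc, ← map_mul, ← map_mul, hu, mul_comm (u : R), mul_assoc, Units.mul_inv,
    mul_one, map_pow, map_pow]

theorem exists_Φ_eq [IsAdicComplete (maximalIdeal R) R] {H G : R⟦X⟧} (hH : IsUnit H)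
    (hG : x.red G = 0) : ∃ δ, x.red δ = 0 ∧ x.ΦA H δ = G := by
  have hp := (Fact.out : p.Prime)
  obtain ⟨m, hm⟩ : ∃ m, p = m + 2 := ⟨p - 2, by have := hp.two_le; omega⟩
  have hc : IsUnit (C x.c * H ^ (p - 1)) :=
    ((x.isUnit_of_π (by rw [x.hc]; exact one_ne_zero)).map C).mul (hH.pow _)
  obtain ⟨v, hv⟩ := hc.exists_left_inv
  have hl : (C x.l : R⟦X⟧) ∈ maximalIdeal R⟦X⟧ := C_mem_max (x.π_eq_zero.1 x.hl)
  have hΨ : Contr (maximalIdeal R⟦X⟧)
      fun δ => v * (δ ^ p + C x.l * δ ^ 2 * Psi p (C x.l) (C x.c) H δ - G) := by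
    intro n a ha b hb hab
    have h1 : a ^ (m + 1) - b ^ (m + 1) ∈ maximalIdeal R⟦X⟧ ^ n :=
      Ideal.mem_of_dvd _ (sub_dvd_pow_sub_pow a b _) hab
    have h2 : a ^ 2 * Psi p (C x.l) (C x.c) H a - b ^ 2 * Psi p (C x.l) (C x.c) H b ∈
        maximalIdeal R⟦X⟧ ^ n := by
      rw [← Ideal.Quotient.eq] at hab ⊢
      simp only [map_mul, map_pow, map_Psi, hab]
    rw [pow_succ]
    convert Ideal.mul_mem_left _ v (Ideal.add_mem _ (Ideal.add_mem _ (Ideal.mul_mem_mul h1 ha)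
      (Ideal.mul_mem_mul hab (Ideal.mul_mem_left _ (b ^ m) hb))) (Ideal.mul_mem_mul h2 hl)) using 1
    subst hm
    ring
  obtain ⟨δ, hδ, e⟩ := hΨ.exists (by
    simpa [hp.ne_zero] using Ideal.mul_mem_left _ v (x.mem_max_of_red hG))
  have e1 : x.ΦA H δ = G := by
    simp only [ΦA, Phi]
    linear_combination (C x.c * H ^ (p - 1)) * e -
      (δ ^ p + C x.l * δ ^ 2 * Psi p (C x.l) (C x.c) H δ - G) * hv
  refine ⟨δ, ?_, e1⟩
  have e2 := x.red_ΦA H δ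
  rw [e1, hG] at e2
  have e3 : x.red δ * (x.red δ ^ (m + 1) - x.red H ^ (p - 1)) = 0 := by
    have : x.red δ ^ p = x.red δ ^ (m + 2) := by rw [← hm]
    linear_combination -e2 - this
  refine (mul_eq_zero.1 e3).resolve_right fun h => hδ (x.isUnit_of_red ?_)
  exact (isUnit_pow_iff (Nat.succ_ne_zero m)).1 (sub_eq_zero.1 h ▸ (hH.map x.red).pow _)

theorem exists_root [IsAdicComplete (maximalIdeal R) R] {V : R⟦X⟧} (hV : IsUnit V) {Ξ ε : gauss x}
    (hε : residue _ ε = 0) (e : x.toO V = Ξ ^ p + x.L ^ p * ε) :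
    ∃ u δ, residue _ δ = 0 ∧ u ^ p = V ∧ x.toO u = Ξ + x.L * δ := by
  have hp := (Fact.out : p.Prime)
  obtain ⟨H, r, rfl⟩ := x.exists_approx e
  obtain ⟨G, -, hG⟩ := x.exists_G e
  obtain ⟨a, ha⟩ := x.exists_of_monic hp (z := r) (b₁ := -H ^ (p - 1)) (b₀ := -G) (by
    rw [map_neg, map_neg, ρ_apply x G, hG, map_add, res_ΦO, hε, map_pow, ρ_apply]
    ring)
  have e' : x.toO H + x.L * r = x.toO (H + C x.l * a) + x.L * (r - x.toO a) := by
    rw [map_add, map_mul]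
    ring
  have hr : residue _ (r - x.toO a) = 0 := by rw [map_sub, ha, ρ_apply, sub_self]
  rw [e'] at e ⊢
  obtain ⟨G', hV', hG'⟩ := x.exists_G e
  have h0 : x.red G' = 0 := by
    rw [← ρ_eq_zero, ρ_apply, hG', map_add, res_ΦO, hr, hε]
    simp [hp.ne_zero]
  have hH : IsUnit (H + C x.l * a) := by
    have := hV.map x.red
    rw [hV', map_add, map_mul, h0, mul_zero, add_zero, map_pow] at this
    exact x.isUnit_of_red ((isUnit_pow_iff hp.ne_zero).1 this)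
  obtain ⟨δ, hδ, eδ⟩ := x.exists_Φ_eq hH h0
  refine ⟨H + C x.l * a + C x.l * δ, x.toO δ - (r - x.toO a), ?_, by rw [powA, eδ, hV'], ?_⟩
  · rw [map_sub, hr, ← ρ_apply, x.ρ_eq_zero.2 hδ, sub_zero]
  · rw [map_add, map_mul]
    ring

theorem deriv_pow_char (f : k⟦X⟧) : d⁄dX k (f ^ p) = 0 := by
  rw [Derivation.leibniz_pow, nsmul_eq_mul, ← map_natCast (C : k →+* k⟦X⟧), CharP.cast_eq_zero,
    map_zero, zero_mul]

theorem exists_normal [IsAlgClosed k] {F : R⟦X⟧} {Θ Q : gauss x}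
    (e : x.toO F = Θ ^ p + x.L ^ p * Q) (hΘ : residue _ Θ ≠ 0) (D H₀ g : R⟦X⟧)
    (hq : residue _ Q * x.ρ (D * H₀) ^ p = x.ρ g * residue _ Θ ^ p)
    (hF : ∃ ε, IsUnit ε ∧ x.red F = ε * x.red H₀ ^ p)
    (hg : ∃ ε, IsUnit ε ∧ d⁄dX k (x.red g) = ε * x.red D ^ p)
    (hD : X ^ 2 * x.red D ∣ x.red H₀ ^ (p - 1)) (hD0 : x.red D ≠ 0) :
    ∃ H G, F = H ^ p + C x.l ^ p * G ∧ constantCoeff (x.red G) = 0 ∧ coeff 1 (x.red G) ≠ 0 ∧
      constantCoeff (x.red H) = 0 ∧ x.red H ≠ 0 := by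
  have hp := (Fact.out : p.Prime)
  obtain ⟨m, hm⟩ : ∃ m, p = m + 2 := ⟨p - 2, by have := hp.two_le; omega⟩
  have hm1 : p - 1 = m + 1 := by omega
  obtain ⟨H, r, rfl⟩ := x.exists_approx e
  obtain ⟨G, hF', hG⟩ := x.exists_G e
  obtain ⟨ε, hε, hF⟩ := hF
  obtain ⟨ε', hε', hg⟩ := hg
  obtain ⟨Y, hY⟩ := hD
  rw [map_add, map_mul (residue _), res_L, zero_mul, add_zero, ← ρ_apply] at hΘ hq
  have hH : x.red H ≠ 0 := fun h => hΘ (x.ρ_eq_zero.2 h)
  have e1 : x.red H ^ p = ε * x.red H₀ ^ p := by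
    rw [← hF, hF']
    simp [x.hl, hp.ne_zero]
  have hH₀ : x.red H₀ ≠ 0 := fun h => hH (by
    rw [h, zero_pow hp.ne_zero, mul_zero] at e1
    exact pow_eq_zero_iff hp.ne_zero |>.1 e1)
  obtain ⟨η, hη⟩ := dvd_of_monic (n := m) (a := x.red H) (b₁ := 0) (b₀ := -ε) hH₀ (by
    rw [← hm, e1]
    ring)
  have hηε : η ^ p = ε := mul_right_cancel₀ (pow_ne_zero p hH₀) (by rw [← e1, hη]; ring)
  obtain ⟨η, rfl⟩ := x.red_surj η
  have e2 : x.ρ H = x.ρ H₀ * x.ρ η := by rw [← map_mul, ρ_eq_iff, hη, map_mul]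
  have e3 : residue _ Q * x.ρ D ^ p = x.ρ g * x.ρ η ^ p :=
    mul_right_cancel₀ (pow_ne_zero p fun h => hH₀ (x.ρ_eq_zero.1 h)) (by
      rw [e2, map_mul, mul_pow, mul_pow] at hq
      linear_combination hq)
  have e4 : x.ρ G = residue _ r ^ p - x.ρ H ^ (p - 1) * residue _ r + residue _ Q := by
    rw [ρ_apply, hG, map_add, res_ΦO, ρ_apply]
  have e5 : residue _ (x.toO D * r) ^ p + x.ρ (-(D * H) ^ (p - 1)) * residue _ (x.toO D * r) +
      x.ρ (g * η ^ p - D ^ p * G) = 0 := by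
    simp only [map_mul, map_neg, map_pow, map_sub, ← ρ_apply, e4, ← e3, hm1, mul_pow]
    have : x.ρ D ^ p = x.ρ D ^ (m + 2) := by rw [← hm]
    rw [this]
    ring
  obtain ⟨a, ha⟩ := x.exists_of_monic hp e5
  rw [ha, ← map_pow, ← map_mul, ← map_add, ← map_add, ρ_eq_zero] at e5
  simp only [map_add, map_mul, map_neg, map_pow, map_sub] at e5
  have e6 : x.red D ^ p * x.red G = x.red a ^ p + x.red η ^ p * x.red g -
      x.red D ^ p * (X ^ 2 * (Y * x.red η ^ (p - 1) * x.red a)) := by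
    have : x.red D ^ p = x.red D ^ (p - 1) * x.red D := by rw [← pow_succ, hm1, ← hm]
    rw [hη, mul_pow, mul_pow, hY] at e5
    linear_combination -e5 + (X ^ 2 * Y * x.red η ^ (p - 1) * x.red a) * this
  have e7 := congrArg (d⁄dX k) e6
  generalize Y * x.red η ^ (p - 1) * x.red a = Z at e7
  simp only [map_sub, map_add, Derivation.leibniz, deriv_pow_char, hg, smul_eq_mul, mul_zero,
    add_zero, zero_add] at e7
  rw [Derivation.leibniz_pow, derivative_X] at e7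
  have e8 : d⁄dX k (x.red G) = x.red η ^ p * ε' - X * (X * d⁄dX k Z + 2 * Z) :=
    mul_left_cancel₀ (pow_ne_zero p hD0) (by rw [e7]; simp; ring)
  have e9 : coeff 1 (x.red G) ≠ 0 := by
    have := congrArg constantCoeff e8
    rw [← coeff_zero_eq_constantCoeff_apply, coeff_derivative] at this
    simp only [zero_add, Nat.cast_zero, mul_one, map_sub, map_mul, constantCoeff_X, zero_mul,
      sub_zero, hηε] at this
    rw [this]
    exact (isUnit_iff_constantCoeff.1 hε).ne_zero |> fun h =>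
      mul_ne_zero h (isUnit_iff_constantCoeff.1 hε').ne_zero
  obtain ⟨c, hc⟩ := IsAlgClosed.exists_pow_nat_eq (constantCoeff (x.red G)) hp.pos
  obtain ⟨c, rfl⟩ := x.hπ c
  have hX : x.red H ^ (p - 1) = X ^ 2 * (x.red D * Y * x.red η ^ (p - 1)) := by
    rw [hη, mul_pow, hY]
    ring
  have eG : x.red (G - x.ΦA H (C c)) = x.red G - C (x.π c ^ p) +
      X ^ 2 * (x.red D * Y * x.red η ^ (p - 1) * C (x.π c)) := by
    rw [map_sub, red_ΦA, hX, map_C, map_pow]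
    ring
  have eH : x.red (H + C x.l * C c) = x.red H := by simp [x.hl]
  refine ⟨H + C x.l * C c, G - x.ΦA H (C c), by rw [powA, hF']; ring, ?_, ?_, ?_, by rwa [eH]⟩
  · rw [eG, hc]
    simp
  · rw [eG, map_add, map_sub, coeff_C, if_neg one_ne_zero, coeff_X_pow_mul', if_neg (by omega)]
    simpa using e9
  · have := congrArg constantCoeff hX
    rw [eH]
    simp only [map_pow, map_mul, constantCoeff_X, hm1] at this
    exact pow_eq_zero_iff (Nat.succ_ne_zero m) |>.1 (by rw [this]; simp)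

/-- The cocycle relation between a Kummer unit `u` and an Artin-Schreier element `ψ`. -/
def Coc (Θ : gauss x) (g : R⟦X⟧ ≃ₐ[R] R⟦X⟧) (u : R⟦X⟧) (ψ : ResidueField (gauss x)) : Prop :=
  ∃ s : gauss x, residue _ s = ψ ∧ x.toO u * Θ = g • Θ * (1 + x.L * s)

variable {x} {Θ : gauss x} {g g' : R⟦X⟧ ≃ₐ[R] R⟦X⟧} {u u' : R⟦X⟧} {ψ ψ' : ResidueField (gauss x)}

theorem Coc.mul (h : x.Coc Θ g u ψ) (h' : x.Coc Θ g' u' ψ') :
    x.Coc Θ (g * g') (u * g u') (ψ + g • ψ') := by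
  obtain ⟨s, rfl, e⟩ := h
  obtain ⟨s', rfl, e'⟩ := h'
  refine ⟨s + g • s' + x.L * s * g • s', by simp [res_L], ?_⟩
  have := congrArg (g • ·) e'
  simp only [smul_mul', smul_add, smul_one, smul_toO, algHom_C] at this
  rw [map_mul, mul_smul]
  linear_combination x.toO (g u') * e + (1 + x.L * s) * this

theorem Coc.one : x.Coc Θ 1 1 0 := ⟨0, map_zero _, by simp⟩

theorem Coc.zeta : x.Coc Θ 1 (C (1 + x.l)) 1 := ⟨1, map_one _, by simp [mul_comm]⟩

theorem Coc.pow (h : x.Coc Θ g u ψ) (n : ℕ) :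
    x.Coc Θ (g ^ n) (∏ i ∈ Finset.range n, (g ^ i) u) (∑ i ∈ Finset.range n, g ^ i • ψ) := by
  induction n with
  | zero => simpa using Coc.one
  | succ n ih =>
    rw [Finset.prod_range_succ, Finset.sum_range_succ, pow_succ]
    exact ih.mul h

theorem Coc.zeta_pow (n : ℕ) : x.Coc Θ 1 (C (1 + x.l) ^ n) n := by
  simpa using (Coc.zeta (x := x) (Θ := Θ)).pow n

theorem smul_res_ne_zero (g : R⟦X⟧ ≃ₐ[R] R⟦X⟧) (h : ψ ≠ 0) : g • ψ ≠ 0 := fun e =>
  h (by simpa using congrArg (g⁻¹ • ·) e)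

theorem Coc.unique (hΘ : residue _ Θ ≠ 0) (h : x.Coc Θ g u ψ) (h' : x.Coc Θ g u' ψ)
    (e : u ^ p = u' ^ p) : u = u' := by
  have hp := (Fact.out : p.Prime)
  obtain ⟨s, hs, e1⟩ := h
  obtain ⟨s', hs', e2⟩ := h'
  have h0 : g • Θ ≠ 0 := fun h => smul_res_ne_zero g hΘ (by
    rw [← ResidueField.residue_smul, h, map_zero])
  have e3 : (1 + x.L * s' + x.L * (s - s')) ^ p = (1 + x.L * s') ^ p :=
    mul_left_cancel₀ (pow_ne_zero p h0) (by
      rw [← mul_pow, ← mul_pow, ← e2, show 1 + x.L * s' + x.L * (s - s') = 1 + x.L * s by ring,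
        ← e1, mul_pow, mul_pow, ← map_pow, ← map_pow, e])
  rw [powO, add_eq_left, mul_eq_zero] at e3
  have e4 : (s - s') * ((s - s') ^ (p - 1) - x.toO (C x.c) * (1 + x.L * s') ^ (p - 1) +
      x.L * (s - s') * Psi p x.L (x.toO (C x.c)) (1 + x.L * s') (s - s')) = 0 := by
    rw [← e3.resolve_left (pow_ne_zero _ x.L_ne_zero), ΦO, Phi, ← pow_sub_one_mul hp.ne_zero (s - s')]
    ring
  have e5 : s = s' := by
    refine sub_eq_zero.1 ((mul_eq_zero.1 e4).resolve_right fun h => ?_)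
    have := congrArg (residue _) h
    have h1 : p - 1 ≠ 0 := by have := hp.two_le; omega
    simp [hs, hs', ρ_l, ← ρ_apply, ρ_c, h1] at this
  subst e5
  exact x.toO_inj (mul_right_cancel₀ (fun h => hΘ (by rw [h, map_zero])) (e1.trans e2.symm))

theorem Coc.exists [IsAdicComplete (maximalIdeal R) R] {F V : R⟦X⟧} {Q : gauss x}
    {q : ResidueField (gauss x)} (e : x.toO F = Θ ^ p + x.L ^ p * Q) (hΘ : residue _ Θ ≠ 0)
    (hq : residue _ Q = q * residue _ Θ ^ p) (hV : IsUnit V) (hF : g F = V * F)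
    (hψ : g • q - q = ψ ^ p - ψ) : ∃ u, IsUnit u ∧ u ^ p = V ∧ x.Coc Θ g u ψ := by
  have hp := (Fact.out : p.Prime)
  obtain ⟨s, rfl⟩ := residue_surjective ψ
  obtain ⟨Θi, hΘi⟩ := ((residue_ne_zero_iff_isUnit _).1 hΘ).exists_right_inv
  have hF0 : residue _ (x.toO F) ≠ 0 := by
    rw [e]
    simpa [res_L, hp.ne_zero] using hΘ
  obtain ⟨Fi, hFi⟩ := ((residue_ne_zero_iff_isUnit _).1 hF0).exists_right_inv
  have e1 := congrArg (g • ·) e
  simp only [smul_toO, smul_add, smul_mul', smul_pow', algHom_C, hF, map_mul] at e1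
  have e2 : (g • Θ * Θi) ^ p * Θ ^ p = (g • Θ) ^ p := by rw [← mul_pow, mul_assoc, mul_comm Θi, hΘi, mul_one]
  obtain ⟨u, δ, hδ, hu, eu⟩ := x.exists_root hV (Ξ := g • Θ * Θi * (1 + x.L * s))
    (ε := Fi * (g • Q - (g • Θ * Θi) ^ p * Q - (g • Θ * Θi) ^ p * x.ΦO 1 s * x.toO F)) (by
      have e3 := congrArg (residue _) e2
      have e4 := congrArg (residue _) e
      simp only [map_mul, map_sub, map_pow, map_add, res_L, res_ΦO, ResidueField.residue_smul, hq,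
        smul_mul', smul_pow', map_one, one_pow, zero_pow hp.ne_zero] at e3 e4 ⊢
      rw [e4]
      refine mul_eq_zero_of_right _ ?_
      linear_combination (g • residue _ Θ) ^ p * hψ - (q + residue _ s ^ p - residue _ s) * e3) (by
      rw [mul_pow _ (1 + x.L * s), powO]
      linear_combination Fi * e1 - Fi * e2 - Fi * (g • Θ * Θi) ^ p * e + (-x.toO V +
        (g • Θ * Θi) ^ p + (g • Θ * Θi) ^ p * x.L ^ p * x.ΦO 1 s) * hFi)
  obtain ⟨Θj, hΘj⟩ := ((residue_ne_zero_iff_isUnit (g • Θ)).1 (smul_res_ne_zero g hΘ)).exists_right_inv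
  refine ⟨u, (isUnit_pow_iff hp.ne_zero).1 (hu ▸ hV), hu, s + δ * Θ * Θj, by simp [hδ], ?_⟩
  rw [eu]
  linear_combination g • Θ * (1 + x.L * s) * hΘi - x.L * δ * Θ * hΘj

theorem kummer_mul {F : R⟦X⟧} (h : g F = u ^ p * F) (h' : g' F = u' ^ p * F) :
    (g * g') F = (u * g u') ^ p * F := by
  rw [AlgEquiv.mul_apply, h', map_mul, map_pow, h]
  ring

theorem kummer_pow {F : R⟦X⟧} (h : g F = u ^ p * F) (n : ℕ) :
    (g ^ n) F = (∏ i ∈ Finset.range n, (g ^ i) u) ^ p * F := by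
  induction n with
  | zero => simp
  | succ n ih =>
    rw [Finset.prod_range_succ, pow_succ]
    exact kummer_mul ih h

theorem zeta_pow_p : (C (1 + x.l) : R⟦X⟧) ^ p = 1 := by rw [← map_pow, x.hζ, map_one]

theorem Coc.norm {F : R⟦X⟧} (hF : F ≠ 0) (hΘ : residue _ Θ ≠ 0) (h : x.Coc Θ g u ψ)
    (e : g F = u ^ p * F) (hg : g ^ p = 1) {α : ℕ} (hα : ∑ i ∈ Finset.range p, g ^ i • ψ = α) :
    ∏ i ∈ Finset.range p, (g ^ i) u = C (1 + x.l) ^ α := by
  have h1 := h.pow p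
  have h2 := kummer_pow e p
  rw [hg, hα] at h1
  rw [hg, AlgEquiv.one_apply] at h2
  refine h1.unique hΘ (Coc.zeta_pow α) (mul_right_cancel₀ hF ?_)
  rw [← h2, ← pow_mul, mul_comm α, pow_mul, zeta_pow_p, one_pow, one_mul]

theorem Coc.comm {F : R⟦X⟧} (hF : F ≠ 0) (hΘ : residue _ Θ ≠ 0) (h : x.Coc Θ g u ψ)
    (h' : x.Coc Θ g' u' ψ') (e : g F = u ^ p * F) (e' : g' F = u' ^ p * F) (hc : g * g' = g' * g)
    (hψ : ψ + g • ψ' = 1 + (ψ' + g' • ψ)) : u * g u' = C (1 + x.l) * (u' * g' u) := by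
  have h1 := h.mul h'
  have h2 := Coc.zeta.mul (h'.mul h)
  rw [one_mul, one_smul, AlgEquiv.one_apply, ← hc, ← hψ] at h2
  refine h1.unique hΘ h2 (mul_right_cancel₀ hF ?_)
  rw [← kummer_mul e e', mul_pow, zeta_pow_p, one_mul, ← kummer_mul e' e, hc]

end Ctx

end Pool.Agent.P.MP_41a2b4_ag
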