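import Mathlib

set_option autoImplicit false

namespace Pool.Agent.P.MP_41a2b4_ag

open Finset

/-- The tail of the Kummer polynomial, divided by `W ^ 2`. -/
def Psi (p : ℕ) {S : Type*} [CommRing S] (l c H W : S) : S :=
  -c * ∑ i ∈ range (p - 2), ((p.choose (i + 2) / p : ℕ) : S) * l ^ i * H ^ (p - 2 - i) * W ^ i

/-- The Kummer polynomial `((H + l W) ^ p - H ^ p) / l ^ p` when `p = -c l ^ (p - 1)`. -/
def Phi (p : ℕ) {S : Type*} [CommRing S] (l c H W : S) : S :=
  W ^ p - c * H ^ (p - 1) * W + l * W ^ 2 * Psi p l c H W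

theorem map_Psi (p : ℕ) {S S' F : Type*} [CommRing S] [CommRing S'] [FunLike F S S']
    [RingHomClass F S S'] (f : F) (l c H W : S) :
    f (Psi p l c H W) = Psi p (f l) (f c) (f H) (f W) := by
  simp [Psi, map_sum]

theorem map_Phi (p : ℕ) {S S' F : Type*} [CommRing S] [CommRing S'] [FunLike F S S']
    [RingHomClass F S S'] (f : F) (l c H W : S) :
    f (Phi p l c H W) = Phi p (f l) (f c) (f H) (f W) := by
  simp [Phi, map_Psi]

theorem Psi_mem (p : ℕ) {S : Type*} [CommRing S] (U : Subring S) {l c H W : S} (hl : l ∈ U)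
    (hc : c ∈ U) (hH : H ∈ U) (hW : W ∈ U) : Psi p l c H W ∈ U := by
  unfold Psi
  refine U.mul_mem (U.neg_mem hc) (U.sum_mem fun i _ => ?_)
  exact U.mul_mem (U.mul_mem (U.mul_mem (natCast_mem U _) (U.pow_mem hl _)) (U.pow_mem hH _))
    (U.pow_mem hW _)

theorem Phi_mem (p : ℕ) {S : Type*} [CommRing S] (U : Subring S) {l c H W : S} (hl : l ∈ U)
    (hc : c ∈ U) (hH : H ∈ U) (hW : W ∈ U) : Phi p l c H W ∈ U := by
  unfold Phi
  exact U.add_mem (U.sub_mem (U.pow_mem hW _) (U.mul_mem (U.mul_mem hc (U.pow_mem hH _)) hW))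
    (U.mul_mem (U.mul_mem hl (U.pow_mem hW _)) (Psi_mem p U hl hc hH hW))

theorem add_mul_pow_eq {p : ℕ} (hp : p.Prime) {S : Type*} [CommRing S] {l c : S}
    (h : (p : S) = -c * l ^ (p - 1)) (H W : S) :
    (H + l * W) ^ p = H ^ p + l ^ p * Phi p l c H W := by
  obtain ⟨n, rfl⟩ : ∃ n, p = n + 2 := ⟨p - 2, by have := hp.two_le; omega⟩
  rw [add_comm H, add_pow, sum_range_succ, sum_range_succ', sum_range_succ']
  simp only [Phi, Psi, Nat.add_sub_cancel, mul_add, mul_sub, mul_sum]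
  have e1 : n + 2 - 1 = n + 1 := by omega
  rw [e1] at h ⊢
  have key : ∀ i ∈ range n, (l * W) ^ (i + 1 + 1) * H ^ (n + 2 - (i + 1 + 1)) *
      (((n + 2).choose (i + 1 + 1) : ℕ) : S) = l ^ (n + 2) * (l * W ^ 2 * (-c *
        ((((n + 2).choose (i + 2) / (n + 2) : ℕ) : S) * l ^ i * H ^ (n - i) * W ^ i))) := by
    intro i hi
    have hi' := mem_range.1 hi
    have hd : (n + 2) ∣ (n + 2).choose (i + 2) := hp.dvd_choose_self (by omega) (by omega)
    have e2 : n + 2 - (i + 1 + 1) = n - i := by omega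
    have e3 : (((n + 2).choose (i + 1 + 1) : ℕ) : S) =
        ((n + 2 : ℕ) : S) * (((n + 2).choose (i + 2) / (n + 2) : ℕ) : S) := by
      rw [← Nat.cast_mul, Nat.mul_div_cancel' hd]
    rw [e2, e3, h]
    ring
  rw [sum_congr rfl key]
  simp only [Nat.choose_self, Nat.choose_zero_right, Nat.choose_one_right, zero_add, Nat.sub_zero,
    Nat.sub_self, h]
  ring

theorem Phi_smul (p : ℕ) (hp : 2 ≤ p) {S : Type*} [CommRing S] (l c H W t : S) :
    Phi p l c (t * H) (t * W) = t ^ p * Phi p l c H W := by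
  obtain ⟨n, rfl⟩ : ∃ n, p = n + 2 := ⟨p - 2, by omega⟩
  simp only [Phi, Psi, Nat.add_sub_cancel, mul_add, mul_sub, mul_sum]
  have e1 : n + 2 - 1 = n + 1 := by omega
  rw [e1]
  congr 1
  · ring
  · refine sum_congr rfl fun i hi => ?_
    obtain ⟨j, rfl⟩ := Nat.exists_eq_add_of_le (mem_range.1 hi).le
    rw [Nat.add_sub_cancel_left]
    ring

end Pool.Agent.P.MP_41a2b4_ag
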