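import Pool.Agent.P.MP_41a2b4_ag.Expr

set_option autoImplicit false

namespace Pool.Agent.P.MP_41a2b4_ag

open Finset

variable {L : Type*} [CommRing L]

/-- The subring generated by `U` and one more element (the inverse of an element of `U`). -/
def Loc (U : Subring L) (di : L) : Subring L := Subring.closure (insert di (U : Set L))

theorem Loc.base {U : Subring L} {di x : L} (hx : x ∈ U) : x ∈ Loc U di :=
  Subring.subset_closure (Set.mem_insert_of_mem _ hx)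

theorem Loc.inv (U : Subring L) (di : L) : di ∈ Loc U di :=
  Subring.subset_closure (Set.mem_insert _ _)

theorem Loc.le {U V : Subring L} {di : L} (h : U ≤ V) (hd : di ∈ V) : Loc U di ≤ V :=
  Subring.closure_le.2 (Set.insert_subset hd h)

theorem Loc.mono {U V : Subring L} (h : U ≤ V) (di : L) : Loc U di ≤ Loc V di :=
  Loc.le (fun _ hx => Loc.base (h hx)) (Loc.inv V di)

theorem Loc.exists_pow {U : Subring L} {d di x : L} (hd : d ∈ U) (e : d * di = 1)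
    (hx : x ∈ Loc U di) : ∃ n : ℕ, x * d ^ n ∈ U := by
  induction hx using Subring.closure_induction with
  | mem x hx =>
    rcases hx with rfl | hx
    · exact ⟨1, by rw [pow_one, mul_comm, e]; exact U.one_mem⟩
    · exact ⟨0, by simpa using hx⟩
  | zero => exact ⟨0, by simp⟩
  | one => exact ⟨0, by simp⟩
  | add x y _ _ hx hy =>
    obtain ⟨n, hn⟩ := hx
    obtain ⟨m, hm⟩ := hy
    refine ⟨n + m, ?_⟩
    have := U.add_mem (U.mul_mem hn (U.pow_mem hd m)) (U.mul_mem hm (U.pow_mem hd n))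
    convert this using 1
    ring
  | neg x _ hx =>
    obtain ⟨n, hn⟩ := hx
    exact ⟨n, by rw [neg_mul]; exact U.neg_mem hn⟩
  | mul x y _ _ hx hy =>
    obtain ⟨n, hn⟩ := hx
    obtain ⟨m, hm⟩ := hy
    refine ⟨n + m, ?_⟩
    convert U.mul_mem hn hm using 1
    ring

/-- Comaximality inside a subring. -/
def Cop (U : Subring L) (a b : L) : Prop := ∃ α ∈ U, ∃ β ∈ U, α * a + β * b = 1

theorem Cop.symm {U : Subring L} {a b : L} (h : Cop U a b) : Cop U b a := by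
  obtain ⟨α, hα, β, hβ, e⟩ := h
  exact ⟨β, hβ, α, hα, by rw [add_comm, e]⟩

theorem Cop.mono {U V : Subring L} (hUV : U ≤ V) {a b : L} (h : Cop U a b) : Cop V a b := by
  obtain ⟨α, hα, β, hβ, e⟩ := h
  exact ⟨α, hUV hα, β, hUV hβ, e⟩

theorem cop_iff {U : Subring L} {a b : L} (ha : a ∈ U) (hb : b ∈ U) :
    Cop U a b ↔ IsCoprime (⟨a, ha⟩ : U) ⟨b, hb⟩ :=
  ⟨fun ⟨α, hα, β, hβ, e⟩ => ⟨⟨α, hα⟩, ⟨β, hβ⟩, Subtype.ext e⟩,
    fun ⟨α, β, e⟩ => ⟨α, α.2, β, β.2, congrArg Subtype.val e⟩⟩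

theorem Cop.pow {U : Subring L} {a b : L} (ha : a ∈ U) (hb : b ∈ U) (h : Cop U a b) (m n : ℕ) :
    Cop U (a ^ m) (b ^ n) :=
  (cop_iff (U.pow_mem ha m) (U.pow_mem hb n)).2 ((cop_iff ha hb).1 h).pow

theorem Cop.mul_left {U : Subring L} {a a' b : L} (ha : a ∈ U) (ha' : a' ∈ U) (hb : b ∈ U)
    (h : Cop U a b) (h' : Cop U a' b) : Cop U (a * a') b :=
  (cop_iff (U.mul_mem ha ha') hb).2 (((cop_iff ha hb).1 h).mul_left ((cop_iff ha' hb).1 h'))

theorem Loc.inter {U : Subring L} {d di e ei x : L} (hd : d ∈ U) (he : e ∈ U) (ed : d * di = 1)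
    (ee : e * ei = 1) (h : Cop U d e) (h₁ : x ∈ Loc U di) (h₂ : x ∈ Loc U ei) : x ∈ U := by
  obtain ⟨n, hn⟩ := Loc.exists_pow hd ed h₁
  obtain ⟨m, hm⟩ := Loc.exists_pow he ee h₂
  obtain ⟨α, hα, β, hβ, e'⟩ := h.pow hd he n m
  convert U.add_mem (U.mul_mem hα hn) (U.mul_mem hβ hm) using 1
  linear_combination (-x) * e'

/-- Partial fractions. -/
theorem Loc.pf {U : Subring L} {d di E Ei f : L} (hd : d ∈ U) (hE : E ∈ U) (ed : d * di = 1)
    (eE : E * Ei = 1) (h : Cop U E d) (hf : f * E ∈ Loc U di) :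
    ∃ P ∈ U, f - P * Ei ∈ Loc U di := by
  obtain ⟨n, hn⟩ := Loc.exists_pow hd ed hf
  obtain ⟨α, hα, β, hβ, e'⟩ := h.pow hE hd 1 n
  refine ⟨β * (f * E * d ^ n), U.mul_mem hβ hn, ?_⟩
  convert (Loc U di).mul_mem (Loc.base hα) hf using 1
  linear_combination (-f) * e' - β * f * d ^ n * eE

theorem Loc.split {U : Subring L} {d di e ei x : L} (hd : d ∈ U) (he : e ∈ U) (ed : d * di = 1)
    (ee : e * ei = 1) (h : Cop U d e) (hx : x ∈ Loc (Loc U di) ei) :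
    ∃ y ∈ Loc U ei, x - y ∈ Loc U di := by
  obtain ⟨n, hn⟩ := Loc.exists_pow (Loc.base he) ee hx
  obtain ⟨P, hP, h'⟩ := Loc.pf (Ei := ei ^ n) hd (U.pow_mem he n) ed
    (by rw [← mul_pow, ee, one_pow]) (by simpa using h.symm.pow he hd n 1) hn
  exact ⟨_, (Loc U ei).mul_mem (Loc.base hP) ((Loc U ei).pow_mem (Loc.inv U ei) n), h'⟩

/-- Gluing of local Artin-Schreier reductions. -/
theorem Loc.glue (p : ℕ) [Fact p.Prime] [CharP L p] {U : Subring L} {d di e ei X η₁ η₂ : L}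
    (hd : d ∈ U) (he : e ∈ U) (ed : d * di = 1) (ee : e * ei = 1) (h : Cop U d e)
    (h₁ : X + (η₁ ^ p - η₁) ∈ Loc U di) (h₂ : X + (η₂ ^ p - η₂) ∈ Loc U ei)
    (hη₁ : η₁ ∈ Loc (Loc U di) ei) (hη₂ : η₂ ∈ Loc (Loc U di) ei) :
    ∃ η ∈ Loc (Loc U di) ei, X + (η ^ p - η) ∈ U := by
  obtain ⟨y, hy, hy'⟩ := Loc.split hd he ed ee h ((Loc _ ei).sub_mem hη₁ hη₂)
  refine ⟨η₂ + y, (Loc _ ei).add_mem hη₂ (Loc.mono (fun _ hx => Loc.base hx) ei hy),
    Loc.inter hd he ed ee h ?_ ?_⟩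
  · convert (Loc U di).sub_mem h₁ ((Loc U di).sub_mem ((Loc U di).pow_mem hy' p) hy') using 1
    rw [sub_pow_char, sub_pow_char, add_pow_char]
    ring
  · convert (Loc U ei).add_mem h₂ ((Loc U ei).sub_mem ((Loc U ei).pow_mem hy p) hy) using 1
    rw [add_pow_char]
    ring

theorem prod_sub_natCast (p : ℕ) [Fact p.Prime] [CharP L p] (w : L) :
    ∏ j ∈ range p, (w - (j : L)) = w ^ p - w := by
  have hp := (Fact.out : p.Prime)
  have hr := FiniteField.roots_X_pow_card_sub_X (ZMod p)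
  rw [ZMod.card] at hr
  have hm : (Polynomial.X ^ p - Polynomial.X : Polynomial (ZMod p)).Monic :=
    Polynomial.monic_X_pow_sub (by rw [Polynomial.degree_X]; exact_mod_cast hp.one_lt)
  have h := Polynomial.prod_multiset_X_sub_C_of_monic_of_roots_card_eq hm (by
    rw [hr, FiniteField.X_pow_card_sub_X_natDegree_eq _ hp.one_lt]
    simp)
  rw [hr] at h
  have h2 := congrArg (Polynomial.eval₂RingHom (ZMod.castHom (dvd_refl p) L) w) h
  rw [← Finset.prod_eq_multiset_prod, map_prod] at h2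
  simp only [Polynomial.coe_eval₂RingHom, Polynomial.eval₂_sub, Polynomial.eval₂_X,
    Polynomial.eval₂_C, Polynomial.eval₂_X_pow] at h2
  rw [← h2]
  refine Finset.prod_bij (fun j _ => (j : ZMod p)) (fun _ _ => mem_univ _) ?_ ?_ ?_
  · intro a ha b hb e
    exact CharP.natCast_injOn_Iio (ZMod p) p (mem_range.1 ha) (mem_range.1 hb) e
  · intro b _
    exact ⟨b.val, mem_range.2 b.val_lt, ZMod.natCast_zmod_val b⟩
  · intro a _
    rw [map_natCast]

/-- Divisibility by `w ^ p - w` can be checked at each `w = j`. -/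
theorem exists_eq_wp_mul (p : ℕ) [Fact p.Prime] [CharP L p] (V : Subring L) {w x : L} (hw : w ∈ V)
    (hx : x ∈ V) (h : ∀ j < p, ∃ y ∈ V, x = (w - (j : L)) * y) :
    ∃ y ∈ V, x = (w ^ p - w) * y := by
  have hd : ∏ j ∈ range p, ((⟨w, hw⟩ : V) - (j : V)) ∣ ⟨x, hx⟩ := by
    refine Finset.prod_dvd_of_coprime ?_ ?_
    · intro a ha b hb hab
      have hne : (a : ZMod p) - b ≠ 0 := fun e => hab
        (CharP.natCast_injOn_Iio (ZMod p) p (mem_range.1 ha) (mem_range.1 hb) (sub_eq_zero.1 e))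
      have hu := congrArg (ZMod.castHom (dvd_refl p) V) (inv_mul_cancel₀ hne)
      rw [map_mul, map_sub, map_natCast, map_natCast, map_one] at hu
      exact ⟨-(ZMod.castHom (dvd_refl p) V ((a : ZMod p) - b)⁻¹),
        ZMod.castHom (dvd_refl p) V ((a : ZMod p) - b)⁻¹, by linear_combination hu⟩
    · intro j hj
      obtain ⟨y, hy, e⟩ := h j (mem_range.1 hj)
      exact ⟨⟨y, hy⟩, Subtype.ext (by simpa using e)⟩
  rw [prod_sub_natCast] at hd
  obtain ⟨y, hy⟩ := hd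
  exact ⟨y, y.2, by simpa using congrArg Subtype.val hy⟩

theorem cop_T_hh (p : ℕ) [Fact p.Prime] {U : Subring L} {γ ϖ ϖi T : L} (hγ : γ ∈ U) (hϖ : ϖ ∈ U)
    (hϖi : ϖi ∈ U) (hT : T ∈ U) (eϖ : ϖ * ϖi = 1) : Cop U T (hh p γ ϖ T) := by
  obtain ⟨n, hn⟩ : ∃ n, p = n + 2 := ⟨p - 2, by have := (Fact.out : p.Prime).two_le; omega⟩
  have hs := U.add_mem (U.mul_mem hγ hT) hϖ
  obtain ⟨y, hy⟩ := sub_dvd_pow_sub_pow (⟨_, hs⟩ : U) ⟨ϖ, hϖ⟩ p
  have hy' : (γ * T + ϖ) ^ p - ϖ ^ p = (γ * T + ϖ - ϖ) * y := by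
    simpa using congrArg Subtype.val hy
  refine ⟨ϖi ^ p * (T ^ n * (γ * T + ϖ) - γ * y), U.mul_mem (U.pow_mem hϖi _) (U.sub_mem
    (U.mul_mem (U.pow_mem hT _) hs) (U.mul_mem hγ y.2)), ϖi ^ p, U.pow_mem hϖi _, ?_⟩
  have e : ϖ ^ p * ϖi ^ p = 1 := by rw [← mul_pow, eϖ, one_pow]
  have e1 : p - 1 = n + 1 := by omega
  rw [hh, e1]
  linear_combination ϖi ^ p * hy' + e

end Pool.Agent.P.MP_41a2b4_ag
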