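import Pool.Agent.P.MP_41a2b4_ag.Der
import Pool.Agent.P.MP_41a2b4_ag.CharPM
import Pool.Agent.P.MP_41a2b4_ag.Cyc

set_option autoImplicit false
set_option linter.unusedSectionVars false

namespace Pool.Agent.P.MP_41a2b4_ag

open PowerSeries IsLocalRing Filter

theorem xi_eq {S : Type*} [CommRing S] {p q n : ℕ} (hp : p ≠ 0) (hn : q * p = n + 1) {ϖ ϖi e b : S}
    (h : ϖ * ϖi = 1) (he : e ^ p - (ϖ ^ q) ^ (p - 1) * e = -(ϖ * b ^ n)) :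
    (e * ϖi ^ q) ^ p - e * ϖi ^ q = -(b * ϖi) ^ n := by
  have h1 : (ϖ ^ q) ^ (p - 1) * (ϖi ^ q) ^ (p - 1) = 1 := by
    rw [← mul_pow, ← mul_pow, h, one_pow, one_pow]
  have h2 : (ϖi ^ q) ^ p = ϖi ^ n * ϖi := by rw [← pow_mul, hn, pow_succ]
  have h3 := pow_sub_one_mul hp (ϖi ^ q)
  rw [mul_pow, mul_pow]
  linear_combination (ϖi ^ q) ^ p * he + e * ϖi ^ q * h1 - e * (ϖ ^ q) ^ (p - 1) * h3 -
    ϖ * b ^ n * h2 - b ^ n * ϖi ^ n * h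

theorem qM_bdry {F : Type*} [Field F] {p : ℕ} [Fact p.Prime] [CharP F p] (g t hi w : F) (ht : t ≠ 0) :
    qM p g 0 t t⁻¹ hi w = -(g ^ p ^ 2 * (t * hi ^ p ^ 2)) * (w * hi ^ p) -
      (t * hi ^ p ^ 2 * (g ^ p ^ 2 * (t * hi ^ p ^ 2)) +
        t * (t⁻¹ ^ (p - 1) * hi ^ (p ^ 2 + p - 1)) ^ p) := by
  rw [qM, add_zero, mul_inv_cancel_right₀ ht, neg_pow_p]
  ring

theorem qM_mul {F : Type*} [Field F] {p A B : ℕ} (hp : 1 ≤ p) (hA : p ^ 2 * p = p ^ 2 + p + A)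
    (hB : p ^ 2 * p = p ^ 2 + p ^ 2 + B) {t h : F} (g w s : F) (ht : t ≠ 0) (hh : h ≠ 0) :
    (s + (-(g * (t * h⁻¹ ^ p ^ 2)) * (w * h⁻¹ ^ p) - (t * h⁻¹ ^ p ^ 2 * (g * (t * h⁻¹ ^ p ^ 2)) +
      t * (t⁻¹ ^ (p - 1) * h⁻¹ ^ (p ^ 2 + p - 1)) ^ p))) * (t ^ (p - 1) * h ^ (p - 1) * h ^ p ^ 2) ^ p =
      -t + (t ^ (p - 1) * h ^ (p - 1)) ^ p *
        (s * (h ^ p ^ 2) ^ p - g * t * w * h ^ A - g * t ^ 2 * h ^ B) := by
  have e1 : h ^ A = (h ^ p ^ 2) ^ p * (h⁻¹ ^ p ^ 2 * h⁻¹ ^ p) := by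
    rw [← pow_mul, hA, pow_add, pow_add, inv_pow, inv_pow]
    field_simp
  have e2 : h ^ B = (h ^ p ^ 2) ^ p * (h⁻¹ ^ p ^ 2 * h⁻¹ ^ p ^ 2) := by
    rw [← pow_mul, hB, pow_add, pow_add, inv_pow]
    field_simp
  have e3 : (t⁻¹ ^ (p - 1) * h⁻¹ ^ (p ^ 2 + p - 1)) ^ p *
      ((t ^ (p - 1) * h ^ (p - 1)) ^ p * (h ^ p ^ 2) ^ p) = 1 := by
    rw [← mul_pow, ← mul_pow, Nat.add_sub_assoc hp, pow_add, inv_pow, inv_pow, inv_pow]
    convert one_pow p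
    field_simp
  rw [e1, e2, mul_pow _ (h ^ p ^ 2)]
  linear_combination (-t) * e3

theorem mod_alg {F : Type*} [Field F] {p n A : ℕ} (hp : p ≠ 0) (hn : p ^ 2 = n + 1)
    (hA : p ^ 2 * p = p ^ 2 + p + A) {h : F} (hh : h ≠ 0) (w t l M φ P ν ρ e : F) :
    (1 + l ^ (p - 1) * (l * φ)) * ((h ^ p + l * w) * ((h ^ n + ν * P) ^ p +
      M ^ p * (t * h ^ A + M ^ p * (e * (h ^ n) ^ p)) + l ^ (p - 1) * (l * ρ))) =
    (h ^ p ^ 2) ^ p * ((1 + l ^ p * φ) * ((1 + l * (w * h⁻¹ ^ p)) * ((1 + ν * (P * h⁻¹ ^ n)) ^ p +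
      M ^ p * (t * h⁻¹ ^ p ^ 2 + M ^ p * e) + l ^ p * (ρ * (h⁻¹ ^ n) ^ p)))) := by
  have e1 : h ^ n + ν * P = h ^ n * (1 + ν * (P * h⁻¹ ^ n)) := by
    rw [inv_pow]
    field_simp
  have e2 : (h ^ p ^ 2) ^ p = h ^ p * (h ^ n) ^ p := by rw [hn, pow_succ, mul_pow, mul_comm]
  have e3 : h ^ A = (h ^ n) ^ p * h⁻¹ ^ p ^ 2 := by
    refine mul_left_cancel₀ (pow_ne_zero p hh) ?_
    rw [← mul_assoc, ← e2, ← pow_mul, hA, pow_add, pow_add, inv_pow]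
    field_simp
  rw [e1, e2, e3, mul_pow, ← mul_assoc (l ^ (p - 1)), ← mul_assoc (l ^ (p - 1)), pow_sub_one_mul hp,
    inv_pow h n, inv_pow (h ^ n), inv_pow h p]
  generalize (1 + ν * (P * (h ^ n)⁻¹)) ^ p = u
  field_simp

section One

variable {p : ℕ} [Fact p.Prime] {k : Type} [Field k] [CharP k p] {R : Type} [CommRing R]
  [IsDomain R] [IsDiscreteValuationRing R] [IsAdicComplete (maximalIdeal R) R] {x : Ctx p k R}
  {γ ϖ M ζ : R} {t : Tw R} {φ₁ : Kf R}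

/-- The properties of the cyclic step of order `p ^ 2`. -/
structure CycOk (x : Ctx p k R) (M : R) (t : Tw R) (H : R⟦X⟧) (z : gauss x × gauss x × gauss x) :
    Prop where
  rel : (1 + al (C x.l) * (al t.W * (al H)⁻¹ ^ p)) * (1 + al (C M) ^ p * (al t.T * (al H)⁻¹ ^ p ^ 2 +
    al (C M) ^ p * z.2.2)) = (1 + al (C M) * z.1) ^ p + al (C x.l) ^ p * z.2.1
  eE : ∃ a ∈ t.S₀, al a = z.2.2 * (al H ^ (p ^ 2 - 1)) ^ p
  eS : ∃ a, x.ρ a = residue _ z.2.1 * (x.ρ H ^ p ^ 2) ^ p ∧ x.red a ∈ dX k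
  τS : t.τ • residue _ z.2.1 = residue _ z.2.1
  σS : ∃ ψ, t.σ • residue _ z.2.1 - residue _ z.2.1 = ψ ^ p - ψ ∧ t.τ • ψ = ψ ∧
    ∑ i ∈ Finset.range p, t.σ ^ i • ψ = 1

theorem cyc_point (h : t.Ok x 1 γ ϖ φ₁) (hϖ : x.π ϖ = 0) (hγ : x.π (γ ^ p - γ) ≠ 0) (hM : x.π M = 0)
    (eM : x.l = x.c * M ^ p + p * M) (hζ : ζ ^ p = 1 + x.l) :
    ∃ z, CycOk x M t (hh p (C γ) (C ϖ) t.T) z := by
  have hp := (Fact.out : p.Prime)
  have hh0 : x.red (hh p (C γ) (C ϖ) t.T) ≠ 0 :=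
    x.red_hh hϖ t.T ▸ mul_ne_zero (C_ne_zero hγ) (pow_ne_zero _ h.T0)
  obtain ⟨w, hw⟩ := (x.isUnit_of_π (r := x.c) (by rw [x.hc]; exact one_ne_zero)).exists_right_inv
  obtain ⟨Θ, S₁, S₂, e, d₁, d₂, E⟩ := exists_cyc p (fun i h0 hi => x.isUnit_of_π (by
    rw [map_natCast, Ne, CharP.cast_eq_zero_iff k p]
    exact Nat.not_dvd_of_pos_of_lt h0 hi)) x.l x.c w M _ x.hp hw
    (by rw [eM, ← pow_sub_one_mul hp.ne_zero M]; ring) rfl x.hl0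
  have σH := h.σhh
  have τH := h.τhh
  have hH := h.hh_mem hϖ
  have r₁ := h.rel1
  have σW := h.σW
  rw [pow_one] at r₁ σW
  generalize hh p (C γ) (C ϖ) t.T = H at *
  have eH := x.inv_mul H hh0
  have σi := x.smul_inv t.σ hh0 σH
  have τi := x.smul_inv t.τ hh0 τH
  have ci : (x.inv H hh0 : Kf R) = (al H)⁻¹ := rfl
  generalize x.inv H hh0 = hi at *
  have eH' : ∀ n, hi ^ n * x.toO H ^ n = 1 := fun n => by rw [← mul_pow, eH, one_pow]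
  have ea : x.ΦO 1 (x.toO t.W * hi ^ p) = x.toO t.T * hi ^ p ^ 2 := by
    rw [← eH' p, mul_comm (x.toO t.W), Ctx.ΦO, Phi_smul p hp.two_le, ← r₁, map_Phi, map_pow, ← pow_mul,
      ← sq, mul_comm]
  have E' := congrArg (Polynomial.eval₂RingHom (x.toO.comp C) (x.toO t.W * hi ^ p)) E
  rw [map_mul, Polynomial.coe_eval₂RingHom, Polynomial.eval₂_comp, ← Polynomial.coe_eval₂RingHom _ (_ * _),
    map_Phi] at E'
  simp only [Polynomial.coe_eval₂RingHom, Polynomial.eval₂_add, Polynomial.eval₂_mul,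
    Polynomial.eval₂_one, Polynomial.eval₂_C, Polynomial.eval₂_X, Polynomial.eval₂_pow,
    RingHom.comp_apply, ea, map_pow, two_mul, pow_add, map_mul] at E'
  have τx : t.τ • (x.toO t.W * hi ^ p) = x.toO t.W * hi ^ p := by
    rw [smul_mul', smul_pow', τi, x.smul_toO, h.τW]
  have σa : t.σ • (x.toO t.T * hi ^ p ^ 2) = x.toO t.T * hi ^ p ^ 2 := by
    rw [smul_mul', smul_pow', σi, x.smul_toO, h.σT]
  have rM : residue _ (x.toO (C M)) = 0 := x.ρ_C hM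
  refine ⟨(Θ.eval₂ (x.toO.comp C) (x.toO t.W * hi ^ p), S₁.eval₂ (x.toO.comp C) (x.toO t.W * hi ^ p) +
    x.toO (C M) * S₂.eval₂ (x.toO.comp C) (x.toO t.W * hi ^ p),
    e.eval₂ (x.toO.comp C) (x.toO t.T * hi ^ p ^ 2)), ?_, ?_, ?_, ?_, ?_⟩
  · have := congrArg (gauss x).subtype E'
    simp only [map_add, map_mul, map_pow, map_one, ValuationSubring.coe_subtype, Ctx.coe_toO,
      ci] at this ⊢
    push_cast [Ctx.coe_toO]
    linear_combination this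
  · have e1 := eval₂_mul_pow (x.toO.comp C) d₂ (z := x.toO t.T * hi ^ p ^ 2) (A := x.toO t.T)
      (B := x.toO H ^ p ^ 2) (by rw [mul_assoc, eH', mul_one])
    have hT : t.T ∈ t.S₀ := ⟨h.σT, h.τT⟩
    have hH' : H ∈ t.S₀ := ⟨σH, τH⟩
    refine ⟨(∑ i ∈ Finset.range (p - 1 + 1), C (e.coeff i) * t.T ^ i * (H ^ p ^ 2) ^ (p - 1 - i)) *
      H ^ (p ^ 2 - p), mul_mem (sum_mem fun i _ => mul_mem (mul_mem (t.S₀.algebraMap_mem _)
        (pow_mem hT _)) (pow_mem (pow_mem hH' _) _)) (pow_mem hH' _), ?_⟩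
    have e2 : (al H ^ (p ^ 2 - 1)) ^ p = (al H ^ p ^ 2) ^ (p - 1) * al H ^ (p ^ 2 - p) := by
      rw [← pow_mul, ← pow_mul, ← pow_add]
      congr 1
      zify [hp.one_le, Nat.one_le_pow 2 p hp.pos, Nat.le_self_pow two_ne_zero p]
      ring
    have := congrArg (gauss x).subtype e1
    simp only [map_sum, map_mul, map_pow, ValuationSubring.coe_subtype, Ctx.coe_toO,
      RingHom.comp_apply] at this ⊢
    rw [e2, ← mul_assoc, this]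
  · have e1 := eval₂_mul_pow (x.toO.comp C) d₁ (z := x.toO t.W * hi ^ p) (A := x.toO t.W)
      (B := x.toO H ^ p) (by rw [mul_assoc, eH', mul_one])
    refine ⟨∑ i ∈ Finset.range (p ^ 2 + 1), C (S₁.coeff i) * t.W ^ i * (H ^ p) ^ (p ^ 2 - i), ?_, ?_⟩
    · have := congrArg (residue _) e1
      simp only [map_sum, map_mul, map_pow, map_add, RingHom.comp_apply, ← x.ρ_apply t.W,
        ← x.ρ_apply H, ← x.ρ_apply (C _), x.ρ_C hM, zero_mul, add_zero] at this ⊢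
      rw [← this, pow_right_comm]
    · simp only [map_sum, map_mul, map_pow, map_C]
      exact sum_mem fun i _ => mul_mem (mul_mem (C_mem_dX _) (pow_mem h.W_mem _))
        (pow_mem (pow_mem hH _) _)
  · rw [← ResidueField.residue_smul, smul_add, smul_mul', x.smul_eval₂ _ τx, x.smul_eval₂ _ τx,
      x.smul_toO, algHom_C]
  · refine x.exists_psi hζ (Θ := 1 + x.toO (C M) * Θ.eval₂ (x.toO.comp C) (x.toO t.W * hi ^ p))
      (by simp [rM]) ?_ h.σp h.comm (by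
        rw [smul_add, smul_one, smul_mul', x.smul_eval₂ _ τx, x.smul_toO, algHom_C])
    rw [← E', smul_mul', ← mul_assoc (1 + x.L)]
    congr 1
    · simp only [smul_add, smul_one, smul_mul', smul_pow', σi, x.smul_toO, σW, algHom_C, map_add,
        map_mul, map_pow, map_one]
      linear_combination x.L * eH' p
    · simp only [smul_add, smul_one, smul_mul' _ (_ ^ p), smul_mul' _ (_ ^ p * _ ^ p), smul_pow', σa,
        x.smul_eval₂ _ σa, x.smul_toO, algHom_C]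

theorem mod_point [IsAlgClosed k] (h : t.Ok x 1 γ ϖ φ₁) (hϖ : x.π ϖ = 0) (hγ : x.π (γ ^ p - γ) ≠ 0)
    {H : R⟦X⟧} (eH : hh p (C γ) (C ϖ) t.T = H) {z : gauss x × gauss x × gauss x}
    (hz : CycOk x M t H z) {φ P ρ : Kf R} {ν : R} {a₁ a₂ a₃ : R⟦X⟧} (h₂ : a₂ ∈ t.S₀) (h₃ : a₃ ∈ t.S₀)
    (e₁ : al a₁ = al (C x.l) * φ) (e₂ : al a₂ = al (C ν) * P) (e₃ : al a₃ = al (C x.l) * ρ)
    (hq : ∀ q' : gauss x, z.2.1 + qM p (al (C γ)) (al (C ϖ)) (al t.T) (al t.T)⁻¹ (al H)⁻¹ (al t.W) = q' →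
      ∃ Θ Q : gauss x, (1 + al (C x.l) ^ p * φ) * ((1 + al (C x.l) * (al t.W * (al H)⁻¹ ^ p)) *
        ((1 + al (C ν) * (P * (al H)⁻¹ ^ (p ^ 2 - 1))) ^ p + al (C M) ^ p * (al t.T * (al H)⁻¹ ^ p ^ 2 +
          al (C M) ^ p * z.2.2) + al (C x.l) ^ p * (ρ * ((al H)⁻¹ ^ (p ^ 2 - 1)) ^ p))) =
        (Θ ^ p + x.L ^ p * Q : gauss x) ∧ residue _ Θ = 1 ∧ residue _ Q = residue _ q') :
    x.Good 1 0 := by
  have hp := (Fact.out : p.Prime)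
  have hp1 : p - 1 ≠ 0 := by have := hp.two_le; omega
  have rH := x.red_hh (γ := γ) hϖ t.T
  have σH := h.σhh
  have τH := h.τhh
  have hH := h.hh_mem hϖ
  have σW := h.σW
  have dT := h.dT hϖ
  obtain ⟨b1, b2, b3, b4, -, b6⟩ := h.bdry hϖ hγ rfl rfl
  rw [eH] at rH σH τH hH σW dT b1 b2 b3 b4 b6
  simp only [pow_one, ← pow_mul _ p p, ← sq] at σW dT b1 b2 b3 b4 b6
  have hh0 : x.red H ≠ 0 := rH ▸ mul_ne_zero (C_ne_zero hγ) (pow_ne_zero _ h.T0)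
  have ρH : x.ρ H ≠ 0 := fun e => hh0 (x.ρ_eq_zero.1 e)
  obtain ⟨Θ, Q, eQ, hΘ, hQ⟩ := hq (z.2.1 + qM p (x.toO (C γ)) (x.toO (C ϖ)) (x.toO t.T) (x.inv _ h.T0)
    (x.inv _ hh0) (x.toO t.W)) (congrArg (_ + ·) (map_qM (gauss x).subtype p (x.toO (C γ))
      (x.toO (C ϖ)) (x.toO t.T) (x.inv _ h.T0) (x.inv _ hh0) (x.toO t.W)).symm)
  rw [map_add, map_qM] at hQ
  simp only [← Ctx.ρ_apply, Ctx.res_inv, x.ρ_C hϖ] at hQ
  rw [qM_bdry _ _ _ _ h.ρT] at hQ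
  obtain ⟨ê, hê, eê⟩ := hz.eE
  obtain ⟨s, es, hs⟩ := hz.eS
  obtain ⟨ψ, c1, c2, c3⟩ := hz.σS
  have c4 := hz.τS
  obtain ⟨A, hA⟩ : ∃ A, p ^ 2 * p = p ^ 2 + p + A := Nat.exists_eq_add_of_le (by
    have := hp.two_le
    nlinarith)
  obtain ⟨B, hB⟩ : ∃ B, p ^ 2 * p = p ^ 2 + p ^ 2 + B := Nat.exists_eq_add_of_le (by
    have := hp.two_le
    nlinarith)
  have hT : t.T ∈ t.S₀ := ⟨h.σT, h.τT⟩
  have hH' : H ∈ t.S₀ := ⟨σH, τH⟩
  have hC : ∀ r, C r ∈ t.S₀ := t.S₀.algebraMap_mem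
  have hS : ∀ a ∈ t.S₀, t.σ a = a ∧ t.τ a = a := fun _ h => h
  have hY : (H ^ (p ^ 2 - 1) + a₂) ^ p + C M ^ p * (t.T * H ^ A + C M ^ p * ê) + C x.l ^ (p - 1) * a₃ ∈
      t.S₀ := add_mem (add_mem (pow_mem (add_mem (pow_mem hH' _) h₂) _) (mul_mem (pow_mem (hC _) _)
        (add_mem (mul_mem hT (pow_mem hH' _)) (mul_mem (pow_mem (hC _) _) hê))))
      (mul_mem (pow_mem (hC _) _) h₃)
  have eD : d⁄dX k (x.red t.T) = -(x.red t.T ^ (p - 1) * x.red H ^ (p - 1)) ^ p := by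
    rw [dT, h.dW, mul_pow, pow_right_comm (x.red t.T) p, pow_right_comm (x.red H) p]
    ring
  refine x.good_of_rel (g := t.σ) (g' := t.τ) (U := 1 + C x.l ^ (p - 1) * a₁)
    (Y := (H ^ p + C x.l * t.W) * ((H ^ (p ^ 2 - 1) + a₂) ^ p + C M ^ p * (t.T * H ^ A + C M ^ p * ê) +
      C x.l ^ (p - 1) * a₃)) (E := H ^ p ^ 2) (v := C (1 + x.l)) (v' := 1)
    (ψ := -(x.ρ X * (x.ρ t.T)⁻¹ ^ p + x.ρ (C γ) ^ p * (x.ρ t.W * (x.ρ H)⁻¹ ^ p)) + ψ) (ψ' := 0) ?_ hΘ hQ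
    (by rw [map_pow]; exact pow_ne_zero _ hh0) (t.T ^ (p - 1) * H ^ (p - 1))
    (-t.T + (t.T ^ (p - 1) * H ^ (p - 1)) ^ p * (s - C γ ^ p ^ 2 * t.T * t.W * H ^ A -
      C γ ^ p ^ 2 * t.T ^ 2 * H ^ B)) ?_ ?_ ?_ ?_ (x.isUnit_of_red (by simp [x.hl, hp1]))
    (x.isUnit_of_red (by simp [x.hl])) isUnit_one ?_ ?_ h.comm h.σp h.τp ?_ ?_ ?_ ?_ (by simp)
  · rw [← eQ]
    simp only [map_add, map_mul, map_pow, map_one, e₁, e₂, e₃, eê]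
    exact mod_alg hp.ne_zero (Nat.sub_add_cancel (Nat.one_le_pow _ _ hp.pos)).symm hA
      ((map_ne_zero_iff _ al_inj).2 fun e => hh0 (by rw [e, map_zero])) _ _ _ _ _ _ _ _ _
  · simp only [map_add, map_sub, map_neg, map_mul, map_pow, es]
    exact qM_mul hp.one_le hA hB _ _ _ h.ρT ρH
  · refine ⟨_, isUnit_one_add_deriv (f := x.red (s - C γ ^ p ^ 2 * t.T * t.W * H ^ A -
      C γ ^ p ^ 2 * t.T ^ 2 * H ^ B)) ?_, ?_⟩
    · simp only [map_sub, map_mul, map_pow, map_C]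
      exact sub_mem (sub_mem hs (mul_mem (mul_mem (mul_mem (pow_mem (C_mem_dX _) _) (h.T_mem hϖ))
        h.W_mem) (pow_mem hH _))) (mul_mem (mul_mem (pow_mem (C_mem_dX _) _) (pow_mem (h.T_mem hϖ) _))
          (pow_mem hH _))
    · rw [map_add, map_neg, map_mul, map_pow, map_add, map_neg, eD, Derivation.leibniz,
        Ctx.deriv_pow_char, map_mul x.red, map_pow x.red, map_pow x.red]
      simp only [smul_eq_mul]
      ring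
  · obtain ⟨n, hn⟩ : ∃ n, p ^ 2 = n + 2 :=
      Nat.exists_eq_add_of_le' (hp.two_le.trans (Nat.le_self_pow two_ne_zero p))
    rw [map_mul, map_pow, map_pow, map_pow, hn, pow_succ _ (n + 1), mul_pow, ← mul_assoc]
    refine mul_dvd_mul (dvd_pow (dvd_pow ?_ (by omega)) hp1) dvd_rfl
    rw [rH, ← pow_sub_one_mul hp.ne_zero (x.red t.T), mul_comm _ (x.red t.T)]
    exact (mul_dvd_mul (h.X2_dvd_T hϖ) dvd_rfl).mul_left _
  · rw [map_mul, map_pow, map_pow]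
    exact mul_ne_zero (pow_ne_zero _ h.T0) (pow_ne_zero _ hh0)
  · rw [map_mul, hS _ hY |>.1, map_add, map_mul, map_pow, σH, σW, algHom_C, map_add, map_one]
    ring
  · rw [map_mul, hS _ hY |>.2, map_add, map_mul, map_pow, τH, h.τW, algHom_C, one_mul]
  · rw [add_pow_char, neg_pow_p, smul_add, smul_sub, smul_mul' _ _ (_ * _), b1]
    simp only [smul_mul', smul_neg, smul_pow', smul_add, smul_inv'', x.smul_ρ, algHom_C, h.σT, σH]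
    linear_combination c1 + b6
  · rw [smul_add, smul_sub, smul_mul' _ _ (_ * _), b2, c4]
    simp [smul_mul', smul_neg, smul_pow', x.smul_ρ, algHom_C, h.τT, τH, hp.ne_zero]
  · rw [smul_add _ (-_), smul_neg, b4, c2, smul_zero]
    ring
  · rw [Finset.sum_congr rfl fun i _ => smul_add _ _ ψ, Finset.sum_add_distrib, c3,
      x.sum_fixed (by rw [smul_neg, b3]), zero_add, Nat.cast_one]

end One

theorem good_mod {p : ℕ} [Fact p.Prime] {k : Type} [Field k] [CharP k p] [IsAlgClosed k]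
    {R : ℕ → Type} [∀ N, CommRing (R N)] [∀ N, IsDomain (R N)] [∀ N, IsDiscreteValuationRing (R N)]
    [∀ N, IsAdicComplete (maximalIdeal (R N)) (R N)] (x : ∀ N, Ctx p k (R N)) (hp2 : p ≠ 2)
    (γ ϖ M ζ : ∀ N, R N) (e : ∀ N, ℕ → R N) (hϖ0 : ∀ N, ϖ N ≠ 0) (hϖ : ∀ N, (x N).π (ϖ N) = 0)
    (hM : ∀ N, ϖ N ^ N ∣ M N) (eM : ∀ N, (x N).l = (x N).c * M N ^ p + p * M N)
    (hζ : ∀ N, ζ N ^ p = 1 + (x N).l) (hγ : ∀ N, (x N).π (γ N ^ p - γ N) ≠ 0)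
    (he : ∀ N, ∀ j < p, e N j ^ p - (ϖ N ^ p ^ 2) ^ (p - 1) * e N j =
      -(ϖ N * ((j : R N) - γ N) ^ (p ^ 3 - 1))) :
    ∃ N, (x N).Good 1 0 := by
  have hp := (Fact.out : p.Prime)
  have hp1 : p - 1 ≠ 0 := by have := hp.two_le; omega
  let ν : ∀ N, R N := fun N => (x N).c * M N ^ (p - 1) + p
  have el : ∀ N, (x N).l = M N * ν N := fun N => by
    rw [eM, ← pow_sub_one_mul hp.ne_zero (M N)]
    ring
  let f : Fm p k R := ⟨x, ϖ, hϖ0, hϖ, fun N => (hM N).trans ⟨_, el N⟩⟩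
  have hν : ∀ N, ϖ N ^ N ∣ ν N := fun N => dvd_add ((dvd_pow (hM N) hp1).mul_left _)
    ((x N).hp ▸ (dvd_pow (f.hl N) hp1).mul_left _)
  have cM : f.cls (f.ofR M) = 0 := f.cls_ofR hM
  have cν : f.cls (f.ofR ν) = 0 := f.cls_ofR hν
  have el' : f.l = f.ofR M * f.ofR ν := by
    rw [← map_mul]
    exact congrArg _ (funext el)
  obtain ⟨t, φ₁, -, ht, hG⟩ := f.exists_tower 1 hγ
  have hT : ∀ᶠ N in atTop, (f.x N).red (t N).T ≠ 0 := ht.mono fun N h => h.T0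
  obtain ⟨z, hz⟩ := choose_eventually (P := fun N z => CycOk (x N) (M N) (t N)
      (hh p (C (γ N)) (C (ϖ N)) (t N).T) z) (by
    filter_upwards [ht, eventually_ne_atTop 0] with N h h0
    refine cyc_point h (hϖ N) (hγ N) ?_ (eM N) (hζ N)
    obtain ⟨r, hr⟩ := hM N
    rw [hr, map_mul, map_pow, hϖ, zero_pow h0, zero_mul])
  have hA : ∀ a, f.ofA a ∈ f.BS fun _ => ⊤ := fun a =>
    Fm.BS.ofA (Eventually.of_forall fun _ => Algebra.mem_top)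
  have hR : ∀ a, f.cls (f.ofR a) ∈ f.U fun N => (t N).S₀ := fun a => Fm.U.mk (Fm.BS.ofR a)
  have eϖ : f.cls (f.ofR f.ϖ) * f.cls f.ϖi = 1 := by rw [← map_mul, f.mul_ϖi, map_one]
  have r₁ := Fm.tower_r₁ ht
  have r₂ := Fm.tower_r₂ ht hG
  rw [pow_one] at r₁ r₂
  obtain ⟨n, hn⟩ := hp.eq_two_or_odd'.resolve_left hp2
  obtain ⟨η, _, ⟨φ, hφ, rfl⟩, _, ⟨P, hP, rfl⟩, _, ⟨ρ, hρ, rfl⟩, E⟩ := charP_mod p
    (f.U fun N => (t N).S₀) (f.U fun _ => ⊤) (Fm.U.mono fun _ => le_top) _ _ (f.cls f.ϖi) (n + 1 : ℕ)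
    (fun j => f.cls (f.ofR fun N => e N j) * f.cls f.ϖi ^ p ^ 2) _ _ _ _ _ (hR γ) (hR f.ϖ)
    (Fm.U.mk Fm.BS.ϖi) (natCast_mem _ _) (fun _ => mul_mem (hR _) (pow_mem (Fm.U.mk Fm.BS.ϖi) _))
    (Fm.U.mk (Fm.BS.ofA (ht.mono fun N h => ⟨h.σT, h.τT⟩))) (Fm.U.mk (hA _)) (Fm.U.mk (hA _)) eϖ
    (by
      have : ((2 * n + 1 : ℕ) : f.L) = 0 := by rw [← hn, CharP.cast_eq_zero]
      push_cast at this ⊢
      linear_combination this)
    (fun j hj => xi_eq hp.ne_zero (by rw [← pow_succ, Nat.sub_add_cancel (Nat.one_le_pow _ _ hp.pos)])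
      eϖ (by
        have := congrArg (f.cls.comp f.ofR) (show (fun N => e N j) ^ p - (ϖ ^ p ^ 2) ^ (p - 1) *
          (fun N => e N j) = -(ϖ * ((j : ∀ N, R N) - γ) ^ (p ^ 3 - 1)) from funext fun N => he N j hj)
        simpa only [map_mul, map_sub, map_natCast, map_neg, map_pow, RingHom.comp_apply] using this))
    (f.cls_mul_inv _ hT) (Fm.tower_eh hγ hT) r₁ r₂
  obtain ⟨η, rfl⟩ := f.cls_surj η
  set hi := f.inv _ (f.red_hh_ne_zero hγ hT) with ehi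
  obtain ⟨P', eP', hP'⟩ := f.exists_pow el' cM (P * hi ^ (p ^ 2 - 1))
  have hrel := ((Fm.Rel.one φ).mul ((((Fm.Rel.pow (Θ := 1 + f.ofR M * f.ofO fun N => (z N).1)
    (by simp [cM])).add (f.ofO fun N => (z N).2.1)).mul (Fm.Rel.pow
      (Θ := 1 + f.ofR ν * (P * hi ^ (p ^ 2 - 1))) (by simp [cν]))).add
        ((1 + f.l * (f.ofA (fun N => (t N).W) * hi ^ p)) * (ρ * (hi ^ (p ^ 2 - 1)) ^ p -
          (f.ofA (fun N => (t N).T) * hi ^ p ^ 2 + f.ofR M ^ p * f.ofO fun N => (z N).2.2) * P')))).shift η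
  rw [show _ - (f.cls η ^ p - f.cls η) = f.cls (f.ofO (fun N => (z N).2.1) + qM p (f.ofR γ) (f.ofR ϖ)
      (f.ofA fun N => (t N).T) (f.inv _ hT) hi (f.ofA fun N => (t N).W)) by
    simp only [map_add, map_mul, map_sub, map_pow, map_one, map_qM, hP', cM, f.cls_l,
      zero_pow hp.ne_zero]
    linear_combination -E] at hrel
  obtain ⟨N, h1, h2, ⟨a₁, _, _, e₁⟩, ⟨a₂, h₂, _, e₂⟩, ⟨a₃, h₃, _, e₃⟩, h4⟩ := (ht.and (hz.and
    ((Fm.BS.small f.hl hφ).and ((Fm.BS.small hν hP).and ((Fm.BS.small f.hl hρ).and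
      hrel.eventually))))).exists
  refine ⟨N, mod_point h1 (hϖ N) (hγ N) rfl h2 (φ := f.ev N φ) (P := f.ev N P) (ρ := f.ev N ρ)
    (ν := ν N) h₂ h₃ e₁ e₂ e₃ fun q' hq' => ?_⟩
  obtain ⟨Θ, Q, e1, -, e2, e3⟩ := h4 q' (by rw [map_add, map_qM]; exact hq')
  refine ⟨Θ, Q, ?_, e2, e3⟩
  have e4 := congrArg (f.ev N) eP'
  have e5 := congrArg (fun a => f.ev N a ^ p) el'
  have e6 := h2.rel
  rw [← e1]
  simp only [map_mul (f.ev N), map_add (f.ev N), map_sub (f.ev N), map_pow (f.ev N), map_one (f.ev N),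
    mul_pow, ehi, Fm.l, Fm.ev_ofR, Fm.ev_ofA, Fm.ev_ofO, Fm.ev_inv] at e4 e5 ⊢
  rw [← e6, e4, e5]
  ring

end Pool.Agent.P.MP_41a2b4_ag
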