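import Pool.Agent.P.MP_41a2b4_ag.Mp
import Pool.Agent.P.MP_41a2b4_ag.CharPQ

set_option autoImplicit false
set_option linter.unusedSectionVars false

namespace Pool.Agent.P.MP_41a2b4_ag

open PowerSeries IsLocalRing Filter

theorem quat_rel {S : Type*} [CommRing S] {l M ν a x₁ y c φ₁ u P' : S} (φ ρ : S) (hl : l = -2)
    (eM : l = M ^ 2 + 2 * M) (eν : l = M * ν) (ea : x₁ ^ 2 - x₁ = a)
    (ey : y ^ 2 - y = φ₁ + c + l ^ 2 * φ₁ * c) (eu : u = 1 + ν ^ 2 * P') :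
    (1 + l ^ 2 * φ) * (((1 + M * x₁) ^ 2 + l ^ 2 * ((1 + M) * x₁ * a)) * ((1 + M * y) ^ 2 + l ^ 2 *
      ((1 + M) * y * (y ^ 2 - y) + (1 + l * y) * (1 + 2 * M) * φ₁ * c)) * u + l ^ 2 *
        ((1 + M ^ 2 * φ₁) * (1 + l * x₁) * (1 + l * y) * (ρ - (c + a) * P' - (1 + M) ^ 2 * a * c * u))) =
    (1 + M ^ 2 * φ₁) * (1 + l ^ 2 * φ) * ((1 + l * x₁) * (1 + l * y) *
      (u + M ^ 2 * (c + a) + l ^ 2 * ρ)) := by
  have e1 : M ^ 2 = l * (1 + M) := by linear_combination -eM - M * hl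
  have e2 : M ^ 4 = l ^ 2 * (1 + M) ^ 2 := by rw [← mul_pow, ← e1]; ring
  have e3 : ∀ z, (1 + M * z) ^ 2 + l ^ 2 * ((1 + M) * z * (z ^ 2 - z)) =
      (1 + l * z) * (1 + M ^ 2 * (z ^ 2 - z)) := fun z => by
    linear_combination -z * eM - l * z * (z ^ 2 - z) * e1
  have e4 : (1 + M * y) ^ 2 + l ^ 2 * ((1 + M) * y * (y ^ 2 - y) + (1 + l * y) * (1 + 2 * M) * φ₁ * c) =
      (1 + l * y) * ((1 + M ^ 2 * φ₁) * (1 + M ^ 2 * c)) := by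
    linear_combination e3 y + (1 + l * y) * M ^ 2 * ey - (1 + l * y) * φ₁ * c * e2
  have e5 : l ^ 2 = M ^ 2 * ν ^ 2 := by rw [eν, mul_pow]
  rw [e4, ← ea, e3, ea]
  linear_combination (1 + l ^ 2 * φ) * (1 + M ^ 2 * φ₁) * (1 + l * x₁) * (1 + l * y) *
    (a * c * u * e2 - (c + a) * P' * e5 + M ^ 2 * (c + a) * eu)

theorem quat_alg {F : Type*} [Field F] {h t : F} (hh : h ≠ 0) (ht : t ≠ 0) (w l M φ₁ φ y P ν ρ c : F) :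
    (1 + M * (M * φ₁)) * (1 + l * (l * φ)) * ((h ^ 2 + l * w) * (t ^ 2 * y) * (((t * h) ^ 4 + ν * P) ^ 2 +
      M * (t ^ 4 * h ^ 8 * (M * c) + M * t ^ 9 * h ^ 4) + l * (l * ρ))) =
    (h * t * (t * h) ^ 4) ^ 2 * ((1 + M ^ 2 * φ₁) * (1 + l ^ 2 * φ) * ((1 + l * (w * h⁻¹ ^ 2)) * y *
      ((1 + ν * (P * (t⁻¹ * h⁻¹) ^ 4)) ^ 2 + M ^ 2 * (c * t⁻¹ ^ 4 + t * h⁻¹ ^ 4) +
        l ^ 2 * (ρ * ((t⁻¹ * h⁻¹) ^ 4) ^ 2)))) := by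
  field_simp

section One

variable {k : Type} [Field k] [CharP k 2] {R : Type} [CommRing R]
  [IsDomain R] [IsDiscreteValuationRing R] [IsAdicComplete (maximalIdeal R) R] {x : Ctx 2 k R}
  {γ ϖ M : R} {t : Tw R} {φ₁ : Kf R} (h : t.Ok x 1 γ ϖ φ₁)

theorem Ctx.l_two : al (C x.l) = -2 := by
  rw [show x.l = -2 from mul_left_cancel₀ x.hl0 (by linear_combination x.hζ), map_neg, map_neg,
    map_ofNat, map_ofNat]

include h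

theorem Tw.Ok.al_T : al t.T ≠ 0 := (map_ne_zero_iff _ al_inj).2 fun e => h.T0 (by rw [e, map_zero])

theorem Tw.Ok.ey {y : Kf R} (ey : y = (al X + eta2 2 1 (al (C γ)) (al (C ϖ)) (al (C ϖ))⁻¹ (al t.T)
    (al t.W)) * (al t.T)⁻¹ ^ 2) : al (t.H + C x.l * X) = al t.T ^ 2 * (1 + al (C x.l) * y) := by
  have := h.al_T
  rw [map_add, map_mul, h.eH, ey]
  field_simp
  ring

theorem Tw.Ok.ec {y c : Kf R} (ey : y = (al X + eta2 2 1 (al (C γ)) (al (C ϖ)) (al (C ϖ))⁻¹ (al t.T)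
    (al t.W)) * (al t.T)⁻¹ ^ 2)
    (ec : c = pol2 2 1 (al (C γ)) (al (C ϖ)) (al (C ϖ))⁻¹ (al t.T) * (al t.T)⁻¹ ^ 4) :
    y ^ 2 - y = φ₁ + c + al (C x.l) ^ 2 * φ₁ * c := by
  have h0 := h.al_T
  have e := h.eF
  have e1 : pol2 2 1 (al (C γ)) (al (C ϖ)) (al (C ϖ))⁻¹ (al t.T) = al t.T ^ 4 * c := by
    rw [ec]
    field_simp
  rw [h.ey ey, e1, pow_one] at e
  refine mul_left_cancel₀ (mul_ne_zero (pow_ne_zero 4 h0) (pow_ne_zero 2 ((map_ne_zero_iff _ al_inj).2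
    (C_ne_zero x.hl0)))) ?_
  linear_combination e - al t.T ^ 4 * al (C x.l) * y * x.l_two

theorem Tw.Ok.ea {H : R⟦X⟧} (eH : hh 2 (C γ) (C ϖ) t.T = H) (h0 : al H ≠ 0) :
    (al t.W * (al H)⁻¹ ^ 2) ^ 2 - al t.W * (al H)⁻¹ ^ 2 = al t.T * (al H)⁻¹ ^ 4 := by
  have e := congrArg al (x.powA (H ^ 2) t.W)
  have r := h.rel1
  rw [eH, pow_one] at r
  rw [r] at e
  simp only [map_add, map_mul, map_pow, x.l_two] at e
  have h4 : (4 : Kf R) ≠ 0 := by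
    have := pow_ne_zero 2 ((map_ne_zero_iff _ al_inj).2 (C_ne_zero x.hl0))
    rw [x.l_two] at this
    convert this using 1
    norm_num
  field_simp
  refine mul_left_cancel₀ h4 ?_
  linear_combination e

theorem quat_point [IsAlgClosed k] (hϖ : x.π ϖ = 0) (hγ : x.π (γ ^ 2 - γ) ≠ 0) (hM : x.π M = 0)
    {H : R⟦X⟧} (eH : hh 2 (C γ) (C ϖ) t.T = H) {φ P ρ y c : Kf R} {ν : R} {a₀ a₁ a₂ a₃ a₄ : R⟦X⟧}
    (ey : y = (al X + eta2 2 1 (al (C γ)) (al (C ϖ)) (al (C ϖ))⁻¹ (al t.T) (al t.W)) * (al t.T)⁻¹ ^ 2)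
    (h₂ : a₂ ∈ t.S₀) (h₃ : a₃ ∈ t.S₀) (h₄ : a₄ ∈ t.S₀) (e₀ : al a₀ = al (C M) * φ₁)
    (e₁ : al a₁ = al (C x.l) * φ) (e₂ : al a₂ = al (C ν) * P) (e₃ : al a₃ = al (C x.l) * ρ)
    (e₄ : al a₄ = al (C M) * c)
    (hq : ∀ q' : gauss x, qQ (al (C γ)) (al (C ϖ)) (al t.T) (al t.T)⁻¹ (al H)⁻¹ (al t.W) (al X) = q' →
      ∃ Θ Q : gauss x, (1 + al (C M) ^ 2 * φ₁) * (1 + al (C x.l) ^ 2 * φ) *
        ((1 + al (C x.l) * (al t.W * (al H)⁻¹ ^ 2)) * (1 + al (C x.l) * y) *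
        ((1 + al (C ν) * (P * ((al t.T)⁻¹ * (al H)⁻¹) ^ 4)) ^ 2 + al (C M) ^ 2 * (c * (al t.T)⁻¹ ^ 4 +
          al t.T * (al H)⁻¹ ^ 4) + al (C x.l) ^ 2 * (ρ * (((al t.T)⁻¹ * (al H)⁻¹) ^ 4) ^ 2))) =
        (Θ ^ 2 + x.L ^ 2 * Q : gauss x) ∧ residue _ Θ = 1 ∧ residue _ Q = residue _ q') :
    x.Good 1 1 := by
  have rH := x.red_hh (γ := γ) hϖ t.T
  have σH := h.σhh
  have τH := h.τhh
  have hH := h.hh_mem hϖ
  have σW := h.σW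
  have dT := h.dT hϖ
  obtain ⟨b1, b2, b3, b4, b5, b6⟩ := h.bdry hϖ hγ rfl rfl
  rw [eH] at rH σH τH hH σW dT b1 b2 b3 b4 b5 b6
  rw [h.dW] at dT
  simp only [pow_one, ← pow_mul _ 2 2, Nat.add_one_sub_one, Nat.reduceMul] at σW dT b1 b2 b3 b4 b5 b6
  have hh0 : x.red H ≠ 0 := rH ▸ mul_ne_zero (C_ne_zero hγ) (pow_ne_zero _ h.T0)
  have ρH : x.ρ H ≠ 0 := fun e => hh0 (x.ρ_eq_zero.1 e)
  have ρT := h.ρT
  obtain ⟨Θ, Q, eQ, hΘ, hQ⟩ := hq _ (map_qQ (gauss x).subtype (x.toO (C γ)) (x.toO (C ϖ)) (x.toO t.T)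
    (x.inv _ h.T0) (x.inv _ hh0) (x.toO t.W) (x.toO X)).symm
  rw [map_qQ] at hQ
  simp only [← Ctx.ρ_apply, Ctx.res_inv, x.ρ_C hϖ, qQ, add_zero, mul_inv_cancel_right₀ ρT] at hQ
  have hT : t.T ∈ t.S₀ := ⟨h.σT, h.τT⟩
  have hH' : H ∈ t.S₀ := ⟨σH, τH⟩
  have hC : ∀ r, C r ∈ t.S₀ := t.S₀.algebraMap_mem
  have hS : ∀ a ∈ t.S₀, t.σ a = a ∧ t.τ a = a := fun _ h => h
  have hY : ((t.T * H) ^ 4 + a₂) ^ 2 + C M * (t.T ^ 4 * H ^ 8 * a₄ + C M * t.T ^ 9 * H ^ 4) +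
      C x.l * a₃ ∈ t.S₀ :=
    add_mem (add_mem (pow_mem (add_mem (pow_mem (mul_mem hT hH') _) h₂) _) (mul_mem (hC _) (add_mem
      (mul_mem (mul_mem (pow_mem hT _) (pow_mem hH' _)) h₄) (mul_mem (mul_mem (hC _) (pow_mem hT _))
        (pow_mem hH' _))))) (mul_mem (hC _) h₃)
  have hXT : X * x.red t.T ∈ dX k := by
    change X ∣ d⁄dX k _
    rw [Derivation.leibniz, derivative_X]
    exact dvd_add (dvd_mul_right _ _) (h.X_dvd_T.mul_right _)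
  have h2 : (2 : ResidueField (gauss x)) = 0 := CharTwo.two_eq_zero
  refine x.good_of_rel (g := t.σ) (g' := t.τ) (U := (1 + C M * a₀) * (1 + C x.l * a₁))
    (Y := (H ^ 2 + C x.l * t.W) * (t.H + C x.l * X) * (((t.T * H) ^ 4 + a₂) ^ 2 +
      C M * (t.T ^ 4 * H ^ 8 * a₄ + C M * t.T ^ 9 * H ^ 4) + C x.l * a₃))
    (E := H * t.T * (t.T * H) ^ 4) (v := C (1 + x.l) * t.u) (v' := C (1 + x.l))
    (ψ := x.ρ t.W * (x.ρ H)⁻¹ ^ 2) (ψ' := x.ρ t.W * (x.ρ H)⁻¹ ^ 2 +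
      (x.ρ X * (x.ρ t.T)⁻¹ ^ 2 + x.ρ (C γ) ^ 2 * (x.ρ t.W * (x.ρ H)⁻¹ ^ 2))) ?_ hΘ hQ
    (by simp [hh0, h.T0]) (t.T * H)
    (t.T - (t.T * H) ^ 2 * -((1 + C γ ^ 4) * (X * t.T * t.T ^ 8 * H ^ 6 + C γ ^ 2 * t.W * t.T ^ 11 * H ^ 4) +
      t.T ^ 11 * t.W * H ^ 4)) ?_ ?_ ?_ (by simp [hh0, h.T0])
    (x.isUnit_of_red (by simp [x.hl, hM])) ((x.isUnit_of_red (by simp [x.hl])).mul h.hu)
    (x.isUnit_of_red (by simp [x.hl])) ?_ ?_ h.comm h.σp h.τp ?_ ?_ ?_ ?_ ?_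
  · rw [← eQ, map_mul, map_mul _ (_ * _), map_mul _ _ (t.H + _), h.ey ey]
    simp only [map_add, map_mul, map_pow, map_one, e₀, e₁, e₂, e₃, e₄]
    exact quat_alg ((map_ne_zero_iff _ al_inj).2 fun e => hh0 (by rw [e, map_zero])) h.al_T
      _ _ _ _ _ _ _ _ _ _
  · simp only [map_add, map_sub, map_neg, map_mul, map_pow, map_one]
    field_simp
    ring
  · refine ⟨_, (isUnit_one_add_deriv (f := x.red (-((1 + C γ ^ 4) * (X * t.T * t.T ^ 8 * H ^ 6 +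
      C γ ^ 2 * t.W * t.T ^ 11 * H ^ 4) + t.T ^ 11 * t.W * H ^ 4))) ?_).neg, ?_⟩
    · have h1 := h.T_mem hϖ
      simp only [map_neg, map_add, map_mul, map_pow, map_C, map_X, map_one]
      exact neg_mem (add_mem (mul_mem (add_mem (one_mem _) (pow_mem (C_mem_dX _) _)) (add_mem
        (mul_mem (mul_mem hXT (pow_mem h1 _)) (pow_mem hH _)) (mul_mem (mul_mem (mul_mem
          (pow_mem (C_mem_dX _) _) h.W_mem) (pow_mem h1 _)) (pow_mem hH _))))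
        (mul_mem (mul_mem (pow_mem h1 _) h.W_mem) (pow_mem hH _)))
    · rw [map_sub, map_mul, map_pow, map_sub, dT, Derivation.leibniz, Ctx.deriv_pow_char (p := 2),
        map_mul x.red t.T]
      simp only [smul_eq_mul]
      ring
  · rw [Nat.add_one_sub_one, pow_one, map_mul _ _ (_ ^ 4), map_mul _ H, mul_comm (x.red H), ← map_mul,
      mul_comm _ (x.red (_ ^ 4)), map_pow, map_mul _ t.T]
    exact mul_dvd_mul (dvd_pow ((h.X2_dvd_T hϖ).mul_right _) (by omega)) dvd_rfl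
  · rw [map_mul, map_mul, h.σy, hS _ hY |>.1, map_add, map_mul, map_pow, σH, σW, algHom_C, map_add,
      map_one]
    ring
  · rw [map_mul, map_mul, h.τy, hS _ hY |>.2, map_add, map_mul, map_pow, τH, h.τW, algHom_C]
    ring
  · rw [smul_add, smul_add, smul_mul', b3, smul_mul' _ _ (_ * _), b1, b5]
    simp only [smul_mul', smul_pow', smul_add, smul_inv'', x.smul_ρ, algHom_C, h.σT, σH]
    ring
  · rw [smul_add, smul_add, smul_mul', b4, smul_mul' _ _ (_ * _), b2, add_pow_char]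
    simp only [smul_mul', smul_pow', smul_add, smul_inv'', x.smul_ρ, algHom_C, h.τT, τH]
    linear_combination -b5 - b6
  · rw [smul_add, b1, b2, b3]
    ring
  · rw [Finset.sum_range_succ, Finset.sum_range_one, pow_zero, pow_one, one_smul, b1]
    linear_combination (x.ρ t.W * (x.ρ H)⁻¹ ^ 2) * h2
  · rw [Finset.sum_range_succ, Finset.sum_range_one, pow_zero, pow_one, one_smul, smul_add, b2, b4]
    linear_combination (x.ρ t.W * (x.ρ H)⁻¹ ^ 2 +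
      (x.ρ X * (x.ρ t.T)⁻¹ ^ 2 + x.ρ (C γ) ^ 2 * (x.ρ t.W * (x.ρ H)⁻¹ ^ 2))) * h2

end One

theorem good_quat {k : Type} [Field k] [CharP k 2] [IsAlgClosed k]
    {R : ℕ → Type} [∀ N, CommRing (R N)] [∀ N, IsDomain (R N)] [∀ N, IsDiscreteValuationRing (R N)]
    [∀ N, IsAdicComplete (maximalIdeal (R N)) (R N)] (x : ∀ N, Ctx 2 k (R N))
    (γ ϖ M : ∀ N, R N) (e : ∀ N, ℕ → R N) (hϖ0 : ∀ N, ϖ N ≠ 0) (hϖ : ∀ N, (x N).π (ϖ N) = 0)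
    (hM : ∀ N, ϖ N ^ N ∣ M N) (eM : ∀ N, (x N).l = M N ^ 2 + 2 * M N)
    (hγ : ∀ N, (x N).π (γ N ^ 2 - γ N) ≠ 0)
    (he : ∀ N, ∀ j < 2, e N j ^ 2 - ϖ N ^ 4 * e N j = -(ϖ N * ((j : R N) - γ N) ^ 7)) :
    ∃ N, (x N).Good 1 1 := by
  let ν : ∀ N, R N := fun N => M N + 2
  have el : ∀ N, (x N).l = M N * ν N := fun N => by
    rw [eM]
    ring
  let f : Fm 2 k R := ⟨x, ϖ, hϖ0, hϖ, fun N => (hM N).trans ⟨_, el N⟩⟩
  have hν : ∀ N, ϖ N ^ N ∣ ν N := fun N => dvd_add (hM N) (by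
    have := (x N).hp
    rw [Nat.cast_ofNat] at this
    exact this ▸ (dvd_pow (f.hl N) one_ne_zero).mul_left _)
  have cM : f.cls (f.ofR M) = 0 := f.cls_ofR hM
  have cν : f.cls (f.ofR ν) = 0 := f.cls_ofR hν
  have el' : f.l = f.ofR M * f.ofR ν := by
    rw [← map_mul]
    exact congrArg _ (funext el)
  obtain ⟨t, φ₁, hφ₁, ht, hG⟩ := f.exists_tower 1 hγ
  have hT : ∀ᶠ N in atTop, (f.x N).red (t N).T ≠ 0 := ht.mono fun N h => h.T0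
  have hA : ∀ a, f.ofA a ∈ f.BS fun _ => ⊤ := fun a =>
    Fm.BS.ofA (Eventually.of_forall fun _ => Algebra.mem_top)
  have hR : ∀ a, f.cls (f.ofR a) ∈ f.U fun N => (t N).S₀ := fun a => Fm.U.mk (Fm.BS.ofR a)
  have hT₀ : f.ofA (fun N => (t N).T) ∈ f.BS fun N => (t N).S₀ :=
    Fm.BS.ofA (ht.mono fun N h => ⟨h.σT, h.τT⟩)
  have eϖ : f.cls (f.ofR f.ϖ) * f.cls f.ϖi = 1 := by rw [← map_mul, f.mul_ϖi, map_one]
  have r₁ := Fm.tower_r₁ ht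
  have r₂ := Fm.tower_r₂ ht hG
  simp only [pow_one, Nat.add_one_sub_one] at r₁ r₂
  have eT := f.cls_mul_inv _ hT
  have eh := Fm.tower_eh hγ hT
  obtain ⟨hi, ehi⟩ : ∃ hi, hi = f.inv _ (f.red_hh_ne_zero hγ hT) := ⟨_, rfl⟩
  obtain ⟨Ti, eTi⟩ : ∃ Ti, Ti = f.inv _ hT := ⟨_, rfl⟩
  obtain ⟨c, ec⟩ : ∃ c, c = pol2 2 1 (f.ofR γ) (f.ofR f.ϖ) f.ϖi (f.ofA fun N => (t N).T) := ⟨_, rfl⟩
  obtain ⟨y, ey⟩ : ∃ y, y = (f.ofA (fun _ => X) + eta2 2 1 (f.ofR γ) (f.ofR f.ϖ) f.ϖi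
    (f.ofA fun N => (t N).T) (f.ofA fun N => (t N).W)) * Ti ^ 2 := ⟨_, rfl⟩
  rw [← eTi] at eT
  rw [← ehi] at eh
  have ey' : ∀ N, f.ev N y = (al X + eta2 2 1 (al (C (γ N))) (al (C (ϖ N))) (al (C (ϖ N)))⁻¹
      (al (t N).T) (al (t N).W)) * (al (t N).T)⁻¹ ^ 2 := fun N => by
    rw [ey, map_mul, map_add, map_pow, map_eta2, eTi]
    rfl
  have ec' : ∀ N, f.ev N c * (al (t N).T)⁻¹ ^ 4 = pol2 2 1 (al (C (γ N))) (al (C (ϖ N)))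
      (al (C (ϖ N)))⁻¹ (al (t N).T) * (al (t N).T)⁻¹ ^ 4 := fun N => by
    rw [ec, map_pol2]
    rfl
  have eφ := f.cls_congr (z := y ^ 2 - y) (w := φ₁ + c * Ti ^ 4 + f.l ^ 2 * φ₁ * (c * Ti ^ 4))
    (ht.mono fun N h => by
      rw [← f.ev_apply, ← f.ev_apply, eTi]
      simp only [map_mul (f.ev N), map_add (f.ev N), map_sub (f.ev N), map_pow (f.ev N)]
      exact h.ec (ey' N) (ec' N))
  rw [map_sub, map_pow, map_add, map_add, map_mul _ _ (c * _), map_mul _ _ φ₁, map_pow, f.cls_l,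
    zero_pow two_ne_zero, zero_mul, zero_mul, add_zero] at eφ
  have eξ : ∀ j < 2, (f.cls (f.ofR fun N => e N j) * f.cls f.ϖi ^ 4) ^ 2 -
      f.cls (f.ofR fun N => e N j) * f.cls f.ϖi ^ 4 = -(((j : f.L) - f.cls (f.ofR γ)) * f.cls f.ϖi) ^ 7 :=
    fun j hj => xi_eq (p := 2) (q := 4) (n := 7) two_ne_zero rfl eϖ (by
      have := congrArg (f.cls.comp f.ofR) (show (fun N => e N j) ^ 2 - ϖ ^ 4 *
        (fun N => e N j) = -(ϖ * ((j : ∀ N, R N) - γ) ^ 7) from funext fun N => he N j hj)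
      simpa only [map_mul, map_sub, map_natCast, map_neg, map_pow, RingHom.comp_apply,
        Nat.add_one_sub_one, pow_one] using this)
  obtain ⟨η, _, ⟨φ, hφ, rfl⟩, _, ⟨P, hP, rfl⟩, _, ⟨ρ, hρ, rfl⟩, E⟩ := charP_quat
    (f.U fun N => (t N).S₀) (f.U fun _ => ⊤) (Fm.U.mono fun _ => le_top) _ _ (f.cls f.ϖi)
    (fun j => f.cls (f.ofR fun N => e N j) * f.cls f.ϖi ^ 4) _ _ _ _ _ _ (f.cls y) (f.cls (c * Ti ^ 4))
    (hR γ) (hR f.ϖ) (Fm.U.mk Fm.BS.ϖi) (fun _ => mul_mem (hR _) (pow_mem (Fm.U.mk Fm.BS.ϖi) _))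
    (Fm.U.mk hT₀) (Fm.U.mk (hA _)) (Fm.U.mk (hA _)) (Fm.U.mk hφ₁) eϖ
    eξ eT eh r₁ r₂ (by rw [ey, map_mul, map_add, map_pow, map_eta2])
    (by rw [ec, map_mul, map_pow, map_pol2]) eφ
  obtain ⟨η, rfl⟩ := f.cls_surj η
  obtain ⟨P', eP', hP'⟩ := f.exists_pow el' cM (P * (Ti * hi) ^ 4)
  obtain ⟨x₁, ex₁⟩ : ∃ x₁, x₁ = f.ofA (fun N => (t N).W) * hi ^ 2 := ⟨_, rfl⟩
  obtain ⟨a, ea⟩ : ∃ a, a = f.ofA (fun N => (t N).T) * hi ^ 4 := ⟨_, rfl⟩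
  have hrel := ((Fm.Rel.one φ).mul (((((Fm.Rel.pow (Θ := 1 + f.ofR M * x₁) (by simp [cM])).add
    ((1 + f.ofR M) * x₁ * a)).mul ((Fm.Rel.pow (Θ := 1 + f.ofR M * y) (by simp [cM])).add
      ((1 + f.ofR M) * y * (y ^ 2 - y) + (1 + f.l * y) * (1 + 2 * f.ofR M) * φ₁ * (c * Ti ^ 4)))).mul
        (Fm.Rel.pow (Θ := 1 + f.ofR ν * (P * (Ti * hi) ^ 4)) (by simp [cν]))).add
          ((1 + f.ofR M ^ 2 * φ₁) * (1 + f.l * x₁) * (1 + f.l * y) * (ρ * ((Ti * hi) ^ 4) ^ 2 -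
            (c * Ti ^ 4 + a) * P' - (1 + f.ofR M) ^ 2 * a * (c * Ti ^ 4) *
              (1 + f.ofR ν * (P * (Ti * hi) ^ 4)) ^ 2)))).shift η
  rw [show _ - (f.cls η ^ 2 - f.cls η) = f.cls (qQ (f.ofR γ) (f.ofR f.ϖ) (f.ofA fun N => (t N).T) Ti hi
      (f.ofA fun N => (t N).W) (f.ofA fun _ => X)) by
    simp only [map_add, map_mul, map_sub, map_pow, map_one, map_qQ, hP', cM, cν, f.cls_l, ex₁,
      ea, CharTwo.sub_eq_add] at E ⊢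
    linear_combination (norm := (ring_nf; simp only [CharTwo.two_eq_zero, mul_zero, sub_zero,
      add_zero])) E] at hrel
  obtain ⟨N, h0, h1, ⟨a₀, _, _, e₀⟩, ⟨a₁, _, _, e₁⟩, ⟨a₂, h₂, _, e₂⟩, ⟨a₃, h₃, _, e₃⟩, ⟨a₄, h₄, _, e₄⟩,
    h4⟩ := ((eventually_ne_atTop 0).and (ht.and ((Fm.BS.small hM hφ₁).and ((Fm.BS.small f.hl hφ).and
      ((Fm.BS.small hν hP).and ((Fm.BS.small f.hl hρ).and ((Fm.BS.small hM (z := c) (ec ▸ pol2_mem _ 2 1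
        (Fm.BS.ofR γ) (Fm.BS.ofR f.ϖ) Fm.BS.ϖi hT₀)).and hrel.eventually))))))).exists
  refine ⟨N, quat_point h1 (hϖ N) (hγ N) (M := M N) ?_ rfl (φ := f.ev N φ) (P := f.ev N P)
    (ρ := f.ev N ρ) (c := f.ev N c) (ν := ν N) (ey' N) h₂ h₃ h₄ e₀ e₁ e₂ e₃ e₄ fun q' hq' => ?_⟩
  · obtain ⟨r, hr⟩ := hM N
    rw [hr, map_mul, map_pow, hϖ, zero_pow h0, zero_mul]
  obtain ⟨Θ, Q, e1, -, e2, e3⟩ := h4 q' (by rw [map_qQ, ehi, eTi]; exact hq')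
  refine ⟨Θ, Q, ?_, e2, e3⟩
  have e4 := congrArg (f.ev N) eP'
  have e5 := congrArg (f.ev N) el'
  rw [← e1]
  simp only [map_mul (f.ev N), map_add (f.ev N), map_sub (f.ev N), map_pow (f.ev N), map_one (f.ev N),
    map_ofNat (f.ev N), ehi, eTi, ex₁, ea, Fm.l, Fm.ev_ofR, Fm.ev_ofA, Fm.ev_inv] at e4 e5 ⊢
  refine (quat_rel _ _ Ctx.l_two ?_ e5 (h1.ea rfl ((map_ne_zero_iff _ al_inj).2 fun e => ?_))
    (h1.ec (ey' N) (ec' N)) e4).symm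
  · rw [show (f.x N).l = _ from eM N]
    simp [map_ofNat]
  · have := (x N).red_hh (γ := γ N) (hϖ N) (t N).T
    rw [show hh 2 (C (γ N)) (C (ϖ N)) (t N).T = 0 from e, map_zero] at this
    exact mul_ne_zero (C_ne_zero (hγ N)) (pow_ne_zero _ h1.T0) this.symm

end Pool.Agent.P.MP_41a2b4_ag
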