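import Pool.Agent.P.MP_41a2b4_ag.Hensel

set_option autoImplicit false
set_option linter.unusedSectionVars false

namespace Pool.Agent.P.MP_41a2b4_ag

open PowerSeries IsLocalRing

variable {p : ℕ} [Fact p.Prime] {k : Type} [Field k] [CharP k p] {R : Type} [CommRing R]
  [IsDomain R] [IsDiscreteValuationRing R] [IsAdicComplete (maximalIdeal R) R] (x : Ctx p k R)

namespace Ctx

/-- The normal form `H ^ p + l ^ p G` of a Kummer equation with good reduction. -/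
structure NF (H G : R⟦X⟧) : Prop where
  G0 : constantCoeff (x.red G) = 0
  G1 : coeff 1 (x.red G) ≠ 0
  H0 : constantCoeff (x.red H) = 0
  H1 : x.red H ≠ 0

theorem mem_max_iff_red {f : R⟦X⟧} : f ∈ maximalIdeal R⟦X⟧ ↔ constantCoeff (x.red f) = 0 := by
  rw [mem_max_iff, ← x.π_eq_zero]
  rfl

theorem ΦA_sub_mem {I : Ideal R⟦X⟧} {n : ℕ} {H H' W : R⟦X⟧} (hW : W ∈ I) (h : H - H' ∈ I ^ n) :
    x.ΦA H W - x.ΦA H' W ∈ I ^ (n + 1) := by
  have : (-(C x.c * H ^ (p - 1)) + C x.l * W * Psi p (C x.l) (C x.c) H W) -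
      (-(C x.c * H' ^ (p - 1)) + C x.l * W * Psi p (C x.l) (C x.c) H' W) ∈ I ^ n := by
    rw [← Ideal.Quotient.eq] at h ⊢
    simp only [map_add, map_neg, map_mul, map_pow, map_Psi, h]
  rw [pow_succ]
  convert Ideal.mul_mem_mul this hW using 1
  simp only [ΦA, Phi]
  ring

variable {x} {H G : R⟦X⟧}

theorem NF.contr (h : x.NF H G) : ∃ (v G₂ : R⟦X⟧), (∀ W (φ : R⟦X⟧ →ₐ[R] R⟦X⟧), φ G = x.ΦA (φ H) W ↔
    v * (x.ΦA (φ H) W - C (constantCoeff G) - φ X ^ 2 * φ G₂) = φ X) ∧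
    ∀ W ∈ maximalIdeal R⟦X⟧, ∀ n (φ ψ : R⟦X⟧ →ₐ[R] R⟦X⟧), φ X - ψ X ∈ maximalIdeal R⟦X⟧ ^ n →
      v * (x.ΦA (φ H) W - C (constantCoeff G) - φ X ^ 2 * φ G₂) -
      v * (x.ΦA (ψ H) W - C (constantCoeff G) - ψ X ^ 2 * ψ G₂) ∈ maximalIdeal R⟦X⟧ ^ (n + 1) := by
  obtain ⟨v, hv⟩ := (x.isUnit_of_π (r := coeff 1 G) (by simpa using h.G1)).exists_left_inv
  obtain ⟨G₂, hG⟩ : (X : R⟦X⟧) ^ 2 ∣ G - C (constantCoeff G) - C (coeff 1 G) * X := by
    rw [X_pow_dvd_iff]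
    intro m hm
    interval_cases m <;> simp [coeff_C]
  have hv' : (C v : R⟦X⟧) * C (coeff 1 G) = 1 := by rw [← map_mul, hv, map_one]
  refine ⟨C v, G₂, fun W φ => ?_, fun W hW n φ ψ hn => ?_⟩
  · have := congrArg φ hG
    simp only [map_sub, map_mul, map_pow, algHom_C] at this
    constructor
    · intro e
      linear_combination C v * this - C v * e + φ X * hv'
    · intro e
      linear_combination this - C (coeff 1 G) * e + (x.ΦA (φ H) W - C (constantCoeff G) -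
        φ X ^ 2 * φ G₂) * hv'
  · have hφ := algHom_mem_max φ
    have hψ := algHom_mem_max ψ
    have h1 := x.ΦA_sub_mem hW (algHom_sub_mem hφ hψ hn H)
    have h2 : φ X * φ G₂ - ψ X * ψ G₂ ∈ maximalIdeal R⟦X⟧ ^ n := by
      rw [← map_mul, ← map_mul]
      exact algHom_sub_mem hφ hψ hn (X * G₂)
    rw [pow_succ] at h1 ⊢
    convert Ideal.mul_mem_left _ (C v) (Ideal.sub_mem _ (Ideal.sub_mem _ h1 (Ideal.mul_mem_mul h2 hφ))
      (Ideal.mul_mem_mul hn (Ideal.mul_mem_right (ψ G₂) _ hψ))) using 1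
    ring

theorem NF.unique (h : x.NF H G) {W : R⟦X⟧} (hW : W ∈ maximalIdeal R⟦X⟧) {φ ψ : R⟦X⟧ →ₐ[R] R⟦X⟧}
    (hφ : φ G = x.ΦA (φ H) W) (hψ : ψ G = x.ΦA (ψ H) W) : φ = ψ := by
  obtain ⟨v, G₂, h1, h2⟩ := h.contr
  refine algHom_ext (eq_of_sub_mem_pow (I := maximalIdeal R⟦X⟧) fun n => ?_)
  induction n with
  | zero => simp
  | succ n ih => simpa only [(h1 W φ).1 hφ, (h1 W ψ).1 hψ] using h2 W hW n φ ψ ih

theorem NF.exists (h : x.NF H G) : ∃ ι : R⟦X⟧ →ₐ[R] R⟦X⟧, ι G = x.ΦA (ι H) X := by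
  obtain ⟨v, G₂, h1, h2⟩ := h.contr
  have : ∀ b : R⟦X⟧, ∃ φ : R⟦X⟧ →ₐ[R] R⟦X⟧, b ∈ maximalIdeal R⟦X⟧ → φ X = b := fun b => by
    by_cases hb : b ∈ maximalIdeal R⟦X⟧
    · exact (exists_ev hb).imp fun φ hφ _ => hφ
    · exact ⟨AlgHom.id _ _, fun h => absurd h hb⟩
  choose ev hev using this
  have hc : Contr (maximalIdeal R⟦X⟧) fun b =>
      v * (x.ΦA (ev b H) X - C (constantCoeff G) - ev b X ^ 2 * ev b G₂) := fun n a ha b hb hab =>
    h2 X X_mem_max n _ _ (by rwa [hev a ha, hev b hb])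
  obtain ⟨b, hb, e⟩ := hc.exists (by
    refine Ideal.mul_mem_left _ _ (Ideal.sub_mem _ (Ideal.sub_mem _ ?_ (C_mem_max ?_))
      (Ideal.mul_mem_right _ _ (Ideal.pow_mem_of_mem _ (algHom_mem_max _) _ two_pos)))
    · rw [x.mem_max_iff_red, red_ΦA]
      simp [(Fact.out : p.Prime).ne_zero]
    · exact mem_max_iff.1 (x.mem_max_iff_red.2 h.G0))
  exact ⟨ev b, (h1 X _).2 (by rw [hev b hb] at e ⊢; exact e)⟩

theorem NF.red_ne_zero (h : x.NF H G) {ι : R⟦X⟧ →ₐ[R] R⟦X⟧} (hι : ι G = x.ΦA (ι H) X) {d : R⟦X⟧}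
    (hd : x.red d ≠ 0) : x.red (ι d) ≠ 0 := by
  have h0 : x.red (ι X) ≠ 0 := fun h0 => by
    have key : ∀ f, constantCoeff (x.red f) = 0 → x.red (ι f) = 0 := fun f hf => by
      rw [eq_add_of_sub_eq (sub_const_eq_X_mul_shift f), map_add, map_mul, algHom_C, map_add,
        map_mul, h0, zero_mul, zero_add, map_C]
      exact (congrArg C hf).trans (map_zero _)
    have := congrArg x.red hι
    rw [red_ΦA, key G h.G0, key H h.H0, map_X, zero_pow (by have := (Fact.out : p.Prime).two_le; omega),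
      zero_mul, sub_zero] at this
    exact X_ne_zero (pow_eq_zero_iff (Fact.out : p.Prime).ne_zero |>.1 this.symm)
  obtain ⟨n, u, hu⟩ := IsDiscreteValuationRing.eq_unit_mul_pow_irreducible hd (X_irreducible (R := k))
  obtain ⟨e, he⟩ := x.red_surj u
  have h1 : IsUnit e := x.isUnit_of_red (he ▸ u.isUnit)
  rw [x.red_algHom_congr ι (g := e * X ^ n) (by rw [hu, map_mul, he, map_pow, map_X])]
  simp only [map_mul, map_pow]
  exact mul_ne_zero ((h1.map ι).map x.red).ne_zero (pow_ne_zero _ h0)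

variable (x) in
/-- `φ` extends `g` along `ι` and multiplies the Kummer generator by `u`. -/
def Ext (ι : R⟦X⟧ →ₐ[R] R⟦X⟧) (H : R⟦X⟧) (φ : R⟦X⟧ →ₐ[R] R⟦X⟧) (g : R⟦X⟧ ≃ₐ[R] R⟦X⟧) (u : R⟦X⟧) :
    Prop :=
  (∀ a, φ (ι a) = ι (g a)) ∧ φ (ι H + C x.l * X) = ι u * (ι H + C x.l * X)

variable {ι φ φ' : R⟦X⟧ →ₐ[R] R⟦X⟧} {g g' : R⟦X⟧ ≃ₐ[R] R⟦X⟧} {u u' : R⟦X⟧}

theorem Ext.comp (h : x.Ext ι H φ g u) (h' : x.Ext ι H φ' g' u') :
    x.Ext ι H (φ.comp φ') (g * g') (u * g u') :=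
  ⟨fun a => by rw [AlgHom.comp_apply, h'.1, h.1, AlgEquiv.mul_apply], by
    rw [AlgHom.comp_apply, h'.2, map_mul, h.1, h.2, map_mul]; ring⟩

theorem Ext.id : x.Ext ι H (AlgHom.id _ _) 1 1 := ⟨fun _ => rfl, by simp⟩

theorem Ext.apply_X (h : x.Ext ι H φ g u) {d : R⟦X⟧} (e : u * H - g H = C x.l * d) :
    φ X = ι u * X + ι d := by
  have h1 := h.2
  have h2 := congrArg ι e
  rw [map_add, map_mul, algHom_C, h.1] at h1
  rw [map_sub, map_mul, map_mul, algHom_C] at h2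
  exact mul_left_cancel₀ (C_ne_zero x.hl0) (by linear_combination h1 + h2)

theorem Ext.unique (h : x.Ext ι H φ g u) (h' : x.Ext ι H φ' g u) : φ = φ' := by
  have h1 := h.2
  have h2 := h'.2
  rw [map_add, map_mul, algHom_C, h.1] at h1
  rw [map_add, map_mul, algHom_C, h'.1] at h2
  exact algHom_ext (mul_left_cancel₀ (C_ne_zero x.hl0) (by linear_combination h1 - h2))

theorem exists_sub_eq (e : g (H ^ p + C x.l ^ p * G) = u ^ p * (H ^ p + C x.l ^ p * G)) :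
    ∃ d, u * H - g H = C x.l * d := by
  obtain ⟨d, hd⟩ := dvd_sub_of_pow Fact.out x.hpO (x := x.toO (u * H)) (y := x.toO (g H))
    (q := x.toO (g G - u ^ p * G)) (by
      simp only [map_add, map_mul, map_pow, algHom_C] at e
      simp only [← map_pow, ← map_sub, ← map_mul]
      congr 1
      rw [map_pow C, map_pow g]
      linear_combination -e)
  rw [← map_sub] at hd
  obtain ⟨d, rfl⟩ := x.exists_of_mul_eq x.hl0 hd
  exact ⟨d, x.toO_inj (by rw [hd, map_mul])⟩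

theorem NF.exists_ext' (h : x.NF H G) (hι : ι G = x.ΦA (ι H) X)
    (e : g (H ^ p + C x.l ^ p * G) = u ^ p * (H ^ p + C x.l ^ p * G)) : ∃ φ, x.Ext ι H φ g u := by
  have hp := (Fact.out : p.Prime)
  obtain ⟨d, hd⟩ := exists_sub_eq e
  have h2 := congrArg ι hd
  rw [map_sub, map_mul, map_mul, algHom_C] at h2
  have e1 : ι (g G) = x.ΦA (ι (g H)) (ι u * X + ι d) := by
    have e2 := congrArg ι e
    simp only [map_add, map_mul, map_pow, algHom_C] at e2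
    rw [hι, ← powA, ← mul_pow, show ι u * (ι H + C x.l * X) = ι (g H) + C x.l * (ι u * X + ι d) by
      linear_combination h2, powA] at e2
    exact mul_left_cancel₀ (pow_ne_zero p (C_ne_zero x.hl0)) (add_left_cancel e2)
  have hW : ι u * X + ι d ∈ maximalIdeal R⟦X⟧ := by
    have hG : constantCoeff (x.red (ι (g G))) = 0 := x.mem_max_iff_red.1 
      (algHom_map_max (ι.comp g) (x.mem_max_iff_red.2 h.G0))
    have hH : constantCoeff (x.red (ι (g H))) = 0 := x.mem_max_iff_red.1 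
      (algHom_map_max (ι.comp g) (x.mem_max_iff_red.2 h.H0))
    have := congrArg (fun f => constantCoeff (x.red f)) e1
    simp only [red_ΦA, map_sub, map_mul (constantCoeff (R := k)), map_pow, hG, hH] at this
    rw [zero_pow (by have := hp.two_le; omega), zero_mul, sub_zero] at this
    exact x.mem_max_iff_red.2 (pow_eq_zero_iff hp.ne_zero |>.1 this.symm)
  obtain ⟨φ, hφ⟩ := exists_ev (R := R) hW
  have e3 : φ.comp ι = ι.comp g := h.unique hW (by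
    rw [AlgHom.comp_apply, hι, map_Phi, algHom_C, algHom_C, hφ]
    rfl) e1
  refine ⟨φ, fun a => DFunLike.congr_fun e3 a, ?_⟩
  rw [map_add, map_mul, algHom_C, hφ, show φ (ι H) = ι (g H) from DFunLike.congr_fun e3 H]
  linear_combination -h2

theorem NF.exists_ext (h : x.NF H G) (hι : ι G = x.ΦA (ι H) X) (hu : IsUnit u)
    (e : g (H ^ p + C x.l ^ p * G) = u ^ p * (H ^ p + C x.l ^ p * G)) :
    ∃ s : R⟦X⟧ ≃ₐ[R] R⟦X⟧, x.Ext ι H s g u := by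
  obtain ⟨v, hv⟩ := hu.exists_right_inv
  obtain ⟨φ, hφ⟩ := h.exists_ext' hι e
  obtain ⟨ψ, hψ⟩ := h.exists_ext' hι (g := g⁻¹) (u := g⁻¹ v) (by
    have := congrArg (fun f => g⁻¹ (v ^ p * f)) e
    simp only [← mul_assoc, ← mul_pow, mul_comm v, hv, one_pow, one_mul] at this
    rw [← this, map_mul, map_pow, ← AlgEquiv.mul_apply g⁻¹ g, inv_mul_cancel, AlgEquiv.one_apply])
  have h1 := hφ.comp hψ
  have h2 := hψ.comp hφ
  rw [← AlgEquiv.mul_apply, mul_inv_cancel, AlgEquiv.one_apply, hv] at h1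
  rw [← map_mul, mul_comm v, hv, map_one, inv_mul_cancel] at h2
  exact ⟨AlgEquiv.ofAlgHom φ ψ (h1.unique Ext.id) (h2.unique Ext.id), hφ⟩

variable {s s' : R⟦X⟧ ≃ₐ[R] R⟦X⟧}

theorem Ext.mul (h : x.Ext ι H s g u) (h' : x.Ext ι H s' g' u') :
    x.Ext ι H (s * s' : R⟦X⟧ ≃ₐ[R] R⟦X⟧) (g * g') (u * g u') := h.comp h'

theorem Ext.eq (h : x.Ext ι H s g u) (h' : x.Ext ι H s' g u) : s = s' :=
  AlgEquiv.ext fun a => DFunLike.congr_fun (h.unique h') a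

theorem Ext.pow (h : x.Ext ι H s g u) (n : ℕ) :
    x.Ext ι H (s ^ n : R⟦X⟧ ≃ₐ[R] R⟦X⟧) (g ^ n) (∏ i ∈ Finset.range n, (g ^ i) u) := by
  induction n with
  | zero =>
    rw [pow_zero, pow_zero, Finset.prod_range_zero]
    exact Ext.id
  | succ n ih =>
    rw [Finset.prod_range_succ, pow_succ, pow_succ]
    exact ih.mul h

theorem Ext.central {z : R⟦X⟧ ≃ₐ[R] R⟦X⟧} (hz : x.Ext ι H z 1 (C (1 + x.l))) (h : x.Ext ι H s g u) :
    s * z = z * s := by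
  have h1 := h.mul hz
  have h2 := hz.mul h
  rw [mul_one, algHom_C, mul_comm u] at h1
  rw [one_mul, AlgEquiv.one_apply] at h2
  exact h1.eq h2

theorem Ext.pow_eq {z : R⟦X⟧ ≃ₐ[R] R⟦X⟧} (hz : x.Ext ι H z 1 (C (1 + x.l))) (h : x.Ext ι H s g u)
    (hg : g ^ p = 1) {α : ℕ} (e : ∏ i ∈ Finset.range p, (g ^ i) u = C (1 + x.l) ^ α) :
    s ^ p = z ^ α := by
  have h1 := h.pow p
  have h2 := hz.pow α
  rw [hg, e] at h1
  simp only [one_pow, AlgEquiv.one_apply, Finset.prod_const, Finset.card_range] at h2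
  exact h1.eq h2

theorem NF.exists_zeta (h : x.NF H G) (hι : ι G = x.ΦA (ι H) X) :
    ∃ z : R⟦X⟧ ≃ₐ[R] R⟦X⟧, x.Ext ι H z 1 (C (1 + x.l)) ∧ z ^ p = 1 ∧
      z X = C (1 + x.l) * X + ι H := by
  have hp := (Fact.out : p.Prime)
  obtain ⟨z, hz⟩ := h.exists_ext hι (g := 1) (u := C (1 + x.l))
    ((isUnit_pow_iff hp.ne_zero).1 (by rw [zeta_pow_p]; exact isUnit_one)) (by
      rw [zeta_pow_p, one_mul, AlgEquiv.one_apply])
  refine ⟨z, hz, by simpa using hz.pow_eq hz (one_pow p) (α := 0) (by simpa using zeta_pow_p (x := x)), ?_⟩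
  have := hz.apply_X (d := H) (by simp [add_mul])
  rwa [algHom_C] at this

variable (x) in
theorem exists_redAut : ∃ r : (R⟦X⟧ ≃ₐ[R] R⟦X⟧) →* (k⟦X⟧ ≃ₐ[k] k⟦X⟧),
    ∀ g f, x.red (g f) = r g (x.red f) := by
  have h : ∀ g : R⟦X⟧ ≃ₐ[R] R⟦X⟧, ∃ φ : k⟦X⟧ →ₐ[k] k⟦X⟧, ∀ f, φ (x.red f) = x.red (g f) := fun g => by
    let φ := x.red.liftOfSurjective x.red_surj ⟨x.red.comp (g : R⟦X⟧ →+* R⟦X⟧), fun f hf =>
      x.red_algHom g hf⟩
    have hφ : ∀ f, φ (x.red f) = x.red (g f) := fun f => RingHom.liftOfRightInverse_comp_apply _ _ _ _ _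
    refine ⟨⟨φ, fun c => ?_⟩, hφ⟩
    obtain ⟨c, rfl⟩ := x.hπ c
    have := hφ (C c)
    rwa [algHom_C, map_C] at this
  choose φ hφ using h
  have h1 : ∀ g, (φ g).comp (φ g⁻¹) = AlgHom.id _ _ := fun g => AlgHom.ext fun f => by
    obtain ⟨f, rfl⟩ := x.red_surj f
    rw [AlgHom.comp_apply, hφ, hφ, ← AlgEquiv.mul_apply, mul_inv_cancel]
    rfl
  refine ⟨MonoidHom.mk' (fun g => AlgEquiv.ofAlgHom (φ g) (φ g⁻¹) (h1 g) (by simpa using h1 g⁻¹))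
    fun g g' => AlgEquiv.ext fun f => ?_, fun g f => (hφ g f).symm⟩
  obtain ⟨f, rfl⟩ := x.red_surj f
  simp [hφ]

variable (x) in
/-- The relations of a group of order `p ^ 3`, with the centre acting faithfully on the
reduction. -/
def Good (α β : ℕ) : Prop :=
  ∃ s t z : R⟦X⟧ ≃ₐ[R] R⟦X⟧, s * t = z * (t * s) ∧ s * z = z * s ∧ t * z = z * t ∧ z ^ p = 1 ∧
    s ^ p = z ^ α ∧ t ^ p = z ^ β ∧ x.red (z X) ≠ X

theorem NF.good (h : x.NF H G) {α β : ℕ} (hu : IsUnit u) (hu' : IsUnit u')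
    (e : g (H ^ p + C x.l ^ p * G) = u ^ p * (H ^ p + C x.l ^ p * G))
    (e' : g' (H ^ p + C x.l ^ p * G) = u' ^ p * (H ^ p + C x.l ^ p * G))
    (hc : g * g' = g' * g) (hg : g ^ p = 1) (hg' : g' ^ p = 1)
    (hcu : u * g u' = C (1 + x.l) * (u' * g' u))
    (hα : ∏ i ∈ Finset.range p, (g ^ i) u = C (1 + x.l) ^ α)
    (hβ : ∏ i ∈ Finset.range p, (g' ^ i) u' = C (1 + x.l) ^ β) : x.Good α β := by
  obtain ⟨ι, hι⟩ := h.exists
  obtain ⟨z, hz, hzp, hzX⟩ := h.exists_zeta hι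
  obtain ⟨s, hs⟩ := h.exists_ext hι hu e
  obtain ⟨t, ht⟩ := h.exists_ext hι hu' e'
  refine ⟨s, t, z, ?_, hz.central hs, hz.central ht, hzp, hz.pow_eq hs hg hα, hz.pow_eq ht hg' hβ, ?_⟩
  · have h2 := hz.mul (ht.mul hs)
    rw [one_mul, AlgEquiv.one_apply, ← hc, ← hcu] at h2
    exact (hs.mul ht).eq h2
  · rw [hzX]
    simpa [x.hl] using h.red_ne_zero hι h.H1

/-- The third step of the tower. -/
theorem good_of_boundary [IsAlgClosed k] {F V V' : R⟦X⟧} {Θ Q : gauss x}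
    {q ψ ψ' : ResidueField (gauss x)} {α β : ℕ}
    (e : x.toO F = Θ ^ p + x.L ^ p * Q) (hΘ : residue _ Θ ≠ 0)
    (hq : residue _ Q = q * residue _ Θ ^ p) (D H₀ g₀ : R⟦X⟧)
    (hq₀ : q * x.ρ (D * H₀) ^ p = x.ρ g₀)
    (hF : ∃ ε, IsUnit ε ∧ x.red F = ε * x.red H₀ ^ p)
    (hg₀ : ∃ ε, IsUnit ε ∧ d⁄dX k (x.red g₀) = ε * x.red D ^ p)
    (hD : X ^ 2 * x.red D ∣ x.red H₀ ^ (p - 1)) (hD0 : x.red D ≠ 0)
    (hV : IsUnit V) (hV' : IsUnit V') (eV : g F = V * F) (eV' : g' F = V' * F)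
    (hc : g * g' = g' * g) (hg : g ^ p = 1) (hg' : g' ^ p = 1)
    (hψ : g • q - q = ψ ^ p - ψ) (hψ' : g' • q - q = ψ' ^ p - ψ')
    (hcψ : ψ + g • ψ' = 1 + (ψ' + g' • ψ))
    (hα : ∑ i ∈ Finset.range p, g ^ i • ψ = α) (hβ : ∑ i ∈ Finset.range p, g' ^ i • ψ' = β) :
    x.Good α β := by
  obtain ⟨H, G, rfl, h1, h2, h3, h4⟩ := x.exists_normal e hΘ D H₀ g₀ (by rw [hq, ← hq₀]; ring) hF hg₀
    hD hD0
  have hF0 : H ^ p + C x.l ^ p * G ≠ 0 := fun h => h4 (by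
    have := congrArg x.red h
    simpa [x.hl, (Fact.out : p.Prime).ne_zero] using this)
  obtain ⟨u, hu, rfl, hcoc⟩ := Coc.exists e hΘ hq hV eV hψ
  obtain ⟨u', hu', rfl, hcoc'⟩ := Coc.exists e hΘ hq hV' eV' hψ'
  exact NF.good ⟨h1, h2, h3, h4⟩ hu hu' eV eV' hc hg hg' (hcoc.comm hF0 hΘ hcoc' eV eV' hc hcψ)
    (hcoc.norm hF0 hΘ eV hg hα) (hcoc'.norm hF0 hΘ eV' hg' hβ)

end Ctx

end Pool.Agent.P.MP_41a2b4_ag
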